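import Pool.Agent.TSR2.StmtsV

/-!
# TSR2, module CCB: the combinatorics of the polygon of a corner
-/

set_option autoImplicit false

open scoped RealInnerProductSpace

namespace Pool.Agent.TSR2

open Pool.Agent.TSM Pool.Agent.TSP Set Filter Topology

namespace CCB_

section
variable {V : Type} [Fintype V] [DecidableEq V]

lemma cast_eq {n a b : ℕ} (ha : a < n) (hb : b < n) (h : (a : ZMod n) = b) : a = b := by
  have h' := (ZMod.natCast_eq_natCast_iff' a b n).1 h
  rwa [Nat.mod_eq_of_lt ha, Nat.mod_eq_of_lt hb] at h'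

lemma cast_eq' {n m k : ℕ} (hm : 0 < m) (hmk : m ≤ k) (hkn : k ≤ n) {j : ℕ} (hj : m ≤ j)
    (hjn : j ≤ n) (h : (k : ZMod n) = j) : k = j := by
  have key : ∀ a : ℕ, m ≤ a → a < n → (a : ZMod n) = (n : ℕ) → False := by
    intro a ha han h1
    rw [ZMod.natCast_self] at h1
    have h2 := cast_eq (n := n) (a := a) (b := 0) han (by omega) (by rw [h1]; simp)
    omega
  rcases Nat.lt_or_ge k n with h1 | h1
  · rcases Nat.lt_or_ge j n with h2 | h2
    · exact cast_eq h1 h2 h
    · have : j = n := le_antisymm hjn h2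
      subst this
      exact (key k hmk h1 h).elim
  · have : k = n := le_antisymm hkn h1
    subst this
    rcases Nat.lt_or_ge j k with h2 | h2
    · exact (key j hj h2 h.symm).elim
    · omega

variable {K : Surf V} {p : V → E3} {Φ : Finset Aff} {v : V} {φ : Aff} {n : ℕ}
  {c : ZMod n → V} {m : ℕ}

open Classical in
lemma s_some (b : ℝ) (u : V) : (cnPg p v n c m b).s (some u) =
    if u = c 0 then none else if h : ∃ i, c i = u then some (c (h.choose + 1)) else none := rfl

lemma s_lt (b : ℝ) (hinj : Function.Injective c) {i : ℕ} (h0 : 0 < i) (hi : i < n) :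
    (cnPg p v n c m b).s (some (c i)) = some (c (i + 1 : ℕ)) := by
  rw [s_some]
  have h1 : c i ≠ c 0 := by
    intro h
    have h2 := hinj h
    have h3 := cast_eq (n := n) (a := i) (b := 0) hi (by omega) (by rw [h2]; simp)
    omega
  rw [if_neg h1]
  have h : ∃ j, c j = c i := ⟨i, rfl⟩
  rw [dif_pos h]
  have h2 : h.choose = (i : ZMod n) := hinj h.choose_spec
  rw [h2, Nat.cast_add, Nat.cast_one]

lemma s_n (b : ℝ) : (cnPg p v n c m b).s (some (c (n : ℕ))) = none := by
  rw [s_some, ZMod.natCast_self, if_pos rfl]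

lemma s_none (b : ℝ) : (cnPg p v n c m b).s none = some (c m) := rfl

lemma mem_S (b : ℝ) (x : Option V) : x ∈ (cnPg p v n c m b).S ↔
    x = none ∨ ∃ i : ℕ, m ≤ i ∧ i ≤ n ∧ x = some (c i) := by
  classical
  unfold cnPg
  simp only [Finset.mem_insert, Finset.mem_map, Finset.mem_filter, Finset.mem_univ, true_and,
    Function.Embedding.coeFn_mk]
  refine or_congr Iff.rfl ?_
  constructor
  · rintro ⟨u, ⟨i, h1, h2, h3⟩, rfl⟩
    exact ⟨i, h1, h2, by rw [h3]⟩
  · rintro ⟨i, h1, h2, rfl⟩
    exact ⟨c i, ⟨i, h1, h2, rfl⟩, rfl⟩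

/-- the enumeration of the labels -/
def en (c : ZMod n → V) (m : ℕ) : ℕ → Option V
  | 0 => none
  | (j + 1) => some (c (m + j : ℕ))

lemma en_mem (b : ℝ) {j : ℕ} (hj : j ≤ n - m + 1) (hmn : m ≤ n) :
    en c m j ∈ (cnPg p v n c m b).S := by
  rw [mem_S]
  cases j with
  | zero => exact Or.inl rfl
  | succ j => exact Or.inr ⟨m + j, by omega, by omega, rfl⟩

lemma mem_en (b : ℝ) {x : Option V} (hx : x ∈ (cnPg p v n c m b).S) :
    ∃ j ≤ n - m + 1, x = en c m j := by
  rw [mem_S] at hx
  rcases hx with rfl | ⟨i, h1, h2, rfl⟩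
  · exact ⟨0, by omega, rfl⟩
  · refine ⟨i - m + 1, by omega, ?_⟩
    show _ = some (c (m + (i - m) : ℕ))
    rw [Nat.add_sub_cancel' h1]

lemma s_en (b : ℝ) (hinj : Function.Injective c) (hm : 0 < m) {j : ℕ} (hj : j < n - m + 1) :
    (cnPg p v n c m b).s (en c m j) = en c m (j + 1) := by
  cases j with
  | zero => exact s_none b
  | succ j =>
    show (cnPg p v n c m b).s (some (c (m + j : ℕ))) = some (c (m + (j + 1) : ℕ))
    rw [s_lt b hinj (by omega) (by omega)]
    rfl

lemma s_en_last (b : ℝ) (hmn : m ≤ n) :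
    (cnPg p v n c m b).s (en c m (n - m + 1)) = en c m 0 := by
  show (cnPg p v n c m b).s (some (c (m + (n - m) : ℕ))) = none
  rw [Nat.add_sub_cancel' hmn]
  exact s_n b

lemma en_inj (hinj : Function.Injective c) (hm : 0 < m) {i j : ℕ} (hi : i ≤ n - m + 1)
    (hj : j ≤ n - m + 1) (hmn : m ≤ n) (h : en c m i = en c m j) : i = j := by
  cases i with
  | zero =>
    cases j with
    | zero => rfl
    | succ j => exact absurd h (by simp [en])
  | succ i =>
    cases j with
    | zero => exact absurd h (by simp [en])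
    | succ j =>
      have h1 : c (m + i : ℕ) = c (m + j : ℕ) := Option.some.inj h
      have h2 := cast_eq' (n := n) (m := m) hm (by omega) (by omega) (by omega) (by omega)
        (hinj h1)
      omega

lemma s_iter (b : ℝ) (hinj : Function.Injective c) (hm : 0 < m) (i : ℕ) : ∀ k : ℕ,
    i + k ≤ n - m + 1 → (cnPg p v n c m b).s^[k] (en c m i) = en c m (i + k) := by
  intro k
  induction k with
  | zero => intro _; rfl
  | succ k ih =>
    intro hk
    rw [Function.iterate_succ_apply', ih (by omega), s_en b hinj hm (by omega)]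
    rfl

end
end CCB_

open CCB_ in
theorem ccb_proof : Stmt_CCB := by
  intro V _ _ K p Φ v φ n c m b hD
  have hinj : Function.Injective c := hD.cyc.2.1
  have hm : 0 < m := by have := hD.m2; omega
  have hmn : m ≤ n := by have := hD.mn; omega
  have h4 : m + 2 ≤ n := hD.mn
  refine ⟨?_, ?_, ?_, ?_, ?_, ?_, ?_, ?_, ?_⟩
  · intro i h1 h2
    exact (mem_S b _).2 (Or.inr ⟨i, h1, h2, rfl⟩)
  · intro x hx
    exact (mem_S b x).1 hx
  · exact s_none b
  · intro i h1 h2
    exact s_lt b hinj (by omega) h2
  · exact s_n b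
  · intro i hi
    obtain ⟨j, hj, rfl⟩ := mem_en b hi
    rcases Nat.lt_or_ge j (n - m + 1) with h1 | h1
    · rw [s_en b hinj hm h1]
      exact en_mem b (by omega) hmn
    · have : j = n - m + 1 := le_antisymm hj h1
      rw [this, s_en_last b hmn]
      exact en_mem b (by omega) hmn
  · intro i hi j hj hij
    obtain ⟨i, hi', rfl⟩ := mem_en b hi
    obtain ⟨j, hj', rfl⟩ := mem_en b hj
    rcases Nat.lt_or_ge i (n - m + 1) with h1 | h1
    · rw [s_en b hinj hm h1] at hij
      rcases Nat.lt_or_ge j (n - m + 1) with h2 | h2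
      · rw [s_en b hinj hm h2] at hij
        have := en_inj hinj hm (by omega) (by omega) hmn hij
        rw [show i = j by omega]
      · rw [show j = n - m + 1 by omega, s_en_last b hmn] at hij
        have := en_inj hinj hm (by omega) (by omega) hmn hij
        omega
    · rw [show i = n - m + 1 by omega, s_en_last b hmn] at hij
      rcases Nat.lt_or_ge j (n - m + 1) with h2 | h2
      · rw [s_en b hinj hm h2] at hij
        have := en_inj hinj hm (by omega) (by omega) hmn hij
        omega
      · rw [show i = j by omega]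
  · intro i hi j hj
    obtain ⟨i, hi', rfl⟩ := mem_en b hi
    obtain ⟨j, hj', rfl⟩ := mem_en b hj
    refine ⟨j + (1 + (n - m + 1 - i)), ?_⟩
    rw [Function.iterate_add_apply, Function.iterate_add_apply,
      s_iter b hinj hm i (n - m + 1 - i) (by omega), Nat.add_sub_cancel' hi',
      Function.iterate_one, s_en_last b hmn, s_iter b hinj hm 0 j (by omega), Nat.zero_add]
  · have h5 : (Finset.range 4).image (en c m) ⊆ (cnPg p v n c m b).S := by
      intro x hx
      obtain ⟨j, hj, rfl⟩ := Finset.mem_image.1 hx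
      exact en_mem b (by have := Finset.mem_range.1 hj; omega) hmn
    have h6 := Finset.card_le_card h5
    rw [Finset.card_image_of_injOn, Finset.card_range] at h6
    · exact h6
    · intro i hi j hj hij
      have hi' := Finset.mem_range.1 (Finset.mem_coe.1 hi)
      have hj' := Finset.mem_range.1 (Finset.mem_coe.1 hj)
      exact en_inj hinj hm (by omega) (by omega) hmn hij

end Pool.Agent.TSR2
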