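import Pool.Agent.TSR2.StmtsV

/-!
# TSR2: CGN, triples of directions at a corner are independent
-/

set_option autoImplicit false

open scoped RealInnerProductSpace

namespace Pool.Agent.TSR2

open Pool.Agent.TSM Pool.Agent.TSP Set Filter Topology

namespace CGN_

theorem det3_neg_comb (a b x y : E3) (t : ℝ) :
    det3 a b (-(x + t • y)) = -(det3 a b x + t * det3 a b y) := by
  simp only [det3, PiLp.neg_apply, PiLp.add_apply, PiLp.smul_apply, smul_eq_mul]; ring

theorem det3_rot (a b c : E3) : det3 a b c = det3 c a b := by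
  simp only [det3]; ring

theorem det3_swap23 (a b c : E3) : det3 a b c = - det3 a c b := by
  simp only [det3]; ring

end CGN_

theorem cgn_proof : Stmt_CGN := by
  intro V _ _ K p Φ v φ n c m hF hC
  have hm2 := hC.m2
  have hmn := hC.mn
  have cne : ∀ i j : ℕ, m ≤ i → i < j → j ≤ n → c i ≠ c j := by
    intro i j hi hij hj h
    have h1 := hC.cyc.2.1 h
    rw [ZMod.natCast_eq_natCast_iff] at h1
    have h2 := (Nat.modEq_iff_dvd' hij.le).1 h1
    have h3 := Nat.le_of_dvd (by omega) h2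
    omega
  have only : ∀ ψ ∈ Φ, ev ψ (p v) = 0 → ψ = φ := by
    intro ψ hψ h
    by_contra hne
    have := hC.off ψ hψ hne
    linarith
  have htri : ∀ i : ℕ, ({v, c i, c (i + 1 : ℕ)} : Finset V) ∈ K.tri := fun i =>
    ((hC.cyc.2.2.2 _).2 ⟨i, by push_cast; rfl⟩).1
  have hnf : ∀ i : ℕ, m ≤ i → i < n → ¬ FT p Φ {v, c i, c (i + 1 : ℕ)} := by
    rintro i hi hin ⟨ψ, hψ, hz⟩
    have h0 := only ψ hψ (hz v (by simp))
    subst h0
    rcases Nat.lt_or_ge m i with h | h
    · have h1 := hC.below i h hin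
      have h2 := hz (c i) (by simp)
      linarith
    · have h1 := hC.below (i + 1) (by omega) (by omega)
      have h2 := hz (c (i + 1 : ℕ)) (by simp)
      linarith
  have hv : ¬ K.Outer p Φ v := fun h => hnf m le_rfl (by omega) (h _ (htri m) (by simp))
  have hc : ∀ i : ℕ, m ≤ i → i ≤ n → ¬ K.Outer p Φ (c i) := by
    intro i hi hin h
    rcases Nat.lt_or_ge i n with h' | h'
    · exact hnf i hi h' (h _ (htri i) (by simp))
    · obtain ⟨k, rfl⟩ : ∃ k, i = k + 1 := ⟨i - 1, by omega⟩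
      exact hnf k (by omega) (by omega) (h _ (htri k) (by simp))
  have h1 : ∀ i j k : ℕ, m ≤ i → i < j → j < k → k ≤ n →
      det3 (p (c i) - p v) (p (c j) - p v) (p (c k) - p v) ≠ 0 := by
    intro i j k hi hij hjk hk
    rw [← det3_iff_affine]
    refine hF.gen4 v (c i) (c j) (c k) hv (hc i hi (by omega)) (hc j (by omega) (by omega))
      (hc k (by omega) hk) (hC.cyc.2.2.1 _).symm (hC.cyc.2.2.1 _).symm (hC.cyc.2.2.1 _).symm
      (cne i j hi hij (by omega)) (cne i k hi (by omega) hk) (cne j k (by omega) hjk hk) ?_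
    rintro ⟨ψ, hψ, h0, -, h2, -⟩
    have h3 := only ψ hψ h0
    subst h3
    have h4 := hC.below j (by omega) (by omega)
    linarith
  refine ⟨h1, ?_⟩
  have hn0 : c ((n : ℕ) : ZMod n) = c 0 := by simp
  have h2 : ∀ i j : ℕ, m ≤ i → i < j → j ≤ n → ¬ (i = m ∧ j = n) →
      det3 (p (c i) - p v) (p (c j) - p v) (p (c 0) - p v) ≠ 0 ∨
        det3 (p (c i) - p v) (p (c j) - p v) (p (c m) - p v) ≠ 0 := by
    intro i j hi hij hj hne
    rcases Nat.lt_or_ge m i with h | h
    · right
      rw [CGN_.det3_rot]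
      exact h1 m i j le_rfl h hij hj
    · left
      rw [← hn0]
      exact h1 i j n hi hij (by omega) le_rfl
  let B : Finset ℝ := (Finset.range (n + 1) ×ˢ Finset.range (n + 1)).image fun q =>
    -(det3 (p (c q.1) - p v) (p (c q.2) - p v) (p (c 0) - p v)) /
      det3 (p (c q.1) - p v) (p (c q.2) - p v) (p (c m) - p v)
  obtain ⟨b, hb, hbB⟩ := (Set.Ioi_infinite (0 : ℝ)).exists_notMem_finset B
  refine ⟨b, hb, fun i j hi hij hj hne h0 => ?_⟩
  rw [CGN_.det3_neg_comb] at h0
  by_cases hβ : det3 (p (c i) - p v) (p (c j) - p v) (p (c m) - p v) = 0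
  · rw [hβ] at h0
    rcases h2 i j hi hij hj hne with h | h
    · exact h (by linarith)
    · exact h hβ
  · apply hbB
    refine Finset.mem_image.2 ⟨(i, j), Finset.mem_product.2 ⟨Finset.mem_range.2 (by omega),
      Finset.mem_range.2 (by omega)⟩, ?_⟩
    rw [div_eq_iff hβ]
    linarith

end Pool.Agent.TSR2
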