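import Pool.Agent.TSR2.StmtsV

/-!
# TSR2, module COK: the polygon of a corner
-/

set_option autoImplicit false

open scoped RealInnerProductSpace

namespace Pool.Agent.TSR2

open Pool.Agent.TSM Pool.Agent.TSP Set Filter Topology

namespace COK_

theorem d_swap12 (a b c : E3) : det3 a b c = -det3 b a c := by unfold det3; ring

theorem d_swap23 (a b c : E3) : det3 a b c = -det3 a c b := by unfold det3; ring

theorem d_cyc (a b c : E3) : det3 a b c = det3 b c a := by unfold det3; ring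

theorem d_cyc2 (a b c : E3) : det3 a b c = det3 c a b := by unfold det3; ring

/-- sorted triples suffice -/
theorem sort3 (q : ℕ → E3) (m n : ℕ)
    (g : ∀ i j k : ℕ, m ≤ i → i < j → j < k → k ≤ n → det3 (q i) (q j) (q k) ≠ 0)
    (i j k : ℕ) (hi : m ≤ i) (hi' : i ≤ n) (hj : m ≤ j) (hj' : j ≤ n) (hk : m ≤ k)
    (hk' : k ≤ n) (hij : i ≠ j) (hik : i ≠ k) (hjk : j ≠ k) :
    det3 (q i) (q j) (q k) ≠ 0 := by
  rcases lt_or_gt_of_ne hij with h1 | h1 <;> rcases lt_or_gt_of_ne hik with h2 | h2 <;>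
    rcases lt_or_gt_of_ne hjk with h3 | h3
  · exact g i j k hi h1 h3 hk'
  · rw [d_swap23]; exact neg_ne_zero.2 (g i k j hi h2 h3 hj')
  · omega
  · rw [d_cyc2]; exact g k i j hk h2 h1 hj'
  · rw [d_swap12]; exact neg_ne_zero.2 (g j i k hj h1 h2 hk')
  · omega
  · rw [d_cyc]; exact g j k i hj h3 h2 hi'
  · rw [d_cyc, d_swap12]; exact neg_ne_zero.2 (g k j i hk h3 h1 hi')

/-- sorted pairs suffice -/
theorem sort2 (q : ℕ → E3) (o : E3) (m n : ℕ)
    (g : ∀ i j : ℕ, m ≤ i → i < j → j ≤ n → ¬ (i = m ∧ j = n) → det3 (q i) (q j) o ≠ 0)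
    (i j : ℕ) (hi : m ≤ i) (hi' : i ≤ n) (hj : m ≤ j) (hj' : j ≤ n) (hij : i ≠ j)
    (h1 : ¬ (i = m ∧ j = n)) (h2 : ¬ (j = m ∧ i = n)) : det3 (q i) (q j) o ≠ 0 := by
  rcases lt_or_gt_of_ne hij with h | h
  · exact g i j hi h hj' h1
  · rw [d_swap12]; exact neg_ne_zero.2 (g j i hj h hi' h2)

end COK_

open COK_ in
theorem cok_proof (h1 : Stmt_COS) (h2 : Stmt_CGN) (h3 : Stmt_CCB) : Stmt_COK := by
  intro V _ _ K p Φ v φ n c m b hF hC hb hgen
  obtain ⟨s1, s2, s3, s4, s5, s6, s7, s8, s9⟩ := h3 V K p Φ v φ n c m b hC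
  obtain ⟨g1, _⟩ := h2 V K p Φ v φ n c m hF hC
  have hsim := h1 V K p Φ v φ n c m b hF hC hb
  have hX : (cnPg p v n c m b).X = some none := rfl
  have hP0 : (cnPg p v n c m b).p none = -((p (c 0) - p v) + b • (p (c m) - p v)) := rfl
  have hPs : ∀ u, (cnPg p v n c m b).p (some u) = p u - p v := fun u => rfl
  have hmn : m ≤ n := by have := hC.mn; omega
  have hnn : c (n : ℕ) = c 0 := by rw [ZMod.natCast_self]
  have hq : some (c (n : ℕ)) ∈ (cnPg p v n c m b).S := s1 n hmn le_rfl
  have hne : none ∈ (cnPg p v n c m b).S := by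
    have := s6 _ hq
    rwa [s5] at this
  -- the general position
  have hsss : ∀ i j k : ℕ, m ≤ i → i ≤ n → m ≤ j → j ≤ n → m ≤ k → k ≤ n → i ≠ j → i ≠ k →
      j ≠ k → det3 (p (c i) - p v) (p (c j) - p v) (p (c k) - p v) ≠ 0 :=
    sort3 (fun i => p (c i) - p v) m n g1
  have hss : ∀ i j : ℕ, m ≤ i → i ≤ n → m ≤ j → j ≤ n → i ≠ j →
      ¬ (({some (c i), some (c j), none} : Finset (Option V)) =
        {some (c (n : ℕ)), none, some (c m)}) →
      det3 (p (c i) - p v) (p (c j) - p v) (-((p (c 0) - p v) + b • (p (c m) - p v))) ≠ 0 := by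
    intro i j hi hi' hj hj' hij hset
    refine sort2 (fun i => p (c i) - p v) _ m n hgen i j hi hi' hj hj' hij ?_ ?_
    · rintro ⟨rfl, rfl⟩
      apply hset
      ext x
      simp only [Finset.mem_insert, Finset.mem_singleton]
      tauto
    · rintro ⟨rfl, rfl⟩
      apply hset
      ext x
      simp only [Finset.mem_insert, Finset.mem_singleton]
      tauto
  have hflat : ∀ i j k : Option V, ¬ (cnPg p v n c m b).Flat i j k →
      ¬ (({i, j, k} : Finset (Option V)) = {some (c (n : ℕ)), none, some (c m)}) := by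
    intro i j k hn hset
    exact hn ⟨none, some (c (n : ℕ)), hX, hq, s5, by rw [s3]; exact hset⟩
  refine ⟨s6, s7, s8, s9, ?_, hsim, Or.inr ⟨none, hX, hne, some (c (n : ℕ)), hq, s5, ?_, ?_⟩⟩
  · intro i hi j hj k hk hij hik hjk hfl
    have hset := hflat i j k hfl
    rcases s2 i hi with rfl | ⟨i', hi1, hi2, rfl⟩ <;> rcases s2 j hj with rfl | ⟨j', hj1, hj2, rfl⟩
      <;> rcases s2 k hk with rfl | ⟨k', hk1, hk2, rfl⟩
    · exact absurd rfl hij
    · exact absurd rfl hij
    · exact absurd rfl hik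
    · -- none, j, k
      rw [hP0, hPs, hPs, d_cyc]
      refine hss j' k' hj1 hj2 hk1 hk2 (by rintro rfl; exact hjk rfl) ?_
      intro h
      apply hset
      rw [← h]
      ext x
      simp only [Finset.mem_insert, Finset.mem_singleton]
      tauto
    · exact absurd rfl hjk
    · -- i, none, k
      rw [hP0, hPs, hPs, d_swap23]
      refine neg_ne_zero.2 (hss i' k' hi1 hi2 hk1 hk2 (by rintro rfl; exact hik rfl) ?_)
      intro h
      apply hset
      rw [← h]
      ext x
      simp only [Finset.mem_insert, Finset.mem_singleton]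
      tauto
    · -- i, j, none
      rw [hP0, hPs, hPs]
      exact hss i' j' hi1 hi2 hj1 hj2 (by rintro rfl; exact hij rfl) hset
    · rw [hPs, hPs, hPs]
      exact hsss i' j' k' hi1 hi2 hj1 hj2 hk1 hk2 (by rintro rfl; exact hij rfl)
        (by rintro rfl; exact hik rfl) (by rintro rfl; exact hjk rfl)
  · refine ⟨1, b, one_pos, hb, ?_⟩
    rw [s3, hP0, hPs, hPs, hnn, one_smul]
    abel
  · -- the sign
    have hev : ∀ i : ℕ, ⟪φ.1, p (c i) - p v⟫ = ev φ (p (c i)) := by
      intro i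
      have := hC.on
      unfold ev at this ⊢
      rw [inner_sub_right]
      linarith
    have hm0 : m < n := by have := hC.mn; omega
    have hf0 : ⟪φ.1, p (c 0) - p v⟫ = 0 := by
      have := hev 0
      rw [Nat.cast_zero] at this
      rw [this]
      have := hC.flat 0 (Nat.zero_le m)
      rwa [Nat.cast_zero] at this
    have hfm : ⟪φ.1, p (c m) - p v⟫ = 0 := by
      rw [hev m]; exact hC.flat m le_rfl
    have hb1 : ⟪φ.1, p (c (m + 1 : ℕ)) - p v⟫ < 0 := by
      rw [hev]; exact hC.below (m + 1) (Nat.lt_succ_self m) (by have := hC.mn; omega)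
    have hφ0 : φ.1 ≠ 0 := by
      intro h0
      rw [h0, inner_zero_left] at hb1
      exact lt_irrefl _ hb1
    obtain ⟨t, ht⟩ := normal_multiple (u := crs (p (c 0) - p v) (p (c m) - p v)) hφ0 hf0 hfm hC.ind
      (by rw [inner_crs]; unfold det3; ring) (by rw [inner_crs]; unfold det3; ring)
    have hcr0 : crs (p (c 0) - p v) (p (c m) - p v) ≠ 0 := cr_ne_zero hC.ind
    have ht0 : t ≠ 0 := by
      rintro rfl
      rw [zero_smul] at ht
      exact hcr0 ht
    have hnor : ∀ x : E3, ⟪(cnPg p v n c m b).nor none, x⟫ = -(t * ⟪φ.1, x⟫) := by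
      intro x
      have e1 : ⟪crs (p (c 0) - p v) (p (c m) - p v), x⟫ = t * ⟪φ.1, x⟫ := by
        rw [ht, inner_smul_left]; simp
      rw [← e1]
      unfold Pg.nor
      rw [s3, hP0, hPs, inner_crs, inner_crs]
      unfold det3
      simp only [PiLp.neg_apply, PiLp.add_apply, PiLp.smul_apply, smul_eq_mul]
      ring
    have hneg : ∀ i ∈ (cnPg p v n c m b).S, i ≠ some (c (n : ℕ)) → i ≠ none →
        i ≠ (cnPg p v n c m b).s none → ⟪φ.1, (cnPg p v n c m b).p i⟫ < 0 := by
      intro i hi e1 e2 e3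
      rcases s2 i hi with rfl | ⟨i', hi1, hi2, rfl⟩
      · exact absurd rfl e2
      · rw [hPs, hev]
        rw [s3] at e3
        have a1 : i' ≠ m := by rintro rfl; exact e3 rfl
        have a2 : i' ≠ n := by rintro rfl; exact e1 rfl
        exact hC.below i' (by omega) (by omega)
    rcases lt_or_gt_of_ne ht0 with htn | htp
    · refine ⟨1, Or.inl rfl, ?_⟩
      intro i hi e1 e2 e3
      have := hneg i hi e1 e2 e3
      rw [hnor, one_mul]
      have := mul_pos_of_neg_of_neg htn this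
      linarith
    · refine ⟨-1, Or.inr rfl, ?_⟩
      intro i hi e1 e2 e3
      have := hneg i hi e1 e2 e3
      rw [hnor]
      have := mul_neg_of_pos_of_neg htp this
      linarith

end Pool.Agent.TSR2
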