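import Pool.Agent.TSR2.StmtsV

/-!
# TSR2, module COS: the polygon of a corner is simple
-/

set_option autoImplicit false

open scoped RealInnerProductSpace

namespace Pool.Agent.TSR2

open Pool.Agent.TSM Pool.Agent.TSP Set Filter Topology

namespace COS_

/-- The conclusion. -/
def Gd {W : Type} [DecidableEq W] (L : Pg W) (i j : W) (x : E3) : Prop :=
  (j = L.s i ∧ ∃ a : ℝ, 0 ≤ a ∧ x = a • L.p j) ∨
    (i = L.s j ∧ ∃ a : ℝ, 0 ≤ a ∧ x = a • L.p i) ∨ x = 0

theorem Gd.symm {W : Type} [DecidableEq W] {L : Pg W} {i j : W} {x : E3} (h : Gd L i j x) :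
    Gd L j i x := by
  rcases h with h | h | h
  · exact Or.inr (Or.inl h)
  · exact Or.inl h
  · exact Or.inr (Or.inr h)

theorem ev_sub (φ : Aff) (x y : E3) (h : ev φ y = 0) : ⟪φ.1, x - y⟫ = ev φ x := by
  unfold ev at h ⊢
  rw [inner_sub_right]
  linarith

section
variable {V : Type} [Fintype V] [DecidableEq V] {K : Surf V} {p : V → E3} {Φ : Finset Aff} {v : V}
    {φ : Aff} {n : ℕ} {c : ZMod n → V} {m : ℕ}

theorem g0 (hC : CorD K p Φ v φ n c m) : ⟪φ.1, p (c 0) - p v⟫ = 0 := by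
  rw [ev_sub φ _ _ hC.on]
  have := hC.flat 0 (by omega)
  simpa using this

theorem gm (hC : CorD K p Φ v φ n c m) : ⟪φ.1, p (c m) - p v⟫ = 0 := by
  rw [ev_sub φ _ _ hC.on]
  exact hC.flat m le_rfl

theorem gi (hC : CorD K p Φ v φ n c m) (i : ℕ) (h1 : m < i) (h2 : i < n) :
    ⟪φ.1, p (c i) - p v⟫ < 0 := by
  rw [ev_sub φ _ _ hC.on]
  exact hC.below i h1 h2

/-- A point of a real face in the plane of the facet. -/
theorem flatface (hC : CorD K p Φ v φ n c m) (j : ℕ) (h1 : m ≤ j) (h2 : j < n) (a d : ℝ)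
    (ha : 0 ≤ a) (hd : 0 ≤ d)
    (h : ⟪φ.1, a • (p (c j) - p v) + d • (p (c (j + 1 : ℕ)) - p v)⟫ = 0) :
    (j = m ∧ d = 0) ∨ (j + 1 = n ∧ a = 0) ∨ (a = 0 ∧ d = 0) := by
  have hm := hC.mn
  rw [inner_add_right, inner_smul_right, inner_smul_right] at h
  by_cases hjm : j = m
  · left
    refine ⟨hjm, ?_⟩
    subst hjm
    rw [gm hC] at h
    have := gi hC (j + 1) (by omega) (by omega)
    have h3 : d * ⟪φ.1, p (c ((j + 1 : ℕ) : ZMod n)) - p v⟫ = 0 := by linarith
    rcases mul_eq_zero.mp h3 with h4 | h4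
    · exact h4
    · linarith
  · have hj := gi hC j (by omega) h2
    by_cases hjn : j + 1 = n
    · right; left
      refine ⟨hjn, ?_⟩
      have h0 : ⟪φ.1, p (c ((j + 1 : ℕ) : ZMod n)) - p v⟫ = 0 := by
        rw [hjn, ZMod.natCast_self]
        exact g0 hC
      rw [h0] at h
      have h3 : a * ⟪φ.1, p (c (j : ZMod n)) - p v⟫ = 0 := by linarith
      rcases mul_eq_zero.mp h3 with h4 | h4
      · exact h4
      · linarith
    · right; right
      have hj1 := gi hC (j + 1) (by omega) (by omega)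
      have h5 : a * ⟪φ.1, p (c (j : ZMod n)) - p v⟫ ≤ 0 := mul_nonpos_of_nonneg_of_nonpos ha hj.le
      have h6 : d * ⟪φ.1, p (c ((j + 1 : ℕ) : ZMod n)) - p v⟫ ≤ 0 :=
        mul_nonpos_of_nonneg_of_nonpos hd hj1.le
      have h7 : a * ⟪φ.1, p (c (j : ZMod n)) - p v⟫ = 0 := by linarith
      have h8 : d * ⟪φ.1, p (c ((j + 1 : ℕ) : ZMod n)) - p v⟫ = 0 := by linarith
      constructor
      · rcases mul_eq_zero.mp h7 with h4 | h4
        · exact h4
        · linarith
      · rcases mul_eq_zero.mp h8 with h4 | h4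
        · exact h4
        · linarith

theorem ind' (hC : CorD K p Φ v φ n c m) (a d a' d' : ℝ)
    (h : a • (p (c 0) - p v) + d • (p (c m) - p v) =
      a' • (p (c 0) - p v) + d' • (p (c m) - p v)) : a = a' ∧ d = d' := by
  have h1 : (a - a') • (p (c 0) - p v) + (d - d') • (p (c m) - p v) = 0 := by
    have h2 : (a - a') • (p (c 0) - p v) + (d - d') • (p (c m) - p v) =
      (a • (p (c 0) - p v) + d • (p (c m) - p v)) -
        (a' • (p (c 0) - p v) + d' • (p (c m) - p v)) := by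
      rw [sub_smul, sub_smul]
      abel
    rw [h2, h, sub_self]
  have h3 := hC.ind _ _ h1
  constructor <;> linarith [h3.1, h3.2]

end

end COS_

open COS_ in
theorem cos_proof (h1 : Stmt_CSI) (h2 : Stmt_CCB) (_h3 : Stmt_CGN) : Stmt_COS := by
  intro V _ _ K p Φ v φ n c m b hF hC hb
  obtain ⟨s1, s2, s3, s4, s5, -, -, -, -⟩ := h2 V K p Φ v φ n c m b hC
  set L := cnPg p v n c m b with hL
  have hm := hC.mn
  have hn0 : NeZero n := ⟨by omega⟩
  set q0 := p (c 0) - p v with hq0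
  set qm := p (c m) - p v with hqm
  have pn : L.p none = -(q0 + b • qm) := rfl
  have ps : ∀ u, L.p (some u) = p u - p v := fun u => rfl
  have hcn : c ((n : ℕ) : ZMod n) = c 0 := by rw [ZMod.natCast_self]
  -- points of the faces
  have fN : ∀ x, x ∈ L.face none → ∃ a d : ℝ, 0 ≤ a ∧ 0 ≤ d ∧ x = a • L.p none + d • qm ∧
      x = (-a) • q0 + (d - a * b) • qm := by
    intro x hx
    obtain ⟨a, d, ha, hd, h⟩ := hx
    rw [s3, ps] at h
    refine ⟨a, d, ha, hd, h, ?_⟩
    rw [h, pn]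
    module
  have fZ : ∀ x, x ∈ L.face (some (c (n : ℕ))) → ∃ a d : ℝ, 0 ≤ a ∧ 0 ≤ d ∧
      x = a • q0 + d • L.p none ∧ x = (a - d) • q0 + (-(d * b)) • qm := by
    intro x hx
    obtain ⟨a, d, ha, hd, h⟩ := hx
    rw [s5, ps, hcn] at h
    refine ⟨a, d, ha, hd, h, ?_⟩
    rw [h, pn]
    module
  have fA : ∀ j : ℕ, m ≤ j → j < n → ∀ x, x ∈ L.face (some (c j)) → ∃ a d : ℝ, 0 ≤ a ∧ 0 ≤ d ∧
      x = a • (p (c j) - p v) + d • (p (c (j + 1 : ℕ)) - p v) := by
    intro j hj hjn x hx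
    obtain ⟨a, d, ha, hd, h⟩ := hx
    rw [s4 j hj hjn, ps, ps] at h
    exact ⟨a, d, ha, hd, h⟩
  have gx : ∀ a d : ℝ, ⟪φ.1, a • q0 + d • qm⟫ = 0 := by
    intro a d
    rw [inner_add_right, inner_smul_right, inner_smul_right, hq0, hqm, g0 hC, gm hC]
    ring
  -- N and Z
  have cNZ : ∀ x, x ∈ L.face none → x ∈ L.face (some (c (n : ℕ))) →
      Gd L none (some (c (n : ℕ))) x := by
    intro x hx hx'
    obtain ⟨a, d, ha, hd, e1, e2⟩ := fN x hx
    obtain ⟨a', d', ha', hd', e1', e2'⟩ := fZ x hx'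
    have h := ind' hC _ _ _ _ (e2.symm.trans e2')
    have h4 : a = d' := by
      have h5 : d = b * (a - d') := by linarith [h.2]
      have h6 : 0 ≤ b * (a - d') := h5 ▸ hd
      have h7 : 0 ≤ a - d' := nonneg_of_mul_nonneg_right h6 hb
      linarith [h.1]
    have h5 : a' = 0 := by linarith [h.1]
    right; left
    refine ⟨s5.symm, d', hd', ?_⟩
    rw [e1', h5, zero_smul, zero_add]
  -- N and A
  have cNA : ∀ j : ℕ, m ≤ j → j < n → ∀ x, x ∈ L.face none → x ∈ L.face (some (c j)) →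
      Gd L none (some (c j)) x := by
    intro j hj hjn x hx hx'
    obtain ⟨a, d, ha, hd, e1, e2⟩ := fN x hx
    obtain ⟨a', d', ha', hd', e1'⟩ := fA j hj hjn x hx'
    have h0 : ⟪φ.1, a' • (p (c j) - p v) + d' • (p (c (j + 1 : ℕ)) - p v)⟫ = 0 := by
      rw [← e1', e2]
      exact gx _ _
    rcases flatface hC j hj hjn a' d' ha' hd' h0 with ⟨h4, h5⟩ | ⟨h4, h5⟩ | ⟨h4, h5⟩
    · left
      subst h4
      refine ⟨s3.symm, a', ha', ?_⟩
      rw [e1', h5, zero_smul, add_zero, ps]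
    · right; right
      have h6 : x = d' • q0 + (0 : ℝ) • qm := by
        rw [e1', h5, h4, hcn]
        module
      have h7 := ind' hC _ _ _ _ (e2.symm.trans h6)
      have h8 : d' = 0 := by linarith [h7.1]
      rw [h6, h8]
      module
    · right; right
      rw [e1', h4, h5]
      module
  -- Z and A
  have cZA : ∀ j : ℕ, m ≤ j → j < n → ∀ x, x ∈ L.face (some (c (n : ℕ))) →
      x ∈ L.face (some (c j)) → Gd L (some (c (n : ℕ))) (some (c j)) x := by
    intro j hj hjn x hx hx'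
    obtain ⟨a, d, ha, hd, e1, e2⟩ := fZ x hx
    obtain ⟨a', d', ha', hd', e1'⟩ := fA j hj hjn x hx'
    have h0 : ⟪φ.1, a' • (p (c j) - p v) + d' • (p (c (j + 1 : ℕ)) - p v)⟫ = 0 := by
      rw [← e1', e2]
      exact gx _ _
    rcases flatface hC j hj hjn a' d' ha' hd' h0 with ⟨h4, h5⟩ | ⟨h4, h5⟩ | ⟨h4, h5⟩
    · right; right
      subst h4
      have h6 : x = (0 : ℝ) • q0 + a' • qm := by
        rw [e1', h5]
        module
      have h7 := ind' hC _ _ _ _ (e2.symm.trans h6)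
      have h8 : 0 ≤ d * b := by positivity
      have h9 : a' = 0 := by linarith [h7.2]
      rw [h6, h9]
      module
    · right; left
      have h6 : x = d' • q0 + (0 : ℝ) • qm := by
        rw [e1', h5, h4, hcn]
        module
      refine ⟨?_, d', hd', ?_⟩
      · rw [s4 j hj hjn, h4]
      · rw [h6, ps, hcn]
        module
    · right; right
      rw [e1', h4, h5]
      module
  -- A and A
  have cAA : ∀ i j : ℕ, m ≤ i → i < n → m ≤ j → j < n → i ≠ j → ∀ x,
      x ∈ L.face (some (c i)) → x ∈ L.face (some (c j)) → Gd L (some (c i)) (some (c j)) x := by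
    intro i j hi hin hj hjn hij x hx hx'
    obtain ⟨a, d, ha, hd, e⟩ := fA i hi hin x hx
    obtain ⟨a', d', ha', hd', e'⟩ := fA j hj hjn x hx'
    have hz : (i : ZMod n) ≠ (j : ZMod n) := by
      intro h
      rw [ZMod.natCast_eq_natCast_iff'] at h
      rw [Nat.mod_eq_of_lt hin, Nat.mod_eq_of_lt hjn] at h
      exact hij h
    have hci : ((i + 1 : ℕ) : ZMod n) = (i : ZMod n) + 1 := by push_cast; ring
    have hcj : ((j + 1 : ℕ) : ZMod n) = (j : ZMod n) + 1 := by push_cast; ring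
    have h := h1 V K p v n c hF.emb hC.cyc (i : ZMod n) (j : ZMod n) hz a d a' d' ha hd ha' hd'
      (by rw [← hci, ← hcj, ← e, ← e'])
    rcases h with ⟨h4, h5, h6⟩ | ⟨h4, h5, h6⟩ | ⟨h4, h5, -, -⟩
    · left
      refine ⟨?_, d, hd, ?_⟩
      · rw [s4 i hi hin, hci, h4]
      · rw [e, h5, ps, hci, h4]
        module
    · right; left
      refine ⟨?_, a, ha, ?_⟩
      · rw [s4 j hj hjn, hcj, h4]
      · rw [e, h6, ps]
        module
    · right; right
      rw [e, h4, h5]
      module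
  intro i hi j hj hij x hxi hxj
  change Gd L i j x
  rcases s2 i hi with rfl | ⟨i', hi1, hi2, rfl⟩
  · rcases s2 j hj with rfl | ⟨j', hj1, hj2, rfl⟩
    · exact absurd rfl hij
    · rcases hj2.lt_or_eq with hlt | rfl
      · exact cNA j' hj1 hlt x hxi hxj
      · exact cNZ x hxi hxj
  · rcases s2 j hj with rfl | ⟨j', hj1, hj2, rfl⟩
    · rcases hi2.lt_or_eq with hlt | rfl
      · exact (cNA i' hi1 hlt x hxj hxi).symm
      · exact (cNZ x hxj hxi).symm
    · rcases hi2.lt_or_eq with hlt | hie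
      · rcases hj2.lt_or_eq with hlt' | hje
        · have hne : i' ≠ j' := by
            rintro rfl
            exact hij rfl
          exact cAA i' j' hi1 hlt hj1 hlt' hne x hxi hxj
        · subst hje
          exact (cZA i' hi1 hlt x hxj hxi).symm
      · subst hie
        rcases hj2.lt_or_eq with hlt' | hje
        · exact cZA j' hj1 hlt' x hxi hxj
        · subst hje
          exact absurd rfl hij

end Pool.Agent.TSR2
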