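import Pool.Agent.TSR2.StmtsV

/-!
# TSR2.CSI: the cones over the triangles of a star meet only in common faces
-/

set_option autoImplicit false

open scoped RealInnerProductSpace

namespace Pool.Agent.TSR2

open Pool.Agent.TSM Pool.Agent.TSP Set Filter Topology

namespace CSI_

theorem ne_succ {n : ℕ} (hn : 3 ≤ n) (i : ZMod n) : i ≠ i + 1 := by
  intro h
  have h1 : (1 : ZMod n) = 0 := by
    have : i + 0 = i + 1 := by rw [add_zero]; exact h
    exact (add_left_cancel this).symm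
  have : Fact (1 < n) := ⟨by omega⟩
  exact one_ne_zero h1

theorem ne_succ2 {n : ℕ} (hn : 3 ≤ n) (i : ZMod n) : i ≠ i + 1 + 1 := by
  intro h
  have h1 : (2 : ZMod n) = 0 := by
    have h2 : i + 0 = i + 2 := by
      rw [add_zero]
      calc i = i + 1 + 1 := h
        _ = i + 2 := by ring
    exact (add_left_cancel h2).symm
  have h3 : ((2 : ℕ) : ZMod n) = 0 := by
    rw [Nat.cast_ofNat]; exact h1
  rw [ZMod.natCast_eq_zero_iff] at h3
  have := Nat.le_of_dvd (by norm_num) h3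
  omega

theorem tri {V : Type} [Fintype V] [DecidableEq V] {K : Surf V} {v : V} {n : ℕ}
    {c : ZMod n → V} (hc : IsLinkCycle K.tri v n c) (i : ZMod n) : Tri K v (c i) (c (i + 1)) :=
  ⟨(hc.2.2.1 i).symm, (hc.2.2.1 (i + 1)).symm, fun h => ne_succ hc.1 i (hc.2.1 h),
    ((hc.2.2.2 _).2 ⟨i, rfl⟩).1⟩

theorem main {V : Type} [Fintype V] [DecidableEq V] (K : Surf V) (p : V → E3) (v : V) (n : ℕ)
    (c : ZMod n → V) (hE : K.EmbStars p) (hc : IsLinkCycle K.tri v n c) (i j : ZMod n)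
    (hij : i ≠ j) (s t s' t' : ℝ) (hs : 0 ≤ s) (ht : 0 ≤ t) (hs' : 0 ≤ s') (ht' : 0 ≤ t')
    (h : s • (p (c i) - p v) + t • (p (c (i + 1)) - p v) =
      s' • (p (c j) - p v) + t' • (p (c (j + 1)) - p v)) :
    (j = i + 1 ∧ s = 0 ∧ t' = 0) ∨ (i = j + 1 ∧ s' = 0 ∧ t = 0) ∨
      (s = 0 ∧ t = 0 ∧ s' = 0 ∧ t' = 0) := by
  obtain ⟨e, he, he1, he2⟩ : ∃ e : ℝ, 0 < e ∧ e * t + e * s ≤ 1 ∧ e * t' + e * s' ≤ 1 := by
    have hp : 0 < 1 + s + t + s' + t' := by linarith
    refine ⟨(1 + s + t + s' + t')⁻¹, inv_pos.2 hp, ?_, ?_⟩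
    · rw [← mul_add, inv_mul_le_iff₀ hp]; linarith
    · rw [← mul_add, inv_mul_le_iff₀ hp]; linarith
  have hTi := tri hc i
  have hTj := tri hc j
  obtain ⟨x, hx, hx1, hx2, hx3, hx4⟩ := pt_body hTi (mul_nonneg he.le ht)
    (mul_nonneg he.le hs) he1
  obtain ⟨y, hy, hy1, hy2, hy3, hy4⟩ := pt_body hTj (mul_nonneg he.le ht')
    (mul_nonneg he.le hs') he2
  have heq : lin p x = lin p y := by
    rw [lin_tri hx hTi hx4, lin_tri hy hTj hy4, hx2, hx3, hy2, hy3]
    have h1 : p v + (e * t) • (p (c (i + 1)) - p v) + (e * s) • (p (c i) - p v) =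
        p v + e • (s • (p (c i) - p v) + t • (p (c (i + 1)) - p v)) := by module
    rw [h1, h]
    module
  have hsx : x ∈ K.star v := ⟨hx.1, hx.2.1, _, hTi.2.2.2, by simp, hx4⟩
  have hsy : y ∈ K.star v := ⟨hy.1, hy.2.1, _, hTj.2.2.2, by simp, hy4⟩
  have hxy : x = y := hE v hsx hsy heq
  have z1 : i ≠ j + 1 → s = 0 := by
    intro h1
    have h2 : y (c i) = 0 := hy4 _ (by
      simp only [Finset.mem_insert, Finset.mem_singleton, not_or]
      exact ⟨hc.2.2.1 i, fun h => hij (hc.2.1 h), fun h => h1 (hc.2.1 h)⟩)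
    rw [← hxy, hx3] at h2
    exact (mul_eq_zero.1 h2).resolve_left he.ne'
  have z2 : j ≠ i + 1 → t = 0 := by
    intro h1
    have h2 : y (c (i + 1)) = 0 := hy4 _ (by
      simp only [Finset.mem_insert, Finset.mem_singleton, not_or]
      exact ⟨hc.2.2.1 _, fun h => h1 (hc.2.1 h).symm,
        fun h => hij (add_right_cancel (hc.2.1 h))⟩)
    rw [← hxy, hx2] at h2
    exact (mul_eq_zero.1 h2).resolve_left he.ne'
  have z3 : j ≠ i + 1 → s' = 0 := by
    intro h1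
    have h2 : x (c j) = 0 := hx4 _ (by
      simp only [Finset.mem_insert, Finset.mem_singleton, not_or]
      exact ⟨hc.2.2.1 j, fun h => hij (hc.2.1 h).symm, fun h => h1 (hc.2.1 h)⟩)
    rw [hxy, hy3] at h2
    exact (mul_eq_zero.1 h2).resolve_left he.ne'
  have z4 : i ≠ j + 1 → t' = 0 := by
    intro h1
    have h2 : x (c (j + 1)) = 0 := hx4 _ (by
      simp only [Finset.mem_insert, Finset.mem_singleton, not_or]
      exact ⟨hc.2.2.1 _, fun h => h1 (hc.2.1 h).symm,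
        fun h => hij (add_right_cancel (hc.2.1 h)).symm⟩)
    rw [hxy, hy2] at h2
    exact (mul_eq_zero.1 h2).resolve_left he.ne'
  by_cases h1 : j = i + 1
  · left
    have h2 : i ≠ j + 1 := by
      rw [h1]; exact ne_succ2 hc.1 i
    exact ⟨h1, z1 h2, z4 h2⟩
  · right
    by_cases h2 : i = j + 1
    · left; exact ⟨h2, z3 h1, z2 h1⟩
    · right; exact ⟨z1 h2, z2 h1, z3 h1, z4 h2⟩

end CSI_

theorem csi_proof : Stmt_CSI := fun _ _ _ K p v n c hE hc i j hij s t s' t' hs ht hs' ht' h =>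
  CSI_.main K p v n c hE hc i j hij s t s' t' hs ht hs' ht' h

end Pool.Agent.TSR2
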