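import Pool.Agent.TSR2.Stmts

/-!
# TSR2, module AGR: the pieces agree where the closed regions meet
-/

set_option autoImplicit false

open scoped RealInnerProductSpace

namespace Pool.Agent.TSR2

open Pool.Agent.TSM Pool.Agent.TSP Set Filter Topology

namespace AGR_

variable {V : Type} [Fintype V] [DecidableEq V]

theorem act_ne {K : Surf V} {p : V → E3} {Φ : Finset Aff} {v u : V} (h : Act K p Φ v u) :
    v ≠ u := by
  obtain ⟨w, h1, -⟩ := h
  exact h1.1

theorem ez_symm {K : Surf V} {δ ρ : ℝ} {v u : V} {x : V → ℝ} (h : x ∈ EZ K δ ρ v u) :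
    x ∈ EZ K δ ρ u v := by
  obtain ⟨h1, h2, h3, h4, h5, h6⟩ := h
  refine ⟨h1, h3, h2, ?_, h6, h5⟩
  rw [min_comm]
  linarith

theorem tri_of_mem {K : Surf V} {t : Finset V} (ht : t ∈ K.tri) {v u : V} (hv : v ∈ t)
    (hu : u ∈ t) (hne : v ≠ u) : ∃ w, Tri K v u w ∧ t = {v, u, w} := by
  obtain ⟨a, b, h1, h2⟩ := exists_tri ht hv
  rw [h2] at hu
  simp only [Finset.mem_insert, Finset.mem_singleton] at hu
  rcases hu with h | h | h
  · exact absurd h.symm hne
  · subst h
    exact ⟨b, h1, h2⟩
  · subst h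
    exact ⟨a, h1.s132, by rw [← ins_132]; exact h2⟩

/-- third coordinates are small in an edge zone -/
theorem small {K : Surf V} {δ ρ : ℝ} (d0 : 0 < δ) (d1 : δ ≤ 1 / 16) {v u q : V} (hvu : v ≠ u)
    (hqv : q ≠ v) (hqu : q ≠ u) {x : V → ℝ} (h : x ∈ EZ K δ ρ v u) :
    x q ≤ x v / 8 ∧ x q ≤ x u / 8 := by
  obtain ⟨h1, -, -, h4, -, -⟩ := h
  have h5 := body_le_three h1 hvu hqv.symm hqu.symm
  have hv := body_nonneg h1 v
  have hu := body_nonneg h1 u
  have hm : 0 ≤ min (x v) (x u) := le_min hv hu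
  have h6 : 2 * δ * min (x v) (x u) ≤ min (x v) (x u) / 8 := by nlinarith
  have h7 := min_le_left (x v) (x u)
  have h8 := min_le_right (x v) (x u)
  constructor <;> linarith

theorem fz_pos {K : Surf V} {δ ρ : ℝ} (d0 : 0 < δ) (r0 : 0 < ρ) {t : Finset V} (ht : t ∈ K.tri)
    {x : V → ℝ} (h : x ∈ FZ K δ ρ t) : ∀ w ∈ t, 0 < x w := by
  obtain ⟨h1, h2, h3, h4⟩ := h
  intro w hw
  by_contra hc
  have hw0 : x w = 0 := le_antisymm (not_lt.1 hc) (body_nonneg h1 w)
  obtain ⟨a, b, h5, h6⟩ := exists_tri ht hw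
  have ha : a ∈ t := by rw [h6]; simp
  have hb : b ∈ t := by rw [h6]; simp
  have h7 := h3 a ha b hb w hw h5.2.2.1 h5.1.symm h5.2.1.symm
  rw [hw0] at h7
  have hs := sum_one h1 h5 (by rw [← h6]; exact h2)
  rw [hw0] at hs
  have h8 : min (x a) (x b) ≤ 0 := by
    by_contra hc'
    have := mul_pos d0 (not_le.1 hc')
    linarith
  have ha1 := h4 a ha
  have hb1 := h4 b hb
  rcases min_le_iff.1 h8 with h9 | h9
  · linarith
  · linarith

theorem sub_of_pos {t t' : Finset V} {x : V → ℝ} (h : ∀ w ∈ t, 0 < x w)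
    (h' : ∀ w, w ∉ t' → x w = 0) : t ⊆ t' := by
  intro w hw
  by_contra hc
  exact (h w hw).ne' (h' w hc)

theorem eq_of_pos {K : Surf V} {t t' : Finset V} (ht : t ∈ K.tri) (ht' : t' ∈ K.tri) {x : V → ℝ}
    (h : ∀ w ∈ t, 0 < x w) (h' : ∀ w, w ∉ t' → x w = 0) : t = t' :=
  Finset.eq_of_subset_of_card_le (sub_of_pos h h') (by rw [K.card3 t ht, K.card3 t' ht'])

end AGR_

open AGR_

theorem agr_proof : Stmt_AGR := by
  intro V _ _ K p Φ δ ρ η C E F hS
  have d0 := hS.d0
  have d1 := hS.d1
  have r0 := hS.r0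
  have r1 := hS.r1
  refine ⟨?_, ?_, ?_, ?_, ?_, ?_, ?_, ?_⟩
  · -- 1
    intro v u _ _ x hv hu
    by_contra hne
    have h1 := body_le_two hv.1 hne
    have h2 := hv.2
    have h3 := hu.2
    linarith
  · -- 2
    intro v a b _ hab x hx he
    have hne := act_ne hab
    by_cases hva : v = a
    · subst hva
      exact (hS.eco v b hab x he hx.2).symm
    by_cases hvb : v = b
    · subst hvb
      rw [hS.es a v hab x he]
      exact (hS.eco v a hab.flip x (ez_symm he) hx.2).symm
    exfalso
    have h1 := (small d0 d1 hne hva hvb he).1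
    have h2 := hx.2
    have h3 := body_le_one hx.1 a
    linarith
  · -- 3
    intro v _ t ht hnf x hx hf
    have hxv : 0 < x v := by
      have := hx.2
      linarith
    have hvt : v ∈ t := by
      by_contra hc
      exact hxv.ne' (hf.2.1 v hc)
    exact (hS.fco t ht hnf x hf v hvt hx.2).symm
  · -- 4
    intro v u a b hvu hab x h1 h2
    have hne := act_ne hvu
    have hne' := act_ne hab
    have key : ∀ v u a b : V, v ≠ u → a ≠ b → v ≠ a → v ≠ b → x ∈ EZ K δ ρ v u →
        x ∈ EZ K δ ρ a b → a ≠ u → False := by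
      intro v u a b hvu hab hva hvb h1 h2 hau
      have h3 := (small d0 d1 hab hva hvb h2).1
      have h4 := (small d0 d1 hvu hva.symm hau h1).1
      have h5 := h1.2.1
      linarith
    by_cases hva : v = a
    · subst hva
      by_cases hub : u = b
      · subst hub; rfl
      · exfalso
        exact key u v b v hne.symm hne'.symm hub hne.symm (ez_symm h1) (ez_symm h2) hne'.symm
    · by_cases hvb : v = b
      · subst hvb
        by_cases hua : u = a
        · subst hua
          exact hS.es v u hvu x h1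
        · exfalso
          exact key u v a v hne.symm hne' hua hne.symm (ez_symm h1) h2 hne'
      · exfalso
        by_cases hau : a = u
        · subst hau
          exact key v a b a hne hne'.symm hvb hva h1 (ez_symm h2) hne'.symm
        · exact key v u a b hne hne' hva hvb h1 h2 hau
  · -- 5
    intro v u hvu t ht hnf x h1 h2
    have hne := act_ne hvu
    have hxv : 0 < x v := by
      have := h1.2.1
      linarith
    have hxu : 0 < x u := by
      have := h1.2.2.1
      linarith
    have hv : v ∈ t := by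
      by_contra hc
      exact hxv.ne' (h2.2.1 v hc)
    have hu : u ∈ t := by
      by_contra hc
      exact hxu.ne' (h2.2.1 u hc)
    obtain ⟨w, hw, hteq⟩ := tri_of_mem ht hv hu hne
    subst hteq
    exact hS.efa v u w hw hnf x h1 h2
  · -- 6
    intro v u hvu x h1 h2
    obtain ⟨hb, ⟨t, ht, hft, hsup, hin⟩, -⟩ := h2
    have hne := act_ne hvu
    have hxv : 0 < x v := by
      have := h1.2.1
      linarith
    have hxu : 0 < x u := by
      have := h1.2.2.1
      linarith
    have hv : v ∈ t := by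
      by_contra hc
      exact hxv.ne' (hsup v hc)
    have hu : u ∈ t := by
      by_contra hc
      exact hxu.ne' (hsup u hc)
    obtain ⟨w, hw, hteq⟩ := tri_of_mem ht hv hu hne
    subst hteq
    exact hS.ere v u w hw hft hvu x h1 hsup
      (hin v hv u hu w (by simp) hw.1 hw.2.1 hw.2.2.1 hvu)
  · -- 7
    intro t ht t' ht' _ _ x h1 h2
    exact eq_of_pos ht ht' (fz_pos d0 r0 ht h1) h2.2.1
  · -- 8
    intro t ht hnf x h1 h2
    obtain ⟨-, ⟨t', ht', hft, hsup, -⟩, -⟩ := h2
    have := eq_of_pos ht ht' (fz_pos d0 r0 ht h1) hsup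
    subst this
    exact hnf hft

end Pool.Agent.TSR2
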