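import Pool.Agent.TSR2.StmtsV

/-!
# TSR2, module ANG: two faces of a polygon cone meet at a positive angle
-/

set_option autoImplicit false

namespace Pool.Agent.TSR2

open Pool.Agent.TSM Pool.Agent.TSP Set Filter Topology

namespace ANG_

/-! ### vectors -/

theorem d3_comb (a b c d : E3) (x y : ℝ) :
    Pool.Agent.TSM.det3 (x • a + y • b) c d =
      x * Pool.Agent.TSM.det3 a c d + y * Pool.Agent.TSM.det3 b c d := by
  simp [Pool.Agent.TSM.det3]; ring

theorem d3_cyc (a b c : E3) : Pool.Agent.TSM.det3 a b c = Pool.Agent.TSM.det3 b c a := by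
  simp [Pool.Agent.TSM.det3]; ring

theorem d3_left (a b : E3) : Pool.Agent.TSM.det3 a b a = 0 := by
  simp [Pool.Agent.TSM.det3]; ring

theorem d3_same (a b : E3) : Pool.Agent.TSM.det3 a a b = 0 := by
  simp [Pool.Agent.TSM.det3]; ring

theorem cone_bound {X : Type} [NormedAddCommGroup X] [NormedSpace ℝ X] [FiniteDimensional ℝ X]
    (φ : X →L[ℝ] E3) (K : Set X) (hK : IsClosed K)
    (hs : ∀ v ∈ K, ∀ r : ℝ, 0 ≤ r → r • v ∈ K) (h0 : ∀ v ∈ K, φ v = 0 → v = 0) :
    ∃ C : ℝ, 0 ≤ C ∧ ∀ v ∈ K, ‖v‖ ≤ C * ‖φ v‖ := by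
  have hprop : ProperSpace X := FiniteDimensional.proper ℝ X
  have hcomp : IsCompact (K ∩ Metric.sphere (0 : X) 1) :=
    (isCompact_sphere (0 : X) 1).inter_left hK
  have hnorm : ∀ v ∈ K, v ≠ 0 → (‖v‖⁻¹ • v) ∈ K ∩ Metric.sphere (0 : X) 1 := by
    intro v hv hv0
    refine ⟨hs v hv _ (by positivity), ?_⟩
    rw [mem_sphere_zero_iff_norm, norm_smul, norm_inv, norm_norm,
      inv_mul_cancel₀ (norm_ne_zero_iff.2 hv0)]
  rcases (K ∩ Metric.sphere (0 : X) 1).eq_empty_or_nonempty with he | hne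
  · refine ⟨0, le_rfl, ?_⟩
    intro v hv
    by_cases hv0 : v = 0
    · rw [hv0]; simp
    · have := hnorm v hv hv0
      rw [he] at this
      exact absurd this (Set.notMem_empty _)
  · obtain ⟨w, hw, hmin⟩ := hcomp.exists_isMinOn hne
      (f := fun v => ‖φ v‖) (φ.continuous.norm).continuousOn
    have hw1 : ‖w‖ = 1 := by
      have := hw.2
      rwa [mem_sphere_zero_iff_norm] at this
    have hpos : 0 < ‖φ w‖ := by
      rw [norm_pos_iff]
      intro h
      have := h0 w hw.1 h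
      rw [this, norm_zero] at hw1
      norm_num at hw1
    refine ⟨‖φ w‖⁻¹, by positivity, ?_⟩
    intro v hv
    by_cases hv0 : v = 0
    · rw [hv0]; simp
    · have h1 : ‖φ w‖ ≤ ‖φ (‖v‖⁻¹ • v)‖ := hmin (hnorm v hv hv0)
      rw [map_smul, norm_smul, norm_inv, norm_norm] at h1
      have hvn : 0 < ‖v‖ := norm_pos_iff.2 hv0
      rw [inv_mul_eq_div, le_div_iff₀ hvn] at h1
      rw [inv_mul_eq_div, le_div_iff₀ hpos]
      linarith

/-! ### combinatorics of the polygon -/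

section
variable {W : Type} [DecidableEq W] {L : Pg W}

theorem card_le_of_closed (h : L.Ok) {i : W} (hi : i ∈ L.S) (T : Finset W) (hiT : i ∈ T)
    (hT : ∀ j ∈ T, L.s j ∈ T) : L.S.card ≤ T.card := by
  apply Finset.card_le_card
  intro j hj
  obtain ⟨m, hm⟩ := h.trans i hi j hj
  rw [← hm]
  clear hm
  induction m with
  | zero => exact hiT
  | succ n ih => rw [Function.iterate_succ_apply']; exact hT _ ih

theorem s_ne (h : L.Ok) {i : W} (hi : i ∈ L.S) : L.s i ≠ i := by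
  intro e
  have := card_le_of_closed h hi {i} (by simp) (by
    intro j hj; rw [Finset.mem_singleton] at hj; rw [hj, e]; simp)
  have h4 := h.card
  simp at this; omega

theorem ss_ne (h : L.Ok) {i : W} (hi : i ∈ L.S) : L.s (L.s i) ≠ i := by
  intro e
  have := card_le_of_closed h hi {i, L.s i} (by simp) (by
    intro j hj
    simp only [Finset.mem_insert, Finset.mem_singleton] at hj
    rcases hj with rfl | rfl
    · simp
    · rw [e]; simp)
  have h4 := h.card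
  have h5 : ({i, L.s i} : Finset W).card ≤ 2 := Finset.card_le_two
  omega

theorem exists_det (h : L.Ok) {i j : W} (hi : i ∈ L.S) (hj : j ∈ L.S) (hij : i ≠ j) :
    ∃ k ∈ L.S, Pool.Agent.TSM.det3 (L.p i) (L.p j) (L.p k) ≠ 0 := by
  by_contra hcon
  push Not at hcon
  have h4 := h.card
  have c1 : 2 ≤ ((L.S.erase i).erase j).card := by
    have e1 := Finset.card_erase_of_mem hi
    have e2 := Finset.card_erase_of_mem (Finset.mem_erase.2 ⟨hij.symm, hj⟩)
    omega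
  obtain ⟨k, hk, k', hk', hkk⟩ := Finset.one_lt_card.1 (by omega : 1 < ((L.S.erase i).erase j).card)
  simp only [Finset.mem_erase] at hk hk'
  have f1 : L.Flat i j k := by
    by_contra hf
    exact h.gen i hi j hj k hk.2.2 hij hk.2.1.symm hk.1.symm hf (hcon k hk.2.2)
  have f2 : L.Flat i j k' := by
    by_contra hf
    exact h.gen i hi j hj k' hk'.2.2 hij hk'.2.1.symm hk'.1.symm hf (hcon k' hk'.2.2)
  obtain ⟨m, q, x1, q1, s1, t1⟩ := f1
  obtain ⟨m', q', x2, q2, s2, t2⟩ := f2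
  have hm : m = m' := by
    have := x1.symm.trans x2
    exact Option.some.inj this
  subst hm
  have hq : q = q' := h.inj q q1 q' q2 (s1.trans s2.symm)
  subst hq
  have hset : ({i, j, k} : Finset W) = {i, j, k'} := t1.trans t2.symm
  have : k ∈ ({i, j, k'} : Finset W) := by rw [← hset]; simp
  simp only [Finset.mem_insert, Finset.mem_singleton] at this
  rcases this with e | e | e
  · exact hk.2.1 e
  · exact hk.1 e
  · exact hkk e

theorem coord (h : L.Ok) {i : W} (hi : i ∈ L.S) {a b a' b' : ℝ}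
    (e : a • L.p i + b • L.p (L.s i) = a' • L.p i + b' • L.p (L.s i)) : a = a' ∧ b = b' := by
  obtain ⟨k, hk, hd⟩ := exists_det h hi (h.maps i hi) (s_ne h hi).symm
  constructor
  · have e1 := d3_comb (L.p i) (L.p (L.s i)) (L.p (L.s i)) (L.p k) a b
    have e2 := d3_comb (L.p i) (L.p (L.s i)) (L.p (L.s i)) (L.p k) a' b'
    rw [e, e2, d3_same, mul_zero, mul_zero, add_zero, add_zero] at e1
    exact (mul_right_cancel₀ hd e1).symm
  · have e1 := d3_comb (L.p i) (L.p (L.s i)) (L.p k) (L.p i) a b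
    have e2 := d3_comb (L.p i) (L.p (L.s i)) (L.p k) (L.p i) a' b'
    have e3 : Pool.Agent.TSM.det3 (L.p (L.s i)) (L.p k) (L.p i) =
        Pool.Agent.TSM.det3 (L.p i) (L.p (L.s i)) (L.p k) := (d3_cyc _ _ _).symm
    rw [e, e2, d3_left, mul_zero, mul_zero, zero_add, zero_add, e3] at e1
    exact (mul_right_cancel₀ hd e1).symm

theorem indep0 (h : L.Ok) {i : W} (hi : i ∈ L.S) {a b : ℝ}
    (e : a • L.p i + b • L.p (L.s i) = 0) : a = 0 ∧ b = 0 := by
  apply coord h hi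
  rw [e, zero_smul, zero_smul, add_zero]

/-- adjacent faces -/
theorem adj (h : L.Ok) {i : W} (hi : i ∈ L.S) :
    ∃ C : ℝ, 0 ≤ C ∧ ∀ x ∈ L.face i, ∀ y ∈ L.face (L.s i), ∃ z, z ∈ L.face i ∧
      z ∈ L.face (L.s i) ∧ ‖x - z‖ + ‖y - z‖ ≤ C * ‖x - y‖ := by
  have hsi := h.maps i hi
  let φ : ℝ × ℝ × ℝ →ₗ[ℝ] E3 :=
    (LinearMap.fst ℝ ℝ (ℝ × ℝ)).smulRight (L.p i) +
    ((LinearMap.fst ℝ ℝ ℝ).comp (LinearMap.snd ℝ ℝ (ℝ × ℝ))).smulRight (L.p (L.s i)) -
    ((LinearMap.snd ℝ ℝ ℝ).comp (LinearMap.snd ℝ ℝ (ℝ × ℝ))).smulRight (L.p (L.s (L.s i)))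
  have hφ : ∀ a t e : ℝ, φ (a, t, e) =
      a • L.p i + t • L.p (L.s i) - e • L.p (L.s (L.s i)) := fun a t e => by simp [φ]
  have hint : ∀ x : E3, x ∈ L.face i → x ∈ L.face (L.s i) → ∃ α : ℝ, x = α • L.p (L.s i) := by
    intro x h1 h2
    rcases h.simple i hi (L.s i) hsi (s_ne h hi).symm x h1 h2 with ⟨_, α, _, e⟩ | ⟨e, _⟩ | e
    · exact ⟨α, e⟩
    · exact absurd e.symm (ss_ne h hi)
    · exact ⟨0, by rw [e, zero_smul]⟩
  obtain ⟨C, hC0, hC⟩ := cone_bound (LinearMap.toContinuousLinearMap φ)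
    {v : ℝ × ℝ × ℝ | 0 ≤ v.1 ∧ 0 ≤ v.2.2} (by
      apply IsClosed.and (isClosed_le (by fun_prop) (by fun_prop))
      exact isClosed_le (by fun_prop) (by fun_prop)) (by
      rintro v ⟨h1, h2⟩ r hr
      exact ⟨mul_nonneg hr h1, mul_nonneg hr h2⟩) (by
      rintro ⟨a, t, e⟩ ⟨ha, he⟩ h0
      simp only at ha he
      rw [LinearMap.coe_toContinuousLinearMap', hφ, sub_eq_zero] at h0
      rcases le_total 0 t with ht | ht
      · obtain ⟨α, hα⟩ := hint (a • L.p i + t • L.p (L.s i)) ⟨a, t, ha, ht, rfl⟩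
          ⟨0, e, le_rfl, he, by rw [h0, zero_smul, zero_add]⟩
        have e1 : a • L.p i + t • L.p (L.s i) = (0 : ℝ) • L.p i + α • L.p (L.s i) := by
          rw [hα, zero_smul, zero_add]
        obtain ⟨e2, e3⟩ := coord h hi e1
        have e4 : (-α) • L.p (L.s i) + e • L.p (L.s (L.s i)) = 0 := by
          rw [← h0, hα]
          module
        obtain ⟨e5, e6⟩ := indep0 h hsi e4
        have : t = 0 := by linarith
        rw [e2, this, e6]
        rfl
      · have h1 : a • L.p i = (-t) • L.p (L.s i) + e • L.p (L.s (L.s i)) := by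
          rw [← h0]
          module
        obtain ⟨α, hα⟩ := hint (a • L.p i) ⟨a, 0, ha, le_rfl, by rw [zero_smul, add_zero]⟩
          ⟨-t, e, by linarith, he, h1⟩
        have e1 : a • L.p i + (-α) • L.p (L.s i) = 0 := by
          rw [hα]
          module
        obtain ⟨e2, e3⟩ := indep0 h hi e1
        have e4 : (-t) • L.p (L.s i) + e • L.p (L.s (L.s i)) = 0 := by
          rw [← h1, e2, zero_smul]
        obtain ⟨e5, e6⟩ := indep0 h hsi e4
        have : t = 0 := by linarith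
        rw [e2, this, e6]
        rfl)
  set P : ℝ := ‖L.p i‖ + ‖L.p (L.s i)‖ + ‖L.p (L.s (L.s i))‖ with hP
  have hP0 : 0 ≤ P := by positivity
  refine ⟨4 * P * C, by positivity, ?_⟩
  rintro x ⟨a, c, ha, hc, rfl⟩ y ⟨c', e, hc', he, rfl⟩
  refine ⟨(min c c') • L.p (L.s i), ⟨0, min c c', le_rfl, le_min hc hc', ?_⟩,
    ⟨min c c', 0, le_min hc hc', le_rfl, ?_⟩, ?_⟩
  · rw [zero_smul, zero_add]
  · rw [zero_smul, add_zero]
  · have hv := hC (a, c - c', e) ⟨ha, he⟩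
    rw [LinearMap.coe_toContinuousLinearMap', hφ] at hv
    have hxy : a • L.p i + (c - c') • L.p (L.s i) - e • L.p (L.s (L.s i)) =
        a • L.p i + c • L.p (L.s i) - (c' • L.p (L.s i) + e • L.p (L.s (L.s i))) := by
      module
    rw [hxy] at hv
    set D : ℝ := ‖a • L.p i + c • L.p (L.s i) - (c' • L.p (L.s i) + e • L.p (L.s (L.s i)))‖
      with hD
    have n1 : |a| ≤ C * D := (norm_fst_le (a, c - c', e)).trans hv
    have n23 : ‖((c - c', e) : ℝ × ℝ)‖ ≤ C * D := (norm_snd_le (a, c - c', e)).trans hv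
    have n2 : |c - c'| ≤ C * D := (norm_fst_le ((c - c', e) : ℝ × ℝ)).trans n23
    have n3 : |e| ≤ C * D := (norm_snd_le ((c - c', e) : ℝ × ℝ)).trans n23
    have m1 : |c - min c c'| ≤ |c - c'| := by
      rcases le_total c c' with h1 | h1
      · rw [min_eq_left h1, sub_self, abs_zero]
        exact abs_nonneg _
      · rw [min_eq_right h1]
    have m2 : |c' - min c c'| ≤ |c - c'| := by
      rcases le_total c c' with h1 | h1
      · rw [min_eq_left h1, abs_sub_comm]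
      · rw [min_eq_right h1, sub_self, abs_zero]
        exact abs_nonneg _
    have x1 : ‖a • L.p i + c • L.p (L.s i) - (min c c') • L.p (L.s i)‖ ≤ 2 * P * (C * D) := by
      have : a • L.p i + c • L.p (L.s i) - (min c c') • L.p (L.s i) =
          a • L.p i + (c - min c c') • L.p (L.s i) := by module
      rw [this]
      refine (norm_add_le _ _).trans ?_
      rw [norm_smul, norm_smul, Real.norm_eq_abs, Real.norm_eq_abs]
      have q1 : |a| * ‖L.p i‖ ≤ (C * D) * P := by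
        apply mul_le_mul n1 _ (norm_nonneg _) ((abs_nonneg _).trans n1)
        rw [hP]
        linarith [norm_nonneg (L.p (L.s i)), norm_nonneg (L.p (L.s (L.s i)))]
      have q2 : |c - min c c'| * ‖L.p (L.s i)‖ ≤ (C * D) * P := by
        apply mul_le_mul (m1.trans n2) _ (norm_nonneg _) ((abs_nonneg _).trans n2)
        rw [hP]
        linarith [norm_nonneg (L.p i), norm_nonneg (L.p (L.s (L.s i)))]
      linarith
    have x2 : ‖c' • L.p (L.s i) + e • L.p (L.s (L.s i)) - (min c c') • L.p (L.s i)‖ ≤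
        2 * P * (C * D) := by
      have : c' • L.p (L.s i) + e • L.p (L.s (L.s i)) - (min c c') • L.p (L.s i) =
          (c' - min c c') • L.p (L.s i) + e • L.p (L.s (L.s i)) := by module
      rw [this]
      refine (norm_add_le _ _).trans ?_
      rw [norm_smul, norm_smul, Real.norm_eq_abs, Real.norm_eq_abs]
      have q1 : |e| * ‖L.p (L.s (L.s i))‖ ≤ (C * D) * P := by
        apply mul_le_mul n3 _ (norm_nonneg _) ((abs_nonneg _).trans n3)
        rw [hP]
        linarith [norm_nonneg (L.p (L.s i)), norm_nonneg (L.p i)]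
      have q2 : |c' - min c c'| * ‖L.p (L.s i)‖ ≤ (C * D) * P := by
        apply mul_le_mul (m2.trans n2) _ (norm_nonneg _) ((abs_nonneg _).trans n2)
        rw [hP]
        linarith [norm_nonneg (L.p i), norm_nonneg (L.p (L.s (L.s i)))]
      linarith
    calc _ ≤ 2 * P * (C * D) + 2 * P * (C * D) := add_le_add x1 x2
      _ = 4 * P * C * D := by ring

/-- faces which are not adjacent -/
theorem nonadj (h : L.Ok) {i j : W} (hi : i ∈ L.S) (hj : j ∈ L.S) (hij : i ≠ j)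
    (h1 : j ≠ L.s i) (h2 : i ≠ L.s j) :
    ∃ C : ℝ, 0 ≤ C ∧ ∀ x ∈ L.face i, ∀ y ∈ L.face j, ∃ z, z ∈ L.face i ∧
      z ∈ L.face j ∧ ‖x - z‖ + ‖y - z‖ ≤ C * ‖x - y‖ := by
  let φ : (ℝ × ℝ) × (ℝ × ℝ) →ₗ[ℝ] E3 :=
    ((LinearMap.fst ℝ ℝ ℝ).comp (LinearMap.fst ℝ (ℝ × ℝ) (ℝ × ℝ))).smulRight (L.p i) +
    ((LinearMap.snd ℝ ℝ ℝ).comp (LinearMap.fst ℝ (ℝ × ℝ) (ℝ × ℝ))).smulRight (L.p (L.s i)) -
    (((LinearMap.fst ℝ ℝ ℝ).comp (LinearMap.snd ℝ (ℝ × ℝ) (ℝ × ℝ))).smulRight (L.p j) +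
    ((LinearMap.snd ℝ ℝ ℝ).comp (LinearMap.snd ℝ (ℝ × ℝ) (ℝ × ℝ))).smulRight (L.p (L.s j)))
  have hφ : ∀ a b c e : ℝ, φ ((a, b), (c, e)) =
      a • L.p i + b • L.p (L.s i) - (c • L.p j + e • L.p (L.s j)) := fun a b c e => by simp [φ]
  obtain ⟨C, hC0, hC⟩ := cone_bound (LinearMap.toContinuousLinearMap φ)
    {v : (ℝ × ℝ) × (ℝ × ℝ) | 0 ≤ v.1.1 ∧ 0 ≤ v.1.2 ∧ 0 ≤ v.2.1 ∧ 0 ≤ v.2.2} (by
      apply IsClosed.and (isClosed_le (by fun_prop) (by fun_prop))
      apply IsClosed.and (isClosed_le (by fun_prop) (by fun_prop))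
      apply IsClosed.and (isClosed_le (by fun_prop) (by fun_prop))
      exact isClosed_le (by fun_prop) (by fun_prop)) (by
      rintro v ⟨h1, h2, h3, h4⟩ r hr
      exact ⟨mul_nonneg hr h1, mul_nonneg hr h2, mul_nonneg hr h3, mul_nonneg hr h4⟩) (by
      rintro ⟨⟨a, b⟩, ⟨c, e⟩⟩ ⟨ha, hb, hc, he⟩ h0
      simp only at ha hb hc he
      rw [LinearMap.coe_toContinuousLinearMap', hφ, sub_eq_zero] at h0
      have hx0 : a • L.p i + b • L.p (L.s i) = 0 := by
        rcases h.simple i hi j hj hij _ ⟨a, b, ha, hb, rfl⟩ ⟨c, e, hc, he, h0⟩ with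
          ⟨e1, _⟩ | ⟨e1, _⟩ | e1
        · exact absurd e1 h1
        · exact absurd e1 h2
        · exact e1
      obtain ⟨e1, e2⟩ := indep0 h hi hx0
      obtain ⟨e3, e4⟩ := indep0 h hj (h0.symm.trans hx0)
      rw [e1, e2, e3, e4]
      rfl)
  set P : ℝ := ‖L.p i‖ + ‖L.p (L.s i)‖ + (‖L.p j‖ + ‖L.p (L.s j)‖) with hP
  have hP0 : 0 ≤ P := by positivity
  refine ⟨P * C, by positivity, ?_⟩
  rintro x ⟨a, b, ha, hb, rfl⟩ y ⟨c, e, hc, he, rfl⟩
  refine ⟨0, ⟨0, 0, le_rfl, le_rfl, by simp⟩, ⟨0, 0, le_rfl, le_rfl, by simp⟩, ?_⟩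
  have hv := hC ((a, b), (c, e)) ⟨ha, hb, hc, he⟩
  rw [LinearMap.coe_toContinuousLinearMap', hφ] at hv
  set D : ℝ := ‖a • L.p i + b • L.p (L.s i) - (c • L.p j + e • L.p (L.s j))‖ with hD
  have n12 : ‖((a, b) : ℝ × ℝ)‖ ≤ C * D := (norm_fst_le (((a, b), (c, e)))).trans hv
  have n34 : ‖((c, e) : ℝ × ℝ)‖ ≤ C * D := (norm_snd_le (((a, b), (c, e)))).trans hv
  have n1 : |a| ≤ C * D := (norm_fst_le ((a, b) : ℝ × ℝ)).trans n12
  have n2 : |b| ≤ C * D := (norm_snd_le ((a, b) : ℝ × ℝ)).trans n12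
  have n3 : |c| ≤ C * D := (norm_fst_le ((c, e) : ℝ × ℝ)).trans n34
  have n4 : |e| ≤ C * D := (norm_snd_le ((c, e) : ℝ × ℝ)).trans n34
  rw [sub_zero, sub_zero]
  have q1 : ‖a • L.p i + b • L.p (L.s i)‖ ≤ (C * D) * (‖L.p i‖ + ‖L.p (L.s i)‖) := by
    refine (norm_add_le _ _).trans ?_
    rw [norm_smul, norm_smul, Real.norm_eq_abs, Real.norm_eq_abs, mul_add]
    exact add_le_add (mul_le_mul_of_nonneg_right n1 (norm_nonneg _))
      (mul_le_mul_of_nonneg_right n2 (norm_nonneg _))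
  have q2 : ‖c • L.p j + e • L.p (L.s j)‖ ≤ (C * D) * (‖L.p j‖ + ‖L.p (L.s j)‖) := by
    refine (norm_add_le _ _).trans ?_
    rw [norm_smul, norm_smul, Real.norm_eq_abs, Real.norm_eq_abs, mul_add]
    exact add_le_add (mul_le_mul_of_nonneg_right n3 (norm_nonneg _))
      (mul_le_mul_of_nonneg_right n4 (norm_nonneg _))
  calc _ ≤ (C * D) * (‖L.p i‖ + ‖L.p (L.s i)‖) + (C * D) * (‖L.p j‖ + ‖L.p (L.s j)‖) :=
        add_le_add q1 q2
    _ = P * C * D := by rw [hP]; ring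

end

end ANG_

open ANG_ in
theorem ang_proof : Stmt_ANG := by
  intro W _ L h i hi j hj hij
  by_cases h1 : j = L.s i
  · subst h1
    exact adj h hi
  · by_cases h2 : i = L.s j
    · subst h2
      obtain ⟨C, hC0, hC⟩ := adj h hj
      refine ⟨C, hC0, ?_⟩
      intro x hx y hy
      obtain ⟨z, hz1, hz2, hz⟩ := hC y hy x hx
      refine ⟨z, hz2, hz1, ?_⟩
      rw [norm_sub_rev x y]
      linarith
    · exact nonadj h hi hj hij h1 h2

end Pool.Agent.TSR2
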