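import Pool.Agent.TSR2.Defs

/-!
# TSR2: proved basic facts
-/

set_option autoImplicit false

open scoped RealInnerProductSpace

namespace Pool.Agent.TSR2

open Pool.Agent.TSM Pool.Agent.TSP Set Filter Topology

/-! ### affine functions -/

theorem ev_def (P : Aff) (y : E3) : ev P y = ⟪P.1, y⟫ - P.2 := rfl

theorem ev_add' (P Q : Aff) (y : E3) : ev (P + Q) y = ev P y + ev Q y := by
  simp only [ev_def, Prod.fst_add, Prod.snd_add, inner_add_left]; ring

theorem ev_smul' (s : ℝ) (P : Aff) (y : E3) : ev (s • P) y = s * ev P y := by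
  simp only [ev_def, Prod.smul_fst, Prod.smul_snd, smul_eq_mul, inner_smul_left,
    RCLike.conj_to_real]
  ring

theorem ev_neg' (P : Aff) (y : E3) : ev (-P) y = - ev P y := by
  simp only [ev_def, Prod.fst_neg, Prod.snd_neg, inner_neg_left]; ring

theorem ev_pt (P : Aff) (y z : E3) : ev P (y + z) = ev P y + ⟪P.1, z⟫ := by
  simp only [ev_def, inner_add_right]; ring

theorem ev_line (P : Aff) (y b : E3) (t : ℝ) : ev P (y - t • b) = ev P y - t * ⟪P.1, b⟫ := by
  simp only [ev_def, inner_sub_right, inner_smul_right]; ring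

theorem ev_sub_pt (P : Aff) (y z : E3) : ev P y - ev P z = ⟪P.1, y - z⟫ := by
  simp only [ev_def, inner_sub_right]; ring

theorem ev_tri (P : Aff) (v u w : E3) (a c : ℝ) :
    ev P (v + a • (w - v) + c • (u - v)) = (1 - a - c) * ev P v + a * ev P w + c * ev P u := by
  simp only [ev_def, inner_add_right, inner_smul_right, inner_sub_right]; ring

theorem continuous_ev' (P : Aff) : Continuous (ev P) := by
  unfold ev
  fun_prop

theorem ev_scl (q : E3) (r : ℝ) (hr : r ≠ 0) (Z : Aff) (Y : E3) :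
    ev (scl q r Z) Y = r⁻¹ * ev Z (q + r • Y) := by
  simp only [ev_def, scl, inner_add_right, inner_smul_right]
  field_simp
  ring

/-! ### determinants -/

theorem crs_eq (a b : E3) : crs a b = cr a b := rfl

theorem inner_crs (a b c : E3) : ⟪crs a b, c⟫ = det3 a b c := by
  simp [crs, det3, PiLp.inner_apply, Fin.sum_univ_three]
  ring

theorem indep_iff (a b c : Aff) : Indep a b c ↔ det3 a.1 b.1 c.1 ≠ 0 := by
  constructor
  · intro h h0
    have h1 : ¬ (∀ l m k : ℝ, l • a.1 + m • b.1 + k • c.1 = 0 → l = 0 ∧ m = 0 ∧ k = 0) := by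
      intro hh
      -- a nonzero linear form killing all three
      by_cases h2 : ∃ x y : ℝ, (x ≠ 0 ∨ y ≠ 0) ∧ x • a.1 + y • b.1 = 0
      · obtain ⟨x, y, hxy, he⟩ := h2
        have := hh x y 0 (by rw [he, zero_smul, add_zero])
        rcases hxy with h | h
        · exact h this.1
        · exact h this.2.1
      · push Not at h2
        have h3 : Indep2 a.1 b.1 := by
          intro x y hxy
          by_contra hne
          rw [not_and_or] at hne
          exact h2 x y hne hxy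
        have hn := cr_ne_zero h3
        have hc : ⟪cr a.1 b.1, c.1⟫ = 0 := by
          rw [← crs_eq, inner_crs]; exact h0
        have ha : ⟪cr a.1 b.1, a.1⟫ = 0 := by
          rw [real_inner_comm]; exact inner_cr_left _ _
        have hb : ⟪cr a.1 b.1, b.1⟫ = 0 := by
          rw [real_inner_comm]; exact inner_cr_right _ _
        obtain ⟨l, m, hlm⟩ := plane_coords hn ha hb h3 hc
        have := hh l m (-1) (by rw [hlm]; module)
        linarith [this.2.2]
    apply h1
    intro l m k he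
    have h2 := Fintype.linearIndependent_iff.1 h ![l, m, k] (by
      rw [Fin.sum_univ_three]; exact he)
    exact ⟨h2 0, h2 1, h2 2⟩
  · intro h
    apply Fintype.linearIndependent_iff.2
    intro g hg i
    rw [Fin.sum_univ_three] at hg
    have h1 : det3 b.1 c.1 a.1 = det3 a.1 b.1 c.1 := by simp only [det3]; ring
    have h2 := coords_zero b.1 c.1 a.1 (by rw [h1]; exact h) (l := g 2) (m := g 0) (k := g 1)
      (by rw [← hg]; simp; abel)
    fin_cases i
    · exact h2.2.1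
    · exact h2.2.2
    · exact h2.1

/-! ### combinatorics -/

section
variable {V : Type} [Fintype V] [DecidableEq V]

theorem ins_213 (v u w : V) : ({v, u, w} : Finset V) = {u, v, w} := by
  ext x; simp only [Finset.mem_insert, Finset.mem_singleton]; tauto

theorem ins_132 (v u w : V) : ({v, u, w} : Finset V) = {v, w, u} := by
  ext x; simp only [Finset.mem_insert, Finset.mem_singleton]; tauto

theorem Tri.s213 {K : Surf V} {v u w : V} (h : Tri K v u w) : Tri K u v w :=
  ⟨h.1.symm, h.2.2.1, h.2.1, by rw [← ins_213]; exact h.2.2.2⟩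

theorem Tri.s132 {K : Surf V} {v u w : V} (h : Tri K v u w) : Tri K v w u :=
  ⟨h.2.1, h.1, h.2.2.1.symm, by rw [← ins_132]; exact h.2.2.2⟩

theorem Tri.s231 {K : Surf V} {v u w : V} (h : Tri K v u w) : Tri K u w v := h.s213.s132

theorem Tri.s312 {K : Surf V} {v u w : V} (h : Tri K v u w) : Tri K w v u := h.s132.s213

theorem Tri.s321 {K : Surf V} {v u w : V} (h : Tri K v u w) : Tri K w u v := h.s213.s132.s213

theorem Quad.flip {K : Surf V} {v u w w' : V} (h : Quad K v u w w') : Quad K u v w w' :=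
  ⟨h.1.s213, h.2.1.s213, h.2.2⟩

theorem Quad.swap {K : Surf V} {v u w w' : V} (h : Quad K v u w w') : Quad K v u w' w :=
  ⟨h.2.1, h.1, h.2.2.symm⟩

/-- every triangle at `v` -/
theorem exists_tri {K : Surf V} {t : Finset V} (ht : t ∈ K.tri) {v : V} (hv : v ∈ t) :
    ∃ u w, Tri K v u w ∧ t = {v, u, w} := by
  have h3 := K.card3 t ht
  have h2 : (t.erase v).card = 2 := by rw [Finset.card_erase_of_mem hv, h3]
  obtain ⟨u, w, huw, he⟩ := Finset.card_eq_two.1 h2
  have hu : u ∈ t.erase v := by rw [he]; simp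
  have hw : w ∈ t.erase v := by rw [he]; simp
  have hteq : t = {v, u, w} := by
    rw [← Finset.insert_erase hv, he]
  refine ⟨u, w, ⟨(Finset.ne_of_mem_erase hu).symm, (Finset.ne_of_mem_erase hw).symm, huw, ?_⟩,
    hteq⟩
  rw [← hteq]; exact ht

theorem exists_tri' {K : Surf V} {t : Finset V} (ht : t ∈ K.tri) :
    ∃ v u w, Tri K v u w ∧ t = {v, u, w} := by
  have h3 := K.card3 t ht
  have : t.Nonempty := by rw [← Finset.card_pos, h3]; norm_num
  obtain ⟨v, hv⟩ := this
  exact ⟨v, exists_tri ht hv⟩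

/-- every edge lies in exactly two triangles -/
theorem link_pair {K : Surf V} {v u w : V} (h : Tri K v u w) :
    ∃ w', Quad K v u w w' ∧ ∀ x, Tri K v u x → x = w ∨ x = w' := by
  obtain ⟨n, c, hn, hinj, hne, hlk⟩ := K.link v
  haveI : NeZero n := ⟨by omega⟩
  haveI : Fact (1 < n) := ⟨by omega⟩
  have h2 : (2 : ZMod n) ≠ 0 := by
    intro h0
    have h1 : ((2 : ℕ) : ZMod n) = 0 := by exact_mod_cast h0
    rw [ZMod.natCast_eq_zero_iff] at h1
    have := Nat.le_of_dvd (by norm_num) h1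
    omega
  have h1 : (1 : ZMod n) ≠ 0 := one_ne_zero
  -- triangles at `v`
  have key : ∀ x y, Tri K v x y → (∃ i, x = c i ∧ y = c (i + 1)) ∨
      (∃ i, y = c i ∧ x = c (i + 1)) := by
    intro x y hxy
    obtain ⟨i, hi⟩ := (hlk _).1 ⟨hxy.2.2.2, by simp⟩
    have hx : x ∈ ({v, c i, c (i + 1)} : Finset V) := by rw [← hi]; simp
    have hy : y ∈ ({v, c i, c (i + 1)} : Finset V) := by rw [← hi]; simp
    simp only [Finset.mem_insert, Finset.mem_singleton] at hx hy
    rcases hx with hx | hx | hx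
    · exact absurd hx.symm hxy.1
    · rcases hy with hy | hy | hy
      · exact absurd hy.symm hxy.2.1
      · exact absurd (hx.trans hy.symm) hxy.2.2.1
      · exact Or.inl ⟨i, hx, hy⟩
    · rcases hy with hy | hy | hy
      · exact absurd hy.symm hxy.2.1
      · exact Or.inr ⟨i, hy, hx⟩
      · exact absurd (hx.trans hy.symm) hxy.2.2.1
  have mk : ∀ i, Tri K v (c i) (c (i + 1)) := by
    intro i
    refine ⟨(hne i).symm, (hne (i + 1)).symm, ?_, ?_⟩
    · intro he
      have := hinj he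
      exact h1 (by linear_combination - this)
    · exact ((hlk _).2 ⟨i, rfl⟩).1
  obtain ⟨j, hj⟩ : ∃ j, u = c j := by
    rcases key u w h with ⟨i, h, -⟩ | ⟨i, -, h⟩
    · exact ⟨i, h⟩
    · exact ⟨i + 1, h⟩
  have t1 : Tri K v u (c (j + 1)) := by rw [hj]; exact mk j
  have t2 : Tri K v u (c (j - 1)) := by
    have := (mk (j - 1)).s132
    rw [sub_add_cancel, ← hj] at this
    exact this
  have hdist : c (j + 1) ≠ c (j - 1) := by
    intro he
    have := hinj he
    exact h2 (by linear_combination this)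
  have all : ∀ x, Tri K v u x → x = c (j + 1) ∨ x = c (j - 1) := by
    intro x hx
    rcases key u x hx with ⟨i, h3, h4⟩ | ⟨i, h3, h4⟩
    · have : j = i := hinj (hj.symm.trans h3)
      left; rw [h4, this]
    · have : j = i + 1 := hinj (hj.symm.trans h4)
      right; rw [h3, this, add_sub_cancel_right]
  rcases all w h with hw | hw
  · exact ⟨c (j - 1), ⟨h, t2, by rw [hw]; exact hdist⟩, fun x hx => by
      rcases all x hx with h5 | h5
      · left; rw [h5, hw]
      · right; exact h5⟩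
  · exact ⟨c (j + 1), ⟨h, t1, by rw [hw]; exact hdist.symm⟩, fun x hx => by
      rcases all x hx with h5 | h5
      · right; exact h5
      · left; rw [h5, hw]⟩

theorem exists_quad {K : Surf V} {v u w : V} (h : Tri K v u w) : ∃ w', Quad K v u w w' := by
  obtain ⟨w', h1, -⟩ := link_pair h
  exact ⟨w', h1⟩

theorem Quad.cases {K : Surf V} {v u w w' x : V} (h : Quad K v u w w') (hx : Tri K v u x) :
    x = w ∨ x = w' := by
  obtain ⟨z, h1, h2⟩ := link_pair h.1
  rcases h2 w' h.2.1 with h3 | h3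
  · exact absurd h3.symm h.2.2
  · rw [h3]; exact h2 x hx

theorem Quad.uniq {K : Surf V} {v u w w' x : V} (h : Quad K v u w w') (hx : Quad K v u w x) :
    x = w' := by
  rcases h.cases hx.2.1 with h1 | h1
  · exact absurd h1.symm hx.2.2
  · exact h1

theorem exists_hex {K : Surf V} {v u w : V} (h : Tri K v u w) :
    ∃ v' u' w', Hex K v u w v' u' w' := by
  obtain ⟨v', h1⟩ := exists_quad h.s231
  obtain ⟨u', h2⟩ := exists_quad h.s132
  obtain ⟨w', h3⟩ := exists_quad h
  exact ⟨v', u', w', h1, h2, h3⟩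

theorem Act.flip {K : Surf V} {p : V → E3} {Φ : Finset Aff} {v u : V} (h : Act K p Φ v u) :
    Act K p Φ u v := by
  obtain ⟨w, h1, h2⟩ := h
  exact ⟨w, h1.s213, by rw [← ins_213]; exact h2⟩

/-- the support of a point of the body -/
theorem body_tri {K : Surf V} {x : V → ℝ} (hx : x ∈ K.body) {v : V} (hv : 0 < x v) :
    ∃ u w, Tri K v u w ∧ ∀ q, q ∉ ({v, u, w} : Finset V) → x q = 0 := by
  obtain ⟨-, -, t, ht, h⟩ := hx
  have hvt : v ∈ t := by
    by_contra hc
    exact hv.ne' (h v hc)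
  obtain ⟨u, w, h1, h2⟩ := exists_tri ht hvt
  exact ⟨u, w, h1, by rw [← h2]; exact h⟩

theorem body_exists {K : Surf V} {x : V → ℝ} (hx : x ∈ K.body) :
    ∃ v u w, Tri K v u w ∧ (∀ q, q ∉ ({v, u, w} : Finset V) → x q = 0) := by
  obtain ⟨-, -, t, ht, h⟩ := hx
  obtain ⟨v, u, w, h1, h2⟩ := exists_tri' ht
  exact ⟨v, u, w, h1, by rw [← h2]; exact h⟩

theorem sum_tri {x : V → ℝ} {M : Type} [AddCommMonoid M] [Module ℝ M] {v u w : V}
    (hvu : v ≠ u) (hvw : v ≠ w) (huw : u ≠ w)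
    (h : ∀ q, q ∉ ({v, u, w} : Finset V) → x q = 0) (f : V → M) :
    ∑ q, x q • f q = x v • f v + x u • f u + x w • f w := by
  have h1 : ∑ q, x q • f q = ∑ q ∈ ({v, u, w} : Finset V), x q • f q := by
    symm
    apply Finset.sum_subset (Finset.subset_univ _)
    intro q _ hq
    rw [h q hq, zero_smul]
  rw [h1, Finset.sum_insert (by simp [hvu, hvw]), Finset.sum_insert (by simp [huw]),
    Finset.sum_singleton, add_assoc]

/-- coordinates of a point supported in the triangle `v u w` -/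
theorem sum_one {K : Surf V} {x : V → ℝ} (hx : x ∈ K.body) {v u w : V} (ht : Tri K v u w)
    (h : ∀ q, q ∉ ({v, u, w} : Finset V) → x q = 0) : x v + x u + x w = 1 := by
  have h1 := sum_tri ht.1 ht.2.1 ht.2.2.1 h (fun _ => (1 : ℝ))
  simp only [smul_eq_mul, mul_one] at h1
  rw [← h1]; exact hx.2.1

theorem lin_tri {K : Surf V} {x : V → ℝ} (hx : x ∈ K.body) {v u w : V} (ht : Tri K v u w)
    (h : ∀ q, q ∉ ({v, u, w} : Finset V) → x q = 0) (p : V → E3) :
    lin p x = p v + x w • (p w - p v) + x u • (p u - p v) := by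
  have h1 := sum_tri ht.1 ht.2.1 ht.2.2.1 h p
  have h2 := sum_one hx ht h
  unfold lin
  rw [h1]
  have h3 : x v = 1 - x u - x w := by linarith
  rw [h3]
  module

theorem ev_lin' {K : Surf V} {x : V → ℝ} (hx : x ∈ K.body) (p : V → E3) (P : Aff) :
    ev P (lin p x) = ∑ q, x q * ev P (p q) := by
  have h1 : ∑ q, x q * ev P (p q) = (∑ q, x q * ⟪P.1, p q⟫) - P.2 := by
    simp only [ev_def, mul_sub, Finset.sum_sub_distrib, ← Finset.sum_mul, hx.2.1, one_mul]
  rw [h1, ev_def, lin, inner_sum]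
  simp only [inner_smul_right]

theorem body_nonneg {K : Surf V} {x : V → ℝ} (hx : x ∈ K.body) (v : V) : 0 ≤ x v := hx.1 v

theorem body_le_one {K : Surf V} {x : V → ℝ} (hx : x ∈ K.body) (v : V) : x v ≤ 1 := by
  rw [← hx.2.1]
  exact Finset.single_le_sum (f := x) (fun i _ => hx.1 i) (Finset.mem_univ v)

theorem body_le_two {K : Surf V} {x : V → ℝ} (hx : x ∈ K.body) {v u : V} (h : v ≠ u) :
    x v + x u ≤ 1 := by
  rw [← hx.2.1, ← Finset.sum_pair h]
  exact Finset.sum_le_sum_of_subset_of_nonneg (Finset.subset_univ _) (fun i _ _ => hx.1 i)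

theorem body_le_three {K : Surf V} {x : V → ℝ} (hx : x ∈ K.body) {v u w : V} (h : v ≠ u)
    (h' : v ≠ w) (h'' : u ≠ w) : x v + x u + x w ≤ 1 := by
  have : ∑ q ∈ ({v, u, w} : Finset V), x q = x v + x u + x w := by
    rw [Finset.sum_insert (by simp [h, h']), Finset.sum_pair h'', add_assoc]
  rw [← hx.2.1, ← this]
  exact Finset.sum_le_sum_of_subset_of_nonneg (Finset.subset_univ _) (fun i _ _ => hx.1 i)

theorem continuous_lin (p : V → E3) : Continuous (lin p) := by
  unfold lin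
  fun_prop

/-- the standard point of the triangle `v u w` -/
theorem pt_body {K : Surf V} {v u w : V} (h : Tri K v u w) {a c : ℝ} (ha : 0 ≤ a) (hc : 0 ≤ c)
    (hac : a + c ≤ 1) : ∃ x ∈ K.body, x v = 1 - a - c ∧ x w = a ∧ x u = c ∧
      ∀ q, q ∉ ({v, u, w} : Finset V) → x q = 0 := by
  refine ⟨fun q => if q = v then 1 - a - c else if q = w then a else if q = u then c else 0,
    ⟨fun q => ?_, ?_, {v, u, w}, h.2.2.2, fun q hq => ?_⟩, ?_, ?_, ?_, fun q hq => ?_⟩
  · dsimp only; split_ifs <;> linarith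
  · have h0 : ∀ q, q ∉ ({v, u, w} : Finset V) →
        (fun q => if q = v then 1 - a - c else if q = w then a else if q = u then c else 0) q
          = 0 := by
      intro q hq
      simp only [Finset.mem_insert, Finset.mem_singleton, not_or] at hq
      simp [hq.1, hq.2.1, hq.2.2]
    have h1 := sum_tri h.1 h.2.1 h.2.2.1 h0 (fun _ => (1 : ℝ))
    simp only [smul_eq_mul, mul_one] at h1
    rw [h1]
    simp [h.1.symm, h.2.1.symm, h.2.2.1]
  · simp only [Finset.mem_insert, Finset.mem_singleton, not_or] at hq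
    simp [hq.1, hq.2.1, hq.2.2]
  · simp
  · simp [h.2.1.symm]
  · simp [h.1.symm, h.2.2.1]
  · simp only [Finset.mem_insert, Finset.mem_singleton, not_or] at hq
    simp [hq.1, hq.2.1, hq.2.2]

/-! ### cross products -/

theorem crs_smul_left (s : ℝ) (a b : E3) : crs (s • a) b = s • crs a b := by
  rw [crs_eq, crs_eq]
  apply ext3 <;> simp only [cr_zero, cr_one, cr_two, PiLp.smul_apply, smul_eq_mul] <;> ring

theorem crs_anti (a b : E3) : crs a b = - crs b a := by
  rw [crs_eq, crs_eq]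
  apply ext3 <;> simp only [cr_zero, cr_one, cr_two, PiLp.neg_apply] <;> ring

theorem crs_move (a b : E3) : crs (-a) (b - a) = - crs a b := by
  rw [crs_eq, crs_eq]
  apply ext3 <;> simp only [cr_zero, cr_one, cr_two, PiLp.neg_apply, PiLp.sub_apply] <;> ring

theorem inner_crs_left (a b : E3) : ⟪crs a b, a⟫ = 0 := by
  rw [inner_crs]; simp only [det3]; ring

theorem inner_crs_right (a b : E3) : ⟪crs a b, b⟫ = 0 := by
  rw [inner_crs]; simp only [det3]; ring

/-! ### the planes of the triangles -/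

/-- `crs` of a triangle up to sign, for all orders of the vertices -/
theorem crs_perm (p : V → E3) {a b c v u w : V} (h : ({a, b, c} : Finset V) = {v, u, w})
    (hab : a ≠ b) (hac : a ≠ c) (hbc : b ≠ c) (hvu : v ≠ u) (hvw : v ≠ w) (huw : u ≠ w) :
    ∃ s : ℝ, (s = 1 ∨ s = -1) ∧
      crs (p b - p a) (p c - p a) = s • crs (p u - p v) (p w - p v) := by
  have ha : a ∈ ({v, u, w} : Finset V) := by rw [← h]; simp
  have hb : b ∈ ({v, u, w} : Finset V) := by rw [← h]; simp
  have hc : c ∈ ({v, u, w} : Finset V) := by rw [← h]; simp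
  simp only [Finset.mem_insert, Finset.mem_singleton] at ha hb hc
  have e1 : ∀ x y z : E3, crs (y - x) (z - x) = (1 : ℝ) • crs (y - x) (z - x) := fun x y z => by
    rw [one_smul]
  have e2 : ∀ x y z : E3, crs (z - x) (y - x) = (-1 : ℝ) • crs (y - x) (z - x) := fun x y z => by
    rw [crs_anti]; module
  have e3 : ∀ x y z : E3, crs (x - y) (z - y) = (-1 : ℝ) • crs (y - x) (z - x) := fun x y z => by
    rw [crs_eq, crs_eq]
    apply ext3 <;> simp only [cr_zero, cr_one, cr_two, PiLp.smul_apply, PiLp.sub_apply,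
      smul_eq_mul] <;> ring
  have e4 : ∀ x y z : E3, crs (z - y) (x - y) = (1 : ℝ) • crs (y - x) (z - x) := fun x y z => by
    rw [crs_eq, crs_eq]
    apply ext3 <;> simp only [cr_zero, cr_one, cr_two, PiLp.smul_apply, PiLp.sub_apply,
      smul_eq_mul] <;> ring
  have e5 : ∀ x y z : E3, crs (x - z) (y - z) = (1 : ℝ) • crs (y - x) (z - x) := fun x y z => by
    rw [crs_eq, crs_eq]
    apply ext3 <;> simp only [cr_zero, cr_one, cr_two, PiLp.smul_apply, PiLp.sub_apply,
      smul_eq_mul] <;> ring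
  have e6 : ∀ x y z : E3, crs (y - z) (x - z) = (-1 : ℝ) • crs (y - x) (z - x) := fun x y z => by
    rw [crs_eq, crs_eq]
    apply ext3 <;> simp only [cr_zero, cr_one, cr_two, PiLp.smul_apply, PiLp.sub_apply,
      smul_eq_mul] <;> ring
  rcases ha with rfl | rfl | rfl <;> rcases hb with rfl | rfl | rfl <;>
    rcases hc with rfl | rfl | rfl <;>
    first
    | exact absurd rfl hab
    | exact absurd rfl hac
    | exact absurd rfl hbc
    | exact ⟨1, Or.inl rfl, e1 _ _ _⟩
    | exact ⟨-1, Or.inr rfl, e2 _ _ _⟩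
    | exact ⟨-1, Or.inr rfl, e3 _ _ _⟩
    | exact ⟨1, Or.inl rfl, e4 _ _ _⟩
    | exact ⟨1, Or.inl rfl, e5 _ _ _⟩
    | exact ⟨-1, Or.inr rfl, e6 _ _ _⟩

theorem pl0_spec (p : V → E3) {v u w : V} (hvu : v ≠ u) (hvw : v ≠ w) (huw : u ≠ w) :
    ∃ s : ℝ, (s = 1 ∨ s = -1) ∧ (pl0 p {v, u, w}).1 = s • crs (p u - p v) (p w - p v) ∧
      (pl0 p {v, u, w}).2 = ⟪(pl0 p {v, u, w}).1, p v⟫ := by
  have h : ∃ q : V × V × V, ({v, u, w} : Finset V) = {q.1, q.2.1, q.2.2} ∧ q.1 ≠ q.2.1 ∧
      q.1 ≠ q.2.2 ∧ q.2.1 ≠ q.2.2 := ⟨(v, u, w), rfl, hvu, hvw, huw⟩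
  have hp : pl0 p {v, u, w} =
      (crs (p h.choose.2.1 - p h.choose.1) (p h.choose.2.2 - p h.choose.1),
      ⟪crs (p h.choose.2.1 - p h.choose.1) (p h.choose.2.2 - p h.choose.1), p h.choose.1⟫) := by
    unfold pl0
    rw [dif_pos h]
  obtain ⟨h1, h2, h3, h4⟩ := h.choose_spec
  set a := h.choose.1 with ha
  set b := h.choose.2.1 with hb
  set c := h.choose.2.2 with hc
  obtain ⟨s, hs, he⟩ := crs_perm p h1.symm h2 h3 h4 hvu hvw huw
  refine ⟨s, hs, by rw [hp]; exact he, ?_⟩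
  rw [hp]
  dsimp only
  have hv : v ∈ ({a, b, c} : Finset V) := by rw [← h1]; simp
  simp only [Finset.mem_insert, Finset.mem_singleton] at hv
  have h5 : ⟪crs (p b - p a) (p c - p a), p v - p a⟫ = 0 := by
    rcases hv with hv | hv | hv
    · rw [hv, sub_self, inner_zero_right]
    · rw [hv, inner_crs_left]
    · rw [hv, inner_crs_right]
  rw [inner_sub_right] at h5
  linarith

theorem ev_pl0_self (p : V → E3) {v u w : V} (hvu : v ≠ u) (hvw : v ≠ w) (huw : u ≠ w) :
    ev (pl0 p {v, u, w}) (p v) = 0 := by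
  obtain ⟨s, -, -, h⟩ := pl0_spec p hvu hvw huw
  rw [ev_def, h, sub_self]

theorem ev_pl0 (p : V → E3) {v u w : V} (hvu : v ≠ u) (hvw : v ≠ w) (huw : u ≠ w) :
    ev (pl0 p {v, u, w}) (p v) = 0 ∧ ev (pl0 p {v, u, w}) (p u) = 0 ∧
      ev (pl0 p {v, u, w}) (p w) = 0 := by
  refine ⟨ev_pl0_self p hvu hvw huw, ?_, ?_⟩
  · rw [ins_213]; exact ev_pl0_self p hvu.symm huw hvw
  · rw [ins_132, ins_213]; exact ev_pl0_self p hvw.symm huw.symm hvu

theorem inner_pl0 (p : V → E3) {v u w : V} (hvu : v ≠ u) (hvw : v ≠ w) (huw : u ≠ w) :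
    ⟪(pl0 p {v, u, w}).1, p u - p v⟫ = 0 ∧ ⟪(pl0 p {v, u, w}).1, p w - p v⟫ = 0 := by
  obtain ⟨h1, h2, h3⟩ := ev_pl0 p hvu hvw huw
  rw [← ev_sub_pt, ← ev_sub_pt, h1, h2, h3]
  simp

theorem inner_pl0_pt (p : V → E3) {v u w : V} (hvu : v ≠ u) (hvw : v ≠ w) (huw : u ≠ w)
    (y : E3) : ⟪(pl0 p {v, u, w}).1, y - p v⟫ = ev (pl0 p {v, u, w}) y := by
  rw [← ev_sub_pt, ev_pl0_self p hvu hvw huw, sub_zero]

theorem sg_eq (p : V → E3) {v u w : V} (hvu : v ≠ u) (hvw : v ≠ w) (huw : u ≠ w) (q : V) :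
    sg p {v, u, w} v q = Real.sign (ev (pl0 p {v, u, w}) (p q)) := by
  unfold sg
  rw [inner_pl0_pt p hvu hvw huw]

theorem sg_213 (p : V → E3) {v u w : V} (hvu : v ≠ u) (hvw : v ≠ w) (huw : u ≠ w) (q : V) :
    sg p {u, v, w} u q = sg p {v, u, w} v q := by
  rw [sg_eq p hvu hvw huw, sg_eq p hvu.symm huw hvw, ins_213]

theorem sg_132 (p : V → E3) {v u w : V} (_ : v ≠ u) (_ : v ≠ w) (_ : u ≠ w) (q : V) :
    sg p {v, w, u} v q = sg p {v, u, w} v q := by
  rw [ins_132]

theorem nIn_213 (p : V → E3) {v u w : V} (hvu : v ≠ u) (hvw : v ≠ w) (huw : u ≠ w) (q : V) :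
    nIn p u v w q = nIn p v u w q := by
  unfold nIn
  rw [sg_213 p hvu hvw huw, ins_213]

theorem nIn_132 (p : V → E3) {v u w : V} (q : V) :
    nIn p v w u q = nIn p v u w q := by
  unfold nIn
  rw [ins_132]

theorem bE_flip (p : V → E3) {v u w w' : V} (hvu : v ≠ u) (hvw : v ≠ w) (huw : u ≠ w)
    (hvw' : v ≠ w') (huw' : u ≠ w') : bE p u v w w' = bE p v u w w' := by
  unfold bE
  rw [nIn_213 p hvu hvw huw, nIn_213 p hvu hvw' huw']

theorem bE_swap (p : V → E3) (v u w w' : V) : bE p v u w' w = bE p v u w w' := by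
  unfold bE
  rw [real_inner_comm, add_comm (nIn p v u w' w)]

theorem Quad.bE_flip {K : Surf V} {v u w w' : V} (h : Quad K v u w w') (p : V → E3) :
    bE p u v w w' = bE p v u w w' :=
  TSR2.bE_flip p h.1.1 h.1.2.1 h.1.2.2.1 h.2.1.2.1 h.2.1.2.2.1

/-! ### nondegenerate triangles -/

theorem tri_indep {K : Surf V} {p : V → E3} (h : K.EmbStars p) {v u w : V}
    (ht : Tri K v u w) : Indep2 (p u - p v) (p w - p v) := by
  by_contra hne
  unfold Indep2 at hne
  push Not at hne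
  obtain ⟨a, b, hab, hne⟩ := hne
  -- a small step from the barycentre
  obtain ⟨s, hs0, hsa, hsb⟩ : ∃ s : ℝ, 0 < s ∧ s * |a| ≤ 1 / 12 ∧ s * |b| ≤ 1 / 12 := by
    refine ⟨1 / (12 * (|a| + |b| + 1)), by positivity, ?_, ?_⟩
    · have : 0 ≤ |b| := abs_nonneg b
      have : 0 ≤ |a| := abs_nonneg a
      rw [div_mul_eq_mul_div, div_le_div_iff₀ (by positivity) (by norm_num)]
      nlinarith
    · have : 0 ≤ |b| := abs_nonneg b
      have : 0 ≤ |a| := abs_nonneg a
      rw [div_mul_eq_mul_div, div_le_div_iff₀ (by positivity) (by norm_num)]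
      nlinarith
  have habs : ∀ x : ℝ, s * |x| ≤ 1 / 12 → -(1 / 12) ≤ s * x ∧ s * x ≤ 1 / 12 := by
    intro x hx
    have : |s * x| ≤ 1 / 12 := by rw [abs_mul, abs_of_pos hs0]; exact hx
    exact abs_le.1 this
  obtain ⟨ha1, ha2⟩ := habs a hsa
  obtain ⟨hb1, hb2⟩ := habs b hsb
  obtain ⟨x, hx, hx1, hx2, hx3, hx4⟩ := pt_body ht (a := 1 / 3) (c := 1 / 3) (by norm_num)
    (by norm_num) (by norm_num)
  obtain ⟨y, hy, hy1, hy2, hy3, hy4⟩ := pt_body ht (a := 1 / 3 + s * b) (c := 1 / 3 + s * a)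
    (by linarith) (by linarith) (by linarith)
  have hst : ∀ z ∈ K.body, (∀ q, q ∉ ({v, u, w} : Finset V) → z q = 0) → z ∈ K.star v := by
    intro z hz hz4
    exact ⟨hz.1, hz.2.1, {v, u, w}, ht.2.2.2, by simp, hz4⟩
  have heq : lin p x = lin p y := by
    rw [lin_tri hx ht hx4, lin_tri hy ht hy4, hx2, hx3, hy2, hy3]
    have h1 : s • (a • (p u - p v) + b • (p w - p v)) = 0 := by rw [hab, smul_zero]
    have h2 : p v + (1 / 3 + s * b) • (p w - p v) + (1 / 3 + s * a) • (p u - p v) =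
        (p v + (1 / 3 : ℝ) • (p w - p v) + (1 / 3 : ℝ) • (p u - p v)) +
          s • (a • (p u - p v) + b • (p w - p v)) := by module
    rw [h2, h1, add_zero]
  have hxy := h v (hst x hx hx4) (hst y hy hy4) heq
  have e1 : s * b = 0 := by
    have := congrFun hxy w
    rw [hx2, hy2] at this
    linarith
  have e2 : s * a = 0 := by
    have := congrFun hxy u
    rw [hx3, hy3] at this
    linarith
  exact hne ((mul_eq_zero.1 e2).resolve_left hs0.ne') ((mul_eq_zero.1 e1).resolve_left hs0.ne')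

theorem crs_ne {K : Surf V} {p : V → E3} (h : K.EmbStars p) {v u w : V}
    (ht : Tri K v u w) : crs (p u - p v) (p w - p v) ≠ 0 := cr_ne_zero (tri_indep h ht)

theorem pl0_ne {K : Surf V} {p : V → E3} (h : K.EmbStars p) {v u w : V}
    (ht : Tri K v u w) : (pl0 p {v, u, w}).1 ≠ 0 := by
  obtain ⟨s, hs, h1, -⟩ := pl0_spec p ht.1 ht.2.1 ht.2.2.1
  rw [h1]
  have hs0 : s ≠ 0 := by rcases hs with rfl | rfl <;> norm_num
  exact smul_ne_zero hs0 (crs_ne h ht)

/-! ### hinges: two triangles which are not coplanar -/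

theorem sign_mul_self_pos {x : ℝ} (h : x ≠ 0) : 0 < Real.sign x * x := by
  rcases lt_or_gt_of_ne h with h | h
  · rw [Real.sign_of_neg h]; linarith
  · rw [Real.sign_of_pos h]; linarith

theorem sign_sq {x : ℝ} (h : x ≠ 0) : Real.sign x * Real.sign x = 1 := by
  rcases lt_or_gt_of_ne h with h | h
  · rw [Real.sign_of_neg h]; norm_num
  · rw [Real.sign_of_pos h]; norm_num

theorem sign_one {x : ℝ} (h : x ≠ 0) : Real.sign x = 1 ∨ Real.sign x = -1 := by
  rcases lt_or_gt_of_ne h with h | h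
  · right; exact Real.sign_of_neg h
  · left; exact Real.sign_of_pos h

/-- the volume of the hinge -/
theorem ev_pl0_det (p : V → E3) {v u w : V} (hvu : v ≠ u) (hvw : v ≠ w) (huw : u ≠ w) :
    ∃ s : ℝ, (s = 1 ∨ s = -1) ∧ (∀ y, ev (pl0 p {v, u, w}) y =
      s * det3 (p u - p v) (p w - p v) (y - p v)) := by
  obtain ⟨s, hs, h1, h2⟩ := pl0_spec p hvu hvw huw
  refine ⟨s, hs, fun y => ?_⟩
  rw [← inner_pl0_pt p hvu hvw huw, h1, inner_smul_left, inner_crs]
  simp

/-- `w'` is not in the plane of `v u w` -/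
def Bent (p : V → E3) (v u w w' : V) : Prop := det3 (p u - p v) (p w - p v) (p w' - p v) ≠ 0

theorem Bent.swap {p : V → E3} {v u w w' : V} (h : Bent p v u w w') : Bent p v u w' w := by
  unfold Bent at *
  intro h0
  apply h
  simp only [det3] at *
  linarith

theorem Bent.flip {p : V → E3} {v u w w' : V} (h : Bent p v u w w') : Bent p u v w w' := by
  unfold Bent at *
  intro h0
  apply h
  simp only [det3, PiLp.sub_apply] at *
  linarith

theorem Bent.ev_ne {p : V → E3} {v u w w' : V} (h : Bent p v u w w')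
    (hvu : v ≠ u) (hvw : v ≠ w) (huw : u ≠ w) : ev (pl0 p {v, u, w}) (p w') ≠ 0 := by
  obtain ⟨s, hs, h1⟩ := ev_pl0_det p hvu hvw huw
  rw [h1]
  have hs0 : s ≠ 0 := by rcases hs with rfl | rfl <;> norm_num
  exact mul_ne_zero hs0 h

theorem norm_nIn {p : V → E3} {v u w w' : V} (h : Bent p v u w w')
    (hvu : v ≠ u) (hvw : v ≠ w) (huw : u ≠ w) (hn : (pl0 p {v, u, w}).1 ≠ 0) :
    ‖nIn p v u w w'‖ = 1 := by
  unfold nIn
  rw [sg_eq p hvu hvw huw, norm_smul, norm_mul, norm_inv, norm_norm]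
  have h1 : ‖Real.sign (ev (pl0 p {v, u, w}) (p w'))‖ = 1 := by
    rcases sign_one (h.ev_ne hvu hvw huw) with h | h <;> rw [h] <;> simp
  rw [h1, one_mul, inv_mul_cancel₀ (norm_ne_zero_iff.2 hn)]

theorem inner_nIn_pos {p : V → E3} {v u w w' : V} (h : Bent p v u w w')
    (hvu : v ≠ u) (hvw : v ≠ w) (huw : u ≠ w) (hn : (pl0 p {v, u, w}).1 ≠ 0) :
    0 < ⟪nIn p v u w w', p w' - p v⟫ := by
  unfold nIn
  rw [sg_eq p hvu hvw huw, inner_smul_left, inner_pl0_pt p hvu hvw huw]
  simp only [RCLike.conj_to_real]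
  have h1 := sign_mul_self_pos (h.ev_ne hvu hvw huw)
  have h2 : 0 < ‖(pl0 p {v, u, w}).1‖⁻¹ := inv_pos.2 (norm_pos_iff.2 hn)
  calc (0 : ℝ) < ‖(pl0 p {v, u, w}).1‖⁻¹ * (Real.sign (ev (pl0 p {v, u, w}) (p w')) *
        ev (pl0 p {v, u, w}) (p w')) := mul_pos h2 h1
    _ = _ := by ring

theorem inner_nIn_zero (p : V → E3) {v u w : V} (w' : V)
    (hvu : v ≠ u) (hvw : v ≠ w) (huw : u ≠ w) :
    ⟪nIn p v u w w', p u - p v⟫ = 0 ∧ ⟪nIn p v u w w', p w - p v⟫ = 0 := by
  obtain ⟨h1, h2⟩ := inner_pl0 p hvu hvw huw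
  unfold nIn
  rw [inner_smul_left, inner_smul_left, h1, h2]
  simp

/-- the normal of the triangle is `nIn` up to the sign `sg` -/
theorem nt_eq {p : V → E3} {v u w w' : V} (h : Bent p v u w w')
    (hvu : v ≠ u) (hvw : v ≠ w) (huw : u ≠ w) :
    nt p {v, u, w} = sg p {v, u, w} v w' • nIn p v u w w' := by
  unfold nIn nt
  rw [sg_eq p hvu hvw huw, smul_smul, ← mul_assoc, sign_sq (h.ev_ne hvu hvw huw), one_mul]

/-- the two normals at a hinge are not opposite -/
theorem nIn_dot {p : V → E3} {v u w w' : V} (h : Bent p v u w w')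
    (hvu : v ≠ u) (hvw : v ≠ w) (huw : u ≠ w) (hvw' : v ≠ w') (huw' : u ≠ w')
    (hn : (pl0 p {v, u, w}).1 ≠ 0) (hn' : (pl0 p {v, u, w'}).1 ≠ 0) :
    0 < 1 + ⟪nIn p v u w w', nIn p v u w' w⟫ := by
  have h1 := norm_nIn h hvu hvw huw hn
  have h2 := norm_nIn h.swap hvu hvw' huw' hn'
  have h3 : nIn p v u w w' + nIn p v u w' w ≠ 0 := by
    intro h0
    have h4 := inner_nIn_pos h hvu hvw huw hn
    have h5 := (inner_nIn_zero p w hvu hvw' huw').2
    have h6 : ⟪nIn p v u w w' + nIn p v u w' w, p w' - p v⟫ = 0 := by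
      rw [h0, inner_zero_left]
    rw [inner_add_left, h5, add_zero] at h6
    linarith
  have h4 : 0 < ⟪nIn p v u w w' + nIn p v u w' w, nIn p v u w w' + nIn p v u w' w⟫ :=
    inner_self_pos h3
  rw [inner_add_left, inner_add_right, inner_add_right, real_inner_self_eq_norm_sq,
    real_inner_self_eq_norm_sq, h1, h2, real_inner_comm] at h4
  rw [real_inner_comm]
  linarith

theorem inner_bE {p : V → E3} {v u w w' : V} (h : Bent p v u w w')
    (hvu : v ≠ u) (hvw : v ≠ w) (huw : u ≠ w) (hvw' : v ≠ w') (huw' : u ≠ w')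
    (hn : (pl0 p {v, u, w}).1 ≠ 0) (hn' : (pl0 p {v, u, w'}).1 ≠ 0) :
    ⟪nIn p v u w w', bE p v u w w'⟫ = 1 := by
  have h1 := norm_nIn h hvu hvw huw hn
  have h2 := nIn_dot h hvu hvw huw hvw' huw' hn hn'
  unfold bE
  rw [inner_smul_right, inner_add_right, real_inner_self_eq_norm_sq, h1, one_pow]
  field_simp

end

end Pool.Agent.TSR2
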