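import Pool.Agent.TSR2.EDefs

/-!
# TSR2: the data of the selection, bundled; the edges of the surface as abstract edges
-/

set_option autoImplicit false

open scoped RealInnerProductSpace

namespace Pool.Agent.TSR2

open Pool.Agent.TSM Pool.Agent.TSP Set Filter Topology

/-- the selected data: chamfers, their normals, signs, offsets, planes of the triangles -/
structure Dat (V : Type) where
  Ch : V → V → Finset ℕ
  N : V → ℕ → E3
  ω : V → V → ℝ
  oN : V → ℕ → ℝ
  Q : Finset V → Aff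

section
variable {V : Type} [Fintype V] [DecidableEq V]

def Dat.Sel (G : Dat V) (K : Surf V) (p : V → E3) (Φ : Finset Aff) (δ c₀ ε : ℝ) : Prop :=
  TSR2.Sel K p Φ δ c₀ ε G.Ch G.N G.ω G.oN G.Q

/-- the map near the edge `v u` -/
noncomputable def Dat.De (G : Dat V) (K : Surf V) (p : V → E3) (r : ℝ) (v u : V)
    (x : V → ℝ) : E3 :=
  TSR2.De K p G.N G.oN G.ω G.Ch G.Q r v u x

/-- the map on the triangle `t` -/
noncomputable def Dat.Df (G : Dat V) (K : Surf V) (p : V → E3) (r : ℝ) (t : Finset V)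
    (x : V → ℝ) : E3 :=
  TSR2.Df K p G.Q r t x

/-- `Dv` are resolutions of all non-outer vertices at scale `r` -/
def Dat.Core (G : Dat V) (K : Surf V) (p : V → E3) (Φ : Finset Aff) (δ R M r : ℝ)
    (Dv : V → E3 → E3) : Prop :=
  ∀ v, ¬ K.Outer p Φ v → VOut K p Φ v δ R M (G.Ch v) (G.ω v)
    (fun t => scl (p v) r (prl p G.Q r t)) (fun n => scl (p v) r (brl p G.N G.oN r v n)) (Dv v)

/-- the edge `v u` with third vertices `w`, `w'` as an abstract edge -/
noncomputable def Dat.ed (G : Dat V) (p : V → E3) (v u w w' : V) :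
    Ed {n // n ∈ G.Ch v u} {n // n ∈ G.Ch u v} where
  v := p v
  u := p u
  w := p w
  w' := p w'
  b := bE p v u w w'
  α₀ := ar p G.Q 0 v u w w'
  α₁ := sg p {v, u, w} v w' • G.Q {v, u, w}
  β₀ := ar p G.Q 0 v u w' w
  β₁ := sg p {v, u, w'} v w • G.Q {v, u, w'}
  ζ₀ := zr p G.N G.oN G.ω G.Ch 0 v u
  ζ₁ := fun n => G.ω v u • ((0, G.oN v n) : Aff)
  ξ₀ := zr p G.N G.oN G.ω G.Ch 0 u v
  ξ₁ := fun n => G.ω u v • ((0, G.oN u n) : Aff)

theorem Dat.ed_α (G : Dat V) (p : V → E3) (v u w w' : V) (r : ℝ) :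
    (G.ed p v u w w').α r = ar p G.Q r v u w w' := by
  unfold Ed.α Dat.ed ar prl
  simp only [zero_smul, add_zero, smul_add]
  rw [smul_comm]

theorem Dat.ed_β (G : Dat V) (p : V → E3) (v u w w' : V) (r : ℝ) :
    (G.ed p v u w w').β r = ar p G.Q r v u w' w := by
  unfold Ed.β Dat.ed ar prl
  simp only [zero_smul, add_zero, smul_add]
  rw [smul_comm]

theorem Dat.ed_ζ (G : Dat V) (p : V → E3) (v u w w' : V) (r : ℝ) :
    (G.ed p v u w w').ζ r = zr p G.N G.oN G.ω G.Ch r v u := by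
  funext n
  unfold Ed.ζ Dat.ed zr brl
  apply Prod.ext
  · simp
  · simp only [Prod.smul_mk, Prod.mk_add_mk, smul_eq_mul, zero_mul, add_zero]
    ring

theorem Dat.ed_ξ (G : Dat V) (p : V → E3) (v u w w' : V) (r : ℝ) :
    (G.ed p v u w w').ξ r = zr p G.N G.oN G.ω G.Ch r u v := by
  funext n
  unfold Ed.ξ Dat.ed zr brl
  apply Prod.ext
  · simp
  · simp only [Prod.smul_mk, Prod.mk_add_mk, smul_eq_mul, zero_mul, add_zero]
    ring

theorem Dat.Sel.ok {G : Dat V} {K : Surf V} {p : V → E3} {Φ : Finset Aff} {δ c₀ ε : ℝ}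
    (h : G.Sel K p Φ δ c₀ ε) {v u w w' : V} (hq : Quad K v u w w') (ha : Act K p Φ v u) :
    (G.ed p v u w w').Ok δ c₀ ε := h.eok v u w w' hq ha

theorem Dat.Sel.nonempty {G : Dat V} {K : Surf V} {p : V → E3} {Φ : Finset Aff} {δ c₀ ε : ℝ}
    (h : G.Sel K p Φ δ c₀ ε) {v u : V} (ha : Act K p Φ v u) :
    Nonempty {n // n ∈ G.Ch v u} ∧ Nonempty {n // n ∈ G.Ch u v} :=
  ⟨(h.ne v u ha).to_subtype, (h.ne u v ha.flip).to_subtype⟩

/-- the point of the triangle `v u w` in the coordinates of the abstract edge -/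
theorem Dat.ed_pt (G : Dat V) {K : Surf V} {p : V → E3} {v u w w' : V} (ht : Tri K v u w)
    {x : V → ℝ} (hx : x ∈ K.body) (hs : ∀ q, q ∉ ({v, u, w} : Finset V) → x q = 0) :
    lin p x = (G.ed p v u w w').pt (x w) (x u) := by
  rw [lin_tri hx ht hs]
  rfl

/-- coordinates in the edge zone -/
theorem inE_of_EZ {K : Surf V} {δ ρ : ℝ} {v u w : V} (ht : Tri K v u w) {x : V → ℝ}
    (hx : x ∈ EZ K δ ρ v u) (hs : ∀ q, q ∉ ({v, u, w} : Finset V) → x q = 0) (hδ : 0 ≤ δ) :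
    InE δ ρ (x w) (x u) := by
  obtain ⟨h0, h1, h2, h3, h4, h5⟩ := hx
  have h6 := sum_one h0 ht hs
  have h7 := body_nonneg h0 w
  have h8 := body_nonneg h0 u
  have h9 := body_nonneg h0 v
  have m1 : 2 * δ * min (x v) (x u) ≤ 2 * δ * x u :=
    mul_le_mul_of_nonneg_left (min_le_right _ _) (by linarith)
  have m2 : 2 * δ * min (x v) (x u) ≤ 2 * δ * x v :=
    mul_le_mul_of_nonneg_left (min_le_left _ _) (by linarith)
  have e1 : 1 - x w - x u = x v := by linarith
  refine ⟨h7, h8, by linarith, by linarith, ?_, by linarith, by linarith⟩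
  rw [e1]
  linarith

/-- a point of the edge zone lies in one of the two triangles at the edge -/
theorem EZ_tri {K : Surf V} {δ ρ : ℝ} {v u w w' : V} (hq : Quad K v u w w') {x : V → ℝ}
    (hx : x ∈ K.body) (hv : 0 < x v) (hu : 0 < x u) :
    (∀ q, q ∉ ({v, u, w} : Finset V) → x q = 0) ∨ (∀ q, q ∉ ({v, u, w'} : Finset V) → x q = 0)
    := by
  obtain ⟨a, b, ht, hs⟩ := body_tri hx hv
  have hu' : u ∈ ({v, a, b} : Finset V) := by
    by_contra hc
    exact hu.ne' (hs u hc)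
  simp only [Finset.mem_insert, Finset.mem_singleton] at hu'
  rcases hu' with h | h | h
  · exact absurd h hq.1.1.symm
  · subst h
    rcases hq.cases ht with h | h
    · left; rw [← h]; exact hs
    · right; rw [← h]; exact hs
  · subst h
    rcases hq.cases ht.s132 with h | h
    · left; rw [← h, ins_132]; exact hs
    · right; rw [← h, ins_132]; exact hs

theorem Dat.ed_swap (G : Dat V) (p : V → E3) (v u w w' : V) :
    G.ed p v u w' w = (G.ed p v u w w').swap := by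
  unfold Dat.ed Ed.swap
  rw [bE_swap]

theorem Dat.ed_flip (G : Dat V) {K : Surf V} (p : V → E3) {v u w w' : V}
    (hq : Quad K v u w w') : G.ed p u v w w' = (G.ed p v u w w').flip := by
  unfold Dat.ed Ed.flip ar
  simp only
  rw [hq.bE_flip, sg_213 p hq.1.1 hq.1.2.1 hq.1.2.2.1, sg_213 p hq.1.1 hq.2.1.2.1 hq.2.1.2.2.1,
    ins_213 u v w, ins_213 u v w']

theorem Dat.De_eq (G : Dat V) {K : Surf V} (p : V → E3) {v u w w' : V} (hq : Quad K v u w w')
    [Nonempty {n // n ∈ G.Ch v u}] [Nonempty {n // n ∈ G.Ch u v}] (r : ℝ) (x : V → ℝ) :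
    G.De K p r v u x = (G.ed p v u w w').D r (lin p x) := by
  have h : ∃ q : V × V, Quad K v u q.1 q.2 ∧ (G.Ch v u).Nonempty ∧ (G.Ch u v).Nonempty :=
    ⟨(w, w'), hq, Finset.nonempty_coe_sort.1 ‹_›, Finset.nonempty_coe_sort.1 ‹_›⟩
  have h1 : G.De K p r v u x = (G.ed p v u h.choose.1 h.choose.2).D r (lin p x) := by
    unfold Dat.De TSR2.De
    rw [dif_pos h]
    unfold Ed.D Ed.t
    rw [Dat.ed_α, Dat.ed_β, Dat.ed_ζ, Dat.ed_ξ]
    rfl
  rw [h1]
  have h2 := h.choose_spec.1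
  have h3 := hq.cases h2.1
  rcases h3 with h3 | h3
  · have h4 : h.choose.2 = w' := by
      apply hq.uniq
      rw [← h3]; exact h2
    rw [h3, h4]
  · have h4 : h.choose.2 = w := by
      apply hq.swap.uniq
      rw [← h3]; exact h2
    rw [h3, h4, Dat.ed_swap, Ed.swap_D]

theorem Dat.De_symm (G : Dat V) {K : Surf V} (p : V → E3) {v u w w' : V}
    (hq : Quad K v u w w')
    [Nonempty {n // n ∈ G.Ch v u}] [Nonempty {n // n ∈ G.Ch u v}] (r : ℝ) (x : V → ℝ) :
    G.De K p r v u x = G.De K p r u v x := by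
  rw [G.De_eq p hq, G.De_eq p hq.flip, G.ed_flip p hq, Ed.flip_D]

theorem Hex.s1 {K : Surf V} {v u w v' u' w' : V} (h : Hex K v u w v' u' w') :
    Hex K u v w u' v' w' := ⟨h.2.1, h.1, h.2.2.flip⟩

theorem Hex.s2 {K : Surf V} {v u w v' u' w' : V} (h : Hex K v u w v' u' w') :
    Hex K v w u v' w' u' := ⟨h.1.flip, h.2.2, h.2.1⟩

theorem bH_s1 {K : Surf V} {v u w v' u' w' : V} (h : Hex K v u w v' u' w') (p : V → E3)
    (x : V → ℝ) : bH p u v w u' v' w' x = bH p v u w v' u' w' x := by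
  unfold bH
  have t := h.2.2.1
  rw [h.2.2.bE_flip, sg_213 p t.1 t.2.1 t.2.2.1, ins_213 u v w, min_comm (x u) (x v)]
  have e1 : sg p {v, u, w} u v' = sg p {v, u, w} u v' := rfl
  module

theorem bH_s2 {K : Surf V} {v u w v' u' w' : V} (h : Hex K v u w v' u' w') (p : V → E3)
    (x : V → ℝ) : bH p v w u v' w' u' x = bH p v u w v' u' w' x := by
  unfold bH
  have t := h.2.2.1
  have t1 := t.s231
  have e1 : sg p {v, w, u} w v' = sg p {v, u, w} u v' := by
    have h1 : ({v, w, u} : Finset V) = {w, u, v} := by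
      ext y; simp only [Finset.mem_insert, Finset.mem_singleton]; tauto
    have h2 : ({v, u, w} : Finset V) = {u, w, v} := by
      ext y; simp only [Finset.mem_insert, Finset.mem_singleton]; tauto
    rw [h1, h2]
    exact sg_213 p t1.1 t1.2.1 t1.2.2.1 v'
  rw [e1, h.1.bE_flip, ins_132 v w u, min_comm (x w) (x u)]
  module

theorem Hex.uniq {K : Surf V} {v u w v' u' w' a b c : V} (h : Hex K v u w v' u' w')
    (h' : Hex K v u w a b c) : a = v' ∧ b = u' ∧ c = w' :=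
  ⟨h.1.uniq h'.1, h.2.1.uniq h'.2.1, h.2.2.uniq h'.2.2⟩

theorem bH_hex {K : Surf V} {v u w v' u' w' a b c a' b' c' : V} (h : Hex K v u w v' u' w')
    (h' : Hex K a b c a' b' c') (he : ({a, b, c} : Finset V) = {v, u, w}) (p : V → E3)
    (x : V → ℝ) : bH p a b c a' b' c' x = bH p v u w v' u' w' x := by
  have ha : a ∈ ({v, u, w} : Finset V) := by rw [← he]; simp
  have hb : b ∈ ({v, u, w} : Finset V) := by rw [← he]; simp
  have hc : c ∈ ({v, u, w} : Finset V) := by rw [← he]; simp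
  have t' := h'.2.2.1
  have hab := t'.1
  have hac := t'.2.1
  have hbc := t'.2.2.1
  simp only [Finset.mem_insert, Finset.mem_singleton] at ha hb hc
  rcases ha with rfl | rfl | rfl <;> rcases hb with rfl | rfl | rfl <;>
    rcases hc with rfl | rfl | rfl <;>
    first
    | exact absurd rfl hab
    | exact absurd rfl hac
    | exact absurd rfl hbc
    | skip
  · obtain ⟨rfl, rfl, rfl⟩ := h.uniq h'
    rfl
  · obtain ⟨rfl, rfl, rfl⟩ := h.s2.uniq h'
    exact bH_s2 h p x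
  · obtain ⟨rfl, rfl, rfl⟩ := h.s1.uniq h'
    exact bH_s1 h p x
  · have h1 := h.s1.s2
    obtain ⟨rfl, rfl, rfl⟩ := h1.uniq h'
    rw [bH_s2 h.s1 p x]
    exact bH_s1 h p x
  · have h1 := h.s2.s1
    obtain ⟨rfl, rfl, rfl⟩ := h1.uniq h'
    rw [bH_s1 h.s2 p x]
    exact bH_s2 h p x
  · have h1 := h.s1.s2.s1
    obtain ⟨rfl, rfl, rfl⟩ := h1.uniq h'
    rw [bH_s1 h.s1.s2 p x, bH_s2 h.s1 p x]
    exact bH_s1 h p x

theorem Dat.Df_eq (G : Dat V) {K : Surf V} (p : V → E3) {v u w v' u' w' : V}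
    (h : Hex K v u w v' u' w') (r : ℝ) (x : V → ℝ) :
    G.Df K p r {v, u, w} x = lin p x - tz (bH p v u w v' u' w' x) (prl p G.Q r {v, u, w})
      (lin p x) • bH p v u w v' u' w' x := by
  have hh : ∃ q : V × V × V × V × V × V, ({v, u, w} : Finset V) = {q.1, q.2.1, q.2.2.1} ∧
      Hex K q.1 q.2.1 q.2.2.1 q.2.2.2.1 q.2.2.2.2.1 q.2.2.2.2.2 :=
    ⟨(v, u, w, v', u', w'), rfl, h⟩
  unfold Dat.Df TSR2.Df
  rw [dif_pos hh]
  rw [bH_hex h hh.choose_spec.2 hh.choose_spec.1.symm p x]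

end

end Pool.Agent.TSR2
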