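import Pool.Agent.TSR2.StmtsV

/-!
# TSR2: module CFN, the fan of a corner
-/

set_option autoImplicit false

open scoped RealInnerProductSpace

namespace Pool.Agent.TSR2

open Pool.Agent.TSM Pool.Agent.TSP Set Filter Topology

namespace CFN_

/-- equality of casts of small numbers -/
theorem cast_inj {n i j : ℕ} (hi : i < n) (hj : j < n) (h : (i : ZMod n) = j) : i = j := by
  rw [ZMod.natCast_eq_natCast_iff'] at h
  rwa [Nat.mod_eq_of_lt hi, Nat.mod_eq_of_lt hj] at h

end CFN_

open CFN_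

theorem cfn_proof (h1 : Stmt_FAN) (h2 : Stmt_CSI) : Stmt_CFN := by
  intro V _ _ K p Φ v φ n c m hF hC
  obtain ⟨hn3, hinj, hcv, htri⟩ := hC.cyc
  have hm2 := hC.m2
  have hmn := hC.mn
  have csi := h2 V K p v n c hF.emb hC.cyc
  obtain ⟨q, hq⟩ : ∃ q : ℕ → E3, q = fun i : ℕ => p (c (i : ZMod n)) - p v := ⟨_, rfl⟩
  have hqi : ∀ i : ℕ, p (c (i : ZMod n)) - p v = q i := fun i => by rw [hq]
  have hq0 : p (c 0) - p v = q 0 := by rw [hq]; simp
  have hν : φ.1 ≠ 0 := by
    intro h0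
    have := hF.unit φ hC.phi
    rw [h0, norm_zero] at this
    exact zero_ne_one this
  have hflat : ∀ i, i ≤ m → ⟪φ.1, q i⟫ = 0 := by
    intro i hi
    rw [hq]
    simp only
    rw [← ev_sub_pt, hC.flat i hi, hC.on, sub_zero]
  have hTri : ∀ i : ZMod n, Indep2 (p (c i) - p v) (p (c (i + 1)) - p v) := by
    intro i
    have ht := (htri {v, c i, c (i + 1)}).2 ⟨i, rfl⟩
    refine tri_indep hF.emb ⟨(hcv i).symm, (hcv (i + 1)).symm, fun h => ?_, ht.1⟩
    have h3 := hinj h
    have h4 : (0 : ZMod n) = ((1 : ℕ) : ZMod n) := by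
      rw [Nat.cast_one]
      exact (add_left_cancel (a := i) (by rw [add_zero]; exact h3))
    have h5 := cast_inj (n := n) (i := 0) (j := 1) (by omega) (by omega) (by rw [← h4]; simp)
    omega
  have hcon : ∀ i, i < m → Indep2 (q i) (q (i + 1)) := by
    intro i _
    have := hTri (i : ZMod n)
    rw [hq]
    simp only
    push_cast
    exact this
  have hind : Indep2 (q 0) (q m) := by
    rw [← hq0, ← hqi m]
    exact hC.ind
  -- `CSI` in natural indices
  have key : ∀ i j : ℕ, i < m → j < m → i ≠ j → ∀ s t s' t' : ℝ, 0 ≤ s → 0 ≤ t → 0 ≤ s' →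
      0 ≤ t' → s • q i + t • q (i + 1) = s' • q j + t' • q (j + 1) →
      (j = i + 1 ∧ s = 0 ∧ t' = 0) ∨ (i = j + 1 ∧ s' = 0 ∧ t = 0) ∨
        (s = 0 ∧ t = 0 ∧ s' = 0 ∧ t' = 0) := by
    intro i j hi hj hij s t s' t' hs ht hs' ht' he
    rw [hq] at he
    simp only at he
    push_cast at he
    rcases csi (i : ZMod n) (j : ZMod n) (fun h => hij (cast_inj (by omega) (by omega) h))
      s t s' t' hs ht hs' ht' he with ⟨h, h3⟩ | ⟨h, h3⟩ | h3
    · left
      refine ⟨cast_inj (n := n) (by omega) (by omega) ?_, h3⟩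
      push_cast
      exact h
    · right
      left
      refine ⟨cast_inj (n := n) (by omega) (by omega) ?_, h3⟩
      push_cast
      exact h
    · exact Or.inr (Or.inr h3)
  have p1 : ∀ i, i < m → ∀ s t x y : ℝ, 0 ≤ s → 0 ≤ t → 0 < x → 0 < y →
      s • q i + t • q (i + 1) ≠ x • q 0 + y • q m := by
    refine h1 φ.1 m q hν hm2 hflat hcon hind ?_ ?_
    · intro i j hij hj s t s' t' hs ht hs' ht' he
      rcases key i j (by omega) hj (by omega) s t s' t' hs ht hs' ht' he with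
        ⟨-, h3⟩ | ⟨h, -⟩ | ⟨h3, -, -, h4⟩
      · exact h3
      · omega
      · exact ⟨h3, h4⟩
    · obtain ⟨a, b, s, t, i, ha, hb, hs, ht, hi, he⟩ := hC.long
      refine ⟨a, b, s, t, i, ha, hb, hs, ht, hi, ?_⟩
      rw [← hq0, ← hqi m, ← hqi i, ← hqi (i + 1)]
      exact he
  have e1 : ∀ i : ℕ, p (c ((i + 1 : ℕ) : ZMod n)) - p v = q (i + 1) := fun i => hqi (i + 1)
  rw [hq0, hqi m, hqi 1, hqi (m - 1)]
  simp only [e1, hqi]
  refine ⟨p1, ?_, ?_, ?_, ?_⟩
  · obtain ⟨x, y, hxy⟩ := plane_coords hν (hflat 0 (by omega)) (hflat m le_rfl) hind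
      (hflat 1 (by omega))
    refine ⟨x, y, ?_, hxy⟩
    by_contra hy
    rw [not_lt] at hy
    rcases hy.lt_or_eq with hy | hy
    · refine p1 0 (by omega) (|x| + 1) 1 (|x| + 1 + x) y (by positivity) zero_le_one
        (by linarith [neg_abs_le x]) hy ?_
      rw [zero_add, hxy]
      module
    · have h3 := hcon 0 (by omega) (-x) 1 (by
        rw [zero_add, hxy, ← hy]
        module)
      exact one_ne_zero h3.2
  · obtain ⟨x, y, hxy⟩ := plane_coords hν (hflat 0 (by omega)) (hflat m le_rfl) hind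
      (hflat (m - 1) (by omega))
    have hm1 : m - 1 + 1 = m := by omega
    refine ⟨x, y, ?_, hxy⟩
    by_contra hx
    rw [not_lt] at hx
    rcases hx.lt_or_eq with hx | hx
    · refine p1 (m - 1) (by omega) 1 (|y| + 1) x (|y| + 1 + y) zero_le_one (by positivity)
        hx (by linarith [neg_abs_le y]) ?_
      rw [hm1, hxy]
      module
    · have h3 := hcon (m - 1) (by omega) 1 (-y) (by
        rw [hm1, hxy, ← hx]
        module)
      exact one_ne_zero h3.1
  · intro i hi0 him s t x hs ht hx he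
    rcases key i 0 him (by omega) (by omega) s t x 0 hs ht hx.le le_rfl
      (by rw [he, zero_smul, add_zero]) with ⟨h, -⟩ | ⟨-, h3, -⟩ | ⟨-, -, h3, -⟩
    · omega
    · exact hx.ne' h3
    · exact hx.ne' h3
  · intro i him s t x hs ht hx he
    have hm1 : m - 1 + 1 = m := by omega
    rcases key i (m - 1) (by omega) (by omega) (by omega) s t 0 x hs ht le_rfl hx.le
      (by rw [hm1, he, zero_smul, zero_add]) with ⟨-, -, h3⟩ | ⟨h, -⟩ | ⟨-, -, -, h3⟩
    · exact hx.ne' h3
    · omega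
    · exact hx.ne' h3

end Pool.Agent.TSR2
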