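import Pool.Agent.TSR2.StmtsC

/-!
# TSR2, module CNE: the cores are near the map
-/

set_option autoImplicit false

open scoped RealInnerProductSpace

namespace Pool.Agent.TSR2

open Pool.Agent.TSM Pool.Agent.TSP Set Filter Topology

theorem cne_proof : Stmt_CNE := by
  intro V _ _ K p Φ δ R' M η G hη
  set C : ℝ := ∑ v, ∑ q, ‖p q - p v‖ with hC
  have hC0 : 0 ≤ C := Finset.sum_nonneg fun _ _ => Finset.sum_nonneg fun _ _ => norm_nonneg _
  have hCb : ∀ v q, ‖p q - p v‖ ≤ C := by
    intro v q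
    refine (Finset.single_le_sum (f := fun q => ‖p q - p v‖) (fun _ _ => norm_nonneg _)
      (Finset.mem_univ q)).trans ?_
    exact Finset.single_le_sum (f := fun v => ∑ q, ‖p q - p v‖)
      (fun _ _ => Finset.sum_nonneg fun _ _ => norm_nonneg _) (Finset.mem_univ v)
  set c : ℝ := min (1 / 4) (η / ((|M| + 1) * (1 + 2 * C))) with hc
  have hD : 0 < (|M| + 1) * (1 + 2 * C) := by positivity
  have hc0 : 0 < c := by
    rw [hc]
    exact lt_min (by norm_num) (by positivity)
  have hc1 : c ≤ 1 / 4 := min_le_left _ _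
  have hc2 : (|M| + 1) * (1 + 2 * C) * c ≤ η := by
    have : c ≤ η / ((|M| + 1) * (1 + 2 * C)) := min_le_right _ _
    rw [le_div_iff₀ hD] at this
    linarith
  refine (ev_basic (c := c) (C := 1) hc0).mono ?_
  rintro R r ⟨hr, hR, -, hrc, hRr⟩ Dv hcore v hv x hx
  obtain ⟨hxb, hxv⟩ := hx
  have hRr0 : 0 < R * r := mul_pos hR hr
  have hxv0 : 0 < x v := by linarith
  obtain ⟨u, w, ht, hs⟩ := body_tri hxb hxv0
  have hlin := lin_tri hxb ht hs p
  have hsum := sum_one hxb ht hs
  set z : E3 := r⁻¹ • (lin p x - p v) with hz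
  have hzr : r • z = lin p x - p v := by
    rw [hz, smul_smul, mul_inv_cancel₀ hr.ne', one_smul]
  have hzs : z ∈ scone K p v := by
    refine ⟨u, w, ht, r⁻¹ * x w, r⁻¹ * x u, mul_nonneg (inv_nonneg.2 hr.le) (body_nonneg hxb w),
      mul_nonneg (inv_nonneg.2 hr.le) (body_nonneg hxb u), ?_⟩
    rw [hz, hlin]
    module
  have hbdd := (hcore v hv).bdd z hzs
  have e1 : Dc p r Dv v x - lin p x = r • (Dv v z - z) := by
    have : lin p x = p v + r • z := by rw [hzr]; abel
    unfold Dc
    rw [← hz]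
    rw [smul_sub]
    rw [this]
    abel
  have e2 : ‖lin p x - p v‖ ≤ 2 * (R * r) * C := by
    have e3 : lin p x - p v = x w • (p w - p v) + x u • (p u - p v) := by
      rw [hlin]; abel
    rw [e3]
    refine (norm_add_le _ _).trans ?_
    rw [norm_smul, norm_smul, Real.norm_of_nonneg (body_nonneg hxb w),
      Real.norm_of_nonneg (body_nonneg hxb u)]
    have i1 := mul_le_mul_of_nonneg_left (hCb v w) (body_nonneg hxb w)
    have i2 := mul_le_mul_of_nonneg_left (hCb v u) (body_nonneg hxb u)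
    have i3 : (x w + x u) * C ≤ 2 * (R * r) * C :=
      mul_le_mul_of_nonneg_right (by linarith) hC0
    linarith
  have e4 : ‖r • z‖ = ‖lin p x - p v‖ := by rw [hzr]
  rw [norm_smul, Real.norm_of_nonneg hr.le] at e4
  rw [e1, norm_smul, Real.norm_of_nonneg hr.le]
  have i4 : M * (1 + ‖z‖) ≤ (|M| + 1) * (1 + ‖z‖) :=
    mul_le_mul_of_nonneg_right (by linarith [le_abs_self M]) (by positivity)
  have hM1 : 0 < |M| + 1 := by positivity
  calc r * ‖Dv v z - z‖ ≤ r * ((|M| + 1) * (1 + ‖z‖)) :=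
        mul_le_mul_of_nonneg_left (hbdd.trans i4) hr.le
    _ = (|M| + 1) * (r + r * ‖z‖) := by ring
    _ ≤ (|M| + 1) * (r + 2 * (R * r) * C) := by
        refine mul_le_mul_of_nonneg_left ?_ hM1.le
        rw [e4]
        linarith
    _ < (|M| + 1) * ((1 + 2 * C) * c) := by
        refine mul_lt_mul_of_pos_left ?_ hM1
        have i5 : 2 * (R * r) * C ≤ 2 * c * C := by
          refine mul_le_mul_of_nonneg_right ?_ hC0
          linarith
        linarith
    _ ≤ η := by linarith

end Pool.Agent.TSR2
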