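import Pool.Agent.TSR2.StmtsV

/-!
# TSR2, module CNF: existence of the canonical field
-/

set_option autoImplicit false

open scoped RealInnerProductSpace

namespace Pool.Agent.TSR2

open Pool.Agent.TSM Pool.Agent.TSP Set Filter Topology

namespace CNF_

theorem crs_left (u v : E3) (α β : ℝ) : crs (α • u + β • v) v = α • crs u v := by
  rw [crs_eq, crs_eq]
  apply ext3 <;> simp only [cr_zero, cr_one, cr_two, PiLp.smul_apply, PiLp.add_apply,
    smul_eq_mul] <;> ring

theorem crs_right (u v : E3) (α β : ℝ) : crs u (α • u + β • v) = β • crs u v := by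
  rw [crs_eq, crs_eq]
  apply ext3 <;> simp only [cr_zero, cr_one, cr_two, PiLp.smul_apply, PiLp.add_apply,
    smul_eq_mul] <;> ring

theorem crs_zero_left (v : E3) : crs 0 v = 0 := by
  rw [crs_eq]
  apply ext3 <;> simp only [cr_zero, cr_one, cr_two, PiLp.zero_apply] <;> ring

theorem crs_zero_right (v : E3) : crs v 0 = 0 := by
  rw [crs_eq]
  apply ext3 <;> simp only [cr_zero, cr_one, cr_two, PiLp.zero_apply] <;> ring

/-- coordinates are unique -/
theorem coords {u v : E3} (h : crs u v ≠ 0) {a c a' c' : ℝ}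
    (he : a • u + c • v = a' • u + c' • v) : a = a' ∧ c = c' := by
  have h0 : (a - a') • u + (c - c') • v = 0 := by
    rw [sub_smul, sub_smul]
    have := sub_eq_zero.2 he
    rw [← this]; abel
  have h1 : (a - a') • crs u v = 0 := by
    rw [← crs_left u v (a - a') (c - c'), h0, crs_zero_left]
  have h2 : (c - c') • crs u v = 0 := by
    rw [← crs_right u v (a - a') (c - c'), h0, crs_zero_right]
  constructor
  · have := (smul_eq_zero.1 h1).resolve_right h
    linarith
  · have := (smul_eq_zero.1 h2).resolve_right h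
    linarith

variable {W : Type} [DecidableEq W]

theorem s_ne {L : Pg W} (hL : L.Ok) {i : W} (hi : i ∈ L.S) : i ≠ L.s i := by
  intro h
  have hfix : ∀ m : ℕ, L.s^[m] i = i := by
    intro m
    induction m with
    | zero => rfl
    | succ m ih => rw [Function.iterate_succ_apply', ih, ← h]
  have hall : ∀ j ∈ L.S, j = i := by
    intro j hj
    obtain ⟨m, hm⟩ := hL.trans i hi j hj
    rw [← hm, hfix]
  have h1 : L.S.card ≤ 1 := Finset.card_le_one.2 fun a ha b hb => (hall a ha).trans (hall b hb).symm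
  have := hL.card
  omega

/-- normals do not vanish -/
theorem nor_ne {L : Pg W} (hL : L.Ok) {i : W} (hi : i ∈ L.S) :
    crs (L.p i) (L.p (L.s i)) ≠ 0 := by
  have hsi := hL.maps i hi
  have hne := s_ne hL hi
  -- two further labels
  have hcard : 2 ≤ (L.S \ {i, L.s i}).card := by
    have h1 := Finset.le_card_sdiff {i, L.s i} L.S
    have h2 : ({i, L.s i} : Finset W).card ≤ 2 := Finset.card_le_two
    have := hL.card
    omega
  obtain ⟨k1, hk1, k2, hk2, hk⟩ := Finset.one_lt_card.1 (by omega : 1 < (L.S \ {i, L.s i}).card)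
  simp only [Finset.mem_sdiff, Finset.mem_insert, Finset.mem_singleton, not_or] at hk1 hk2
  have key : ∃ k ∈ L.S, k ≠ i ∧ k ≠ L.s i ∧ ¬ L.Flat i (L.s i) k := by
    by_contra hc
    push Not at hc
    obtain ⟨m, q, hX, hq, hqm, he⟩ := hc k1 hk1.1 hk1.2.1 hk1.2.2
    obtain ⟨m', q', hX', hq', hqm', he'⟩ := hc k2 hk2.1 hk2.2.1 hk2.2.2
    have hm : m' = m := by
      rw [hX] at hX'
      exact (Option.some.inj hX').symm
    subst hm
    have hqq : q = q' := hL.inj q hq q' hq' (hqm.trans hqm'.symm)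
    subst hqq
    have h1 : k1 ∈ ({i, L.s i, k2} : Finset W) := by
      rw [he', ← he]; simp
    simp only [Finset.mem_insert, Finset.mem_singleton] at h1
    rcases h1 with h | h | h
    · exact hk1.2.1 h
    · exact hk1.2.2 h
    · exact hk h
  obtain ⟨k, hkS, hki, hks, hfl⟩ := key
  have hdet := hL.gen i hi (L.s i) hsi k hkS hne hki.symm hks.symm hfl
  intro h0
  apply hdet
  rw [← inner_crs, h0, inner_zero_left]

end CNF_

open CNF_ in
theorem cnf_proof (h1 : Stmt_THL) (_h2 : Stmt_ADA) : Stmt_CNF := by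
  classical
  intro W _ L hL
  have th0 : ∀ c : ℝ, 0 < c → th 0 c = 1 := fun c hc => h1.2.1 0 c le_rfl hc (by linarith)
  have th1 : ∀ c : ℝ, 0 ≤ c → th c 0 = 0 := fun c hc => h1.2.2.1 c 0 hc (by linarith)
  -- values on the common arm
  have v1 : ∀ (j : W) (c : ℝ), 0 < c → fF L j 0 c = dA L (L.s j) := by
    intro j c hc
    unfold fF
    rw [th0 c hc, th1 c hc.le]
    module
  have v2 : ∀ (j : W) (c : ℝ), 0 < c → fF L j c 0 = dA L j := by
    intro j c hc
    unfold fF
    rw [th0 c hc, th1 c hc.le]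
    module
  -- first symmetric case
  have arm : ∀ (j j' : W) (a c a' c' t : ℝ) (x : E3), j ∈ L.S → j' ∈ L.S → 0 ≤ t →
      0 < a + c → x = a • L.p (L.s j) + c • L.p (L.s (L.s j)) →
      x = a' • L.p (L.s j') + c' • L.p (L.s (L.s j')) → L.s j' = L.s (L.s j) →
      x = t • L.p (L.s j') → fF L j a c = fF L j' a' c' := by
    intro j j' a c a' c' t x hj hj' ht hac hx hx' hs hxt
    have hsj := hL.maps j hj
    have hsj' := hL.maps j' hj'
    have e1 : a • L.p (L.s j) + c • L.p (L.s (L.s j)) =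
        (0 : ℝ) • L.p (L.s j) + t • L.p (L.s (L.s j)) := by
      rw [← hx, hxt, hs]; simp
    obtain ⟨ha, hc⟩ := coords (nor_ne hL hsj) e1
    have e2 : a' • L.p (L.s j') + c' • L.p (L.s (L.s j')) =
        t • L.p (L.s j') + (0 : ℝ) • L.p (L.s (L.s j')) := by
      rw [← hx', hxt]; simp
    obtain ⟨ha', hc'⟩ := coords (nor_ne hL hsj') e2
    have hjj : j' = L.s j := hL.inj j' hj' (L.s j) hsj hs
    have ht0 : 0 < t := by rw [ha, hc, zero_add] at hac; exact hac
    rw [ha, hc, ha', hc', v1 j t ht0, v2 j' t ht0, hjj]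
  have wd : ∀ (j j' : W) (a c a' c' : ℝ) (x : E3), j ∈ L.S → j' ∈ L.S → 0 ≤ a → 0 ≤ c →
      0 < a + c → 0 ≤ a' → 0 ≤ c' → 0 < a' + c' →
      x = a • L.p (L.s j) + c • L.p (L.s (L.s j)) →
      x = a' • L.p (L.s j') + c' • L.p (L.s (L.s j')) → fF L j a c = fF L j' a' c' := by
    intro j j' a c a' c' x hj hj' ha hc hac ha' hc' hac' hx hx'
    have hsj := hL.maps j hj
    have hsj' := hL.maps j' hj'
    by_cases hjj : L.s j = L.s j'
    · have h3 : j = j' := hL.inj j hj j' hj' hjj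
      subst h3
      obtain ⟨k1, k2⟩ := coords (nor_ne hL hsj) (hx.symm.trans hx')
      rw [k1, k2]
    · rcases hL.simple (L.s j) hsj (L.s j') hsj' hjj x ⟨a, c, ha, hc, hx⟩ ⟨a', c', ha', hc', hx'⟩
        with ⟨hs, t, ht, hxt⟩ | ⟨hs, t, ht, hxt⟩ | h0
      · exact arm j j' a c a' c' t x hj hj' ht hac hx hx' hs hxt
      · exact (arm j' j a' c' a c t x hj' hj ht hac' hx' hx hs hxt).symm
      · exfalso
        have e1 : a • L.p (L.s j) + c • L.p (L.s (L.s j)) =
            (0 : ℝ) • L.p (L.s j) + (0 : ℝ) • L.p (L.s (L.s j)) := by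
          rw [← hx, h0]; simp
        obtain ⟨k1, k2⟩ := coords (nor_ne hL hsj) e1
        rw [k1, k2] at hac
        simp at hac
  set P : E3 → W × ℝ × ℝ → Prop := fun x q => q.1 ∈ L.S ∧ 0 ≤ q.2.1 ∧ 0 ≤ q.2.2 ∧
    0 < q.2.1 + q.2.2 ∧ x = q.2.1 • L.p (L.s q.1) + q.2.2 • L.p (L.s (L.s q.1)) with hP
  refine ⟨fun x => if h : ∃ q : W × ℝ × ℝ, P x q then fF L h.choose.1 h.choose.2.1 h.choose.2.2
    else 0, ?_⟩
  intro j hj a c ha hc hac
  have hex : ∃ q : W × ℝ × ℝ, P (a • L.p (L.s j) + c • L.p (L.s (L.s j))) q :=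
    ⟨(j, a, c), hj, ha, hc, hac, rfl⟩
  show (if h : ∃ q : W × ℝ × ℝ, P (a • L.p (L.s j) + c • L.p (L.s (L.s j))) q then
    fF L h.choose.1 h.choose.2.1 h.choose.2.2 else 0) = fF L j a c
  rw [dif_pos hex]
  obtain ⟨g1, g2, g3, g4, g5⟩ := hex.choose_spec
  exact wd _ _ _ _ _ _ _ g1 hj g2 g3 g4 ha hc hac g5 rfl

end Pool.Agent.TSR2
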