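import Pool.Agent.TSR2.StmtsV

/-!
# TSR2, module COD: the data of a corner
-/

set_option autoImplicit false

namespace Pool.Agent.TSR2

open Pool.Agent.TSM Pool.Agent.TSP Set Filter Topology

theorem cod_proof : Stmt_COD := by
  intro V _ _ K p Φ v h
  obtain ⟨φ, hφ, hon, hoff, n, c, m, hc, hm, hmn, hflat, hbelow, hind, hlong⟩ := h
  exact ⟨φ, n, c, m, ⟨hφ, hon, hoff, hc, hm, hmn, hflat, hbelow, hind, hlong⟩⟩

end Pool.Agent.TSR2
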