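import Pool.Agent.TSR2.StmtsV
import Pool.Agent.TSR2.Base

/-!
# TSR2, module CSP: the separation property at a corner
-/

set_option autoImplicit false

open scoped RealInnerProductSpace

namespace Pool.Agent.TSR2

open Pool.Agent.TSM Pool.Agent.TSP Set Filter Topology

namespace CSP_

/-- plane coordinates: from `|X| + |Y|` and `max (-X) (-Y)` to the statement -/
theorem real_core (x1 y1 x0 y0 b κ1 : ℝ) (hb : 0 < b) (hκ : 0 < κ1) :
    ∃ κ : ℝ, 0 < κ ∧ ∀ δ a d : ℝ, 0 < δ → δ ≤ 1 → 0 ≤ a → 0 ≤ d →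
      κ1 * (a + d) ≤ |a * x1 + d * x0| + |a * y1 + d * y0| →
      κ1 * δ * (a + d) ≤ max (-(a * x1 + d * x0)) (-(a * y1 + d * y0)) →
      ∃ a' c' : ℝ, 0 ≤ a' ∧ 0 ≤ c' ∧ κ * (a + d) ≤ a' + c' ∧
        ((a * x1 + d * x0 = a' - c' ∧ a * y1 + d * y0 = -(b * c') ∧ κ * δ * a' ≤ c') ∨
          (a * x1 + d * x0 = -a' ∧ a * y1 + d * y0 = c' - b * a' ∧ κ * δ * c' ≤ a')) := by
  set C : ℝ := |x1| + |x0| + |y1| + |y0| with hC
  have hC0 : 0 ≤ C := by positivity
  set D : ℝ := 1 + (2 + b + 1 / b) * C with hD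
  have hD1 : 1 ≤ D := by
    have : 0 ≤ (2 + b + 1 / b) * C := by positivity
    linarith
  have hD2 : (1 + 1 / b) * C ≤ D := by
    have : 0 ≤ (1 + b) * C := by positivity
    rw [hD]; nlinarith
  have hD3 : (1 + b) * C ≤ D := by
    have : 0 ≤ (1 + 1 / b) * C := by positivity
    rw [hD]; nlinarith
  have h1b : 0 < 1 + b := by linarith
  have hDpos : 0 < D := by linarith
  set κ : ℝ := κ1 / ((1 + b) * D) with hκd
  have hκ0 : 0 < κ := by positivity
  have hk1 : κ * D = κ1 / (1 + b) := by rw [hκd]; field_simp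
  have hk2 : κ ≤ κ1 / (1 + b) := by rw [← hk1]; nlinarith
  refine ⟨κ, hκ0, ?_⟩
  intro δ a d hδ hδ1 ha hd hlow hg
  set X : ℝ := a * x1 + d * x0 with hX
  set Y : ℝ := a * y1 + d * y0 with hY
  have hs : 0 ≤ a + d := by linarith
  have hXC : |X| ≤ (|x1| + |x0|) * (a + d) := by
    have h1 : |X| ≤ |a * x1| + |d * x0| := abs_add_le _ _
    rw [abs_mul, abs_mul, abs_of_nonneg ha, abs_of_nonneg hd] at h1
    nlinarith [abs_nonneg x1, abs_nonneg x0, mul_nonneg hd (abs_nonneg x1),
      mul_nonneg ha (abs_nonneg x0)]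
  have hYC : |Y| ≤ (|y1| + |y0|) * (a + d) := by
    have h1 : |Y| ≤ |a * y1| + |d * y0| := abs_add_le _ _
    rw [abs_mul, abs_mul, abs_of_nonneg ha, abs_of_nonneg hd] at h1
    nlinarith [abs_nonneg y1, abs_nonneg y0, mul_nonneg hd (abs_nonneg y1),
      mul_nonneg ha (abs_nonneg y0)]
  have hXC' : |X| ≤ C * (a + d) := by
    refine hXC.trans (mul_le_mul_of_nonneg_right ?_ hs)
    rw [hC]; linarith [abs_nonneg y1, abs_nonneg y0]
  have hYC' : |Y| ≤ C * (a + d) := by
    refine hYC.trans (mul_le_mul_of_nonneg_right ?_ hs)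
    rw [hC]; linarith [abs_nonneg x1, abs_nonneg x0]
  -- the final scaling step
  have key : ∀ u v : ℝ, u ≤ D * (a + d) → 0 ≤ u → κ1 * δ * (a + d) ≤ (1 + b) * v →
      κ * δ * u ≤ v := by
    intro u v hu hu0 hv
    have h1 : κ * δ * u ≤ κ * δ * (D * (a + d)) :=
      mul_le_mul_of_nonneg_left hu (by positivity)
    have h2 : κ * δ * (D * (a + d)) = (κ1 * δ * (a + d)) / (1 + b) := by
      calc κ * δ * (D * (a + d)) = (κ * D) * (δ * (a + d)) := by ring
        _ = _ := by rw [hk1]; ring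
    have h3 : (κ1 * δ * (a + d)) / (1 + b) ≤ v := by
      rw [div_le_iff₀ h1b]; linarith
    linarith
  have key2 : ∀ v : ℝ, |X| + |Y| ≤ (1 + b) * v → κ * (a + d) ≤ v := by
    intro v hv
    have h1 : κ * (a + d) ≤ κ1 / (1 + b) * (a + d) := mul_le_mul_of_nonneg_right hk2 hs
    have h2 : κ1 / (1 + b) * (a + d) = (κ1 * (a + d)) / (1 + b) := by ring
    have h3 : (κ1 * (a + d)) / (1 + b) ≤ v := by
      rw [div_le_iff₀ h1b]; linarith
    linarith
  by_cases hcase : Y ≤ 0 ∧ Y / b ≤ X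
  · obtain ⟨hY0, hXY⟩ := hcase
    have hc0 : 0 ≤ -Y / b := div_nonneg (by linarith) hb.le
    have hbc : b * (-Y / b) = -Y := by field_simp
    have hYb : Y / b = -(-Y / b) := by ring
    refine ⟨X - Y / b, -Y / b, by linarith, hc0, ?_, Or.inl ⟨by rw [hYb]; ring, by rw [hbc]; ring, ?_⟩⟩
    · apply key2
      have h1 : |Y| = b * (-Y / b) := by rw [hbc, abs_of_nonpos hY0]
      have h2 : |X| ≤ (X - Y / b) + -Y / b := by
        rw [abs_le]; constructor <;> linarith
      have h3 : 0 ≤ b * (X - Y / b) := mul_nonneg hb.le (by linarith)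
      rw [h1]
      nlinarith
    · apply key
      · have h1 : X ≤ |X| := le_abs_self X
        have h2 : -Y / b ≤ 1 / b * |Y| := by
          rw [abs_of_nonpos hY0]; apply le_of_eq; ring
        have h3 : 1 / b * |Y| ≤ 1 / b * (C * (a + d)) :=
          mul_le_mul_of_nonneg_left hYC' (by positivity)
        have h4 : X - Y / b ≤ (1 + 1 / b) * C * (a + d) := by
          rw [hYb]; nlinarith
        exact h4.trans (mul_le_mul_of_nonneg_right hD2 hs)
      · linarith
      · refine hg.trans (max_le ?_ ?_)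
        · have : 0 ≤ b * (-Y / b) := mul_nonneg hb.le hc0
          linarith
        · rw [add_mul, hbc]; linarith
  · -- second case
    have hX0 : X ≤ 0 ∧ 0 ≤ Y - b * X := by
      rcases le_or_gt Y 0 with hY0 | hY0
      · have h1 : X < Y / b := by
          by_contra hc
          exact hcase ⟨hY0, not_lt.1 hc⟩
        have h2 : Y / b ≤ 0 := div_nonpos_of_nonpos_of_nonneg hY0 hb.le
        have h3 : b * X < Y := by
          rw [lt_div_iff₀ hb] at h1; linarith
        exact ⟨by linarith, by linarith⟩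
      · have h1 : 0 ≤ κ1 * δ * (a + d) := by positivity
        have h2 : 0 ≤ -X := by
          rcases le_max_iff.1 (h1.trans hg) with h | h
          · exact h
          · linarith
        have h3 : b * X ≤ 0 := mul_nonpos_of_nonneg_of_nonpos hb.le (by linarith)
        exact ⟨by linarith, by linarith⟩
    obtain ⟨hX0, hYX⟩ := hX0
    refine ⟨-X, Y - b * X, by linarith, hYX, ?_, Or.inr ⟨by ring, by ring, ?_⟩⟩
    · apply key2
      have h1 : |X| = -X := abs_of_nonpos hX0
      have h2 : |Y| ≤ (Y - b * X) + b * (-X) := by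
        have h3 : 0 ≤ b * (-X) := mul_nonneg hb.le (by linarith)
        rw [abs_le]; constructor <;> nlinarith
      have h4 : 0 ≤ b * (Y - b * X) := mul_nonneg hb.le hYX
      rw [h1]
      nlinarith
    · apply key
      · have h1 : Y ≤ |Y| := le_abs_self Y
        have h2 : -X = |X| := (abs_of_nonpos hX0).symm
        have h3 : b * |X| ≤ b * (C * (a + d)) := mul_le_mul_of_nonneg_left hXC' hb.le
        have h4 : Y - b * X ≤ (1 + b) * C * (a + d) := by
          have : -(b * X) = b * |X| := by rw [← h2]; ring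
          nlinarith
        exact h4.trans (mul_le_mul_of_nonneg_right hD3 hs)
      · exact hYX
      · refine hg.trans (max_le ?_ ?_)
        · have : 0 ≤ b * (-X) := mul_nonneg hb.le (by linarith)
          nlinarith
        · nlinarith

/-- lower bound of `|X| + |Y|` -/
theorem low (x1 y1 x0 y0 : ℝ) (hdet : x1 * y0 - x0 * y1 ≠ 0) :
    ∃ κ : ℝ, 0 < κ ∧ ∀ a d : ℝ, 0 ≤ a → 0 ≤ d →
      κ * (a + d) ≤ |a * x1 + d * x0| + |a * y1 + d * y0| := by
  set C : ℝ := |x1| + |x0| + |y1| + |y0| with hC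
  have hC0 : 0 ≤ C := by positivity
  set T : ℝ := |x1 * y0 - x0 * y1| with hT
  have hT0 : 0 < T := abs_pos.2 hdet
  refine ⟨T / (2 * C + 1), by positivity, ?_⟩
  intro a d ha hd
  set X : ℝ := a * x1 + d * x0 with hX
  set Y : ℝ := a * y1 + d * y0 with hY
  have h1 : a * T ≤ C * (|X| + |Y|) := by
    have e1 : a * (x1 * y0 - x0 * y1) = X * y0 - Y * x0 := by rw [hX, hY]; ring
    have e2 : a * T = |X * y0 - Y * x0| := by
      rw [← e1, abs_mul, abs_of_nonneg ha]
    rw [e2]
    have e3 : |X * y0 - Y * x0| ≤ |X| * |y0| + |Y| * |x0| := by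
      rw [← abs_mul, ← abs_mul]; exact abs_sub _ _
    have e4 : |X| * |y0| ≤ |X| * C := mul_le_mul_of_nonneg_left
      (by rw [hC]; linarith [abs_nonneg x1, abs_nonneg x0, abs_nonneg y1]) (abs_nonneg _)
    have e5 : |Y| * |x0| ≤ |Y| * C := mul_le_mul_of_nonneg_left
      (by rw [hC]; linarith [abs_nonneg x1, abs_nonneg y0, abs_nonneg y1]) (abs_nonneg _)
    nlinarith
  have h2 : d * T ≤ C * (|X| + |Y|) := by
    have e1 : d * (x1 * y0 - x0 * y1) = Y * x1 - X * y1 := by rw [hX, hY]; ring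
    have e2 : d * T = |Y * x1 - X * y1| := by
      rw [← e1, abs_mul, abs_of_nonneg hd]
    rw [e2]
    have e3 : |Y * x1 - X * y1| ≤ |Y| * |x1| + |X| * |y1| := by
      rw [← abs_mul, ← abs_mul]; exact abs_sub _ _
    have e4 : |X| * |y1| ≤ |X| * C := mul_le_mul_of_nonneg_left
      (by rw [hC]; linarith [abs_nonneg x1, abs_nonneg x0, abs_nonneg y0]) (abs_nonneg _)
    have e5 : |Y| * |x1| ≤ |Y| * C := mul_le_mul_of_nonneg_left
      (by rw [hC]; linarith [abs_nonneg x0, abs_nonneg y0, abs_nonneg y1]) (abs_nonneg _)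
    nlinarith
  have h3 : 0 ≤ |X| + |Y| := by positivity
  rw [div_mul_eq_mul_div, div_le_iff₀ (by positivity)]
  nlinarith

/-- compactness on the segment `a + d = 1` -/
theorem seg (x1 y1 x0 y0 : ℝ)
    (h : ∀ a d : ℝ, 0 ≤ a → 0 ≤ d → a + d = 1 →
      0 < max (-(a * x1 + d * x0)) (-(a * y1 + d * y0))) :
    ∃ κ : ℝ, 0 < κ ∧ ∀ a d : ℝ, 0 ≤ a → 0 ≤ d →
      κ * (a + d) ≤ max (-(a * x1 + d * x0)) (-(a * y1 + d * y0)) := by
  have hcont : ContinuousOn (fun a : ℝ => max (-(a * x1 + (1 - a) * x0))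
      (-(a * y1 + (1 - a) * y0))) (Set.Icc (0 : ℝ) 1) := by
    apply Continuous.continuousOn
    fun_prop
  obtain ⟨a₀, ha₀, hmin⟩ := isCompact_Icc.exists_isMinOn (Set.nonempty_Icc.2 zero_le_one) hcont
  refine ⟨_, h a₀ (1 - a₀) ha₀.1 (by linarith [ha₀.2]) (by ring), ?_⟩
  intro a d ha hd
  rcases (add_nonneg ha hd).eq_or_lt with h0 | hpos
  · have e1 : a = 0 := by linarith
    have e2 : d = 0 := by linarith
    rw [e1, e2]; simp
  · have hm := hmin (show a / (a + d) ∈ Set.Icc (0 : ℝ) 1 from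
      ⟨by positivity, by rw [div_le_one hpos]; linarith⟩)
    have h1 : (1 : ℝ) - a / (a + d) = d / (a + d) := by field_simp; ring
    have hm' : max (-(a₀ * x1 + (1 - a₀) * x0)) (-(a₀ * y1 + (1 - a₀) * y0)) ≤
        max (-(a / (a + d) * x1 + d / (a + d) * x0)) (-(a / (a + d) * y1 + d / (a + d) * y0)) := by
      have := hm
      simp only [Set.mem_setOf_eq] at this
      rw [h1] at this
      exact this
    have h2 : (a + d) * max (-(a / (a + d) * x1 + d / (a + d) * x0))
        (-(a / (a + d) * y1 + d / (a + d) * y0)) =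
        max (-(a * x1 + d * x0)) (-(a * y1 + d * y0)) := by
      rw [mul_max_of_nonneg _ _ hpos.le]
      congr 1 <;> field_simp
    rw [← h2, mul_comm]
    exact mul_le_mul_of_nonneg_left hm' hpos.le

end CSP_

theorem csp_proof (h : Stmt_CFN) : Stmt_CSP := by
  intro V _ _ K p Φ v φ n c m b hK hc hb
  obtain ⟨hC1, hC2, hC3, hC4, hC5⟩ := h V K p Φ v φ n c m hK hc
  have hm2 := hc.m2
  have hmn := hc.mn
  -- the normal
  have hφ0 : φ.1 ≠ 0 := by
    intro h0
    have := hK.unit φ hc.phi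
    rw [h0, norm_zero] at this
    exact zero_ne_one this
  have hin : ∀ i : ℕ, i ≤ m → ⟪φ.1, p (c i) - p v⟫ = 0 := by
    intro i hi
    rw [← ev_sub_pt, hc.flat i hi, hc.on, sub_zero]
  have h00 : ⟪φ.1, p (c 0) - p v⟫ = 0 := by
    have := hin 0 (by omega)
    rwa [Nat.cast_zero] at this
  have hcoord : ∀ i : ℕ, i ≤ m → ∃ x y : ℝ, p (c i) - p v =
      x • (p (c 0) - p v) + y • (p (c m) - p v) := fun i hi =>
    plane_coords hφ0 h00 (hin m le_rfl) hc.ind (hin i hi)
  have huniq : ∀ x y x' y' : ℝ, x • (p (c 0) - p v) + y • (p (c m) - p v) =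
      x' • (p (c 0) - p v) + y' • (p (c m) - p v) → x = x' ∧ y = y' := by
    intro x y x' y' hxy
    have h1 : (x - x') • (p (c 0) - p v) + (y - y') • (p (c m) - p v) = 0 := by
      rw [sub_smul, sub_smul]
      have := sub_eq_zero.2 hxy
      rw [← this]; abel
    obtain ⟨h2, h3⟩ := hc.ind _ _ h1
    exact ⟨by linarith, by linarith⟩
  -- consecutive vertices are independent
  have hind : ∀ i : ℕ, i < m → Indep2 (p (c i) - p v) (p (c (i + 1 : ℕ)) - p v) := by
    intro i hi
    obtain ⟨h3, hinj, hne, hlink⟩ := hc.cyc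
    refine tri_indep hK.emb ⟨(hne _).symm, (hne _).symm, ?_, ?_⟩
    · intro he
      have h1 := hinj he
      rw [ZMod.natCast_eq_natCast_iff' , Nat.mod_eq_of_lt (by omega), Nat.mod_eq_of_lt (by omega)] at h1
      omega
    · have := (hlink {v, c (i : ℕ), c (i + 1 : ℕ)}).2 ⟨(i : ZMod n), by rw [Nat.cast_add, Nat.cast_one]⟩
      exact this.1
  -- one sector
  have hsec : ∀ i : ℕ, i < m → ∃ κ : ℝ, 0 < κ ∧ ∀ δ a d : ℝ, 0 < δ → δ ≤ 1 → 0 ≤ a → 0 ≤ d →
      (i = 0 → δ * d ≤ a) → (i + 1 = m → δ * a ≤ d) →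
      ∃ a' c' : ℝ, 0 ≤ a' ∧ 0 ≤ c' ∧ κ * (a + d) ≤ a' + c' ∧
      ((a • (p (c (i + 1 : ℕ)) - p v) + d • (p (c i) - p v) = a' • (p (c 0) - p v) +
        c' • (-((p (c 0) - p v) + b • (p (c m) - p v))) ∧ κ * δ * a' ≤ c') ∨
      (a • (p (c (i + 1 : ℕ)) - p v) + d • (p (c i) - p v) =
        a' • (-((p (c 0) - p v) + b • (p (c m) - p v))) + c' • (p (c m) - p v) ∧
        κ * δ * c' ≤ a')) := by
    intro i hi
    obtain ⟨x0, y0, h0⟩ := hcoord i hi.le
    obtain ⟨x1, y1, h1⟩ := hcoord (i + 1) hi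
    have hz : ∀ a d : ℝ, a • (p (c (i + 1 : ℕ)) - p v) + d • (p (c i) - p v) =
        (a * x1 + d * x0) • (p (c 0) - p v) + (a * y1 + d * y0) • (p (c m) - p v) := by
      intro a d
      rw [h0, h1]; module
    have hdet : x1 * y0 - x0 * y1 ≠ 0 := by
      intro hdet
      have e1 : (-y1) • (p (c i) - p v) + y0 • (p (c (i + 1 : ℕ)) - p v) = 0 := by
        have := hz y0 (-y1)
        rw [add_comm, this]
        have e2 : y0 * x1 + -y1 * x0 = 0 := by linarith
        have e3 : y0 * y1 + -y1 * y0 = 0 := by ring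
        rw [e2, e3, zero_smul, zero_smul, add_zero]
      have e1' : (-x1) • (p (c i) - p v) + x0 • (p (c (i + 1 : ℕ)) - p v) = 0 := by
        have := hz x0 (-x1)
        rw [add_comm, this]
        have e2 : x0 * x1 + -x1 * x0 = 0 := by ring
        have e3 : x0 * y1 + -x1 * y0 = 0 := by linarith
        rw [e2, e3, zero_smul, zero_smul, add_zero]
      obtain ⟨-, hy0⟩ := hind i hi _ _ e1
      obtain ⟨-, hx0⟩ := hind i hi _ _ e1'
      have e4 : (1 : ℝ) • (p (c i) - p v) + (0 : ℝ) • (p (c (i + 1 : ℕ)) - p v) = 0 := by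
        rw [h0, hx0, hy0]; simp
      exact one_ne_zero (hind i hi _ _ e4).1
    obtain ⟨κa, hκa, hlow⟩ := CSP_.low x1 y1 x0 y0 hdet
    -- lower bound of the gap
    have hgap : ∃ κ : ℝ, 0 < κ ∧ ∀ δ a d : ℝ, 0 < δ → δ ≤ 1 → 0 ≤ a → 0 ≤ d →
        (i = 0 → δ * d ≤ a) → (i + 1 = m → δ * a ≤ d) →
        κ * δ * (a + d) ≤ max (-(a * x1 + d * x0)) (-(a * y1 + d * y0)) := by
      rcases Nat.eq_zero_or_pos i with hi0 | hi0
      · -- first sector
        subst hi0
        obtain ⟨x, y, hy, hxy⟩ := hC2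
        have e0 : x0 = 1 ∧ y0 = 0 := by
          apply huniq
          rw [← h0]; simp
        have e1 : x1 = x ∧ y1 = y := by
          apply huniq
          rw [← h1, ← hxy]
        refine ⟨-y / 2, by linarith, ?_⟩
        intro δ a d hδ hδ1 ha hd hside _
        have hs := hside rfl
        refine le_max_of_le_right ?_
        rw [e0.2, e1.2]
        have h2 : δ * (a + d) ≤ 2 * a := by nlinarith
        nlinarith
      · rcases Nat.lt_or_ge (i + 1) m with him | him
        · -- interior sector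
          obtain ⟨κ, hκ, hκ'⟩ := CSP_.seg x1 y1 x0 y0 (by
            intro a d ha hd had
            by_contra hcon
            rw [not_lt, max_le_iff] at hcon
            obtain ⟨hX, hY⟩ := hcon
            have hzz := hz a d
            rcases (neg_nonpos.1 hX).eq_or_lt with hX0 | hX0
            · rcases (neg_nonpos.1 hY).eq_or_lt with hY0 | hY0
              · rw [← hX0, ← hY0, zero_smul, zero_smul, add_zero, add_comm] at hzz
                obtain ⟨e1, e2⟩ := hind i hi _ _ hzz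
                rw [e1, e2] at had
                norm_num at had
              · rw [← hX0, zero_smul, zero_add, add_comm] at hzz
                exact hC5 i him d a _ hd ha hY0 hzz
            · rcases (neg_nonpos.1 hY).eq_or_lt with hY0 | hY0
              · rw [← hY0, zero_smul, add_zero, add_comm] at hzz
                exact hC4 i hi0 hi d a _ hd ha hX0 hzz
              · rw [add_comm] at hzz
                exact hC1 i hi d a _ _ hd ha hX0 hY0 hzz)
          refine ⟨κ, hκ, ?_⟩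
          intro δ a d hδ hδ1 ha hd _ _
          refine le_trans ?_ (hκ' a d ha hd)
          have h2 : κ * δ ≤ κ := by nlinarith
          exact mul_le_mul_of_nonneg_right h2 (add_nonneg ha hd)
        · -- last sector
          have him' : i + 1 = m := le_antisymm hi him
          obtain ⟨x, y, hx, hxy⟩ := hC3
          have e1 : x1 = 0 ∧ y1 = 1 := by
            apply huniq
            rw [← h1, him']; simp
          have e0 : x0 = x ∧ y0 = y := by
            apply huniq
            have : m - 1 = i := by omega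
            rw [this] at hxy
            rw [← h0, ← hxy]
          refine ⟨-x / 2, by linarith, ?_⟩
          intro δ a d hδ hδ1 ha hd _ hside
          have hs := hside him'
          refine le_max_of_le_left ?_
          rw [e0.1, e1.1]
          have h2 : δ * (a + d) ≤ 2 * d := by nlinarith
          nlinarith
    obtain ⟨κb, hκb, hgap⟩ := hgap
    obtain ⟨κ, hκ, hfin⟩ := CSP_.real_core x1 y1 x0 y0 b (min κa κb) hb (lt_min hκa hκb)
    refine ⟨κ, hκ, ?_⟩
    intro δ a d hδ hδ1 ha hd hs1 hs2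
    have hs : 0 ≤ a + d := add_nonneg ha hd
    obtain ⟨a', c', ha', hc', hsum, hor⟩ := hfin δ a d hδ hδ1 ha hd
      ((mul_le_mul_of_nonneg_right (min_le_left _ _) hs).trans (hlow a d ha hd))
      ((mul_le_mul_of_nonneg_right (mul_le_mul_of_nonneg_right (min_le_right _ _) hδ.le) hs).trans
        (hgap δ a d hδ hδ1 ha hd hs1 hs2))
    refine ⟨a', c', ha', hc', hsum, ?_⟩
    rcases hor with ⟨eX, eY, hle⟩ | ⟨eX, eY, hle⟩
    · left
      refine ⟨?_, hle⟩
      rw [hz, eX, eY]; module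
    · right
      refine ⟨?_, hle⟩
      rw [hz, eX, eY]; module
  -- the minimum over the sectors
  have hmin : ∀ k : ℕ, k ≤ m → ∃ κ : ℝ, 0 < κ ∧ ∀ i : ℕ, i < k → ∀ δ a d : ℝ, 0 < δ → δ ≤ 1 →
      0 ≤ a → 0 ≤ d → (i = 0 → δ * d ≤ a) → (i + 1 = m → δ * a ≤ d) →
      ∃ a' c' : ℝ, 0 ≤ a' ∧ 0 ≤ c' ∧ κ * (a + d) ≤ a' + c' ∧
      ((a • (p (c (i + 1 : ℕ)) - p v) + d • (p (c i) - p v) = a' • (p (c 0) - p v) +
        c' • (-((p (c 0) - p v) + b • (p (c m) - p v))) ∧ κ * δ * a' ≤ c') ∨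
      (a • (p (c (i + 1 : ℕ)) - p v) + d • (p (c i) - p v) =
        a' • (-((p (c 0) - p v) + b • (p (c m) - p v))) + c' • (p (c m) - p v) ∧
        κ * δ * c' ≤ a')) := by
    intro k
    induction k with
    | zero => intro _; exact ⟨1, one_pos, fun i hi => absurd hi (Nat.not_lt_zero i)⟩
    | succ k ih =>
      intro hk
      obtain ⟨κ1, hκ1, h1⟩ := ih (by omega)
      obtain ⟨κ2, hκ2, h2⟩ := hsec k hk
      refine ⟨min κ1 κ2, lt_min hκ1 hκ2, ?_⟩
      intro i hi δ a d hδ hδ1 ha hd hs1 hs2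
      have hs : 0 ≤ a + d := add_nonneg ha hd
      have hmon : ∀ κ' : ℝ, min κ1 κ2 ≤ κ' → ∀ u v : ℝ, 0 ≤ u → κ' * δ * u ≤ v →
          min κ1 κ2 * δ * u ≤ v := fun κ' hle u v hu huv =>
        (mul_le_mul_of_nonneg_right (mul_le_mul_of_nonneg_right hle hδ.le) hu).trans huv
      rcases Nat.lt_succ_iff_lt_or_eq.1 hi with hik | hik
      · obtain ⟨a', c', ha', hc', hsum, hor⟩ := h1 i hik δ a d hδ hδ1 ha hd hs1 hs2
        refine ⟨a', c', ha', hc', (mul_le_mul_of_nonneg_right (min_le_left _ _) hs).trans hsum, ?_⟩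
        rcases hor with ⟨e, hle⟩ | ⟨e, hle⟩
        · exact Or.inl ⟨e, hmon _ (min_le_left _ _) _ _ ha' hle⟩
        · exact Or.inr ⟨e, hmon _ (min_le_left _ _) _ _ hc' hle⟩
      · subst hik
        obtain ⟨a', c', ha', hc', hsum, hor⟩ := h2 δ a d hδ hδ1 ha hd hs1 hs2
        refine ⟨a', c', ha', hc', (mul_le_mul_of_nonneg_right (min_le_right _ _) hs).trans hsum, ?_⟩
        rcases hor with ⟨e, hle⟩ | ⟨e, hle⟩
        · exact Or.inl ⟨e, hmon _ (min_le_right _ _) _ _ ha' hle⟩
        · exact Or.inr ⟨e, hmon _ (min_le_right _ _) _ _ hc' hle⟩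
  exact hmin m le_rfl

end Pool.Agent.TSR2
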