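import Pool.Agent.TSR2.StmtsV

/-!
# TSR2, module DCR: the dictionary of a corner
-/

set_option autoImplicit false

open scoped RealInnerProductSpace

namespace Pool.Agent.TSR2

open Pool.Agent.TSM Pool.Agent.TSP Set Filter Topology

namespace DCR_

variable {V : Type} [Fintype V] [DecidableEq V] {K : Surf V} {p : V → E3} {Φ : Finset Aff}
  {v : V} {φ : Aff} {n : ℕ} {c : ZMod n → V} {m : ℕ}

theorem n_pos (h : CorD K p Φ v φ n c m) : 0 < n := by
  have := h.mn; omega

theorem c_n (c : ZMod n → V) : c (n : ℕ) = c 0 := by rw [ZMod.natCast_self]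

theorem c_zero (c : ZMod n → V) : c ((0 : ℕ) : ZMod n) = c 0 := by rw [Nat.cast_zero]

theorem tri_cases (h : CorD K p Φ v φ n c m) {u w : V} (ht : Tri K v u w) :
    ∃ i : ℕ, i < n ∧ ((u = c (i : ℕ) ∧ w = c (i + 1 : ℕ)) ∨
      (w = c (i : ℕ) ∧ u = c (i + 1 : ℕ))) := by
  obtain ⟨hn, hinj, hne, hlk⟩ := h.cyc
  have : NeZero n := ⟨by omega⟩
  obtain ⟨i, hi⟩ := (hlk _).1 ⟨ht.2.2.2, by simp⟩
  have hi' : ((i.val : ℕ) : ZMod n) = i := ZMod.natCast_zmod_val i
  have hi1 : ((i.val + 1 : ℕ) : ZMod n) = i + 1 := by rw [Nat.cast_add, hi', Nat.cast_one]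
  refine ⟨i.val, ZMod.val_lt i, ?_⟩
  rw [hi', hi1]
  have hx : u ∈ ({v, c i, c (i + 1)} : Finset V) := by rw [← hi]; simp
  have hy : w ∈ ({v, c i, c (i + 1)} : Finset V) := by rw [← hi]; simp
  simp only [Finset.mem_insert, Finset.mem_singleton] at hx hy
  rcases hx with hx | hx | hx
  · exact absurd hx.symm ht.1
  · rcases hy with hy | hy | hy
    · exact absurd hy.symm ht.2.1
    · exact absurd (hx.trans hy.symm) ht.2.2.1
    · exact Or.inl ⟨hx, hy⟩
  · rcases hy with hy | hy | hy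
    · exact absurd hy.symm ht.2.1
    · exact Or.inr ⟨hy, hx⟩
    · exact absurd (hx.trans hy.symm) ht.2.2.1

theorem mk_tri (h : CorD K p Φ v φ n c m) (i : ℕ) : Tri K v (c (i : ℕ)) (c (i + 1 : ℕ)) := by
  obtain ⟨hn, hinj, hne, hlk⟩ := h.cyc
  have : NeZero n := ⟨by omega⟩
  have : Fact (1 < n) := ⟨by omega⟩
  have h1 : (1 : ZMod n) ≠ 0 := one_ne_zero
  rw [Nat.cast_add, Nat.cast_one]
  refine ⟨(hne _).symm, (hne _).symm, ?_, ?_⟩
  · intro he
    have := hinj he
    exact h1 (by linear_combination - this)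
  · exact ((hlk _).2 ⟨_, rfl⟩).1

theorem ft_lt (h : CorD K p Φ v φ n c m) {i : ℕ} (hi : i < m) :
    FT p Φ {v, c (i : ℕ), c (i + 1 : ℕ)} := by
  refine ⟨φ, h.phi, fun x hx => ?_⟩
  simp only [Finset.mem_insert, Finset.mem_singleton] at hx
  rcases hx with rfl | rfl | rfl
  · exact h.on
  · exact h.flat i hi.le
  · exact h.flat (i + 1) hi

theorem ft_phi (h : CorD K p Φ v φ n c m) {u w : V} (hf : FT p Φ {v, u, w}) :
    ev φ (p u) = 0 ∧ ev φ (p w) = 0 := by
  obtain ⟨ψ, hψ, hx⟩ := hf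
  have h1 : ψ = φ := by
    by_contra hne
    have := h.off ψ hψ hne
    rw [hx v (by simp)] at this
    exact lt_irrefl _ this
  subst h1
  exact ⟨hx u (by simp), hx w (by simp)⟩

theorem not_ft (h : CorD K p Φ v φ n c m) {i : ℕ} (hm : m ≤ i) (hn : i < n) :
    ¬ FT p Φ {v, c (i : ℕ), c (i + 1 : ℕ)} := by
  intro hf
  obtain ⟨h1, h2⟩ := ft_phi h hf
  rcases hm.lt_or_eq with h3 | h3
  · have := h.below i h3 hn
    rw [h1] at this
    exact lt_irrefl _ this
  · have := h.below (i + 1) (by omega) (by have := h.mn; omega)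
    rw [h2] at this
    exact lt_irrefl _ this

theorem c_inj (h : CorD K p Φ v φ n c m) {i j : ℕ} (hi : i < n) (hj : j < n)
    (he : c (i : ℕ) = c (j : ℕ)) : i = j := by
  have h1 := h.cyc.2.1 he
  rw [ZMod.natCast_eq_natCast_iff'] at h1
  rwa [Nat.mod_eq_of_lt hi, Nat.mod_eq_of_lt hj] at h1

theorem act_cases (h : CorD K p Φ v φ n c m) {i : ℕ} (hi : i ≤ m)
    (ha : Act K p Φ v (c (i : ℕ))) : i = 0 ∨ i = m := by
  have hmn := h.mn
  have hm2 := h.m2
  obtain ⟨w, ht, hft⟩ := ha
  obtain ⟨j, hj, hc⟩ := tri_cases h ht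
  have hjm : m ≤ j := by
    by_contra hlt
    push Not at hlt
    apply hft
    rcases hc with ⟨h1, h2⟩ | ⟨h1, h2⟩
    · rw [h1, h2]; exact ft_lt h hlt
    · rw [h1, h2, ins_132]; exact ft_lt h hlt
  rcases hc with ⟨h1, h2⟩ | ⟨h1, h2⟩
  · have := c_inj h (by omega) hj h1
    right; omega
  · rcases Nat.lt_or_ge (j + 1) n with h3 | h3
    · have := c_inj h (by omega) h3 h2
      omega
    · have h4 : j + 1 = n := by omega
      rw [h4, c_n c, ← c_zero c] at h2
      left
      exact c_inj h (by omega) (by omega) h2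

theorem act_zero (h : CorD K p Φ v φ n c m) : Act K p Φ v (c 0) := by
  have hmn := h.mn
  have h1 := mk_tri h (n - 1)
  have h2 : n - 1 + 1 = n := by omega
  have h3 := not_ft h (i := n - 1) (by omega) (by omega)
  rw [h2, c_n c] at h1 h3
  exact ⟨c (n - 1 : ℕ), h1.s132, by rw [ins_132]; exact h3⟩

theorem act_m (h : CorD K p Φ v φ n c m) : Act K p Φ v (c (m : ℕ)) :=
  ⟨c (m + 1 : ℕ), mk_tri h m, not_ft h le_rfl (by have := h.mn; omega)⟩

theorem inner_q (h : CorD K p Φ v φ n c m) (u : V) : ⟪φ.1, p u - p v⟫ = ev φ (p u) := by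
  rw [← ev_sub_pt, h.on, sub_zero]

theorem inner_none (h : CorD K p Φ v φ n c m) (b : ℝ) :
    ⟪φ.1, -((p (c 0) - p v) + b • (p (c m) - p v))⟫ = 0 := by
  have h0 := h.flat 0 (by omega)
  rw [c_zero c] at h0
  rw [inner_neg_right, inner_add_right, inner_smul_right, inner_q h, inner_q h, h0,
    h.flat m le_rfl]
  simp

theorem alg1 (q0 qm : E3) {b : ℝ} (hb : b ≠ 0) (X Y : ℝ) :
    X • q0 + Y • qm = (X - Y / b) • q0 + (-Y / b) • -(q0 + b • qm) := by
  obtain ⟨t, rfl⟩ : ∃ t, Y = b * t := ⟨Y / b, by field_simp⟩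
  have h1 : b * t / b = t := by field_simp
  rw [neg_div, h1]
  module

end DCR_

open DCR_ in
theorem dcr_proof (hCCB : Stmt_CCB) (hCGN : Stmt_CGN) (hCOK : Stmt_COK) (hCSP : Stmt_CSP)
    (hCFN : Stmt_CFN) : Stmt_DCR := by
  intro V _ _ K p Φ v φ n c m hfr h
  have hmn := h.mn
  have hm2 := h.m2
  obtain ⟨-, b, hb, hdet⟩ := hCGN V K p Φ v φ n c m hfr h
  obtain ⟨κ₀, hκ₀, hsp⟩ := hCSP V K p Φ v φ n c m b hfr h hb
  obtain ⟨f1, ⟨x1, y1, hy1, f2⟩, ⟨x2, y2, hx2, f3⟩, -, -⟩ := hCFN V K p Φ v φ n c m hfr h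
  obtain ⟨b1, b2, b3, b4, b5, -, -, -, -⟩ := hCCB V K p Φ v φ n c m b h
  have hφ0 : φ.1 ≠ 0 := by
    intro h0
    have := hfr.unit φ h.phi
    rw [h0, norm_zero] at this
    exact zero_ne_one this
  -- the four constants
  have hX1 : 0 < -y1 / b := div_pos (by linarith) hb
  have hX2 : 0 < -x2 := by linarith
  set T : ℝ := 1 + -y1 / b + -x2 + |x1 - y1 / b| + |y2 - b * x2| with hT
  have hTY1 := abs_nonneg (x1 - y1 / b)
  have hTY2 := abs_nonneg (y2 - b * x2)
  have hTpos : 0 < T := by rw [hT]; linarith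
  set κ : ℝ := min 1 (min κ₀ (min (-y1 / b) (min (-x2) (1 / T)))) with hκ
  have k0 : 0 < κ := by
    rw [hκ]
    exact lt_min one_pos (lt_min hκ₀ (lt_min hX1 (lt_min hX2 (by positivity))))
  have k1 : κ ≤ 1 := min_le_left _ _
  have k2 : κ ≤ κ₀ := (min_le_right _ _).trans (min_le_left _ _)
  have k3 : κ ≤ -y1 / b :=
    (min_le_right _ _).trans ((min_le_right _ _).trans (min_le_left _ _))
  have k4 : κ ≤ -x2 := (min_le_right _ _).trans
    ((min_le_right _ _).trans ((min_le_right _ _).trans (min_le_left _ _)))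
  have k5 : κ ≤ 1 / T := (min_le_right _ _).trans
    ((min_le_right _ _).trans ((min_le_right _ _).trans (min_le_right _ _)))
  have k6 : T ≤ 1 / κ := by
    rw [le_div_iff₀ k0]
    rw [le_div_iff₀ hTpos] at k5
    linarith
  have hnone : none ∈ (cnPg p v n c m b).S := Finset.mem_insert_self _ _
  have h0S : some (c 0) ∈ (cnPg p v n c m b).S := by
    have := b1 n (by omega) le_rfl
    rwa [c_n c] at this
  have h0s : (cnPg p v n c m b).s (some (c 0)) = none := by rwa [c_n c] at b5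
  have hqm : ((cnPg p v n c m b).p ((cnPg p v n c m b).s none)) = p (c m) - p v := by
    rw [b3]; rfl
  have hpn : (cnPg p v n c m b).p none = -((p (c 0) - p v) + b • (p (c m) - p v)) := rfl
  refine ⟨b, κ, ⟨?_, k0, k1, fun u _ => rfl, ?_, ?_, Or.inr ⟨rfl, hnone⟩, ?_, ?_, ?_, ?_⟩⟩
  · exact hCOK V K p Φ v φ n c m b hfr h hb hdet
  · -- fac
    intro u w hu hw
    rcases b2 _ hu with h1 | ⟨i, hmi, hin, h1⟩
    · exact absurd h1 (by simp)
    have h1' : u = c (i : ℕ) := Option.some_injective _ h1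
    rcases hin.lt_or_eq with h2 | h2
    · rw [h1, b4 i hmi h2] at hw
      have h3 : c (i + 1 : ℕ) = w := Option.some_injective _ hw
      rw [h1', ← h3]
      exact ⟨mk_tri h i, not_ft h hmi h2⟩
    · rw [h1, h2, b5] at hw
      exact absurd hw (by simp)
  · -- occ
    intro u w ht hft
    obtain ⟨i, hi, hc⟩ := tri_cases h ht
    have him : m ≤ i := by
      by_contra hlt
      push Not at hlt
      apply hft
      rcases hc with ⟨h1, h2⟩ | ⟨h1, h2⟩
      · rw [h1, h2]; exact ft_lt h hlt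
      · rw [h1, h2, ins_132]; exact ft_lt h hlt
    have g1 := b1 i him hi.le
    have g2 := b1 (i + 1) (by omega) (by omega)
    have g3 := b4 i him hi
    rcases hc with ⟨h1, h2⟩ | ⟨h1, h2⟩
    · rw [h1, h2]
      exact ⟨g1, g2, Or.inl g3⟩
    · rw [h1, h2]
      exact ⟨g2, g1, Or.inr g3⟩
  · -- cor
    intro ψ hψ hv
    have h1 : ψ = φ := by
      by_contra hne
      have := h.off ψ hψ hne
      rw [hv] at this
      exact lt_irrefl _ this
    subst h1
    refine ⟨rfl, ?_, ?_, ?_⟩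
    · rw [hpn]; exact inner_none h b
    · rw [hqm, inner_q h]; exact h.flat m le_rfl
    · intro i hi
      rcases b2 i hi with h1 | ⟨j, hmj, hjn, h1⟩
      · rw [h1, hpn, inner_none h b]
      · rw [h1]
        change ⟪ψ.1, p (c j) - p v⟫ ≤ 0
        rw [inner_q h]
        exact hfr.mem (c j) ψ hψ
  · -- pck
    intro u w ht hft ha
    obtain ⟨i, hi, hc⟩ := tri_cases h ht
    have him : i < m := by
      by_contra hge
      push Not at hge
      rcases hc with ⟨h1, h2⟩ | ⟨h1, h2⟩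
      · rw [h1, h2] at hft; exact not_ft h hge hi hft
      · rw [h1, h2, ins_132] at hft; exact not_ft h hge hi hft
    refine ⟨rfl, ?_⟩
    rcases hc with ⟨h1, h2⟩ | ⟨h1, h2⟩
    · have h3 : i = 0 := by
        rw [h1] at ha
        rcases act_cases h him.le ha with h3 | h3
        · exact h3
        · omega
      subst h3
      rw [c_zero c] at h1
      rw [h1, h2]
      refine ⟨h0S, Or.inr h0s, -y1 / b, x1 - y1 / b, k3, ?_, ?_, ?_⟩
      · refine le_trans ?_ k6
        rw [hT]; linarith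
      · refine le_trans ?_ k6
        rw [hT]; linarith
      · rw [hpn]
        change p (c (0 + 1 : ℕ)) - p v = (-y1 / b) • -((p (c 0) - p v) + b • (p (c m) - p v)) +
          (x1 - y1 / b) • (p (c 0) - p v)
        rw [zero_add, f2, alg1 _ _ hb.ne', add_comm]
    · have h3 : i + 1 = m := by
        rw [h2] at ha
        rcases act_cases h him ha with h3 | h3
        · omega
        · exact h3
      rw [h1, h2, h3]
      refine ⟨b1 m le_rfl (by omega), Or.inl b3, -x2, y2 - b * x2, k4, ?_, ?_, ?_⟩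
      · refine le_trans ?_ k6
        rw [hT]; linarith
      · refine le_trans ?_ k6
        rw [hT]; linarith
      · rw [hpn]
        change p (c (i : ℕ)) - p v = (-x2) • -((p (c 0) - p v) + b • (p (c m) - p v)) +
          (y2 - b * x2) • (p (c m) - p v)
        have h4 : i = m - 1 := by omega
        rw [h4, f3]
        module
  · -- sep
    intro u w ht hft δ a d hδ hδ1 ha hd hu hw
    obtain ⟨i, hi, hc⟩ := tri_cases h ht
    have him : i < m := by
      by_contra hge
      push Not at hge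
      rcases hc with ⟨h1, h2⟩ | ⟨h1, h2⟩
      · rw [h1, h2] at hft; exact not_ft h hge hi hft
      · rw [h1, h2, ins_132] at hft; exact not_ft h hge hi hft
    refine ⟨rfl, ?_⟩
    -- the common part
    have common : ∀ z : E3, (∃ a' c' : ℝ, 0 ≤ a' ∧ 0 ≤ c' ∧ κ₀ * (a + d) ≤ a' + c' ∧
        ((z = a' • (p (c 0) - p v) + c' • (-((p (c 0) - p v) + b • (p (c m) - p v))) ∧
            κ₀ * δ * a' ≤ c') ∨
          (z = a' • (-((p (c 0) - p v) + b • (p (c m) - p v))) + c' • (p (c m) - p v) ∧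
            κ₀ * δ * c' ≤ a'))) →
        ∃ a' c' : ℝ, 0 ≤ a' ∧ 0 ≤ c' ∧ κ * (a + d) ≤ a' + c' ∧
          ((∃ q ∈ (cnPg p v n c m b).S, (cnPg p v n c m b).s q = none ∧
            z = a' • (cnPg p v n c m b).p q + c' • (cnPg p v n c m b).p none ∧
            κ * δ * a' ≤ c') ∨
          (z = a' • (cnPg p v n c m b).p none +
              c' • (cnPg p v n c m b).p ((cnPg p v n c m b).s none) ∧
            κ * δ * c' ≤ a')) := by
      rintro z ⟨a', c', ha', hc', h1, h2⟩
      have hmul : ∀ t : ℝ, 0 ≤ t → κ * δ * t ≤ κ₀ * δ * t := by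
        intro t ht
        exact mul_le_mul_of_nonneg_right (mul_le_mul_of_nonneg_right k2 hδ.le) ht
      refine ⟨a', c', ha', hc', ?_, ?_⟩
      · exact (mul_le_mul_of_nonneg_right k2 (by linarith)).trans h1
      · rcases h2 with ⟨h2, h3⟩ | ⟨h2, h3⟩
        · left
          exact ⟨some (c 0), h0S, h0s, h2, (hmul a' ha').trans h3⟩
        · right
          rw [hqm]
          exact ⟨h2, (hmul c' hc').trans h3⟩
    rcases hc with ⟨h1, h2⟩ | ⟨h1, h2⟩
    · apply common
      rw [h1, h2]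
      apply hsp i him δ a d hδ hδ1 ha hd
      · intro h3
        apply hu
        rw [h1, h3, c_zero c]
        exact act_zero h
      · intro h3
        apply hw
        rw [h2, h3]
        exact act_m h
    · apply common
      rw [h1, h2]
      obtain ⟨a', c', ha', hc', h5, h6⟩ := hsp i him δ d a hδ hδ1 hd ha (fun h3 => by
        apply hw
        rw [h1, h3, c_zero c]
        exact act_zero h) (fun h3 => by
        apply hu
        rw [h2, h3]
        exact act_m h)
      refine ⟨a', c', ha', hc', by rw [add_comm a d]; exact h5, ?_⟩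
      rw [add_comm (a • _) (d • _)]
      exact h6
  · -- sub
    rintro z ⟨u, w, ht, a, d, ha, hd, hz⟩
    obtain ⟨i, hi, hc⟩ := tri_cases h ht
    obtain ⟨s, t, hs, ht', hz'⟩ : ∃ s t : ℝ, 0 ≤ s ∧ 0 ≤ t ∧
        z = s • (p (c (i : ℕ)) - p v) + t • (p (c (i + 1 : ℕ)) - p v) := by
      rcases hc with ⟨h1, h2⟩ | ⟨h1, h2⟩
      · exact ⟨d, a, hd, ha, by rw [hz, h1, h2, add_comm]⟩
      · exact ⟨a, d, ha, hd, by rw [hz, h1, h2]⟩
    rcases Nat.lt_or_ge i m with him | him
    · -- facet triangle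
      have hz0 : ⟪φ.1, z⟫ = 0 := by
        rw [hz', inner_add_right, inner_smul_right, inner_smul_right, inner_q h, inner_q h,
          h.flat i him.le, h.flat (i + 1) him]
        simp
      have e0 : ⟪φ.1, p (c 0) - p v⟫ = 0 := by
        have h0 := h.flat 0 (by omega)
        rw [c_zero c] at h0
        rw [inner_q h, h0]
      have em : ⟪φ.1, p (c m) - p v⟫ = 0 := by rw [inner_q h, h.flat m le_rfl]
      obtain ⟨X, Y, hXY⟩ := plane_coords hφ0 e0 em h.ind hz0
      have hnot : ¬ (0 < X ∧ 0 < Y) := by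
        rintro ⟨hX, hY⟩
        exact f1 i him s t X Y hs ht' hX hY (by rw [← hz', hXY])
      have caseA : Y ≤ 0 → 0 ≤ X - Y / b → z ∈ (cnPg p v n c m b).cone := by
        intro hY hX
        refine ⟨some (c 0), h0S, X - Y / b, -Y / b, hX, div_nonneg (by linarith) hb.le, ?_⟩
        rw [h0s, hpn]
        change z = (X - Y / b) • (p (c 0) - p v) +
          (-Y / b) • -((p (c 0) - p v) + b • (p (c m) - p v))
        rw [hXY, alg1 _ _ hb.ne']
      have caseB : X ≤ 0 → 0 ≤ Y - b * X → z ∈ (cnPg p v n c m b).cone := by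
        intro hX hY
        refine ⟨none, hnone, -X, Y - b * X, by linarith, hY, ?_⟩
        rw [hqm, hpn, hXY]
        module
      rcases le_or_gt Y 0 with hY | hY
      · rcases le_or_gt 0 (X - Y / b) with hX | hX
        · exact caseA hY hX
        · have h5 : Y / b ≤ 0 := div_nonpos_of_nonpos_of_nonneg hY hb.le
          refine caseB (by linarith) ?_
          have h6 : X < Y / b := by linarith
          rw [lt_div_iff₀ hb] at h6
          linarith
      · have hX : X ≤ 0 := by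
          by_contra hX
          push Not at hX
          exact hnot ⟨hX, hY⟩
        refine caseB hX ?_
        have := mul_nonneg hb.le (neg_nonneg.2 hX)
        linarith
    · refine ⟨some (c (i : ℕ)), b1 i him hi.le, s, t, hs, ht', ?_⟩
      rw [b4 i him hi]
      exact hz'

end Pool.Agent.TSR2
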