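import Pool.Agent.TSR2.StmtsC

/-!
# TSR2, module DFA: the edge map agrees with the face map
-/

set_option autoImplicit false

open scoped RealInnerProductSpace

namespace Pool.Agent.TSR2

open Pool.Agent.TSM Pool.Agent.TSP Set Filter Topology

namespace DFA_

theorem tz_smul (s : ℝ) (hs : s ≠ 0) (b : E3) (P : Aff) (y : E3) :
    tz b (s • P) y • b = tz (s • b) P y • (s • b) := by
  unfold tz
  rw [ev_smul', Prod.smul_fst, inner_smul_left, inner_smul_right, smul_smul]
  simp only [RCLike.conj_to_real]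
  congr 1
  by_cases h : ⟪P.1, b⟫ = 0
  · rw [h]; simp
  · field_simp

end DFA_

open DFA_ in
theorem dfa_proof (h1 : Stmt_KNB) (_h2 : Stmt_THL) (h3 : Stmt_BHL) (h4 : Stmt_ERA) :
    Stmt_DFA := by
  intro V _ _ K p Φ δ c₀ ε G hF hS
  have key : ∀ v u w w' : V, Ev fun R r => Quad K v u w w' → Act K p Φ v u →
      ∀ (_ : Nonempty {n // n ∈ G.Ch v u}) (_ : Nonempty {n // n ∈ G.Ch u v}) (a c : ℝ),
      InE δ (R * r) a c → (δ * c ≤ a ∨ δ * (1 - a - c) ≤ a) →
      (G.ed p v u w w').t r ((G.ed p v u w w').pt a c) =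
        tz (G.ed p v u w w').b ((G.ed p v u w w').α r) ((G.ed p v u w w').pt a c) := by
    intro v u w w'
    by_cases hq : Quad K v u w w' ∧ Act K p Φ v u
    · obtain ⟨i1, i2⟩ := hS.nonempty hq.2
      refine (h4 _ _ (G.ed p v u w w') δ c₀ ε (hS.ok hq.1 hq.2)).mono ?_
      intro R r h _ _ _ _ a c h5 h6
      exact h a c h5 h6
    · refine (ev_const (P := True) trivial).mono ?_
      intro R r _ h5 h6
      exact absurd ⟨h5, h6⟩ hq
  have key2 := Ev.all fun v : V => Ev.all fun u : V => Ev.all fun w : V => Ev.all fun w' : V =>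
    key v u w w'
  refine (key2.and (ev_basic (c := 1) (C := 1) one_pos)).mono ?_
  rintro R r ⟨hk, hr, hR, -, -, -⟩ v u w ht hft x hx hxf
  have ha : Act K p Φ v u := ⟨w, ht, hft⟩
  obtain ⟨v', u', w', hex⟩ := exists_hex ht
  have hq : Quad K v u w w' := hex.2.2
  obtain ⟨i1, i2⟩ := hS.nonempty ha
  have hok := hS.ok hq ha
  have hδ0 : 0 < δ := hok.d0
  have hδ1 : δ ≤ 1 / 16 := hok.d1
  have hB : Bent p v u w w' := h1 V K p Φ hF v u w w' ha hq
  rw [G.De_eq p hq, G.Df_eq p hex]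
  obtain ⟨hb, hsupp, hmin, -⟩ := hxf
  have hs1 := sum_one hb ht hsupp
  have hinE := inE_of_EZ ht hx hsupp hδ0.le
  obtain ⟨-, g1, g2, g3, -, -⟩ := hx
  have hρ : 0 < R * r := mul_pos hR hr
  have hxv : 0 < x v := by linarith
  have hxu : 0 < x u := by linarith
  have hm := hmin v (by simp) u (by simp) w (by simp) ht.1 ht.2.1 ht.2.2.1
  have hcase : δ * x u ≤ x w ∨ δ * (1 - x w - x u) ≤ x w := by
    rcases le_total (x v) (x u) with h | h
    · right
      rw [min_eq_left h] at hm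
      have : 1 - x w - x u = x v := by linarith
      rw [this]; exact hm
    · left
      rw [min_eq_right h] at hm
      exact hm
  have ht1 := hk v u w w' hq ha i1 i2 (x w) (x u) hinE hcase
  rw [← G.ed_pt ht hb hsupp] at ht1
  have hmn : 0 ≤ min (x v) (x u) := le_min hxv.le hxu.le
  have h8 : 8 * x w ≤ min (x v) (x u) := by nlinarith
  have hbh := ((h3 V p v u w v' u' w' x (body_nonneg hb)).2.1) hxv hxu h8
  have hs0 : sg p {v, u, w} v w' ≠ 0 := by
    rw [sg_eq p ht.1 ht.2.1 ht.2.2.1]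
    rcases sign_one (hB.ev_ne ht.1 ht.2.1 ht.2.2.1) with h | h <;> rw [h] <;> norm_num
  unfold Ed.D
  rw [ht1, Dat.ed_α, hbh]
  congr 1
  exact tz_smul _ hs0 _ _ _

end Pool.Agent.TSR2
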