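import Pool.Agent.TSR2.StmtsV

/-!
# TSR2.DIN: the dictionary of an inner vertex
-/

set_option autoImplicit false

open scoped RealInnerProductSpace

namespace Pool.Agent.TSR2

open Pool.Agent.TSM Pool.Agent.TSP Set Filter Topology

namespace DIN_

theorem ne_succ {n : ℕ} (hn : 3 ≤ n) (i : ZMod n) : i ≠ i + 1 := by
  intro h
  have h1 : (1 : ZMod n) = 0 := by
    have : i + 0 = i + 1 := by rw [add_zero]; exact h
    exact (add_left_cancel this).symm
  have : Fact (1 < n) := ⟨by omega⟩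
  exact one_ne_zero h1

theorem tri {V : Type} [Fintype V] [DecidableEq V] {K : Surf V} {v : V} {n : ℕ}
    {c : ZMod n → V} (hc : IsLinkCycle K.tri v n c) (i : ZMod n) : Tri K v (c i) (c (i + 1)) :=
  ⟨(hc.2.2.1 i).symm, (hc.2.2.1 (i + 1)).symm, fun h => ne_succ hc.1 i (hc.2.1 h),
    ((hc.2.2.2 _).2 ⟨i, rfl⟩).1⟩

/-- the triangles at `v` -/
theorem cases {V : Type} [Fintype V] [DecidableEq V] {K : Surf V} {v : V} {n : ℕ}
    {c : ZMod n → V} (hc : IsLinkCycle K.tri v n c) {u w : V} (h : Tri K v u w) :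
    ∃ i, (u = c i ∧ w = c (i + 1)) ∨ (w = c i ∧ u = c (i + 1)) := by
  obtain ⟨i, hi⟩ := (hc.2.2.2 {v, u, w}).1 ⟨h.2.2.2, by simp⟩
  have hu : u ∈ ({v, c i, c (i + 1)} : Finset V) := by rw [← hi]; simp
  have hw : w ∈ ({v, c i, c (i + 1)} : Finset V) := by rw [← hi]; simp
  simp only [Finset.mem_insert, Finset.mem_singleton] at hu hw
  refine ⟨i, ?_⟩
  rcases hu with hu | hu | hu
  · exact absurd hu.symm h.1
  · rcases hw with hw | hw | hw
    · exact absurd hw.symm h.2.1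
    · exact absurd (hu.trans hw.symm) h.2.2.1
    · exact Or.inl ⟨hu, hw⟩
  · rcases hw with hw | hw | hw
    · exact absurd hw.symm h.2.1
    · exact Or.inr ⟨hw, hu⟩
    · exact absurd (hu.trans hw.symm) h.2.2.1

end DIN_

theorem din_proof (hICB : Stmt_ICB) (hIOK : Stmt_IOK) : Stmt_DIN := by
  intro V _ _ K p Φ v n c hF hI hc
  obtain ⟨b1, b2, b3, -, -, -, -⟩ := hICB V K p v n c hc
  have hno : ∀ φ ∈ Φ, ev φ (p v) ≠ 0 := fun φ hφ => (hI.1 φ hφ).ne
  have hFT : ∀ u w, ¬ FT p Φ {v, u, w} := by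
    rintro u w ⟨φ, hφ, h⟩
    exact hno φ hφ (h v (by simp))
  refine ⟨hIOK V K p Φ v n c hF hI hc, one_pos, le_refl 1, fun u _ => rfl, ?_, ?_, ?_, ?_, ?_, ?_,
    ?_⟩
  · intro u w hu hs
    obtain ⟨i, hi⟩ := b2 _ hu
    have hi' := Option.some_injective V hi
    rw [hi, b3 i] at hs
    have hs' := Option.some_injective V hs
    rw [hi', ← hs']
    exact ⟨DIN_.tri hc i, hFT _ _⟩
  · intro u w ht _
    obtain ⟨i, ⟨h1, h2⟩ | ⟨h1, h2⟩⟩ := DIN_.cases hc ht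
    · rw [h1, h2]
      exact ⟨b1 i, b1 (i + 1), Or.inl (b3 i)⟩
    · rw [h1, h2]
      exact ⟨b1 (i + 1), b1 i, Or.inr (b3 i)⟩
  · left
    refine ⟨rfl, fun h => ?_⟩
    obtain ⟨i, hi⟩ := b2 _ h
    exact absurd hi (by simp)
  · intro φ hφ h
    exact absurd h (hno φ hφ)
  · intro u w _ h
    exact absurd h (hFT u w)
  · intro u w _ h
    exact absurd h (hFT u w)
  · rintro z ⟨u, w, ht, a, d, ha, hd, rfl⟩
    obtain ⟨i, ⟨h1, h2⟩ | ⟨h1, h2⟩⟩ := DIN_.cases hc ht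
    · refine ⟨some (c i), b1 i, d, a, hd, ha, ?_⟩
      rw [b3 i, h1, h2, add_comm]
      rfl
    · refine ⟨some (c i), b1 i, a, d, ha, hd, ?_⟩
      rw [b3 i, h1, h2]
      rfl

end Pool.Agent.TSR2
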