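import Pool.Agent.TSM.VMDefs
import Pool.Agent.TSM.Reduce
import Pool.Agent.TSP.Lin

/-!
# TSR2: definitions for Part R (assembly) of MP_89ee87_gt

From the local resolution theorem `Stmt_VM2` to `Stmt_R`.
-/

set_option autoImplicit false

open scoped RealInnerProductSpace

namespace Pool.Agent.TSR2

open Pool.Agent.TSM Set Filter Topology

section
variable {V : Type} [Fintype V] [DecidableEq V]

/-! ### combinatorics -/

/-- facet triangle -/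
def FT (p : V → E3) (Φ : Finset Aff) (t : Finset V) : Prop := ∃ φ ∈ Φ, ∀ w ∈ t, ev φ (p w) = 0

/-- `v, u, w` is a triangle of `K` -/
def Tri (K : Surf V) (v u w : V) : Prop := v ≠ u ∧ v ≠ w ∧ u ≠ w ∧ {v, u, w} ∈ K.tri

/-- `v, u, w` and `v, u, w'` are the two triangles at the edge `v u` -/
def Quad (K : Surf V) (v u w w' : V) : Prop := Tri K v u w ∧ Tri K v u w' ∧ w ≠ w'

/-- active edge: at least one of its triangles is not a facet triangle -/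
def Act (K : Surf V) (p : V → E3) (Φ : Finset Aff) (v u : V) : Prop :=
  ∃ w, Tri K v u w ∧ ¬ FT p Φ {v, u, w}

/-- a triangle `v, u, w` with the opposite vertices `v', u', w'` of its three neighbours -/
def Hex (K : Surf V) (v u w v' u' w' : V) : Prop :=
  Quad K u w v v' ∧ Quad K v w u u' ∧ Quad K v u w w'

/-! ### planes, normals, directions -/

open Classical in
/-- the plane of a triangle (normal = twice the area, one of the two signs is chosen) -/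
noncomputable def pl0 (p : V → E3) (t : Finset V) : Aff :=
  if h : ∃ q : V × V × V, t = {q.1, q.2.1, q.2.2} ∧ q.1 ≠ q.2.1 ∧ q.1 ≠ q.2.2 ∧ q.2.1 ≠ q.2.2 then
    (crs (p h.choose.2.1 - p h.choose.1) (p h.choose.2.2 - p h.choose.1),
      ⟪crs (p h.choose.2.1 - p h.choose.1) (p h.choose.2.2 - p h.choose.1), p h.choose.1⟫)
  else 0

/-- sign such that `sg p t v q • pl0 p t` is positive at `p q` (`v` is a vertex of `t`) -/
noncomputable def sg (p : V → E3) (t : Finset V) (v q : V) : ℝ :=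
  Real.sign ⟪(pl0 p t).1, p q - p v⟫

/-- unit normal of the triangle `v, u, w` pointing to the side of `q` -/
noncomputable def nIn (p : V → E3) (v u w q : V) : E3 :=
  (sg p {v, u, w} v q * ‖(pl0 p {v, u, w}).1‖⁻¹) • (pl0 p {v, u, w}).1

/-- the direction of projection at the edge `v u` with the triangles `v u w`, `v u w'` -/
noncomputable def bE (p : V → E3) (v u w w' : V) : E3 :=
  (1 / (1 + ⟪nIn p v u w w', nIn p v u w' w⟫)) • (nIn p v u w w' + nIn p v u w' w)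

/-- cut-off: `1` for `8 a ≤ c`, `0` for `4 a ≥ c`, homogeneous of degree `0` -/
noncomputable def th (a c : ℝ) : ℝ := max 0 (min 1 ((2 * c - 8 * a) / max a c))

/-- unit normal of a triangle (one of the two signs is chosen) -/
noncomputable def nt (p : V → E3) (t : Finset V) : E3 := ‖(pl0 p t).1‖⁻¹ • (pl0 p t).1

/-- the field near the vertex `v` at `a (w - v) + c (u - v)` in the triangle `v u w`; `w'` is
opposite to `w` at the edge `v u` and `u'` is opposite to `u` at the edge `v w` -/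
noncomputable def bL (p : V → E3) (v u w w' u' : V) (a c : ℝ) : E3 :=
  nt p {v, u, w} + th a c • (sg p {v, u, w} v w' • bE p v u w w' - nt p {v, u, w}) +
    th c a • (sg p {v, u, w} v u' • bE p v w u u' - nt p {v, u, w})

/-- the field on the triangle `v u w` at the point with barycentric coordinates `x` -/
noncomputable def bH (p : V → E3) (v u w v' u' w' : V) (x : V → ℝ) : E3 :=
  nt p {v, u, w} +
    th (x w) (min (x v) (x u)) • (sg p {v, u, w} v w' • bE p v u w w' - nt p {v, u, w}) +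
    th (x u) (min (x v) (x w)) • (sg p {v, u, w} v u' • bE p v w u u' - nt p {v, u, w}) +
    th (x v) (min (x u) (x w)) • (sg p {v, u, w} u v' • bE p u w v v' - nt p {v, u, w})

/-- the plane `Z` seen from `q` with magnification `1 / r` -/
noncomputable def scl (q : E3) (r : ℝ) (Z : Aff) : Aff := (Z.1, (Z.2 - ⟪Z.1, q⟫) / r)

/-! ### the resolution of a vertex in terms of its star -/

/-- the cone over the star of `v`, translated to the origin -/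
def scone (K : Surf V) (p : V → E3) (v : V) : Set E3 :=
  {z | ∃ u w, Tri K v u w ∧ ∃ a c : ℝ, 0 ≤ a ∧ 0 ≤ c ∧ z = a • (p w - p v) + c • (p u - p v)}

/-- the chamfers at the vertex `v`: `Ch u` are the chamfers at the edge `v u`, `N n` the normals,
`ω u` is the sign which makes the normals point inside -/
def VCh (K : Surf V) (p : V → E3) (Φ : Finset Aff) (v : V) (δ c₀ ε : ℝ) (Ch : V → Finset ℕ)
    (N : ℕ → E3) (ω : V → ℝ) : Prop :=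
  ∀ u w w', Quad K v u w w' → Act K p Φ v u → (Ch u).Nonempty ∧ (ω u = 1 ∨ ω u = -1) ∧
    ∀ n ∈ Ch u, ⟪ω u • N n, p u - p v⟫ < 0 ∧ -ε < ⟪ω u • N n, p u - p v⟫ ∧
      0 < ⟪ω u • N n, (p u - p v) + δ • (p w - p v)⟫ ∧
      0 < ⟪ω u • N n, (p u - p v) + δ • (p w' - p v)⟫ ∧ c₀ < ⟪ω u • N n, bE p v u w w'⟫

/-- the planes `A` (of the triangles) and `B` (chamfers) at `v` are near to the given ones -/
def VNear (K : Surf V) (p : V → E3) (Φ : Finset Aff) (v : V) (Ch : V → Finset ℕ) (N : ℕ → E3)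
    (o : Finset V → ℝ) (oN : ℕ → ℝ) (η : ℝ) (A : Finset V → Aff) (B : ℕ → Aff) : Prop :=
  (∀ u w, Tri K v u w → FT p Φ {v, u, w} → A {v, u, w} = ((pl0 p {v, u, w}).1, 0)) ∧
  (∀ u w, Tri K v u w → ¬ FT p Φ {v, u, w} →
    ‖(A {v, u, w}).1 - (pl0 p {v, u, w}).1‖ < η ∧ |(A {v, u, w}).2 - o {v, u, w}| < η) ∧
  ∀ u, ∀ n ∈ Ch u, ‖(B n).1 - N n‖ < η ∧ |(B n).2 - oN n| < η

/-- `Y` lies on the surface `min = 0` at the edge `v u`, the minimum is over the planes of the two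
triangles and the chamfers of `v` -/
def VArm (p : V → E3) (A : Finset V → Aff) (B : ℕ → Aff) (Ch : V → Finset ℕ) (ω : V → ℝ)
    (v u w w' : V) (Y : E3) : Prop :=
  0 ≤ sg p {v, u, w} v w' * ev (A {v, u, w}) Y ∧ 0 ≤ sg p {v, u, w'} v w * ev (A {v, u, w'}) Y ∧
    (∀ n ∈ Ch u, 0 ≤ ω u * ev (B n) Y) ∧
    (ev (A {v, u, w}) Y = 0 ∨ ev (A {v, u, w'}) Y = 0 ∨ ∃ n ∈ Ch u, ev (B n) Y = 0)

/-- `D` is a resolution of the (magnified) vertex `v` with planes `A`, `B` -/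
structure VOut (K : Surf V) (p : V → E3) (Φ : Finset Aff) (v : V) (δ R M : ℝ)
    (Ch : V → Finset ℕ) (ω : V → ℝ) (A : Finset V → Aff) (B : ℕ → Aff) (D : E3 → E3) : Prop where
  cont : ContinuousOn D (scone K p v)
  good : ∀ z ∈ scone K p v, GoodOn (scone K p v) D z
  half : ∀ z ∈ scone K p v, ∀ φ ∈ Φ, ev φ (p v) = 0 → ⟪φ.1, D z⟫ ≤ 0
  bdd : ∀ z ∈ scone K p v, ‖D z - z‖ ≤ M * (1 + ‖z‖)
  arm : ∀ u w w', Quad K v u w w' → Act K p Φ v u → ∀ a c : ℝ, 0 ≤ a → a ≤ 2 * δ * c → R ≤ a + c →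
    (∃ s : ℝ, D (a • (p w - p v) + c • (p u - p v)) =
      a • (p w - p v) + c • (p u - p v) - s • bE p v u w w') ∧
    VArm p A B Ch ω v u w w' (D (a • (p w - p v) + c • (p u - p v)))
  fce : ∀ u w w' u', Quad K v u w w' → Quad K v w u u' → ¬ FT p Φ {v, u, w} → ∀ a c : ℝ, 0 ≤ a →
    0 ≤ c → δ * c ≤ a → δ * a ≤ c → R ≤ a + c →
    (∃ s : ℝ, D (a • (p w - p v) + c • (p u - p v)) =
      a • (p w - p v) + c • (p u - p v) - s • bL p v u w w' u' a c) ∧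
    ev (A {v, u, w}) (D (a • (p w - p v) + c • (p u - p v))) = 0
  rst : ∀ u w, Tri K v u w → FT p Φ {v, u, w} → ∀ a c : ℝ, 0 ≤ a → 0 ≤ c →
    (Act K p Φ v u → δ * c ≤ a) → (Act K p Φ v w → δ * a ≤ c) → R ≤ a + c →
    D (a • (p w - p v) + c • (p u - p v)) = a • (p w - p v) + c • (p u - p v)

/-! ### abstract edges -/

/-- zero of `Z` on the line `y - t b` -/
noncomputable def tz (b : E3) (Z : Aff) (y : E3) : ℝ := ev Z y / ⟪Z.1, b⟫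

/-- minimum of a family of affine functions -/
noncomputable def mn {I : Type} [Fintype I] [Nonempty I] (ζ : I → Aff) (y : E3) : ℝ :=
  Finset.univ.inf' Finset.univ_nonempty fun i => ev (ζ i) y

noncomputable def tmn {I : Type} [Fintype I] [Nonempty I] (b : E3) (ζ : I → Aff) (y : E3) : ℝ :=
  Finset.univ.inf' Finset.univ_nonempty fun i => tz b (ζ i) y

/-- the edge function -/
noncomputable def FE {I J : Type} [Fintype I] [Nonempty I] [Fintype J] [Nonempty J]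
    (α α' : Aff) (ζ : I → Aff) (ξ : J → Aff) (y : E3) : ℝ :=
  min (min (ev α y) (ev α' y)) (max (mn ζ y) (mn ξ y))

/-- the zero of the edge function on the line `y - t b` -/
noncomputable def tE {I J : Type} [Fintype I] [Nonempty I] [Fintype J] [Nonempty J]
    (b : E3) (α α' : Aff) (ζ : I → Aff) (ξ : J → Aff) (y : E3) : ℝ :=
  min (min (tz b α y) (tz b α' y)) (max (tmn b ζ y) (tmn b ξ y))

/-- the zero of the edge function without the chamfers of the second vertex -/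
noncomputable def tW {I : Type} [Fintype I] [Nonempty I]
    (b : E3) (α α' : Aff) (ζ : I → Aff) (y : E3) : ℝ :=
  min (min (tz b α y) (tz b α' y)) (tmn b ζ y)

/-- the limit configuration (`r = 0`) at an edge `v u` with third vertices `w`, `w'`, direction
`b`, planes `α₀` of `v u w` and `α₀'` of `v u w'`, chamfers `ζ₀` through `v` and `ξ₀` through
`u`; `ε` is the depth of the chamfers -/
structure EOk {I J : Type} (v u w w' b : E3) (α₀ α₀' : Aff) (ζ₀ : I → Aff) (ξ₀ : J → Aff)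
    (δ c₀ ε : ℝ) : Prop where
  c0 : 0 < c₀
  d0 : 0 < δ
  d1 : δ ≤ 1 / 16
  e0 : 0 < ε
  av : ev α₀ v = 0
  au : ev α₀ u = 0
  aw : ev α₀ w = 0
  aw' : 0 < ev α₀ w'
  a'v : ev α₀' v = 0
  a'u : ev α₀' u = 0
  a'w' : ev α₀' w' = 0
  a'w : 0 < ev α₀' w
  ba : c₀ ≤ ⟪α₀.1, b⟫
  ba' : c₀ ≤ ⟪α₀'.1, b⟫
  bz : ∀ i, c₀ ≤ ⟪(ζ₀ i).1, b⟫
  bx : ∀ j, c₀ ≤ ⟪(ξ₀ j).1, b⟫
  zv : ∀ i, ev (ζ₀ i) v = 0
  zu : ∀ i, ev (ζ₀ i) u < 0
  zu' : ∀ i, -ε ≤ ev (ζ₀ i) u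
  zw : ∀ i, 0 < ev (ζ₀ i) (u + δ • (w - v))
  zw' : ∀ i, 0 < ev (ζ₀ i) (u + δ • (w' - v))
  xu : ∀ j, ev (ξ₀ j) u = 0
  xv : ∀ j, ev (ξ₀ j) v < 0
  xv' : ∀ j, -ε ≤ ev (ξ₀ j) v
  xw : ∀ j, 0 < ev (ξ₀ j) (v + δ • (w - u))
  xw' : ∀ j, 0 < ev (ξ₀ j) (v + δ • (w' - u))
  sv : ∀ a c : ℝ, 0 ≤ a → 0 ≤ c → 8 * ‖b‖ * ε * (a + c) ≤ c₀ * ‖a • (w - v) + c • (u - v)‖
  sv' : ∀ a c : ℝ, 0 ≤ a → 0 ≤ c → 8 * ‖b‖ * ε * (a + c) ≤ c₀ * ‖a • (w' - v) + c • (u - v)‖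
  su : ∀ a c : ℝ, 0 ≤ a → 0 ≤ c → 8 * ‖b‖ * ε * (a + c) ≤ c₀ * ‖a • (w - u) + c • (v - u)‖
  su' : ∀ a c : ℝ, 0 ≤ a → 0 ≤ c → 8 * ‖b‖ * ε * (a + c) ≤ c₀ * ‖a • (w' - u) + c • (v - u)‖
  izz : ∀ i i', i ≠ i' → Indep α₀ (ζ₀ i) (ζ₀ i') ∧ Indep α₀' (ζ₀ i) (ζ₀ i')
  izzz : ∀ i i' i'', i ≠ i' → i ≠ i'' → i' ≠ i'' → Indep (ζ₀ i) (ζ₀ i') (ζ₀ i'')
  ixx : ∀ j j', j ≠ j' → Indep α₀ (ξ₀ j) (ξ₀ j') ∧ Indep α₀' (ξ₀ j) (ξ₀ j')
  ixxx : ∀ j j' j'', j ≠ j' → j ≠ j'' → j' ≠ j'' → Indep (ξ₀ j) (ξ₀ j') (ξ₀ j'')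
  izx : ∀ i j, Indep α₀ (ζ₀ i) (ξ₀ j) ∧ Indep α₀' (ζ₀ i) (ξ₀ j)
  izzx : ∀ i i' j, i ≠ i' → Indep (ζ₀ i) (ζ₀ i') (ξ₀ j)
  izxx : ∀ i j j', j ≠ j' → Indep (ζ₀ i) (ξ₀ j) (ξ₀ j')
  quad : ∀ i i' j j', i ≠ i' → j ≠ j' → ∀ y, ev (ζ₀ i) y = 0 → ev (ζ₀ i') y = 0 →
    ev (ξ₀ j) y = 0 → ev (ξ₀ j') y = 0 → False

/-! ### the selection of planes -/

/-- planes of the triangles at scale `r` -/
noncomputable def prl (p : V → E3) (Q : Finset V → Aff) (r : ℝ) (t : Finset V) : Aff :=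
  pl0 p t + r • Q t

/-- chamfers at scale `r` -/
noncomputable def brl (p : V → E3) (N : V → ℕ → E3) (oN : V → ℕ → ℝ) (r : ℝ) (v : V) (n : ℕ) :
    Aff := (N v n, ⟪N v n, p v⟫ + r * oN v n)

/-- the chamfers of `v` at the edge `v u`, pointing inside, at scale `r` -/
noncomputable def zr (p : V → E3) (N : V → ℕ → E3) (oN : V → ℕ → ℝ) (ω : V → V → ℝ)
    (Ch : V → V → Finset ℕ) (r : ℝ) (v u : V) (n : {n // n ∈ Ch v u}) : Aff :=
  ω v u • brl p N oN r v n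

/-- the plane of the triangle `v u w` pointing to `q`, at scale `r` -/
noncomputable def ar (p : V → E3) (Q : Finset V → Aff) (r : ℝ) (v u w q : V) : Aff :=
  sg p {v, u, w} v q • prl p Q r {v, u, w}

/-- all data which do not depend on `r` -/
structure Sel (K : Surf V) (p : V → E3) (Φ : Finset Aff) (δ c₀ ε : ℝ) (Ch : V → V → Finset ℕ)
    (N : V → ℕ → E3) (ω : V → V → ℝ) (oN : V → ℕ → ℝ) (Q : Finset V → Aff) : Prop where
  ne : ∀ v u, Act K p Φ v u → (Ch v u).Nonempty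
  om : ∀ v u, Act K p Φ v u → ω v u = 1 ∨ ω v u = -1
  qf : ∀ t, FT p Φ t → Q t = 0
  eok : ∀ v u w w', Quad K v u w w' → Act K p Φ v u →
    EOk (p v) (p u) (p w) (p w') (bE p v u w w') (ar p Q 0 v u w w') (ar p Q 0 v u w' w)
      (zr p N oN ω Ch 0 v u) (zr p N oN ω Ch 0 u v) δ c₀ ε
  core : ∃ R M : ℝ, 0 < R ∧ 0 ≤ M ∧ ∀ᶠ r in 𝓝[>] (0 : ℝ), ∀ v, ¬ K.Outer p Φ v →
    ∃ D : E3 → E3, VOut K p Φ v δ R M (Ch v) (ω v) (fun t => scl (p v) r (prl p Q r t))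
      (fun n => scl (p v) r (brl p N oN r v n)) D

/-! ### the pieces of the resolved map at scale `r` (functions of barycentric coordinates) -/

/-- near a vertex -/
noncomputable def Dc (p : V → E3) (r : ℝ) (Dv : V → E3 → E3) (v : V) (x : V → ℝ) : E3 :=
  p v + r • Dv v (r⁻¹ • (lin p x - p v))

open Classical in
/-- near an edge -/
noncomputable def De (K : Surf V) (p : V → E3) (N : V → ℕ → E3) (oN : V → ℕ → ℝ) (ω : V → V → ℝ)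
    (Ch : V → V → Finset ℕ) (Q : Finset V → Aff) (r : ℝ) (v u : V) (x : V → ℝ) : E3 :=
  if h : ∃ q : V × V, Quad K v u q.1 q.2 ∧ (Ch v u).Nonempty ∧ (Ch u v).Nonempty then
    haveI : Nonempty {n // n ∈ Ch v u} := h.choose_spec.2.1.to_subtype
    haveI : Nonempty {n // n ∈ Ch u v} := h.choose_spec.2.2.to_subtype
    lin p x - tE (bE p v u h.choose.1 h.choose.2) (ar p Q r v u h.choose.1 h.choose.2)
      (ar p Q r v u h.choose.2 h.choose.1) (zr p N oN ω Ch r v u) (zr p N oN ω Ch r u v)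
      (lin p x) • bE p v u h.choose.1 h.choose.2
  else lin p x

open Classical in
/-- inside a triangle -/
noncomputable def Df (K : Surf V) (p : V → E3) (Q : Finset V → Aff) (r : ℝ) (t : Finset V)
    (x : V → ℝ) : E3 :=
  if h : ∃ q : V × V × V × V × V × V, t = {q.1, q.2.1, q.2.2.1} ∧
      Hex K q.1 q.2.1 q.2.2.1 q.2.2.2.1 q.2.2.2.2.1 q.2.2.2.2.2 then
    lin p x - tz (bH p h.choose.1 h.choose.2.1 h.choose.2.2.1 h.choose.2.2.2.1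
      h.choose.2.2.2.2.1 h.choose.2.2.2.2.2 x) (prl p Q r t) (lin p x) •
      bH p h.choose.1 h.choose.2.1 h.choose.2.2.1 h.choose.2.2.2.1
      h.choose.2.2.2.2.1 h.choose.2.2.2.2.2 x
  else lin p x

/-! ### the regions -/

/-- closed core of `v` -/
def CZ (K : Surf V) (ρ : ℝ) (v : V) : Set (V → ℝ) := {x | x ∈ K.body ∧ 1 - x v ≤ 2 * ρ}

/-- closed edge zone -/
def EZ (K : Surf V) (δ ρ : ℝ) (v u : V) : Set (V → ℝ) :=
  {x | x ∈ K.body ∧ ρ / 2 ≤ x v ∧ ρ / 2 ≤ x u ∧ 1 - x v - x u ≤ 2 * δ * min (x v) (x u) ∧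
    ρ ≤ 1 - x v ∧ ρ ≤ 1 - x u}

/-- open edge zone -/
def EZo (K : Surf V) (δ ρ : ℝ) (v u : V) : Set (V → ℝ) :=
  {x | x ∈ K.body ∧ 0 < x v ∧ 0 < x u ∧ 1 - x v - x u < 2 * δ * min (x v) (x u) ∧
    ρ < 1 - x v ∧ ρ < 1 - x u}

/-- closed face zone -/
def FZ (K : Surf V) (δ ρ : ℝ) (t : Finset V) : Set (V → ℝ) :=
  {x | x ∈ K.body ∧ (∀ w, w ∉ t → x w = 0) ∧
    (∀ a ∈ t, ∀ b ∈ t, ∀ w ∈ t, a ≠ b → a ≠ w → b ≠ w → δ * min (x a) (x b) ≤ x w) ∧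
    ∀ w ∈ t, ρ ≤ 1 - x w}

/-- open face zone -/
def FZo (K : Surf V) (δ ρ : ℝ) (t : Finset V) : Set (V → ℝ) :=
  {x | x ∈ K.body ∧ (∀ w, w ∉ t → x w = 0) ∧ (∀ w ∈ t, 0 < x w) ∧
    (∀ a ∈ t, ∀ b ∈ t, ∀ w ∈ t, a ≠ b → a ≠ w → b ≠ w → δ * min (x a) (x b) < x w) ∧
    ∀ w ∈ t, ρ < 1 - x w}

/-- closed rest zone -/
def RZ (K : Surf V) (p : V → E3) (Φ : Finset Aff) (δ ρ : ℝ) : Set (V → ℝ) :=
  {x | x ∈ K.body ∧ (∃ t ∈ K.tri, FT p Φ t ∧ (∀ w, w ∉ t → x w = 0) ∧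
    ∀ a ∈ t, ∀ b ∈ t, ∀ w ∈ t, a ≠ b → a ≠ w → b ≠ w → Act K p Φ a b →
      δ * min (x a) (x b) ≤ x w) ∧ ∀ v, ¬ K.Outer p Φ v → ρ ≤ 1 - x v}

/-- open rest zone -/
def RZo (K : Surf V) (p : V → E3) (Φ : Finset Aff) (δ ρ : ℝ) : Set (V → ℝ) :=
  {x | x ∈ K.body ∧ (∀ t ∈ K.tri, (∀ w, w ∉ t → x w = 0) → FT p Φ t) ∧
    (∀ a b, Act K p Φ a b → δ * min (x a) (x b) < 1 - x a - x b) ∧
    ∀ v, ¬ K.Outer p Φ v → ρ < 1 - x v}

/-- near `x` (in `C`) the map `D` is injective with a good germ -/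
def GoodB (C : Set (V → ℝ)) (D : (V → ℝ) → E3) (x : V → ℝ) : Prop :=
  ∃ U ∈ 𝓝[C] x, InjOn D U ∧ ∃ a b c : Aff, Indep a b c ∧ ∀ y ∈ U, G3 a b c (D y) = 0

/-- everything which is needed for the global gluing, at a fixed scale -/
structure Stage (K : Surf V) (p : V → E3) (Φ : Finset Aff) (δ ρ η : ℝ)
    (C : V → (V → ℝ) → E3) (E : V → V → (V → ℝ) → E3) (F : Finset V → (V → ℝ) → E3) : Prop where
  d0 : 0 < δ
  d1 : δ ≤ 1 / 16
  r0 : 0 < ρ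
  r1 : ρ ≤ 1 / 16
  e0 : 0 < η
  mg : ∀ v, ¬ K.Outer p Φ v → ∀ φ ∈ Φ, ev φ (p v) ≠ 0 → ev φ (p v) ≤ -(8 * η)
  cc : ∀ v, ¬ K.Outer p Φ v → ContinuousOn (C v) (CZ K ρ v)
  cg : ∀ v, ¬ K.Outer p Φ v → ∀ x ∈ K.body, 1 - x v < 2 * ρ → GoodB K.body (C v) x
  cn : ∀ v, ¬ K.Outer p Φ v → ∀ x ∈ CZ K ρ v, ‖C v x - lin p x‖ < η
  ch : ∀ v, ¬ K.Outer p Φ v → ∀ x ∈ CZ K ρ v, ∀ φ ∈ Φ, ev φ (p v) = 0 → ev φ (C v x) ≤ 0
  es : ∀ v u, Act K p Φ v u → ∀ x ∈ EZ K δ ρ v u, E v u x = E u v x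
  ec : ∀ v u, Act K p Φ v u → ContinuousOn (E v u) (EZ K δ ρ v u)
  eg : ∀ v u, Act K p Φ v u → ∀ x ∈ EZo K δ ρ v u, GoodB K.body (E v u) x
  en : ∀ v u, Act K p Φ v u → ∀ x ∈ EZ K δ ρ v u, ‖E v u x - lin p x‖ < η
  eh : ∀ v u, Act K p Φ v u → ∀ x ∈ EZ K δ ρ v u, ∀ φ ∈ Φ, ev φ (E v u x) ≤ 0
  eco : ∀ v u, Act K p Φ v u → ∀ x ∈ EZ K δ ρ v u, 1 - x v ≤ 2 * ρ → E v u x = C v x
  efa : ∀ v u w, Tri K v u w → ¬ FT p Φ {v, u, w} → ∀ x ∈ EZ K δ ρ v u,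
    x ∈ FZ K δ ρ {v, u, w} → E v u x = F {v, u, w} x
  ere : ∀ v u w, Tri K v u w → FT p Φ {v, u, w} → Act K p Φ v u → ∀ x ∈ EZ K δ ρ v u,
    (∀ q, q ∉ ({v, u, w} : Finset V) → x q = 0) → δ * min (x v) (x u) ≤ x w → E v u x = lin p x
  fc : ∀ t ∈ K.tri, ¬ FT p Φ t → ContinuousOn (F t) (FZ K δ ρ t)
  fg : ∀ t ∈ K.tri, ¬ FT p Φ t → ∀ x ∈ FZo K δ ρ t, GoodB K.body (F t) x
  fn : ∀ t ∈ K.tri, ¬ FT p Φ t → ∀ x ∈ FZ K δ ρ t, ‖F t x - lin p x‖ < η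
  fh : ∀ t ∈ K.tri, ¬ FT p Φ t → ∀ x ∈ FZ K δ ρ t, ∀ φ ∈ Φ, ev φ (F t x) ≤ 0
  fco : ∀ t ∈ K.tri, ¬ FT p Φ t → ∀ x ∈ FZ K δ ρ t, ∀ v ∈ t, 1 - x v ≤ 2 * ρ → F t x = C v x
  rco : ∀ x ∈ RZ K p Φ δ ρ, ∀ v, ¬ K.Outer p Φ v → 1 - x v ≤ 2 * ρ → C v x = lin p x

end

end Pool.Agent.TSR2
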