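import Pool.Agent.TSR2.StmtsE

/-!
# TSR2, module EBD: bound of the displacement at an edge
-/

set_option autoImplicit false

open scoped RealInnerProductSpace

namespace Pool.Agent.TSR2

open Pool.Agent.TSM Pool.Agent.TSP Set Filter Topology

namespace EBD_

/-- bound of an affine function on a triangle -/
theorem ev_bd (P : Aff) (v u w : E3) {a c : ℝ} (ha : 0 ≤ a) (hc : 0 ≤ c) (hac : a + c ≤ 1) :
    |ev P (v + a • (w - v) + c • (u - v))| ≤ |ev P v| + |ev P w| + |ev P u| := by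
  rw [ev_tri]
  have h1 : |(1 - a - c) * ev P v| ≤ |ev P v| := by
    rw [abs_mul, abs_of_nonneg (by linarith : 0 ≤ 1 - a - c)]
    have := abs_nonneg (ev P v)
    nlinarith
  have h2 : |a * ev P w| ≤ |ev P w| := by
    rw [abs_mul, abs_of_nonneg ha]
    have := abs_nonneg (ev P w)
    nlinarith
  have h3 : |c * ev P u| ≤ |ev P u| := by
    rw [abs_mul, abs_of_nonneg hc]
    have := abs_nonneg (ev P u)
    nlinarith
  have h4 := abs_add_le ((1 - a - c) * ev P v + a * ev P w) (c * ev P u)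
  have h5 := abs_add_le ((1 - a - c) * ev P v) (a * ev P w)
  linarith

/-- lower bound of `tz` -/
theorem tz_low {b : E3} {Z₀ Z₁ : Aff} {r c₀ K e : ℝ} {y : E3} (hc : 0 < c₀) (hr : 0 ≤ r)
    (hs : c₀ / 2 ≤ ⟪(Z₀ + r • Z₁).1, b⟫) (he : -e ≤ ev Z₀ y) (he0 : 0 ≤ e) (hK : |ev Z₁ y| ≤ K) :
    -((2 / c₀) * (e + K * r)) ≤ tz b (Z₀ + r • Z₁) y := by
  have hs0 : 0 < ⟪(Z₀ + r • Z₁).1, b⟫ := by linarith
  have hK0 : 0 ≤ K := (abs_nonneg _).trans hK
  unfold tz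
  rw [le_div_iff₀ hs0, ev_add', ev_smul']
  have h1 : -(K * r) ≤ r * ev Z₁ y := by
    have := mul_le_mul_of_nonneg_left (abs_le.1 hK).1 hr
    linarith
  have h2 : (e + K * r) ≤ (2 / c₀) * (e + K * r) * ⟪(Z₀ + r • Z₁).1, b⟫ := by
    have h3 : 0 ≤ e + K * r := by positivity
    have h4 : 1 ≤ (2 / c₀) * ⟪(Z₀ + r • Z₁).1, b⟫ := by
      have : (2 / c₀) * (c₀ / 2) = 1 := by field_simp
      calc (1 : ℝ) = (2 / c₀) * (c₀ / 2) := this.symm
        _ ≤ _ := mul_le_mul_of_nonneg_left hs (by positivity)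
    have h5 := mul_le_mul_of_nonneg_left h4 h3
    calc e + K * r = (e + K * r) * 1 := by ring
      _ ≤ _ := h5
      _ = _ := by ring
  linarith

/-- upper bound of `tz` -/
theorem tz_up {b : E3} {Z₀ Z₁ : Aff} {r c₀ K : ℝ} {y : E3} (hc : 0 < c₀) (hr : 0 ≤ r)
    (hs : c₀ / 2 ≤ ⟪(Z₀ + r • Z₁).1, b⟫) (he : ev Z₀ y = 0) (hK : |ev Z₁ y| ≤ K) :
    tz b (Z₀ + r • Z₁) y ≤ (2 / c₀) * (K * r) := by
  have hs0 : 0 < ⟪(Z₀ + r • Z₁).1, b⟫ := by linarith
  have hK0 : 0 ≤ K := (abs_nonneg _).trans hK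
  unfold tz
  rw [div_le_iff₀ hs0, ev_add', ev_smul', he, zero_add]
  have h1 : r * ev Z₁ y ≤ K * r := by
    have := mul_le_mul_of_nonneg_left (abs_le.1 hK).2 hr
    linarith
  have h3 : 0 ≤ K * r := by positivity
  have h4 : 1 ≤ (2 / c₀) * ⟪(Z₀ + r • Z₁).1, b⟫ := by
    have : (2 / c₀) * (c₀ / 2) = 1 := by field_simp
    calc (1 : ℝ) = (2 / c₀) * (c₀ / 2) := this.symm
      _ ≤ _ := mul_le_mul_of_nonneg_left hs (by positivity)
  have h5 := mul_le_mul_of_nonneg_left h4 h3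
  calc r * ev Z₁ y ≤ (K * r) * 1 := by linarith
    _ ≤ _ := h5
    _ = _ := by ring

end EBD_

open EBD_ in
theorem ebd_proof (h1 : Stmt_ESL) : Stmt_EBD := by
  intro I J _ _ _ _ X δ c₀ ε hX
  set W : Aff → ℝ := fun P => |ev P X.v| + |ev P X.w| + |ev P X.u| with hW
  have hW0 : ∀ P, 0 ≤ W P := fun P =>
    add_nonneg (add_nonneg (abs_nonneg _) (abs_nonneg _)) (abs_nonneg _)
  set K : ℝ := W X.α₁ + W X.β₁ + ∑ i, W (X.ζ₁ i) + ∑ j, W (X.ξ₁ j) with hK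
  have hs1 : 0 ≤ ∑ i, W (X.ζ₁ i) := Finset.sum_nonneg fun i _ => hW0 _
  have hs2 : 0 ≤ ∑ j, W (X.ξ₁ j) := Finset.sum_nonneg fun i _ => hW0 _
  have hK0 : 0 ≤ K := add_nonneg (add_nonneg (add_nonneg (hW0 _) (hW0 _)) hs1) hs2
  have hc0 : 0 < c₀ := hX.c0
  have hε : 0 < ε := hX.e0
  have hδ : 0 < δ := hX.d0
  refine ⟨(2 / c₀) * K, mul_nonneg (by positivity) hK0, ?_⟩
  filter_upwards [h1 I J X δ c₀ ε hX, self_mem_nhdsWithin] with r hr hr0 a c ha hc hac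
  have hr0' : 0 < r := hr0
  obtain ⟨s1, s2, s3, s4⟩ := hr
  have hbd : ∀ P, |ev P (X.pt a c)| ≤ W P := fun P => ev_bd P X.v X.u X.w ha hc hac
  have ka : |ev X.α₁ (X.pt a c)| ≤ K := (hbd _).trans (by
    have := hW0 X.β₁
    linarith)
  have kb : |ev X.β₁ (X.pt a c)| ≤ K := (hbd _).trans (by
    have := hW0 X.α₁
    linarith)
  have kz : ∀ i, |ev (X.ζ₁ i) (X.pt a c)| ≤ K := fun i => (hbd _).trans (by
    have := hW0 X.α₁
    have := hW0 X.β₁
    have h5 : W (X.ζ₁ i) ≤ ∑ i, W (X.ζ₁ i) :=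
      Finset.single_le_sum (f := fun i => W (X.ζ₁ i)) (fun i _ => hW0 _) (Finset.mem_univ i)
    linarith)
  have kx : ∀ j, |ev (X.ξ₁ j) (X.pt a c)| ≤ K := fun j => (hbd _).trans (by
    have := hW0 X.α₁
    have := hW0 X.β₁
    have h5 : W (X.ξ₁ j) ≤ ∑ j, W (X.ξ₁ j) :=
      Finset.single_le_sum (f := fun j => W (X.ξ₁ j)) (fun i _ => hW0 _) (Finset.mem_univ j)
    linarith)
  have ea : ev X.α₀ (X.pt a c) = 0 := by
    unfold Ed.pt
    rw [ev_tri, hX.av, hX.aw, hX.au]; ring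
  have eb : 0 ≤ ev X.β₀ (X.pt a c) := by
    unfold Ed.pt
    rw [ev_tri, hX.a'v, hX.a'u]
    have := mul_nonneg ha hX.a'w.le
    linarith
  have ez : ∀ i, -(ε * c) ≤ ev (X.ζ₀ i) (X.pt a c) := by
    intro i
    have hw : 0 ≤ ev (X.ζ₀ i) X.w := by
      have h5 := hX.zw i
      rw [ev_pt, inner_smul_right, ← ev_sub_pt, hX.zv i] at h5
      have h6 := hX.zu i
      by_contra hcn
      have h7 : δ * (ev (X.ζ₀ i) X.w - 0) ≤ 0 :=
        mul_nonpos_of_nonneg_of_nonpos hδ.le (by linarith [not_le.1 hcn])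
      linarith
    unfold Ed.pt
    rw [ev_tri, hX.zv i]
    have h5 := mul_nonneg ha hw
    have h6 := mul_le_mul_of_nonneg_left (hX.zu' i) hc
    linarith
  have ex : ∀ j, -(ε * (1 - a - c)) ≤ ev (X.ξ₀ j) (X.pt a c) := by
    intro j
    have hw : 0 ≤ ev (X.ξ₀ j) X.w := by
      have h5 := hX.xw j
      rw [ev_pt, inner_smul_right, ← ev_sub_pt, hX.xu j] at h5
      have h6 := hX.xv j
      by_contra hcn
      have h7 : δ * (ev (X.ξ₀ j) X.w - 0) ≤ 0 :=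
        mul_nonpos_of_nonneg_of_nonpos hδ.le (by linarith [not_le.1 hcn])
      linarith
    unfold Ed.pt
    rw [ev_tri, hX.xu j]
    have h5 := mul_nonneg ha hw
    have h6 := mul_le_mul_of_nonneg_left (hX.xv' j) (by linarith : 0 ≤ 1 - a - c)
    linarith
  set m : ℝ := min c (1 - a - c) with hm
  have hm0 : 0 ≤ m := le_min hc (by linarith)
  -- the four lower bounds
  have la : -((2 / c₀) * (0 + K * r)) ≤ tz X.b (X.α r) (X.pt a c) :=
    tz_low hc0 hr0'.le s1 (by rw [ea]; simp) le_rfl ka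
  have lb : -((2 / c₀) * (0 + K * r)) ≤ tz X.b (X.β r) (X.pt a c) :=
    tz_low hc0 hr0'.le s2 (by linarith) le_rfl kb
  have lz : -((2 / c₀) * (ε * c + K * r)) ≤ tmn X.b (X.ζ r) (X.pt a c) :=
    le_tmn fun i => tz_low hc0 hr0'.le (s3 i) (ez i) (mul_nonneg hε.le hc) (kz i)
  have lx : -((2 / c₀) * (ε * (1 - a - c) + K * r)) ≤ tmn X.b (X.ξ r) (X.pt a c) :=
    le_tmn fun j => tz_low hc0 hr0'.le (s4 j) (ex j) (mul_nonneg hε.le (by linarith)) (kx j)
  have ua : tz X.b (X.α r) (X.pt a c) ≤ (2 / c₀) * (K * r) :=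
    tz_up hc0 hr0'.le s1 ea ka
  have h2c : 0 < 2 / c₀ := by positivity
  have hεm : 0 ≤ (2 / c₀) * (ε * m) := mul_nonneg h2c.le (mul_nonneg hε.le hm0)
  have e0 : (2 / c₀) * (ε * m) + 2 / c₀ * K * r = (2 / c₀) * (ε * m + K * r) := by ring
  rw [e0, abs_le]
  constructor
  · unfold Ed.t tE
    refine le_min (le_min ?_ ?_) ?_
    · linarith
    · linarith
    · rcases le_total c (1 - a - c) with h | h
      · rw [hm, min_eq_left h]
        exact lz.trans (le_max_left _ _)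
      · rw [hm, min_eq_right h]
        exact lx.trans (le_max_right _ _)
  · unfold Ed.t tE
    refine ((min_le_left _ _).trans (min_le_left _ _)).trans (ua.trans ?_)
    linarith

end Pool.Agent.TSR2
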