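import Pool.Agent.TSR2.Base

/-!
# TSR2: abstract edges: data, proved basics
-/

set_option autoImplicit false

open scoped RealInnerProductSpace

namespace Pool.Agent.TSR2

open Pool.Agent.TSM Pool.Agent.TSP Set Filter Topology

/-- `P R r` holds for all large `R` and then all small `r > 0` -/
def Ev (P : ℝ → ℝ → Prop) : Prop := ∃ Rm : ℝ, ∀ R, Rm ≤ R → ∀ᶠ r in 𝓝[>] (0 : ℝ), P R r

theorem Ev.mono {P Q : ℝ → ℝ → Prop} (h : Ev P) (hPQ : ∀ R r, P R r → Q R r) : Ev Q := by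
  obtain ⟨Rm, h⟩ := h
  exact ⟨Rm, fun R hR => (h R hR).mono fun r hr => hPQ R r hr⟩

theorem Ev.and {P Q : ℝ → ℝ → Prop} (h : Ev P) (h' : Ev Q) : Ev fun R r => P R r ∧ Q R r := by
  obtain ⟨Rm, h⟩ := h
  obtain ⟨Rm', h'⟩ := h'
  exact ⟨max Rm Rm', fun R hR => (h R (le_trans (le_max_left _ _) hR)).and
    (h' R (le_trans (le_max_right _ _) hR))⟩

theorem Ev.all {ι : Type} [Finite ι] {P : ι → ℝ → ℝ → Prop} (h : ∀ i, Ev (P i)) :
    Ev fun R r => ∀ i, P i R r := by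
  haveI := Fintype.ofFinite ι
  choose Rm h using h
  obtain ⟨M, hM⟩ := Finset.exists_le (Finset.univ.image Rm)
  exact ⟨M, fun R hR => Filter.eventually_all.2 fun i =>
    h i R (le_trans (hM _ (Finset.mem_image_of_mem _ (Finset.mem_univ i))) hR)⟩

theorem ev_of_r {P : ℝ → Prop} (h : ∀ᶠ r in 𝓝[>] (0 : ℝ), P r) : Ev fun _ r => P r :=
  ⟨0, fun _ _ => h⟩

theorem ev_rpos : Ev fun _ r => 0 < r := ev_of_r self_mem_nhdsWithin

theorem ev_const {P : Prop} (h : P) : Ev fun _ _ => P := ⟨0, fun _ _ => by simp [h]⟩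

theorem ev_le (c : ℝ) : Ev fun R _ => c ≤ R := ⟨c, fun R hR => by simp [hR]⟩

theorem ev_small {c : ℝ} (hc : 0 < c) : Ev fun R r => R * r < c := by
  refine ⟨0, fun R hR => ?_⟩
  have h1 : Tendsto (fun r : ℝ => R * r) (𝓝[>] 0) (𝓝 0) := by
    have : Tendsto (fun r : ℝ => R * r) (𝓝 0) (𝓝 (R * 0)) := (continuous_const_mul R).tendsto 0
    rw [mul_zero] at this
    exact this.mono_left nhdsWithin_le_nhds
  exact h1.eventually (gt_mem_nhds hc)

theorem ev_small' {c : ℝ} (hc : 0 < c) : Ev fun _ r => r < c :=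
  ev_of_r ((gt_mem_nhds hc).filter_mono nhdsWithin_le_nhds)

/-- all the usual facts at once -/
theorem ev_basic {c C : ℝ} (hc : 0 < c) : Ev fun R r => 0 < r ∧ 0 < R ∧ C ≤ R ∧ r < c ∧
    R * r < c := by
  refine (((((ev_rpos).and (ev_le 1)).and (ev_le C)).and (ev_small' hc)).and
    (ev_small hc)).mono ?_
  rintro R r ⟨⟨⟨⟨h1, h2⟩, h3⟩, h4⟩, h5⟩
  exact ⟨h1, by linarith, h3, h4, h5⟩

/-! ### data of an edge -/

/-- data of an edge `v u` with third vertices `w`, `w'`, direction `b`, planes and chamfers as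
affine functions of `r` -/
structure Ed (I J : Type) where
  v : E3
  u : E3
  w : E3
  w' : E3
  b : E3
  α₀ : Aff
  α₁ : Aff
  β₀ : Aff
  β₁ : Aff
  ζ₀ : I → Aff
  ζ₁ : I → Aff
  ξ₀ : J → Aff
  ξ₁ : J → Aff

namespace Ed

variable {I J : Type}

/-- the plane of the triangle `v u w` -/
def α (X : Ed I J) (r : ℝ) : Aff := X.α₀ + r • X.α₁
/-- the plane of the triangle `v u w'` -/
def β (X : Ed I J) (r : ℝ) : Aff := X.β₀ + r • X.β₁
/-- the chamfers at `v` -/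
def ζ (X : Ed I J) (r : ℝ) (i : I) : Aff := X.ζ₀ i + r • X.ζ₁ i
/-- the chamfers at `u` -/
def ξ (X : Ed I J) (r : ℝ) (j : J) : Aff := X.ξ₀ j + r • X.ξ₁ j
/-- the point with coordinates `a` (of `w`) and `c` (of `u`) -/
def pt (X : Ed I J) (a c : ℝ) : E3 := X.v + a • (X.w - X.v) + c • (X.u - X.v)

/-- exchange of `v` and `u` -/
def flip (X : Ed I J) : Ed J I where
  v := X.u
  u := X.v
  w := X.w
  w' := X.w'
  b := X.b
  α₀ := X.α₀
  α₁ := X.α₁
  β₀ := X.β₀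
  β₁ := X.β₁
  ζ₀ := X.ξ₀
  ζ₁ := X.ξ₁
  ξ₀ := X.ζ₀
  ξ₁ := X.ζ₁

/-- exchange of `w` and `w'` -/
def swap (X : Ed I J) : Ed I J where
  v := X.v
  u := X.u
  w := X.w'
  w' := X.w
  b := X.b
  α₀ := X.β₀
  α₁ := X.β₁
  β₀ := X.α₀
  β₁ := X.α₁
  ζ₀ := X.ζ₀
  ζ₁ := X.ζ₁
  ξ₀ := X.ξ₀
  ξ₁ := X.ξ₁

def Ok (X : Ed I J) (δ c₀ ε : ℝ) : Prop :=
  EOk X.v X.u X.w X.w' X.b X.α₀ X.β₀ X.ζ₀ X.ξ₀ δ c₀ ε

section
variable [Fintype I] [Nonempty I] [Fintype J] [Nonempty J]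

/-- the edge function at scale `r` -/
noncomputable def F (X : Ed I J) (r : ℝ) (y : E3) : ℝ := FE (X.α r) (X.β r) (X.ζ r) (X.ξ r) y
/-- its zero on the line `y - t b` -/
noncomputable def t (X : Ed I J) (r : ℝ) (y : E3) : ℝ :=
  tE X.b (X.α r) (X.β r) (X.ζ r) (X.ξ r) y
/-- the resolved point -/
noncomputable def D (X : Ed I J) (r : ℝ) (y : E3) : E3 := y - X.t r y • X.b

end

end Ed

/-- the coordinates `a`, `c` belong to the edge zone -/
def InE (δ ρ a c : ℝ) : Prop :=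
  0 ≤ a ∧ 0 ≤ c ∧ a + c ≤ 1 ∧ a ≤ 2 * δ * c ∧ a ≤ 2 * δ * (1 - a - c) ∧ ρ ≤ a + c ∧ ρ ≤ 1 - c

theorem InE.flip {δ ρ a c : ℝ} (h : InE δ ρ a c) : InE δ ρ a (1 - a - c) := by
  obtain ⟨h1, h2, h3, h4, h5, h6, h7⟩ := h
  exact ⟨h1, by linarith, by linarith, by linarith, by linarith, by linarith, by linarith⟩

/-- germ of the surface `F = 0` near `z` -/
def Ger (z : E3) (F : E3 → ℝ) : Prop :=
  ∃ a b c : Aff, Indep a b c ∧ ∀ᶠ y in 𝓝 z, F y = 0 → G3 a b c y = 0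

/-! ### symmetries -/

section
variable {I J : Type}

theorem EOk.flip {v u w w' b : E3} {α β : Aff} {ζ : I → Aff} {ξ : J → Aff} {δ c₀ ε : ℝ}
    (h : EOk v u w w' b α β ζ ξ δ c₀ ε) : EOk u v w w' b α β ξ ζ δ c₀ ε where
  c0 := h.c0
  d0 := h.d0
  d1 := h.d1
  e0 := h.e0
  av := h.au
  au := h.av
  aw := h.aw
  aw' := h.aw'
  a'v := h.a'u
  a'u := h.a'v
  a'w' := h.a'w'
  a'w := h.a'w
  ba := h.ba
  ba' := h.ba'
  bz := h.bx
  bx := h.bz
  zv := h.xu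
  zu := h.xv
  zu' := h.xv'
  zw := h.xw
  zw' := h.xw'
  xu := h.zv
  xv := h.zu
  xv' := h.zu'
  xw := h.zw
  xw' := h.zw'
  sv := h.su
  sv' := h.su'
  su := h.sv
  su' := h.sv'
  izz := h.ixx
  izzz := h.ixxx
  ixx := h.izz
  ixxx := h.izzz
  izx := fun i j => by
    obtain ⟨h1, h2⟩ := h.izx j i
    rw [indep_iff] at *
    refine ⟨fun h0 => h1 ?_, ?_⟩
    · simp only [det3] at *; linarith
    · rw [indep_iff] at *
      intro h0
      apply h2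
      simp only [det3] at *; linarith
  izzx := fun i i' j hne => by
    have h1 := h.izxx j i i' hne
    rw [indep_iff] at *
    intro h0
    apply h1
    simp only [det3] at *; linarith
  izxx := fun i j j' hne => by
    have h1 := h.izzx j j' i hne
    rw [indep_iff] at *
    intro h0
    apply h1
    simp only [det3] at *; linarith
  quad := fun i i' j j' h1 h2 y h3 h4 h5 h6 => h.quad j j' i i' h2 h1 y h5 h6 h3 h4

theorem EOk.swap {v u w w' b : E3} {α β : Aff} {ζ : I → Aff} {ξ : J → Aff} {δ c₀ ε : ℝ}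
    (h : EOk v u w w' b α β ζ ξ δ c₀ ε) : EOk v u w' w b β α ζ ξ δ c₀ ε where
  c0 := h.c0
  d0 := h.d0
  d1 := h.d1
  e0 := h.e0
  av := h.a'v
  au := h.a'u
  aw := h.a'w'
  aw' := h.a'w
  a'v := h.av
  a'u := h.au
  a'w' := h.aw
  a'w := h.aw'
  ba := h.ba'
  ba' := h.ba
  bz := h.bz
  bx := h.bx
  zv := h.zv
  zu := h.zu
  zu' := h.zu'
  zw := h.zw'
  zw' := h.zw
  xu := h.xu
  xv := h.xv
  xv' := h.xv'
  xw := h.xw'
  xw' := h.xw
  sv := h.sv'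
  sv' := h.sv
  su := h.su'
  su' := h.su
  izz := fun i i' hne => ⟨(h.izz i i' hne).2, (h.izz i i' hne).1⟩
  izzz := h.izzz
  ixx := fun i i' hne => ⟨(h.ixx i i' hne).2, (h.ixx i i' hne).1⟩
  ixxx := h.ixxx
  izx := fun i i' => ⟨(h.izx i i').2, (h.izx i i').1⟩
  izzx := h.izzx
  izxx := h.izxx
  quad := h.quad

/-- the planes of the two triangles and one chamfer are independent -/
theorem EOk.iaz {v u w w' b : E3} {α β : Aff} {ζ : I → Aff} {ξ : J → Aff} {δ c₀ ε : ℝ}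
    (h : EOk v u w w' b α β ζ ξ δ c₀ ε) (i : I) : Indep α β (ζ i) := by
  have e : ∀ (P : Aff) (y : E3), ⟪P.1, y - v⟫ = ev P y - ev P v := fun P y => by
    rw [ev_sub_pt]
  unfold Indep
  apply Fintype.linearIndependent_iff.2
  intro g hg k
  rw [Fin.sum_univ_three] at hg
  have hg' : g 0 • α.1 + g 1 • β.1 + g 2 • (ζ i).1 = 0 := hg
  have key : ∀ y, g 0 * (ev α y - ev α v) + g 1 * (ev β y - ev β v) +
      g 2 * (ev (ζ i) y - ev (ζ i) v) = 0 := by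
    intro y
    have h1 : ⟪g 0 • α.1 + g 1 • β.1 + g 2 • (ζ i).1, y - v⟫ = 0 := by
      rw [hg', inner_zero_left]
    rw [inner_add_left, inner_add_left, inner_smul_left, inner_smul_left, inner_smul_left,
      e, e, e] at h1
    simpa using h1
  have k1 := key u
  rw [h.au, h.av, h.a'u, h.a'v, h.zv i] at k1
  have hz := h.zu i
  have g2 : g 2 = 0 := by
    have h2 : g 2 * ev (ζ i) u = 0 := by linarith
    exact (mul_eq_zero.1 h2).resolve_right hz.ne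
  have k2 := key w
  rw [h.aw, h.av, h.a'v, g2] at k2
  have g1 : g 1 = 0 := by
    have h2 : g 1 * ev β w = 0 := by linarith
    exact (mul_eq_zero.1 h2).resolve_right h.a'w.ne'
  have k3 := key w'
  rw [h.av, h.a'v, h.a'w', g2, g1] at k3
  have g0 : g 0 = 0 := by
    have h2 : g 0 * ev α w' = 0 := by linarith
    exact (mul_eq_zero.1 h2).resolve_right h.aw'.ne'
  fin_cases k
  · exact g0
  · exact g1
  · exact g2

theorem Ed.Ok.flip {X : Ed I J} {δ c₀ ε : ℝ} (h : X.Ok δ c₀ ε) : X.flip.Ok δ c₀ ε := EOk.flip h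

theorem Ed.Ok.swap {X : Ed I J} {δ c₀ ε : ℝ} (h : X.Ok δ c₀ ε) : X.swap.Ok δ c₀ ε := EOk.swap h

theorem Ed.flip_pt (X : Ed I J) (a c : ℝ) : X.flip.pt a (1 - a - c) = X.pt a c := by
  unfold Ed.pt Ed.flip
  module

theorem Ed.pt_flip (X : Ed I J) (a c : ℝ) : X.flip.pt a c = X.pt a (1 - a - c) := by
  unfold Ed.pt Ed.flip
  module

variable [Fintype I] [Nonempty I] [Fintype J] [Nonempty J]

theorem Ed.flip_F (X : Ed I J) (r : ℝ) (y : E3) : X.flip.F r y = X.F r y := by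
  unfold Ed.F FE
  rw [max_comm]
  rfl

theorem Ed.flip_t (X : Ed I J) (r : ℝ) (y : E3) : X.flip.t r y = X.t r y := by
  unfold Ed.t tE
  rw [max_comm]
  rfl

theorem Ed.flip_D (X : Ed I J) (r : ℝ) (y : E3) : X.flip.D r y = X.D r y := by
  unfold Ed.D
  rw [Ed.flip_t]
  rfl

theorem Ed.swap_F (X : Ed I J) (r : ℝ) (y : E3) : X.swap.F r y = X.F r y := by
  unfold Ed.F FE
  rw [min_comm (ev (X.swap.α r) y)]
  rfl

theorem Ed.swap_t (X : Ed I J) (r : ℝ) (y : E3) : X.swap.t r y = X.t r y := by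
  unfold Ed.t tE
  rw [min_comm (tz X.swap.b (X.swap.α r) y)]
  rfl

theorem Ed.swap_D (X : Ed I J) (r : ℝ) (y : E3) : X.swap.D r y = X.D r y := by
  unfold Ed.D
  rw [Ed.swap_t]
  rfl

theorem mn_le (ζ : I → Aff) (y : E3) (i : I) : mn ζ y ≤ ev (ζ i) y :=
  Finset.inf'_le _ (Finset.mem_univ i)

theorem tmn_le (b : E3) (ζ : I → Aff) (y : E3) (i : I) : tmn b ζ y ≤ tz b (ζ i) y :=
  Finset.inf'_le _ (Finset.mem_univ i)

theorem exists_mn (ζ : I → Aff) (y : E3) : ∃ i, mn ζ y = ev (ζ i) y := by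
  obtain ⟨i, -, h⟩ := Finset.exists_mem_eq_inf' (Finset.univ_nonempty (α := I))
    (fun i => ev (ζ i) y)
  exact ⟨i, h⟩

theorem exists_tmn (b : E3) (ζ : I → Aff) (y : E3) : ∃ i, tmn b ζ y = tz b (ζ i) y := by
  obtain ⟨i, -, h⟩ := Finset.exists_mem_eq_inf' (Finset.univ_nonempty (α := I))
    (fun i => tz b (ζ i) y)
  exact ⟨i, h⟩

theorem le_mn {ζ : I → Aff} {y : E3} {s : ℝ} (h : ∀ i, s ≤ ev (ζ i) y) : s ≤ mn ζ y :=
  Finset.le_inf' _ _ fun i _ => h i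

theorem le_tmn {b : E3} {ζ : I → Aff} {y : E3} {s : ℝ} (h : ∀ i, s ≤ tz b (ζ i) y) :
    s ≤ tmn b ζ y :=
  Finset.le_inf' _ _ fun i _ => h i

theorem continuous_tz (b : E3) (Z : Aff) : Continuous (tz b Z) := by
  unfold tz
  exact (continuous_ev' Z).div_const _

theorem continuous_mn (ζ : I → Aff) : Continuous (mn ζ) := by
  unfold mn
  exact Continuous.finset_inf'_apply _ fun i _ => continuous_ev' (ζ i)

theorem continuous_tmn (b : E3) (ζ : I → Aff) : Continuous (tmn b ζ) := by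
  unfold tmn
  exact Continuous.finset_inf'_apply _ fun i _ => continuous_tz b (ζ i)

theorem continuous_FE (α β : Aff) (ζ : I → Aff) (ξ : J → Aff) : Continuous (FE α β ζ ξ) := by
  unfold FE
  exact ((continuous_ev' α).min (continuous_ev' β)).min ((continuous_mn ζ).max (continuous_mn ξ))

theorem continuous_tE (b : E3) (α β : Aff) (ζ : I → Aff) (ξ : J → Aff) :
    Continuous (tE b α β ζ ξ) := by
  unfold tE
  exact ((continuous_tz b α).min (continuous_tz b β)).min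
    ((continuous_tmn b ζ).max (continuous_tmn b ξ))

theorem Ed.continuous_t (X : Ed I J) (r : ℝ) : Continuous (X.t r) := continuous_tE _ _ _ _ _

theorem Ed.continuous_D (X : Ed I J) (r : ℝ) : Continuous (X.D r) := by
  unfold Ed.D
  exact continuous_id.sub ((X.continuous_t r).smul continuous_const)

/-! ### the zero of the edge function -/

theorem ev_tz_le {b : E3} {Z : Aff} (hs : 0 < ⟪Z.1, b⟫) (y : E3) (t : ℝ) :
    0 ≤ ev Z (y - t • b) ↔ t ≤ tz b Z y := by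
  rw [ev_line, tz, le_div_iff₀ hs]
  constructor <;> intro h <;> linarith

theorem ev_tz_eq {b : E3} {Z : Aff} (hs : 0 < ⟪Z.1, b⟫) (y : E3) (t : ℝ) :
    ev Z (y - t • b) = 0 ↔ t = tz b Z y := by
  rw [ev_line, tz, eq_div_iff hs.ne']
  constructor <;> intro h <;> linarith

theorem ev_tz_lt {b : E3} {Z : Aff} (hs : 0 < ⟪Z.1, b⟫) (y : E3) (t : ℝ) :
    0 < ev Z (y - t • b) ↔ t < tz b Z y := by
  rw [ev_line, tz, lt_div_iff₀ hs]
  constructor <;> intro h <;> linarith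

theorem mn_tz_le {b : E3} {ζ : I → Aff} (hs : ∀ i, 0 < ⟪(ζ i).1, b⟫) (y : E3) (t : ℝ) :
    0 ≤ mn ζ (y - t • b) ↔ t ≤ tmn b ζ y := by
  unfold mn tmn
  simp only [Finset.le_inf'_iff]
  exact forall₂_congr fun i _ => ev_tz_le (hs i) y t

theorem mn_tz_lt {b : E3} {ζ : I → Aff} (hs : ∀ i, 0 < ⟪(ζ i).1, b⟫) (y : E3) (t : ℝ) :
    0 < mn ζ (y - t • b) ↔ t < tmn b ζ y := by
  unfold mn tmn
  simp only [Finset.lt_inf'_iff]
  exact forall₂_congr fun i _ => ev_tz_lt (hs i) y t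

/-- `FE (y - t b) = 0` exactly for `t = tE y` -/
theorem FE_zero {b : E3} {α β : Aff} {ζ : I → Aff} {ξ : J → Aff} (ha : 0 < ⟪α.1, b⟫)
    (hb : 0 < ⟪β.1, b⟫) (hz : ∀ i, 0 < ⟪(ζ i).1, b⟫) (hx : ∀ j, 0 < ⟪(ξ j).1, b⟫) (y : E3)
    (t : ℝ) : FE α β ζ ξ (y - t • b) = 0 ↔ t = tE b α β ζ ξ y := by
  have h1 : 0 ≤ FE α β ζ ξ (y - t • b) ↔ t ≤ tE b α β ζ ξ y := by
    unfold FE tE
    simp only [le_min_iff, le_max_iff, ev_tz_le ha, ev_tz_le hb, mn_tz_le hz, mn_tz_le hx]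
  have h2 : 0 < FE α β ζ ξ (y - t • b) ↔ t < tE b α β ζ ξ y := by
    unfold FE tE
    simp only [lt_min_iff, lt_max_iff, ev_tz_lt ha, ev_tz_lt hb, mn_tz_lt hz, mn_tz_lt hx]
  constructor
  · intro h
    have h3 := h1.1 h.ge
    have h4 : ¬ t < tE b α β ζ ξ y := fun h5 => (h2.2 h5).ne' h
    linarith [not_lt.1 h4]
  · intro h
    have h3 := h1.2 h.le
    have h4 : ¬ 0 < FE α β ζ ξ (y - t • b) := fun h5 => (h2.1 h5).ne h
    linarith [not_lt.1 h4]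

end

end Pool.Agent.TSR2
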