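import Pool.Agent.TSR2.StmtsE

/-!
# TSR2, module ERA: away from the edge only the plane of the triangle counts
-/

set_option autoImplicit false

open scoped RealInnerProductSpace

namespace Pool.Agent.TSR2

open Pool.Agent.TSM Pool.Agent.TSP Set Filter Topology

namespace ERA_

/-- bound of an affine function on a triangle -/
theorem ev_bd (P : Aff) (v u w : E3) {a c : ℝ} (ha : 0 ≤ a) (hc : 0 ≤ c) (hac : a + c ≤ 1) :
    |ev P (v + a • (w - v) + c • (u - v))| ≤ |ev P v| + |ev P w| + |ev P u| := by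
  rw [ev_tri]
  have h1 : |(1 - a - c) * ev P v| ≤ |ev P v| := by
    rw [abs_mul, abs_of_nonneg (by linarith : 0 ≤ 1 - a - c)]
    have := abs_nonneg (ev P v)
    nlinarith
  have h2 : |a * ev P w| ≤ |ev P w| := by
    rw [abs_mul, abs_of_nonneg ha]
    have := abs_nonneg (ev P w)
    nlinarith
  have h3 : |c * ev P u| ≤ |ev P u| := by
    rw [abs_mul, abs_of_nonneg hc]
    have := abs_nonneg (ev P u)
    nlinarith
  have h4 := abs_add_le ((1 - a - c) * ev P v + a * ev P w) (c * ev P u)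
  have h5 := abs_add_le ((1 - a - c) * ev P v) (a * ev P w)
  linarith

/-- upper bound of `tz` -/
theorem tz_up {b : E3} {Z₀ Z₁ : Aff} {r c₀ K : ℝ} {y : E3} (hc : 0 < c₀) (hr : 0 ≤ r)
    (hs : c₀ / 2 ≤ ⟪(Z₀ + r • Z₁).1, b⟫) (he : ev Z₀ y = 0) (hK : |ev Z₁ y| ≤ K) :
    tz b (Z₀ + r • Z₁) y ≤ (2 / c₀) * (K * r) := by
  have hs0 : 0 < ⟪(Z₀ + r • Z₁).1, b⟫ := by linarith
  have hK0 : 0 ≤ K := (abs_nonneg _).trans hK
  unfold tz
  rw [div_le_iff₀ hs0, ev_add', ev_smul', he, zero_add]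
  have h1 : r * ev Z₁ y ≤ K * r := by
    have := mul_le_mul_of_nonneg_left (abs_le.1 hK).2 hr
    linarith
  have h3 : 0 ≤ K * r := by positivity
  have h4 : 1 ≤ (2 / c₀) * ⟪(Z₀ + r • Z₁).1, b⟫ := by
    have : (2 / c₀) * (c₀ / 2) = 1 := by field_simp
    calc (1 : ℝ) = (2 / c₀) * (c₀ / 2) := this.symm
      _ ≤ _ := mul_le_mul_of_nonneg_left hs (by positivity)
  have h5 := mul_le_mul_of_nonneg_left h4 h3
  calc r * ev Z₁ y ≤ (K * r) * 1 := by linarith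
    _ ≤ _ := h5
    _ = _ := by ring

/-- large lower bound of `tz` -/
theorem tz_big {b : E3} {Z₀ Z₁ : Aff} {r c₀ K S e : ℝ} {y : E3} (hc : 0 < c₀) (hr : 0 ≤ r)
    (hr1 : r ≤ 1) (hs : c₀ / 2 ≤ ⟪(Z₀ + r • Z₁).1, b⟫) (hS : |⟪Z₀.1, b⟫| + |⟪Z₁.1, b⟫| ≤ S)
    (he : e ≤ ev Z₀ y) (hK : |ev Z₁ y| ≤ K) (hbig : K * r * (1 + (2 / c₀) * S) ≤ e) :
    (2 / c₀) * (K * r) ≤ tz b (Z₀ + r • Z₁) y := by
  have hs0 : 0 < ⟪(Z₀ + r • Z₁).1, b⟫ := by linarith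
  have hK0 : 0 ≤ K := (abs_nonneg _).trans hK
  have hsS : ⟪(Z₀ + r • Z₁).1, b⟫ ≤ S := by
    have e1 : ⟪(Z₀ + r • Z₁).1, b⟫ = ⟪Z₀.1, b⟫ + r * ⟪Z₁.1, b⟫ := by
      simp only [Prod.fst_add, Prod.smul_fst, inner_add_left, inner_smul_left, RCLike.conj_to_real]
    have e2 : r * ⟪Z₁.1, b⟫ ≤ |⟪Z₁.1, b⟫| := by
      have h1 : r * ⟪Z₁.1, b⟫ ≤ r * |⟪Z₁.1, b⟫| := mul_le_mul_of_nonneg_left (le_abs_self _) hr
      have h2 : r * |⟪Z₁.1, b⟫| ≤ 1 * |⟪Z₁.1, b⟫| := mul_le_mul_of_nonneg_right hr1 (abs_nonneg _)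
      linarith
    have e3 := le_abs_self ⟪Z₀.1, b⟫
    linarith
  unfold tz
  rw [le_div_iff₀ hs0, ev_add', ev_smul']
  have h1 : -(K * r) ≤ r * ev Z₁ y := by
    have := mul_le_mul_of_nonneg_left (abs_le.1 hK).1 hr
    linarith
  have h0 : 0 ≤ (2 / c₀) * (K * r) := by positivity
  have h2 := mul_le_mul_of_nonneg_left hsS h0
  have h3 : K * r * (1 + (2 / c₀) * S) = K * r + (2 / c₀) * (K * r) * S := by ring
  linarith

/-- positive lower bound of a finite family -/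
theorem fin_low {I : Type} [Fintype I] [Nonempty I] (f : I → ℝ) (hf : ∀ i, 0 < f i) :
    ∃ κ : ℝ, 0 < κ ∧ ∀ i, κ ≤ f i :=
  ⟨Finset.univ.inf' Finset.univ_nonempty f, (Finset.lt_inf'_iff _).2 fun i _ => hf i,
    fun i => Finset.inf'_le _ (Finset.mem_univ i)⟩

end ERA_

open ERA_ in
theorem era_proof (h1 : Stmt_ESL) : Stmt_ERA := by
  intro I J _ _ _ _ X δ c₀ ε hX
  have hc0 : 0 < c₀ := hX.c0
  have hδ : 0 < δ := hX.d0
  have hδ1 : δ ≤ 1 / 16 := hX.d1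
  -- bound of the values
  set W : Aff → ℝ := fun P => |ev P X.v| + |ev P X.w| + |ev P X.u| with hW
  have hW0 : ∀ P, 0 ≤ W P := fun P =>
    add_nonneg (add_nonneg (abs_nonneg _) (abs_nonneg _)) (abs_nonneg _)
  set K : ℝ := W X.α₁ + W X.β₁ + ∑ i, W (X.ζ₁ i) + ∑ j, W (X.ξ₁ j) with hK
  have hs1 : 0 ≤ ∑ i, W (X.ζ₁ i) := Finset.sum_nonneg fun i _ => hW0 _
  have hs2 : 0 ≤ ∑ j, W (X.ξ₁ j) := Finset.sum_nonneg fun i _ => hW0 _
  have hK0 : 0 ≤ K := add_nonneg (add_nonneg (add_nonneg (hW0 _) (hW0 _)) hs1) hs2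
  -- bound of the slopes
  set T : Aff → Aff → ℝ := fun P Q => |⟪P.1, X.b⟫| + |⟪Q.1, X.b⟫| with hT
  have hT0 : ∀ P Q, 0 ≤ T P Q := fun P Q => add_nonneg (abs_nonneg _) (abs_nonneg _)
  set S : ℝ := T X.β₀ X.β₁ + ∑ i, T (X.ζ₀ i) (X.ζ₁ i) + ∑ j, T (X.ξ₀ j) (X.ξ₁ j) with hS
  have ht1 : 0 ≤ ∑ i, T (X.ζ₀ i) (X.ζ₁ i) := Finset.sum_nonneg fun i _ => hT0 _ _
  have ht2 : 0 ≤ ∑ j, T (X.ξ₀ j) (X.ξ₁ j) := Finset.sum_nonneg fun i _ => hT0 _ _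
  have hS0 : 0 ≤ S := add_nonneg (add_nonneg (hT0 _ _) ht1) ht2
  have Sb : T X.β₀ X.β₁ ≤ S := by linarith
  have Sz : ∀ i, T (X.ζ₀ i) (X.ζ₁ i) ≤ S := fun i => by
    have h5 : T (X.ζ₀ i) (X.ζ₁ i) ≤ ∑ i, T (X.ζ₀ i) (X.ζ₁ i) :=
      Finset.single_le_sum (f := fun i => T (X.ζ₀ i) (X.ζ₁ i)) (fun i _ => hT0 _ _)
        (Finset.mem_univ i)
    have := hT0 X.β₀ X.β₁
    linarith
  have Sx : ∀ j, T (X.ξ₀ j) (X.ξ₁ j) ≤ S := fun j => by
    have h5 : T (X.ξ₀ j) (X.ξ₁ j) ≤ ∑ j, T (X.ξ₀ j) (X.ξ₁ j) :=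
      Finset.single_le_sum (f := fun j => T (X.ξ₀ j) (X.ξ₁ j)) (fun i _ => hT0 _ _)
        (Finset.mem_univ j)
    have := hT0 X.β₀ X.β₁
    linarith
  -- lower bounds
  obtain ⟨κ₁, hκ₁, hκz⟩ := fin_low _ hX.zw
  obtain ⟨κ₂, hκ₂, hκx⟩ := fin_low _ hX.xw
  set κ : ℝ := min (ev X.β₀ X.w) (min κ₁ κ₂) with hκ
  have hκ0 : 0 < κ := lt_min hX.a'w (lt_min hκ₁ hκ₂)
  have κb : κ ≤ ev X.β₀ X.w := min_le_left _ _
  have κz : κ ≤ κ₁ := (min_le_right _ _).trans (min_le_left _ _)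
  have κx : κ ≤ κ₂ := (min_le_right _ _).trans (min_le_right _ _)
  have hww : ∀ i, 0 ≤ ev (X.ζ₀ i) X.w ∧ κ ≤ ev (X.ζ₀ i) X.u + δ * ev (X.ζ₀ i) X.w := by
    intro i
    have h5 := hX.zw i
    have h5' := hκz i
    rw [ev_pt, inner_smul_right, ← ev_sub_pt, hX.zv i] at h5 h5'
    have h6 := hX.zu i
    refine ⟨?_, by linarith⟩
    by_contra hcn
    have h7 : δ * (ev (X.ζ₀ i) X.w - 0) ≤ 0 :=
      mul_nonpos_of_nonneg_of_nonpos hδ.le (by linarith [not_le.1 hcn])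
    linarith
  have hxw : ∀ j, 0 ≤ ev (X.ξ₀ j) X.w ∧ κ ≤ ev (X.ξ₀ j) X.v + δ * ev (X.ξ₀ j) X.w := by
    intro j
    have h5 := hX.xw j
    have h5' := hκx j
    rw [ev_pt, inner_smul_right, ← ev_sub_pt, hX.xu j] at h5 h5'
    have h6 := hX.xv j
    refine ⟨?_, by linarith⟩
    by_contra hcn
    have h7 : δ * (ev (X.ξ₀ j) X.w - 0) ≤ 0 :=
      mul_nonpos_of_nonneg_of_nonpos hδ.le (by linarith [not_le.1 hcn])
    linarith
  have hδκ : 0 < δ * κ := mul_pos hδ hκ0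
  refine ((ev_basic (c := 1) (C := 2 * (K * (1 + (2 / c₀) * S)) / (δ * κ)) one_pos).and
    (ev_of_r (h1 I J X δ c₀ ε hX))).mono ?_
  rintro R r ⟨⟨hr, hR, hRC, hr1, hRr⟩, s1, s2, s3, s4⟩ a c hE hor
  obtain ⟨ha, hc, hac, e1, e2, e3, e4⟩ := hE
  rw [div_le_iff₀ hδκ] at hRC
  have hρ0 : 0 < R * r := mul_pos hR hr
  have hd : 0 ≤ 1 - a - c := by linarith
  have c1 : R * r / 2 ≤ c := by
    have h5 : δ * c ≤ 1 / 16 * c := mul_le_mul_of_nonneg_right hδ1 hc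
    have h6 : a ≤ 2 * (δ * c) := by linarith
    linarith
  have c2 : R * r / 2 ≤ 1 - a - c := by
    have h5 : δ * (1 - a - c) ≤ 1 / 16 * (1 - a - c) := mul_le_mul_of_nonneg_right hδ1 hd
    have h6 : a ≤ 2 * (δ * (1 - a - c)) := by linarith
    linarith
  have hbd : ∀ P, |ev P (X.pt a c)| ≤ W P := fun P => ev_bd P X.v X.u X.w ha hc hac
  have ka : |ev X.α₁ (X.pt a c)| ≤ K := (hbd _).trans (by
    have := hW0 X.β₁
    linarith)
  have kb : |ev X.β₁ (X.pt a c)| ≤ K := (hbd _).trans (by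
    have := hW0 X.α₁
    linarith)
  have kz : ∀ i, |ev (X.ζ₁ i) (X.pt a c)| ≤ K := fun i => (hbd _).trans (by
    have := hW0 X.α₁
    have := hW0 X.β₁
    have h5 : W (X.ζ₁ i) ≤ ∑ i, W (X.ζ₁ i) :=
      Finset.single_le_sum (f := fun i => W (X.ζ₁ i)) (fun i _ => hW0 _) (Finset.mem_univ i)
    linarith)
  have kx : ∀ j, |ev (X.ξ₁ j) (X.pt a c)| ≤ K := fun j => (hbd _).trans (by
    have := hW0 X.α₁
    have := hW0 X.β₁
    have h5 : W (X.ξ₁ j) ≤ ∑ j, W (X.ξ₁ j) :=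
      Finset.single_le_sum (f := fun j => W (X.ξ₁ j)) (fun i _ => hW0 _) (Finset.mem_univ j)
    linarith)
  have ea : ev X.α₀ (X.pt a c) = 0 := by
    unfold Ed.pt
    rw [ev_tri, hX.av, hX.aw, hX.au]; ring
  have ua : tz X.b (X.α r) (X.pt a c) ≤ (2 / c₀) * (K * r) := tz_up hc0 hr.le s1 ea ka
  -- the threshold
  have hbig : K * r * (1 + (2 / c₀) * S) ≤ δ * (R * r / 2) * κ := by
    have h5 := mul_le_mul_of_nonneg_right hRC hr.le
    have h6 : K * r * (1 + (2 / c₀) * S) = (2 * (K * (1 + (2 / c₀) * S)) * r) / 2 := by ring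
    have h7 : δ * (R * r / 2) * κ = (R * (δ * κ) * r) / 2 := by ring
    rw [h6, h7]
    linarith
  have ha' : δ * (R * r / 2) ≤ a := by
    rcases hor with h | h
    · exact (mul_le_mul_of_nonneg_left c1 hδ.le).trans h
    · exact (mul_le_mul_of_nonneg_left c2 hδ.le).trans h
  have lb : (2 / c₀) * (K * r) ≤ tz X.b (X.β r) (X.pt a c) := by
    refine tz_big hc0 hr.le hr1.le s2 Sb (e := δ * (R * r / 2) * κ) ?_ kb hbig
    unfold Ed.pt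
    rw [ev_tri, hX.a'v, hX.a'u]
    have h5 := mul_le_mul ha' κb hκ0.le ha
    linarith
  have hbig2 : K * r * (1 + (2 / c₀) * S) ≤ (R * r / 2) * κ := by
    refine hbig.trans ?_
    have : δ * ((R * r / 2) * κ) ≤ 1 * ((R * r / 2) * κ) :=
      mul_le_mul_of_nonneg_right (by linarith) (by positivity)
    linarith
  have lm : (2 / c₀) * (K * r) ≤ max (tmn X.b (X.ζ r) (X.pt a c)) (tmn X.b (X.ξ r) (X.pt a c)) := by
    rcases hor with h | h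
    · refine le_trans (le_tmn fun i => ?_) (le_max_left _ _)
      refine tz_big hc0 hr.le hr1.le (s3 i) (Sz i) (e := (R * r / 2) * κ) ?_ (kz i) hbig2
      unfold Ed.pt
      rw [ev_tri, hX.zv i]
      obtain ⟨w1, w2⟩ := hww i
      have h5 := mul_le_mul_of_nonneg_right h w1
      have h6 := mul_le_mul c1 w2 hκ0.le hc
      linarith
    · refine le_trans (le_tmn fun j => ?_) (le_max_right _ _)
      refine tz_big hc0 hr.le hr1.le (s4 j) (Sx j) (e := (R * r / 2) * κ) ?_ (kx j) hbig2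
      unfold Ed.pt
      rw [ev_tri, hX.xu j]
      obtain ⟨w1, w2⟩ := hxw j
      have h5 := mul_le_mul_of_nonneg_right h w1
      have h6 := mul_le_mul c2 w2 hκ0.le hd
      linarith
  unfold Ed.t tE
  rw [min_eq_left (ua.trans lb)]
  exact min_eq_left (ua.trans lm)

end Pool.Agent.TSR2
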