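import Pool.Agent.TSR2.StmtsV

/-!
# TSR2, module FAN: a planar fan avoids the gap
-/

set_option autoImplicit false

open scoped RealInnerProductSpace

namespace Pool.Agent.TSR2

open Pool.Agent.TSM Pool.Agent.TSP Set Filter Topology

namespace FAN_

/-- the open cone spanned by `a` and `b` -/
def Q1 (a b z : E3) : Prop := ∃ x y : ℝ, 0 < x ∧ 0 < y ∧ z = x • a + y • b

/-- the two rays -/
def R1 (a b z : E3) : Prop := ∃ c : ℝ, 0 ≤ c ∧ (z = c • a ∨ z = c • b)

theorem r1_zero (a b : E3) : R1 a b 0 := ⟨0, le_refl _, Or.inl (by rw [zero_smul])⟩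

theorem uniq {a b : E3} (h : Indep2 a b) {x y x' y' : ℝ} (he : x • a + y • b = x' • a + y' • b) :
    x = x' ∧ y = y' := by
  have h1 := h (x - x') (y - y') (by
    have : (x - x') • a + (y - y') • b = (x • a + y • b) - (x' • a + y' • b) := by module
    rw [this, he, sub_self])
  exact ⟨by linarith [h1.1], by linarith [h1.2]⟩

/-- a segment which leaves the open cone meets the two rays -/
theorem leave {a b : E3} {x y x' y' : ℝ} (hx : 0 < x) (hy : 0 < y) (h : x' ≤ 0 ∨ y' ≤ 0) :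
    ∃ l : ℝ, 0 ≤ l ∧ l ≤ 1 ∧
      R1 a b ((1 - l) • (x • a + y • b) + l • (x' • a + y' • b)) := by
  have hc : ContinuousOn (fun l : ℝ => min ((1 - l) * x + l * x') ((1 - l) * y + l * y'))
      (Icc 0 1) := by fun_prop
  have h1 := intermediate_value_Icc' (zero_le_one) hc
  have h2 : (0 : ℝ) ∈ Icc (min ((1 - 1) * x + 1 * x') ((1 - 1) * y + 1 * y'))
      (min ((1 - 0) * x + 0 * x') ((1 - 0) * y + 0 * y')) := by
    constructor
    · rcases h with h | h
      · exact (min_le_left _ _).trans (by linarith)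
      · exact (min_le_right _ _).trans (by linarith)
    · apply le_min
      · linarith
      · linarith
  obtain ⟨l, ⟨hl0, hl1⟩, hl⟩ := h1 h2
  refine ⟨l, hl0, hl1, ?_⟩
  simp only at hl
  have e1 : (1 - l) • (x • a + y • b) + l • (x' • a + y' • b) =
      ((1 - l) * x + l * x') • a + ((1 - l) * y + l * y') • b := by module
  rw [e1]
  have m1 := min_le_left ((1 - l) * x + l * x') ((1 - l) * y + l * y')
  have m2 := min_le_right ((1 - l) * x + l * x') ((1 - l) * y + l * y')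
  rw [hl] at m1 m2
  rcases min_choice ((1 - l) * x + l * x') ((1 - l) * y + l * y') with h3 | h3
  · rw [h3] at hl
    exact ⟨_, m2, Or.inr (by rw [hl, zero_smul, zero_add])⟩
  · rw [h3] at hl
    exact ⟨_, m1, Or.inl (by rw [hl, zero_smul, add_zero])⟩

/-- the hypotheses -/
structure Fan (ν : E3) (m : ℕ) (q : ℕ → E3) : Prop where
  nu : ν ≠ 0
  m2 : 2 ≤ m
  pl : ∀ i, i ≤ m → ⟪ν, q i⟫ = 0
  ind : ∀ i, i < m → Indep2 (q i) (q (i + 1))
  ind0 : Indep2 (q 0) (q m)
  sep : ∀ i j, i < j → j < m → ∀ s t s' t' : ℝ, 0 ≤ s → 0 ≤ t → 0 ≤ s' → 0 ≤ t' →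
      s • q i + t • q (i + 1) = s' • q j + t' • q (j + 1) → s = 0 ∧ t' = 0

variable {ν : E3} {m : ℕ} {q : ℕ → E3}

/-- the sector `k` meets the two rays only in a face -/
theorem face0 (F : Fan ν m q) {k : ℕ} (hk : k < m) {s t c : ℝ} (hs : 0 ≤ s) (ht : 0 ≤ t)
    (hc : 0 ≤ c) (h : s • q k + t • q (k + 1) = c • q 0) : t = 0 ∧ (k = 0 ∨ s = 0) := by
  rcases Nat.eq_zero_or_pos k with h0 | h0
  · subst h0
    have h1 := uniq (F.ind 0 hk) (x' := c) (y' := 0) (by rw [h, zero_smul, add_zero])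
    exact ⟨h1.2, Or.inl rfl⟩
  · have h1 := F.sep 0 k h0 hk c 0 s t hc (le_refl _) hs ht (by
      rw [h, zero_smul, add_zero])
    refine ⟨h1.2, Or.inr ?_⟩
    have h2 := F.ind k hk s 0 (by
      rw [h1.1, h1.2, zero_smul, zero_smul, add_zero] at h
      rw [zero_smul, add_zero, h])
    exact h2.1

theorem facem (F : Fan ν m q) {k : ℕ} (hk : k < m) {s t c : ℝ} (hs : 0 ≤ s) (ht : 0 ≤ t)
    (hc : 0 ≤ c) (h : s • q k + t • q (k + 1) = c • q m) : s = 0 ∧ (k + 1 = m ∨ t = 0) := by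
  by_cases h0 : k + 1 = m
  · rw [← h0] at h
    have h1 := uniq (F.ind k hk) (x' := 0) (y' := c) (by rw [h, zero_smul, zero_add])
    exact ⟨h1.1, Or.inl h0⟩
  · have hm : m - 1 + 1 = m := by omega
    have h1 := F.sep k (m - 1) (by omega) (by omega) s t 0 c hs ht (le_refl _) hc (by
      rw [h, zero_smul, zero_add, hm])
    refine ⟨h1.1, Or.inr ?_⟩
    have h2 := F.ind k hk 0 t (by
      rw [h1.1, h1.2, zero_smul, zero_smul, zero_add] at h
      rw [zero_smul, zero_add, h])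
    exact h2.2

/-- one step inside a sector -/
theorem step (F : Fan ν m q) {k : ℕ} (hk : k < m) {s t s' t' : ℝ} (hs : 0 ≤ s) (ht : 0 ≤ t)
    (hs' : 0 ≤ s') (ht' : 0 ≤ t')
    (h : ¬ R1 (q 0) (q m) (s • q k + t • q (k + 1)))
    (h' : ¬ R1 (q 0) (q m) (s' • q k + t' • q (k + 1)))
    (hQ : Q1 (q 0) (q m) (s • q k + t • q (k + 1))) :
    Q1 (q 0) (q m) (s' • q k + t' • q (k + 1)) := by
  obtain ⟨x, y, hx, hy, he⟩ := hQ
  have hp : ⟪ν, s' • q k + t' • q (k + 1)⟫ = 0 := by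
    rw [inner_add_right, inner_smul_right, inner_smul_right, F.pl k hk.le, F.pl (k + 1) hk]
    ring
  obtain ⟨x', y', he'⟩ := plane_coords F.nu (F.pl 0 (Nat.zero_le _)) (F.pl m (le_refl _)) F.ind0 hp
  by_contra hcon
  have hxy : x' ≤ 0 ∨ y' ≤ 0 := by
    by_contra hc
    rw [not_or, not_le, not_le] at hc
    exact hcon ⟨x', y', hc.1, hc.2, he'⟩
  obtain ⟨l, hl0, hl1, c, hc, hl⟩ := leave (a := q 0) (b := q m) hx hy hxy
  rw [← he, ← he'] at hl
  have e1 : (1 - l) • (s • q k + t • q (k + 1)) + l • (s' • q k + t' • q (k + 1)) =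
      ((1 - l) * s + l * s') • q k + ((1 - l) * t + l * t') • q (k + 1) := by module
  have hl0' : 0 < l := by
    rcases hl0.lt_or_eq with h1 | h1
    · exact h1
    · exfalso
      rw [← h1, sub_zero, one_smul, zero_smul, add_zero] at hl
      exact h ⟨c, hc, hl⟩
  have hl1' : l < 1 := by
    rcases hl1.lt_or_eq with h1 | h1
    · exact h1
    · exfalso
      rw [h1, sub_self, one_smul, zero_smul, zero_add] at hl
      exact h' ⟨c, hc, hl⟩
  rw [e1] at hl
  have zz : ∀ u v : ℝ, 0 ≤ u → 0 ≤ v → (1 - l) * u + l * v = 0 → u = 0 ∧ v = 0 := by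
    intro u v hu hv h0
    have a1 : 0 ≤ (1 - l) * u := mul_nonneg (by linarith) hu
    have a2 : 0 ≤ l * v := mul_nonneg hl0 hv
    have a3 : (1 - l) * u = 0 := by linarith
    have a4 : l * v = 0 := by linarith
    exact ⟨(mul_eq_zero.1 a3).resolve_left (by linarith),
      (mul_eq_zero.1 a4).resolve_left hl0'.ne'⟩
  have hsl : 0 ≤ (1 - l) * s + l * s' := by
    have : 0 ≤ (1 - l) * s := mul_nonneg (by linarith) hs
    have : 0 ≤ l * s' := mul_nonneg hl0 hs'
    linarith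
  have htl : 0 ≤ (1 - l) * t + l * t' := by
    have : 0 ≤ (1 - l) * t := mul_nonneg (by linarith) ht
    have : 0 ≤ l * t' := mul_nonneg hl0 ht'
    linarith
  rcases hl with hl | hl
  · obtain ⟨h1, h2⟩ := face0 F hk hsl htl hc hl
    obtain ⟨t0, -⟩ := zz t t' ht ht' h1
    apply h
    rcases h2 with h2 | h2
    · subst h2
      exact ⟨s, hs, Or.inl (by rw [t0, zero_smul, add_zero])⟩
    · obtain ⟨s0, -⟩ := zz s s' hs hs' h2
      rw [s0, t0, zero_smul, zero_smul, add_zero]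
      exact r1_zero _ _
  · obtain ⟨h1, h2⟩ := facem F hk hsl htl hc hl
    obtain ⟨s0, -⟩ := zz s s' hs hs' h1
    apply h
    rcases h2 with h2 | h2
    · exact ⟨t, ht, Or.inr (by rw [s0, zero_smul, zero_add, h2])⟩
    · obtain ⟨t0, -⟩ := zz t t' ht ht' h2
      rw [s0, t0, zero_smul, zero_smul, add_zero]
      exact r1_zero _ _

/-- the intermediate vertices are not on the rays -/
theorem mid (F : Fan ν m q) {k : ℕ} (hk : 0 < k) (hkm : k < m) : ¬ R1 (q 0) (q m) (q k) := by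
  rintro ⟨c, hc, h | h⟩
  · have h1 := face0 F hkm (s := 1) (t := 0) zero_le_one (le_refl _) hc (by
      rw [one_smul, zero_smul, add_zero, h])
    rcases h1.2 with h2 | h2
    · omega
    · norm_num at h2
  · have h1 := facem F hkm (s := 1) (t := 0) zero_le_one (le_refl _) hc (by
      rw [one_smul, zero_smul, add_zero, h])
    norm_num at h1

/-- the chain -/
theorem chain (F : Fan ν m q) (i : ℕ) : ∀ d : ℕ, ∀ s t s' t' : ℝ, i + d < m → 0 ≤ s → 0 ≤ t →
    0 ≤ s' → 0 ≤ t' → ¬ R1 (q 0) (q m) (s • q i + t • q (i + 1)) →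
    ¬ R1 (q 0) (q m) (s' • q (i + d) + t' • q (i + d + 1)) →
    (Q1 (q 0) (q m) (s • q i + t • q (i + 1)) ↔
      Q1 (q 0) (q m) (s' • q (i + d) + t' • q (i + d + 1))) := by
  intro d
  induction d with
  | zero =>
    intro s t s' t' hi hs ht hs' ht' h h'
    exact ⟨step F hi hs ht hs' ht' h h', step F hi hs' ht' hs ht h' h⟩
  | succ d ih =>
    intro s t s' t' hi hs ht hs' ht' h h'
    have hmid : ¬ R1 (q 0) (q m) (q (i + d + 1)) := mid F (by omega) hi
    have h1 : ¬ R1 (q 0) (q m) ((0 : ℝ) • q (i + d) + (1 : ℝ) • q (i + d + 1)) := by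
      rw [zero_smul, zero_add, one_smul]; exact hmid
    have h2 : ¬ R1 (q 0) (q m) ((1 : ℝ) • q (i + (d + 1)) + (0 : ℝ) • q (i + (d + 1) + 1)) := by
      rw [zero_smul, add_zero, one_smul]; exact hmid
    have e1 := ih s t 0 1 (by omega) hs ht (le_refl _) zero_le_one h h1
    have e2 : Q1 (q 0) (q m) ((1 : ℝ) • q (i + (d + 1)) + (0 : ℝ) • q (i + (d + 1) + 1)) ↔
        Q1 (q 0) (q m) (s' • q (i + (d + 1)) + t' • q (i + (d + 1) + 1)) :=
      ⟨step F hi zero_le_one (le_refl _) hs' ht' h2 h', step F hi hs' ht' zero_le_one (le_refl _) h' h2⟩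
    rw [e1, ← e2, zero_smul, zero_add, zero_smul, add_zero, one_smul, one_smul]
    exact Iff.rfl

end FAN_

open FAN_

theorem fan_proof : Stmt_FAN := by
  intro ν m q hν hm hpl hind hind0 hsep hlong i hi s t x y hs ht hx hy he
  have F : Fan ν m q := ⟨hν, hm, hpl, hind, hind0, hsep⟩
  obtain ⟨a, b, s', t', j, ha, hb, hs', ht', hj, he'⟩ := hlong
  have r1 : ¬ R1 (q 0) (q m) (s • q i + t • q (i + 1)) := by
    rw [he]
    rintro ⟨c, hc, h | h⟩
    · have := (uniq hind0 (x' := c) (y' := 0) (by rw [h, zero_smul, add_zero])).2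
      linarith
    · have := (uniq hind0 (x' := 0) (y' := c) (by rw [h, zero_smul, zero_add])).1
      linarith
  have hneg : s' • q j + t' • q (j + 1) = (-a) • q 0 + (-b) • q m := by
    rw [← he']; module
  have r2 : ¬ R1 (q 0) (q m) (s' • q j + t' • q (j + 1)) := by
    rw [hneg]
    rintro ⟨c, hc, h | h⟩
    · have := (uniq hind0 (x' := c) (y' := 0) (by rw [h, zero_smul, add_zero])).2
      linarith
    · have := (uniq hind0 (x' := 0) (y' := c) (by rw [h, zero_smul, zero_add])).1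
      linarith
  have q1 : Q1 (q 0) (q m) (s • q i + t • q (i + 1)) := ⟨x, y, hx, hy, he⟩
  have q2 : ¬ Q1 (q 0) (q m) (s' • q j + t' • q (j + 1)) := by
    rw [hneg]
    rintro ⟨x', y', hx', hy', h⟩
    have := (uniq hind0 h).1
    linarith
  rcases le_total i j with hij | hij
  · obtain ⟨d, rfl⟩ := Nat.exists_eq_add_of_le hij
    exact q2 ((chain F i d s t s' t' hj hs ht hs' ht' r1 r2).1 q1)
  · obtain ⟨d, rfl⟩ := Nat.exists_eq_add_of_le hij
    exact q2 ((chain F j d s' t' s t hi hs' ht' hs ht r2 r1).2 q1)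

end Pool.Agent.TSR2
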