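import Pool.Agent.TSR2.StmtsC
import Pool.Agent.TSR2.Base

/-!
# TSR2: GCH, generic normals
-/

set_option autoImplicit false

open scoped RealInnerProductSpace

namespace Pool.Agent.TSR2

open Pool.Agent.TSM Pool.Agent.TSP Set Filter Topology

namespace GCH_

/-- polynomial functions -/
def IsP {σ : Type} (f : (σ → ℝ) → ℝ) : Prop := ∃ P : MvPolynomial σ ℝ, ∀ x, MvPolynomial.eval x P = f x

theorem IsP.add {σ : Type} {f g : (σ → ℝ) → ℝ} (hf : IsP f) (hg : IsP g) :
    IsP (fun x => f x + g x) := by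
  obtain ⟨P, hP⟩ := hf
  obtain ⟨Q, hQ⟩ := hg
  exact ⟨P + Q, fun x => by rw [map_add, hP, hQ]⟩

theorem IsP.sub {σ : Type} {f g : (σ → ℝ) → ℝ} (hf : IsP f) (hg : IsP g) :
    IsP (fun x => f x - g x) := by
  obtain ⟨P, hP⟩ := hf
  obtain ⟨Q, hQ⟩ := hg
  exact ⟨P - Q, fun x => by rw [map_sub, hP, hQ]⟩

theorem IsP.neg {σ : Type} {f : (σ → ℝ) → ℝ} (hf : IsP f) : IsP (fun x => - f x) := by
  obtain ⟨P, hP⟩ := hf
  exact ⟨-P, fun x => by rw [map_neg, hP]⟩

theorem IsP.mul {σ : Type} {f g : (σ → ℝ) → ℝ} (hf : IsP f) (hg : IsP g) :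
    IsP (fun x => f x * g x) := by
  obtain ⟨P, hP⟩ := hf
  obtain ⟨Q, hQ⟩ := hg
  exact ⟨P * Q, fun x => by rw [map_mul, hP, hQ]⟩

theorem IsP.const {σ : Type} (c : ℝ) : IsP (fun _ : σ → ℝ => c) :=
  ⟨MvPolynomial.C c, fun _ => MvPolynomial.eval_C c⟩

theorem IsP.coord {σ : Type} (s : σ) : IsP (fun x : σ → ℝ => x s) :=
  ⟨MvPolynomial.X s, fun _ => MvPolynomial.eval_X s⟩

/-- simultaneous nonvanishing in a box -/
theorem box {σ T : Type} [Fintype T] (f : T → (σ → ℝ) → ℝ) (hf : ∀ t, IsP (f t))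
    (hne : ∀ t, ∃ x, f t x ≠ 0) (c : σ → ℝ) {δ : ℝ} (hδ : 0 < δ) :
    ∃ x : σ → ℝ, (∀ s, |x s - c s| < δ) ∧ ∀ t, f t x ≠ 0 := by
  choose P hP using hf
  have hP0 : ∀ t, P t ≠ 0 := by
    intro t h0
    obtain ⟨x, hx⟩ := hne t
    apply hx
    rw [← hP t x, h0, map_zero]
  have hprod : ∏ t, P t ≠ 0 := Finset.prod_ne_zero_iff.2 fun t _ => hP0 t
  by_contra hcon
  push Not at hcon
  apply hprod
  refine MvPolynomial.funext_set (fun s => Ioo (c s - δ) (c s + δ))
    (fun s => Ioo_infinite (by linarith)) (fun x hx => ?_)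
  rw [map_zero]
  obtain ⟨t, ht⟩ := hcon x (by
    intro s
    have := hx s (mem_univ s)
    rw [abs_lt]
    constructor
    · linarith [this.1]
    · linarith [this.2])
  rw [map_prod]
  exact Finset.prod_eq_zero (Finset.mem_univ t) (by rw [hP t x, ht])

/-- the vector with given coordinates -/
noncomputable def vec {I : Type} (x : I × Fin 3 → ℝ) (i : I) : E3 := !₂[x (i, 0), x (i, 1), x (i, 2)]

theorem vec0 {I : Type} (x : I × Fin 3 → ℝ) (i : I) : vec x i 0 = x (i, 0) := by simp [vec]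
theorem vec1 {I : Type} (x : I × Fin 3 → ℝ) (i : I) : vec x i 1 = x (i, 1) := by simp [vec]
theorem vec2 {I : Type} (x : I × Fin 3 → ℝ) (i : I) : vec x i 2 = x (i, 2) := by simp [vec]

theorem c0 (a b : E3) : crs a b 0 = a 1 * b 2 - a 2 * b 1 := by simp [crs]
theorem c1 (a b : E3) : crs a b 1 = a 2 * b 0 - a 0 * b 2 := by simp [crs]
theorem c2 (a b : E3) : crs a b 2 = a 0 * b 1 - a 1 * b 0 := by simp [crs]

theorem vec_of {I : Type} (W : I → E3) (i : I) : vec (fun s : I × Fin 3 => W s.1 s.2) i = W i := by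
  ext k
  fin_cases k
  · exact vec0 _ _
  · exact vec1 _ _
  · exact vec2 _ _

theorem ne_coord {m : E3} (hm : m ≠ 0) : m 0 ≠ 0 ∨ m 1 ≠ 0 ∨ m 2 ≠ 0 := by
  by_contra h
  push Not at h
  apply hm
  ext k
  fin_cases k
  · exact h.1
  · exact h.2.1
  · exact h.2.2

theorem wit1 {m : E3} (hm : m ≠ 0) : ∃ a b : E3, det3 m a b ≠ 0 := by
  rcases ne_coord hm with h | h | h
  · exact ⟨!₂[0, 1, 0], !₂[0, 0, 1], by simpa [det3] using h⟩
  · exact ⟨!₂[0, 0, 1], !₂[1, 0, 0], by simpa [det3] using h⟩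
  · exact ⟨!₂[1, 0, 0], !₂[0, 1, 0], by simpa [det3] using h⟩

theorem wit3 {m : E3} (hm : m ≠ 0) : ∃ a b c e : E3, det3 m (crs a b) (crs c e) ≠ 0 := by
  rcases ne_coord hm with h | h | h
  · exact ⟨!₂[0, 0, 1], !₂[1, 0, 0], !₂[1, 0, 0], !₂[0, 1, 0], by simpa [det3, crs] using h⟩
  · exact ⟨!₂[1, 0, 0], !₂[0, 1, 0], !₂[0, 1, 0], !₂[0, 0, 1], by simpa [det3, crs] using h⟩
  · exact ⟨!₂[0, 1, 0], !₂[0, 0, 1], !₂[0, 0, 1], !₂[1, 0, 0], by simpa [det3, crs] using h⟩

theorem wit2 : ∃ a b c : E3, det3 a b c ≠ 0 :=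
  ⟨!₂[1, 0, 0], !₂[0, 1, 0], !₂[0, 0, 1], by simp [det3]⟩

/-- the conditions -/
noncomputable def cnd {I : Type} [DecidableEq I] (q : I → E3) (S : Finset E3) :
    ((S × I × I) ⊕ ((I × I × I) ⊕ (I × I × I × I))) → ((I × Fin 3) → ℝ) → ℝ
  | Sum.inl (m, i, j), x => if i = j then 1 else det3 m.1 (vec x i) (vec x j)
  | Sum.inr (Sum.inl (i, j, k)), x =>
      if i = j ∨ i = k ∨ j = k then 1 else det3 (vec x i) (vec x j) (vec x k)
  | Sum.inr (Sum.inr (i, i', j, j')), x =>
      open Classical in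
      if i ≠ i' ∧ j ≠ j' ∧ q i = q i' ∧ q j = q j' ∧ q i ≠ q j then
        det3 (q i - q j) (crs (vec x i) (vec x i')) (crs (vec x j) (vec x j')) else 1

theorem cnd_isP {I : Type} [DecidableEq I] (q : I → E3) (S : Finset E3)
    (t : (S × I × I) ⊕ ((I × I × I) ⊕ (I × I × I × I))) : IsP (cnd q S t) := by
  rcases t with ⟨m, i, j⟩ | ⟨i, j, k⟩ | ⟨i, i', j, j'⟩
  · unfold cnd
    by_cases h : i = j
    · simp only [h, if_true]
      exact IsP.const _
    · simp only [h, if_false, det3, vec0, vec1, vec2]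
      repeat (first | exact IsP.const _ | exact IsP.coord _ | apply IsP.sub | apply IsP.add |
        apply IsP.neg | apply IsP.mul)
  · unfold cnd
    by_cases h : i = j ∨ i = k ∨ j = k
    · simp only [h, if_true]
      exact IsP.const _
    · simp only [h, if_false, det3, vec0, vec1, vec2]
      repeat (first | exact IsP.const _ | exact IsP.coord _ | apply IsP.sub | apply IsP.add |
        apply IsP.neg | apply IsP.mul)
  · unfold cnd
    by_cases h : i ≠ i' ∧ j ≠ j' ∧ q i = q i' ∧ q j = q j' ∧ q i ≠ q j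
    · simp only [if_pos h, det3, c0, c1, c2, vec0, vec1, vec2]
      repeat (first | exact IsP.const _ | exact IsP.coord _ | apply IsP.sub | apply IsP.add |
        apply IsP.neg | apply IsP.mul)
    · simp only [if_neg h]
      exact IsP.const _

theorem cnd_ne {I : Type} [DecidableEq I] (q : I → E3) (S : Finset E3) (hS : ∀ m ∈ S, m ≠ 0)
    (t : (S × I × I) ⊕ ((I × I × I) ⊕ (I × I × I × I))) : ∃ x, cnd q S t x ≠ 0 := by
  rcases t with ⟨m, i, j⟩ | ⟨i, j, k⟩ | ⟨i, i', j, j'⟩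
  · by_cases h : i = j
    · exact ⟨0, by simp [cnd, h]⟩
    · obtain ⟨a, b, hab⟩ := wit1 (hS m.1 m.2)
      refine ⟨fun s => (if s.1 = i then a else b) s.2, ?_⟩
      simp only [cnd, h, if_false]
      rw [vec_of (fun l => if l = i then a else b), vec_of (fun l => if l = i then a else b)]
      simpa [Ne.symm h] using hab
  · by_cases h : i = j ∨ i = k ∨ j = k
    · exact ⟨0, by simp [cnd, h]⟩
    · obtain ⟨a, b, c, habc⟩ := wit2
      refine ⟨fun s => (if s.1 = i then a else if s.1 = j then b else c) s.2, ?_⟩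
      simp only [cnd, h, if_false]
      rw [vec_of (fun l => if l = i then a else if l = j then b else c),
        vec_of (fun l => if l = i then a else if l = j then b else c),
        vec_of (fun l => if l = i then a else if l = j then b else c)]
      push Not at h
      simpa [Ne.symm h.1, Ne.symm h.2.1, Ne.symm h.2.2] using habc
  · by_cases h : i ≠ i' ∧ j ≠ j' ∧ q i = q i' ∧ q j = q j' ∧ q i ≠ q j
    · obtain ⟨a, b, c, e, habc⟩ := wit3 (sub_ne_zero.2 h.2.2.2.2)
      refine ⟨fun s => (if s.1 = i then a else if s.1 = i' then b else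
        if s.1 = j then c else e) s.2, ?_⟩
      simp only [cnd]
      rw [if_pos h]
      rw [vec_of (fun l => if l = i then a else if l = i' then b else if l = j then c else e),
        vec_of (fun l => if l = i then a else if l = i' then b else if l = j then c else e),
        vec_of (fun l => if l = i then a else if l = i' then b else if l = j then c else e),
        vec_of (fun l => if l = i then a else if l = i' then b else if l = j then c else e)]
      obtain ⟨h1, h2, h3, h4, h5⟩ := h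
      have k1 : j ≠ i := fun hh => h5 (by rw [hh])
      have k2 : j ≠ i' := fun hh => h5 (by rw [hh, h3])
      have k3 : j' ≠ i := fun hh => h5 (by rw [h4, hh])
      have k4 : j' ≠ i' := fun hh => h5 (by rw [h4, hh, h3])
      simpa [Ne.symm h1, Ne.symm h2, k1, k2, k3, k4] using habc
    · exact ⟨0, by simp only [cnd]; rw [if_neg h]; exact one_ne_zero⟩

theorem det_crs1 (z a b w : E3) :
    det3 z (crs a b) w = ⟪a, w⟫ * ⟪b, z⟫ - ⟪b, w⟫ * ⟪a, z⟫ := by
  simp only [det3, c0, c1, c2, PiLp.inner_apply, Fin.sum_univ_three, RCLike.inner_apply,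
    conj_trivial]
  ring

theorem det_crs2 (z a b w : E3) :
    det3 z w (crs a b) = -(⟪a, w⟫ * ⟪b, z⟫ - ⟪b, w⟫ * ⟪a, z⟫) := by
  rw [← det_crs1]
  simp only [det3]
  ring

end GCH_

open GCH_ in
theorem gch_proof : Stmt_GCH := by
  intro I _ _ q N S η hη hS
  obtain ⟨x, hx1, hx2⟩ := box (cnd q S) (cnd_isP q S) (cnd_ne q S hS)
    (fun s : I × Fin 3 => N s.1 s.2) (half_pos hη)
  refine ⟨vec x, ?_, ?_, ?_, ?_⟩
  · intro i
    have h0 := abs_lt.1 (hx1 (i, 0))
    have h1 := abs_lt.1 (hx1 (i, 1))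
    have h2 := abs_lt.1 (hx1 (i, 2))
    have hsq : ‖vec x i - N i‖ ^ 2 < η ^ 2 := by
      rw [EuclideanSpace.norm_sq_eq, Fin.sum_univ_three]
      simp only [PiLp.sub_apply, vec0, vec1, vec2, Real.norm_eq_abs, sq_abs]
      simp only at h0 h1 h2
      nlinarith [h0.1, h0.2, h1.1, h1.2, h2.1, h2.2]
    exact lt_of_pow_lt_pow_left₀ 2 hη.le hsq
  · intro m hm i j hij
    have := hx2 (Sum.inl (⟨m, hm⟩, i, j))
    simpa [cnd, hij] using this
  · intro i j k h1 h2 h3
    have := hx2 (Sum.inr (Sum.inl (i, j, k)))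
    simpa [cnd, h1, h2, h3] using this
  · intro i i' j j' h1 h2 h3 h4 h5 y y1 y2 y3 y4
    have := hx2 (Sum.inr (Sum.inr (i, i', j, j')))
    simp only [cnd] at this
    rw [if_pos ⟨h1, h2, h3, h4, h5⟩] at this
    apply this
    have e1 : q i - q j = (y - q j) - (y - q i) := by abel
    have e2 : ∀ a b c d : E3, det3 (a - b) c d = det3 a c d - det3 b c d := by
      intro a b c d
      simp only [det3, PiLp.sub_apply]
      ring
    rw [e1, e2, det_crs2, det_crs1, y1, y2, y3, y4]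
    ring

end Pool.Agent.TSR2
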