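import Pool.Agent.TSR2.Stmts

/-!
# TSR2: GLU, the pieces glue to a continuous map
-/

set_option autoImplicit false

open scoped RealInnerProductSpace

namespace Pool.Agent.TSR2

open Pool.Agent.TSM Pool.Agent.TSP Set Filter Topology

namespace GLU_

/-- finite closed gluing -/
theorem glue {X Y ι : Type} [TopologicalSpace X] [TopologicalSpace Y] [Finite ι]
    (S : ι → Set X) (g : ι → X → Y) (d : X → Y) (hS : ∀ i, IsClosed (S i))
    (hg : ∀ i, ContinuousOn (g i) (S i))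
    (ha : ∀ i j, ∀ x, x ∈ S i → x ∈ S j → g i x = g j x) :
    ∃ D : X → Y, (∀ i, ∀ x ∈ S i, D x = g i x) ∧ ContinuousOn D (⋃ i, S i) := by
  classical
  have hD : ∀ i, ∀ x ∈ S i,
      (fun x => if h : ∃ i, x ∈ S i then g h.choose x else d x) x = g i x := by
    intro i x hx
    have h : ∃ i, x ∈ S i := ⟨i, hx⟩
    simp only [dif_pos h]
    exact ha _ _ x h.choose_spec hx
  refine ⟨fun x => if h : ∃ i, x ∈ S i then g h.choose x else d x, hD, ?_⟩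
  exact (locallyFinite_of_finite S).continuousOn_iUnion hS
    fun i => (hg i).congr (hD i)

end GLU_

theorem glu_proof (hclo : Stmt_CLO) (hagr : Stmt_AGR) (hcov : Stmt_COV) (hopn : Stmt_OPN) :
    Stmt_GLU := by
  intro V _ _ K p Φ δ ρ η C E F hs
  obtain ⟨-, c1, c2, c3, c4⟩ := hclo V K p Φ δ ρ
  obtain ⟨a1, a2, a3, a4, a5, a6, a7, a8⟩ := hagr V K p Φ δ ρ η C E F hs
  obtain ⟨o1, o2, o3, -⟩ := hopn V K p Φ δ ρ hs.d0 hs.d1 hs.r0 hs.r1
  obtain ⟨D, hD, hc⟩ := GLU_.glue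
    (ι := {v : V // ¬ K.Outer p Φ v} ⊕ {q : V × V // Act K p Φ q.1 q.2} ⊕
      {t : Finset V // t ∈ K.tri ∧ ¬ FT p Φ t} ⊕ Unit)
    (Sum.elim (fun v => CZ K ρ v.1) (Sum.elim (fun q => EZ K δ ρ q.1.1 q.1.2)
      (Sum.elim (fun t => FZ K δ ρ t.1) (fun _ => RZ K p Φ δ ρ))))
    (Sum.elim (fun v => C v.1) (Sum.elim (fun q => E q.1.1 q.1.2)
      (Sum.elim (fun t => F t.1) (fun _ => lin p)))) (lin p)
    (by
      rintro (v | q | t | _)
      · exact c1 _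
      · exact c2 _ _
      · exact c3 _
      · exact c4)
    (by
      rintro (v | q | t | _)
      · exact hs.cc _ v.2
      · exact hs.ec _ _ q.2
      · exact hs.fc _ t.2.1 t.2.2
      · exact (continuous_lin p).continuousOn)
    (by
      rintro (⟨v, hv⟩ | ⟨⟨a, b⟩, hq⟩ | ⟨t, ht⟩ | _) (⟨v', hv'⟩ | ⟨⟨a', b'⟩, hq'⟩ | ⟨t', ht'⟩ | _) x hx hx'
      · have := a1 v v' hv hv' x hx hx'
        subst this; rfl
      · exact a2 v a' b' hv hq' x hx hx'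
      · exact a3 v hv t' ht'.1 ht'.2 x hx hx'
      · exact hs.rco x hx' v hv hx.2
      · exact (a2 v' a b hv' hq x hx' hx).symm
      · exact a4 a b a' b' hq hq' x hx hx'
      · exact a5 a b hq t' ht'.1 ht'.2 x hx hx'
      · exact a6 a b hq x hx hx'
      · exact (a3 v' hv' t ht.1 ht.2 x hx' hx).symm
      · exact (a5 a' b' hq' t ht.1 ht.2 x hx' hx).symm
      · have := a7 t ht.1 t' ht'.1 ht.2 ht'.2 x hx hx'
        subst this; rfl
      · exact absurd hx' (a8 t ht.1 ht.2 x hx)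
      · exact (hs.rco x hx v' hv' hx'.2).symm
      · exact (a6 a' b' hq' x hx' hx).symm
      · exact absurd hx (a8 t' ht'.1 ht'.2 x hx')
      · rfl)
  refine ⟨D, ⟨hc.mono ?_, fun v hv x hx => hD (Sum.inl ⟨v, hv⟩) x hx,
    fun v u hq x hx => hD (Sum.inr (Sum.inl ⟨(v, u), hq⟩)) x hx,
    fun t ht ht' x hx => hD (Sum.inr (Sum.inr (Sum.inl ⟨t, ht, ht'⟩))) x hx,
    fun x hx => hD (Sum.inr (Sum.inr (Sum.inr ()))) x hx⟩⟩
  intro x hx
  rw [mem_iUnion]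
  rcases hcov V K p Φ δ ρ hs.d0 hs.d1 hs.r0 hs.r1 x hx with
    ⟨v, hv, h⟩ | ⟨v, u, hq, h⟩ | ⟨t, ht, ht', h⟩ | h
  · exact ⟨Sum.inl ⟨v, hv⟩, hx, h.le⟩
  · exact ⟨Sum.inr (Sum.inl ⟨(v, u), hq⟩), o1 _ _ h⟩
  · exact ⟨Sum.inr (Sum.inr (Sum.inl ⟨t, ht, ht'⟩)), o2 _ h⟩
  · exact ⟨Sum.inr (Sum.inr (Sum.inr ())), o3 h⟩

end Pool.Agent.TSR2
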