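import Pool.Agent.TSR2.StmtsV

/-!
# TSR2: ICB, combinatorics of the polygon of an inner vertex
-/

set_option autoImplicit false

open scoped RealInnerProductSpace

namespace Pool.Agent.TSR2

open Pool.Agent.TSM Pool.Agent.TSP Set Filter Topology

theorem icb_proof : Stmt_ICB := by
  intro V _ _ K p v n c hc
  obtain ⟨hn, hinj, -, -⟩ := hc
  have : NeZero n := ⟨by omega⟩
  have hin : ∀ i, some (c i) ∈ (inPg p v n c).S := by
    intro i
    unfold inPg
    simp
  have hex : ∀ x ∈ (inPg p v n c).S, ∃ i, x = some (c i) := by
    intro x hx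
    unfold inPg at hx
    simp only [Finset.mem_map, Finset.mem_filter, Finset.mem_univ, true_and] at hx
    obtain ⟨u, ⟨i, hi⟩, hu⟩ := hx
    exact ⟨i, by rw [hi]; exact hu.symm⟩
  have hs : ∀ i, (inPg p v n c).s (some (c i)) = some (c (i + 1)) := by
    intro i
    have h : ∃ j, c j = c i := ⟨i, rfl⟩
    have h1 : (inPg p v n c).s (some (c i)) = some (c (h.choose + 1)) := by
      unfold inPg
      simp only [Option.bind_some]
      exact dif_pos h
    rw [h1, hinj h.choose_spec]
  have hit : ∀ (k : ℕ) (i : ZMod n),
      (inPg p v n c).s^[k] (some (c i)) = some (c (i + (k : ZMod n))) := by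
    intro k
    induction k with
    | zero => intro i; simp
    | succ k ih =>
      intro i
      rw [Function.iterate_succ_apply, hs, ih]
      congr 2
      push_cast
      ring
  refine ⟨hin, hex, hs, ?_, ?_, ?_, ?_⟩
  · intro i hi
    obtain ⟨i', rfl⟩ := hex i hi
    rw [hs]
    exact hin _
  · intro i hi j hj hij
    obtain ⟨i', rfl⟩ := hex i hi
    obtain ⟨j', rfl⟩ := hex j hj
    rw [hs, hs] at hij
    have h1 := hinj (Option.some_injective V hij)
    rw [add_right_cancel h1]
  · intro i hi j hj
    obtain ⟨i', rfl⟩ := hex i hi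
    obtain ⟨j', rfl⟩ := hex j hj
    refine ⟨(j' - i').val, ?_⟩
    rw [hit, ZMod.natCast_zmod_val, add_sub_cancel]
  · have h1 : (inPg p v n c).S = (Finset.univ.image c).map ⟨some, Option.some_injective V⟩ := by
      ext x
      constructor
      · intro hx
        obtain ⟨i, rfl⟩ := hex x hx
        simp
      · intro hx
        simp only [Finset.mem_map, Finset.mem_image, Finset.mem_univ, true_and] at hx
        obtain ⟨u, ⟨i, hi⟩, hu⟩ := hx
        rw [← hu, ← hi]
        exact hin i
    rw [h1, Finset.card_map, Finset.card_image_of_injective _ hinj, Finset.card_univ,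
      ZMod.card]

end Pool.Agent.TSR2
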