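import Pool.Agent.TSR2.StmtsV

/-!
# TSR2: IOK, the polygon of an inner vertex is Ok
-/

set_option autoImplicit false

open scoped RealInnerProductSpace

namespace Pool.Agent.TSR2

open Pool.Agent.TSM Pool.Agent.TSP Set Filter Topology

namespace IOK_

variable {V : Type} [Fintype V] [DecidableEq V]

theorem adj_c {K : Surf V} {v : V} {n : ℕ} {c : ZMod n → V} (hc : IsLinkCycle K.tri v n c)
    (i : ZMod n) : K.Adj v (c i) := by
  obtain ⟨-, -, hne, hlk⟩ := hc
  have h := (hlk {v, c i, c (i + 1)}).2 ⟨i, rfl⟩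
  exact ⟨(hne i).symm, {v, c i, c (i + 1)}, h.1, h.2, by simp⟩

theorem c_of_adj {K : Surf V} {v : V} {n : ℕ} {c : ZMod n → V} (hc : IsLinkCycle K.tri v n c)
    {w : V} (h : K.Adj v w) : ∃ i, w = c i := by
  obtain ⟨-, -, hne, hlk⟩ := hc
  obtain ⟨hvw, t, ht, hv, hw⟩ := h
  obtain ⟨i, hi⟩ := (hlk t).1 ⟨ht, hv⟩
  rw [hi] at hw
  simp only [Finset.mem_insert, Finset.mem_singleton] at hw
  rcases hw with h | h | h
  · exact absurd h.symm hvw
  · exact ⟨i, h⟩
  · exact ⟨i + 1, h⟩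

theorem neg_dir (a b c : E3) (h : det3 a b c ≠ 0) :
    ∃ ν : E3, ν ≠ 0 ∧ ⟪ν, a⟫ < 0 ∧ ⟪ν, b⟫ < 0 ∧ ⟪ν, c⟫ < 0 := by
  have key : ∀ x : E3, ⟪(-det3 a b c) • (crs b c + crs c a + crs a b), x⟫ =
      -det3 a b c * (det3 b c x + det3 c a x + det3 a b x) := by
    intro x
    rw [inner_smul_left, inner_add_left, inner_add_left, inner_crs, inner_crs, inner_crs]
    simp
  have hsq : 0 < det3 a b c * det3 a b c := mul_self_pos.2 h
  have ha : ⟪(-det3 a b c) • (crs b c + crs c a + crs a b), a⟫ < 0 := by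
    rw [key]
    have : det3 b c a + det3 c a a + det3 a b a = det3 a b c := by
      simp only [det3]; ring
    rw [this]; linarith
  have hb : ⟪(-det3 a b c) • (crs b c + crs c a + crs a b), b⟫ < 0 := by
    rw [key]
    have : det3 b c b + det3 c a b + det3 a b b = det3 a b c := by
      simp only [det3]; ring
    rw [this]; linarith
  have hc : ⟪(-det3 a b c) • (crs b c + crs c a + crs a b), c⟫ < 0 := by
    rw [key]
    have : det3 b c c + det3 c a c + det3 a b c = det3 a b c := by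
      simp only [det3]; ring
    rw [this]; linarith
  refine ⟨_, ?_, ha, hb, hc⟩
  intro h0
  rw [h0, inner_zero_left] at ha
  exact lt_irrefl _ ha

end IOK_

open IOK_

theorem iok_proof (h1 : Stmt_ICB) (h2 : Stmt_CSI) : Stmt_IOK := by
  intro V _ _ K p Φ v n c hF hI hc
  obtain ⟨hin, hex, hs, hmaps, hinj, htrans, hcard⟩ := h1 V K p v n c hc
  obtain ⟨-, hbal, hgen⟩ := hI
  have hcinj : Function.Injective c := hc.2.1
  have hpc : ∀ i, (inPg p v n c).p (some (c i)) = p (c i) - p v := fun i => rfl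
  refine ⟨hmaps, hinj, htrans, ?_, ?_, ?_, ?_⟩
  · -- card
    rw [hcard]
    have hn3 : 3 ≤ n := hc.1
    rcases Nat.lt_or_ge n 4 with h4 | h4
    · exfalso
      have hn : n = 3 := by omega
      subst hn
      have d01 : c 0 ≠ c 1 := fun h => absurd (hcinj h) (by decide)
      have d02 : c 0 ≠ c 2 := fun h => absurd (hcinj h) (by decide)
      have d12 : c 1 ≠ c 2 := fun h => absurd (hcinj h) (by decide)
      have hd := hgen (c 0) (c 1) (c 2) (adj_c hc 0) (adj_c hc 1) (adj_c hc 2) d01 d02 d12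
      obtain ⟨ν, hν, ha, hb, hcc⟩ := neg_dir _ _ _ hd
      obtain ⟨w, hw, hpos⟩ := hbal ν hν
      obtain ⟨i, rfl⟩ := c_of_adj hc hw
      have hall : ∀ k : ZMod 3, k = 0 ∨ k = 1 ∨ k = 2 := by decide
      have hi : i = 0 ∨ i = 1 ∨ i = 2 := hall i
      rcases hi with h | h | h
      · rw [h] at hpos; linarith
      · rw [h] at hpos; linarith
      · rw [h] at hpos; linarith
    · exact h4
  · -- gen
    intro i hi j hj k hk hij hik hjk _
    obtain ⟨i', rfl⟩ := hex i hi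
    obtain ⟨j', rfl⟩ := hex j hj
    obtain ⟨k', rfl⟩ := hex k hk
    rw [hpc, hpc, hpc]
    refine hgen _ _ _ (adj_c hc i') (adj_c hc j') (adj_c hc k') ?_ ?_ ?_
    · intro h; exact hij (by rw [h])
    · intro h; exact hik (by rw [h])
    · intro h; exact hjk (by rw [h])
  · -- simple
    intro i hi j hj hij x hxi hxj
    obtain ⟨i', rfl⟩ := hex i hi
    obtain ⟨j', rfl⟩ := hex j hj
    have hij' : i' ≠ j' := fun h => hij (by rw [h])
    obtain ⟨s, t, hs0, ht0, hx1⟩ := hxi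
    obtain ⟨s', t', hs0', ht0', hx2⟩ := hxj
    rw [hs, hpc, hpc] at hx1 hx2
    rcases h2 V K p v n c hF.emb hc i' j' hij' s t s' t' hs0 ht0 hs0' ht0'
      (by rw [← hx1, ← hx2]) with ⟨h3, h4, h5⟩ | ⟨h3, h4, h5⟩ | ⟨h3, h4, h5, h6⟩
    · left
      refine ⟨by rw [hs, h3], s', hs0', ?_⟩
      rw [hpc, hx2, h5, zero_smul, add_zero]
    · right; left
      refine ⟨by rw [hs, h3], s, hs0, ?_⟩
      rw [hpc, hx1, h5, zero_smul, add_zero]
    · right; right
      rw [hx1, h3, h4, zero_smul, zero_smul, add_zero]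
  · left
    refine ⟨rfl, ?_⟩
    intro ν hν
    obtain ⟨w, hw, hpos⟩ := hbal ν hν
    obtain ⟨i, rfl⟩ := c_of_adj hc hw
    exact ⟨some (c i), hin i, by rw [hpc]; exact hpos⟩

end Pool.Agent.TSR2
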