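import Pool.Agent.TSR2.StmtsV

/-!
# TSR2, module KAP: labels of the chamfers are natural numbers
-/

set_option autoImplicit false

open scoped RealInnerProductSpace

namespace Pool.Agent.TSR2

open Pool.Agent.TSM Pool.Agent.TSP Set Filter Topology

namespace KAP_

/-- numbering of a finite set -/
theorem number {κ : Type} (U : Finset κ) :
    ∃ (f : κ → ℕ) (g : ℕ → Option κ), ∀ k ∈ U, g (f k) = some k := by
  classical
  refine ⟨fun k => if h : k ∈ U then (U.equivFin ⟨k, h⟩ : ℕ) else 0,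
    fun m => if h : m < U.card then some (U.equivFin.symm ⟨m, h⟩ : κ) else none, ?_⟩
  intro k hk
  simp only [hk, dif_pos, Fin.is_lt]
  simp

variable {W : Type} [DecidableEq W]

theorem transfer (L : Pg W) (hL : L.Ok) (μ ε : ℝ) (b : E3 → E3) (κ : Type)
    (Ch : W → Finset κ) (N : κ → E3) (hC : L.CondG μ ε Ch N)
    (hne : ∀ i ∈ L.S, L.turn i ≠ 0 → (Ch (L.s i)).Nonempty) (hR : L.Res Ch N ε b) :
    ∃ (Ch' : W → Finset ℕ) (N' : ℕ → E3), L.CondG μ ε Ch' N' ∧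
      (∀ i ∈ L.S, L.turn i ≠ 0 → (Ch' (L.s i)).Nonempty) ∧ L.Res Ch' N' ε b := by
  classical
  obtain ⟨f, g, hfg⟩ := number (L.S.biUnion Ch)
  have hU : ∀ i ∈ L.S, ∀ k ∈ Ch i, g (f k) = some k := fun i hi k hk =>
    hfg k (Finset.mem_biUnion.2 ⟨i, hi, hk⟩)
  have hS : ∀ i ∈ L.S, L.s i ∈ L.S := hL.maps
  let Ch' : W → Finset ℕ := fun i => (Ch i).image f
  let N' : ℕ → E3 := fun m => (g m).elim 0 N
  have hN' : ∀ i ∈ L.S, ∀ k ∈ Ch i, N' (f k) = N k := by
    intro i hi k hk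
    simp only [N', hU i hi k hk, Option.elim_some]
  refine ⟨Ch', N', ?_, ?_, ?_⟩
  · intro i hi
    obtain ⟨h1, h2, h3⟩ := hC i hi
    refine ⟨?_, ?_, ?_⟩
    · intro ht
      simp only [Ch', h1 ht, Finset.image_empty]
    · intro n hn
      obtain ⟨k, hk, rfl⟩ := Finset.mem_image.1 hn
      rw [hN' _ (hS i hi) k hk]
      exact h2 k hk
    · intro n hn n' hn' hnn
      obtain ⟨k, hk, rfl⟩ := Finset.mem_image.1 hn
      obtain ⟨k', hk', rfl⟩ := Finset.mem_image.1 hn'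
      have hkk : k ≠ k' := by rintro rfl; exact hnn rfl
      obtain ⟨a1, a2, a3⟩ := h3 k hk k' hk' hkk
      rw [hN' _ (hS i hi) k hk, hN' _ (hS i hi) k' hk']
      refine ⟨a1, a2, ?_⟩
      intro n'' hn'' e1 e2
      obtain ⟨k'', hk'', rfl⟩ := Finset.mem_image.1 hn''
      rw [hN' _ (hS i hi) k'' hk'']
      exact a3 k'' hk'' (by rintro rfl; exact e1 rfl) (by rintro rfl; exact e2 rfl)
  · intro i hi ht
    exact (hne i hi ht).image f
  · obtain ⟨o, oN, η, R, M, hη, hR0, hoz, hmain⟩ := hR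
    refine ⟨o, fun m => (g m).elim 0 oN, η, R, M, hη, hR0, hoz, ?_⟩
    intro A B hN
    obtain ⟨n1, n2, n3⟩ := hN
    have hNear : L.Near Ch N o oN η A (fun k => B (f k)) := by
      refine ⟨n1, ?_, n3⟩
      intro j hj k hk
      have := n2 j hj (f k) (Finset.mem_image_of_mem f hk)
      simp only [hN' j hj k hk, hU j hj k hk, Option.elim_some] at this
      exact this
    obtain ⟨D, d1, d2, d3, d4⟩ := hmain A (fun k => B (f k)) hNear
    refine ⟨D, d1, d2, d3, ?_⟩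
    intro x hx hRx
    obtain ⟨e1, e2, e3⟩ := d4 x hx hRx
    refine ⟨e1, ?_, e3⟩
    intro i hi hxi
    obtain ⟨q1, Z, hZ, q2⟩ := e2 i hi hxi
    refine ⟨?_, Z, ?_, q2⟩
    · intro Z' hZ'
      apply q1
      rcases hZ' with h | h | ⟨n, hn, h⟩
      · exact Or.inl h
      · exact Or.inr (Or.inl h)
      · obtain ⟨k, hk, rfl⟩ := Finset.mem_image.1 hn
        exact Or.inr (Or.inr ⟨k, hk, h⟩)
    · rcases hZ with h | h | ⟨k, hk, h⟩
      · exact Or.inl h
      · exact Or.inr (Or.inl h)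
      · exact Or.inr (Or.inr ⟨f k, Finset.mem_image_of_mem f hk, h⟩)

end KAP_

theorem kap_proof : Stmt_KAP := by
  intro h2 W _ L hL b hb
  obtain ⟨μ, ε₀, hμ, hε₀, hmain⟩ := h2 W L hL b hb
  refine ⟨μ, ε₀, hμ, hε₀, ?_⟩
  intro ε hε hε'
  obtain ⟨κ, Ch, N, h1, h3, h4⟩ := hmain ε hε hε'
  exact KAP_.transfer L hL μ ε b κ Ch N h1 h3 h4

end Pool.Agent.TSR2
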