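import Pool.Agent.TSR2.StmtsV

/-!
# TSR2: module KNB, an active edge is bent
-/

set_option autoImplicit false

open scoped RealInnerProductSpace

namespace Pool.Agent.TSR2

open Pool.Agent.TSM Pool.Agent.TSP Set Filter Topology

namespace KNB_

variable {V : Type} [Fintype V] [DecidableEq V]

lemma not_outer {K : Surf V} {p : V → E3} {Φ : Finset Aff} {t : Finset V} (ht : t ∈ K.tri)
    (hn : ¬ FT p Φ t) {q : V} (hq : q ∈ t) : ¬ K.Outer p Φ q := by
  intro h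
  exact hn (h t ht hq)

lemma det_ne {U W W' n : E3} (h : Indep2 U W) (h1 : ⟪n, U⟫ = 0) (h2 : ⟪n, W⟫ = 0)
    (h3 : ⟪n, W'⟫ ≠ 0) : det3 U W W' ≠ 0 := by
  intro h0
  have hc := cr_ne_zero h
  have ha : ⟪cr U W, U⟫ = 0 := by rw [real_inner_comm]; exact inner_cr_left _ _
  have hb : ⟪cr U W, W⟫ = 0 := by rw [real_inner_comm]; exact inner_cr_right _ _
  obtain ⟨t, ht⟩ := normal_multiple hc ha hb h h1 h2
  apply h3
  rw [ht, real_inner_smul_left, ← crs_eq, inner_crs, h0, mul_zero]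

lemma bent_flat {K : Surf V} {p : V → E3} (he : K.EmbStars p) {φ : Aff} {v u w w' : V}
    (ht : Tri K v u w) (hv : ev φ (p v) = 0) (hu : ev φ (p u) = 0) (hw : ev φ (p w) = 0)
    (hw' : ev φ (p w') < 0) : Bent p v u w w' := by
  unfold Bent
  have h1 : ⟪φ.1, p u - p v⟫ = 0 := by rw [← ev_sub_pt, hu, hv, sub_zero]
  have h2 : ⟪φ.1, p w - p v⟫ = 0 := by rw [← ev_sub_pt, hw, hv, sub_zero]
  have h3 : ⟪φ.1, p w' - p v⟫ ≠ 0 := by
    rw [← ev_sub_pt, hv, sub_zero]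
    exact hw'.ne
  exact det_ne (tri_indep he ht) h1 h2 h3

lemma adj {K : Surf V} {v u w : V} (h : Tri K v u w) : K.Adj v u ∧ K.Adj v w :=
  ⟨⟨h.1, _, h.2.2.2, by simp, by simp⟩, ⟨h.2.1, _, h.2.2.2, by simp, by simp⟩⟩

end KNB_

open KNB_ in
theorem knb_proof (_h1 : Stmt_KNO) (h2 : Stmt_KNP) : Stmt_KNB := by
  intro V _ _ K p Φ hF v u w w' hA hQ
  obtain ⟨x, hx, hxF⟩ := hA
  have hvo : ¬ K.Outer p Φ v := not_outer hx.2.2.2 hxF (by simp)
  have huo : ¬ K.Outer p Φ u := not_outer hx.2.2.2 hxF (by simp)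
  have t1 := hQ.1
  have t2 := hQ.2.1
  rcases hF.kinds v with hk | hk | hk
  · exact absurd hk hvo
  · exact hk.2.2 u w w' (adj t1).1 (adj t1).2 (adj t2).2 t1.2.2.1 t2.2.2.1 hQ.2.2
  · rcases hF.kinds u with hk' | hk' | hk'
    · exact absurd hk' huo
    · have hb : Bent p u v w w' :=
        hk'.2.2 v w w' (adj t1.s213).1 (adj t1.s213).2 (adj t2.s213).2 t1.2.1 t2.2.1 hQ.2.2
      exact hb.flip
    · obtain ⟨φ, hφ, hφv, hψ, -⟩ := hk
      by_cases hu : ev φ (p u) = 0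
      · rcases h2 V K p Φ hF v u w w' ⟨x, hx, hxF⟩ hQ φ hφ hφv hu with h3 | h3
        · exact bent_flat hF.emb t1 hφv hu h3.1 h3.2
        · exact (bent_flat hF.emb t2 hφv hu h3.1 h3.2).swap
      · have hno : ∀ ψ ∈ Φ, ev ψ (p v) = 0 → ev ψ (p u) ≠ 0 := by
          intro ψ hψΦ hψv hψu
          by_cases he : ψ = φ
          · rw [he] at hψu
            exact hu hψu
          · exact absurd hψv (hψ ψ hψΦ he).ne
        have f1 : ¬ FT p Φ {v, u, w} := by
          rintro ⟨ψ, hψΦ, hall⟩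
          exact hno ψ hψΦ (hall v (by simp)) (hall u (by simp))
        have f2 : ¬ FT p Φ {v, u, w'} := by
          rintro ⟨ψ, hψΦ, hall⟩
          exact hno ψ hψΦ (hall v (by simp)) (hall u (by simp))
        have hwo : ¬ K.Outer p Φ w := not_outer t1.2.2.2 f1 (by simp)
        have hwo' : ¬ K.Outer p Φ w' := not_outer t2.2.2.2 f2 (by simp)
        have hg := hF.gen4 v u w w' hvo huo hwo hwo' t1.1 t1.2.1 t2.2.1 t1.2.2.1 t2.2.2.1 hQ.2.2
          (by
            rintro ⟨ψ, hψΦ, hψv, hψu, -, -⟩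
            exact hno ψ hψΦ hψv hψu)
        exact (det3_iff_affine _ _ _ _).1 hg

end Pool.Agent.TSR2
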