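import Pool.Agent.TSR2.StmtsV

/-!
# TSR2: module KNP, an active edge in a facet plane is a pocket edge
-/

set_option autoImplicit false

open scoped RealInnerProductSpace

namespace Pool.Agent.TSR2

open Pool.Agent.TSM Pool.Agent.TSP Set Filter Topology

namespace KNP_

variable {V : Type} [Fintype V] [DecidableEq V]

lemma link_key {K : Surf V} {v : V} {n : ℕ} {c : ZMod n → V} (hc : IsLinkCycle K.tri v n c)
    {x y : V} (hxy : Tri K v x y) : (∃ i, x = c i ∧ y = c (i + 1)) ∨
      (∃ i, y = c i ∧ x = c (i + 1)) := by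
  obtain ⟨hn, hinj, hne, hlk⟩ := hc
  obtain ⟨i, hi⟩ := (hlk _).1 ⟨hxy.2.2.2, by simp⟩
  have hx : x ∈ ({v, c i, c (i + 1)} : Finset V) := by rw [← hi]; simp
  have hy : y ∈ ({v, c i, c (i + 1)} : Finset V) := by rw [← hi]; simp
  simp only [Finset.mem_insert, Finset.mem_singleton] at hx hy
  rcases hx with hx | hx | hx
  · exact absurd hx.symm hxy.1
  · rcases hy with hy | hy | hy
    · exact absurd hy.symm hxy.2.1
    · exact absurd (hx.trans hy.symm) hxy.2.2.1
    · exact Or.inl ⟨i, hx, hy⟩
  · rcases hy with hy | hy | hy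
    · exact absurd hy.symm hxy.2.1
    · exact Or.inr ⟨i, hy, hx⟩
    · exact absurd (hx.trans hy.symm) hxy.2.2.1

/-- the neighbours of `c j` in the link -/
lemma link_nb {K : Surf V} {v : V} {n : ℕ} {c : ZMod n → V} (hc : IsLinkCycle K.tri v n c)
    {j : ZMod n} {x : V} (hx : Tri K v (c j) x) : x = c (j + 1) ∨ x = c (j - 1) := by
  have hinj := hc.2.1
  rcases link_key hc hx with ⟨i, h1, h2⟩ | ⟨i, h1, h2⟩
  · left
    rw [h2, hinj h1]
  · right
    have : j = i + 1 := hinj h2
    rw [h1, this, add_sub_cancel_right]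

end KNP_

open KNP_ in
theorem knp_proof : Stmt_KNP := by
  intro V _ _ K p Φ hF v u w w' hA hQ φ hφ hφv hφu
  obtain ⟨x, hx, hxF⟩ := hA
  have hvo : ¬ K.Outer p Φ v := fun h => hxF (h _ hx.2.2.2 (by simp))
  rcases hF.kinds v with hk | hk | hk
  · exact absurd hk hvo
  · exact absurd hφv (hk.1 φ hφ).ne
  obtain ⟨φ₀, hφ₀, hφ₀v, hψ, n, c, m, hlk, hm2, hmn, hflat, hbel, -, -⟩ := hk
  have he : φ = φ₀ := by
    by_contra hne
    exact absurd hφv (hψ φ hφ hne).ne
  subst he
  have : NeZero n := ⟨by omega⟩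
  obtain ⟨j, hj⟩ : ∃ j, u = c j := by
    rcases link_key hlk hQ.1 with ⟨i, h, -⟩ | ⟨i, -, h⟩
    · exact ⟨i, h⟩
    · exact ⟨i + 1, h⟩
  subst hj
  have hjv : ((j.val : ℕ) : ZMod n) = j := ZMod.natCast_zmod_val j
  have hjn : j.val < n := ZMod.val_lt j
  have hjm : j.val ≤ m := by
    by_contra hcon
    push Not at hcon
    have := hbel j.val hcon hjn
    rw [hjv] at this
    linarith
  -- values at the two neighbours
  have hp1 : j.val + 1 ≤ m → ev φ (p (c (j + 1))) = 0 := by
    intro h
    have := hflat (j.val + 1) h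
    rw [Nat.cast_add, Nat.cast_one, hjv] at this
    exact this
  have hp2 : j.val = m → ev φ (p (c (j + 1))) < 0 := by
    intro h
    have := hbel (j.val + 1) (by omega) (by omega)
    rw [Nat.cast_add, Nat.cast_one, hjv] at this
    exact this
  have hm1 : 1 ≤ j.val → ev φ (p (c (j - 1))) = 0 := by
    intro h
    have := hflat (j.val - 1) (by omega)
    rw [Nat.cast_sub h, Nat.cast_one, hjv] at this
    exact this
  have hm0 : j.val = 0 → ev φ (p (c (j - 1))) < 0 := by
    intro h
    have := hbel (n - 1) (by omega) (by omega)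
    have hj0 : j = 0 := by rw [← hjv, h, Nat.cast_zero]
    rw [Nat.cast_sub (by omega), Nat.cast_one, ZMod.natCast_self] at this
    rw [hj0]
    exact this
  have key : (ev φ (p (c (j + 1))) = 0 ∧ ev φ (p (c (j - 1))) < 0) ∨
      (ev φ (p (c (j - 1))) = 0 ∧ ev φ (p (c (j + 1))) < 0) := by
    rcases Nat.eq_zero_or_pos j.val with h0 | h0
    · left
      exact ⟨hp1 (by omega), hm0 h0⟩
    · rcases Nat.lt_or_ge j.val m with h1 | h1
      · exfalso
        have e1 := hp1 (by omega)
        have e2 := hm1 (by omega)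
        apply hxF
        refine ⟨φ, hφ, ?_⟩
        intro q hq
        simp only [Finset.mem_insert, Finset.mem_singleton] at hq
        rcases hq with rfl | rfl | rfl
        · exact hφv
        · exact hφu
        · rcases link_nb hlk hx with h | h
          · rw [h]; exact e1
          · rw [h]; exact e2
      · right
        exact ⟨hm1 (by omega), hp2 (by omega)⟩
  rcases link_nb hlk hQ.1 with h1 | h1
  · rcases link_nb hlk hQ.2.1 with h2 | h2
    · exact absurd (h1.trans h2.symm) hQ.2.2
    · rw [h1, h2]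
      exact key
  · rcases link_nb hlk hQ.2.1 with h2 | h2
    · rw [h1, h2]
      exact key.symm
    · exact absurd (h1.trans h2.symm) hQ.2.2

end Pool.Agent.TSR2
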