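import Pool.Agent.TSR2.Stmts

/-!
# TSR2, module OPN: the open regions
-/

set_option autoImplicit false

open scoped RealInnerProductSpace

namespace Pool.Agent.TSR2

open Pool.Agent.TSM Pool.Agent.TSP Set Filter Topology

namespace OPN_

variable {V : Type} [Fintype V] [DecidableEq V]

theorem ev_lt {x : V → ℝ} {S : Set (V → ℝ)} {f g : (V → ℝ) → ℝ} (hf : Continuous f)
    (hg : Continuous g) (h : f x < g x) : ∀ᶠ y in 𝓝[S] x, f y < g y := by
  have h1 : IsOpen {y | f y < g y} := isOpen_lt hf hg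
  exact mem_nhdsWithin_of_mem_nhds (h1.mem_nhds h)

theorem cmin (a b : V) : Continuous fun y : V → ℝ => min (y a) (y b) :=
  (continuous_apply a).min (continuous_apply b)

theorem ev_supp (x : V → ℝ) (S : Set (V → ℝ)) : ∀ᶠ y in 𝓝[S] x, ∀ q, 0 < x q → 0 < y q := by
  rw [Filter.eventually_all]
  intro q
  by_cases h : 0 < x q
  · have h1 := ev_lt (S := S) (f := fun _ : V → ℝ => 0) (g := fun y : V → ℝ => y q)
      continuous_const (continuous_apply q) h
    exact h1.mono fun y hy _ => hy
  · exact Filter.Eventually.of_forall fun y h2 => absurd h2 h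

theorem ez (K : Surf V) (δ ρ : ℝ) (hd : 0 < δ) (hd1 : δ ≤ 1 / 16) (hr : 0 < ρ) (v u : V) :
    EZo K δ ρ v u ⊆ EZ K δ ρ v u := by
  rintro x ⟨hb, h1, h2, h3, h4, h5⟩
  have hm1 : min (x v) (x u) ≤ x v := min_le_left _ _
  have hm2 : min (x v) (x u) ≤ x u := min_le_right _ _
  have hm3 : 2 * δ * min (x v) (x u) ≤ 2 * δ * x v := mul_le_mul_of_nonneg_left hm1 (by linarith)
  have hm4 : 2 * δ * min (x v) (x u) ≤ 2 * δ * x u := mul_le_mul_of_nonneg_left hm2 (by linarith)
  have hm5 : 2 * δ * x v ≤ 1 / 8 * x v := mul_le_mul_of_nonneg_right (by linarith) h1.le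
  have hm6 : 2 * δ * x u ≤ 1 / 8 * x u := mul_le_mul_of_nonneg_right (by linarith) h2.le
  exact ⟨hb, by linarith, by linarith, h3.le, h4.le, h5.le⟩

theorem rz (K : Surf V) (p : V → E3) (Φ : Finset Aff) (δ ρ : ℝ) :
    RZo K p Φ δ ρ ⊆ RZ K p Φ δ ρ := by
  rintro x ⟨hb, h1, h2, h3⟩
  obtain ⟨t, ht, hs⟩ := hb.2.2
  refine ⟨hb, ⟨t, ht, h1 t ht hs, hs, ?_⟩, fun v hv => (h3 v hv).le⟩
  intro a ha b hb' w hw hab haw hbw hact
  have h4 := h2 a b hact
  have hT : ({a, b, w} : Finset V) = t := by
    apply Finset.eq_of_subset_of_card_le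
    · intro q hq
      simp only [Finset.mem_insert, Finset.mem_singleton] at hq
      rcases hq with rfl | rfl | rfl <;> assumption
    · rw [K.card3 t ht, Finset.card_eq_three.2 ⟨a, b, w, hab, haw, hbw, rfl⟩]
  have h5 : x a + x b + x w = 1 := by
    rw [← hb.2.1]
    have h6 : ∑ v, x v = ∑ v ∈ t, x v := by
      symm
      apply Finset.sum_subset (Finset.subset_univ t)
      intro q _ hq
      exact hs q hq
    rw [h6, ← hT, Finset.sum_insert, Finset.sum_insert, Finset.sum_singleton]
    · ring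
    · simpa using hbw
    · simp only [Finset.mem_insert, Finset.mem_singleton, not_or]
      exact ⟨hab, haw⟩
  linarith

end OPN_

open OPN_ in
theorem opn_proof : Stmt_OPN := by
  intro V _ _ K p Φ δ ρ hd hd1 hr hr1
  refine ⟨fun v u => ez K δ ρ hd hd1 hr v u, ?_, rz K p Φ δ ρ, ?_, ?_, ?_, ?_⟩
  · rintro t x ⟨h1, h2, h3, h4, h5⟩
    exact ⟨h1, h2, fun a ha b hb w hw hab haw hbw => (h4 a ha b hb w hw hab haw hbw).le,
      fun w hw => (h5 w hw).le⟩
  · intro v x hx h
    have h1 := ev_lt (S := K.body) (f := fun y : V → ℝ => 1 - y v) (g := fun _ => 2 * ρ)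
      (continuous_const.sub (continuous_apply v)) continuous_const h
    filter_upwards [h1, self_mem_nhdsWithin] with y hy hyb
    exact ⟨hyb, le_of_lt hy⟩
  · rintro v u x ⟨hb, h1, h2, h3, h4, h5⟩
    have e1 := ev_lt (S := K.body) (f := fun _ : V → ℝ => 0) (g := fun y : V → ℝ => y v)
      continuous_const (continuous_apply v) h1
    have e2 := ev_lt (S := K.body) (f := fun _ : V → ℝ => 0) (g := fun y : V → ℝ => y u)
      continuous_const (continuous_apply u) h2
    have e3 := ev_lt (S := K.body) (f := fun y : V → ℝ => 1 - y v - y u)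
      (g := fun y : V → ℝ => 2 * δ * min (y v) (y u))
      ((continuous_const.sub (continuous_apply v)).sub (continuous_apply u))
      (continuous_const.mul (cmin v u)) h3
    have e4 := ev_lt (S := K.body) (f := fun _ : V → ℝ => ρ) (g := fun y : V → ℝ => 1 - y v)
      continuous_const (continuous_const.sub (continuous_apply v)) h4
    have e5 := ev_lt (S := K.body) (f := fun _ : V → ℝ => ρ) (g := fun y : V → ℝ => 1 - y u)
      continuous_const (continuous_const.sub (continuous_apply u)) h5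
    filter_upwards [e1, e2, e3, e4, e5, self_mem_nhdsWithin] with y k1 k2 k3 k4 k5 k6
    exact ⟨k6, k1, k2, k3, k4, k5⟩
  · rintro t ht x ⟨hb, h1, h2, h3, h4⟩
    have e1 := ev_supp x K.body
    have e2 : ∀ᶠ y in 𝓝[K.body] x, ∀ a : V, ∀ b : V, ∀ w : V, a ∈ t → b ∈ t → w ∈ t → a ≠ b →
        a ≠ w → b ≠ w → δ * min (y a) (y b) < y w := by
      rw [Filter.eventually_all]; intro a
      rw [Filter.eventually_all]; intro b
      rw [Filter.eventually_all]; intro w
      by_cases h : a ∈ t ∧ b ∈ t ∧ w ∈ t ∧ a ≠ b ∧ a ≠ w ∧ b ≠ w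
      · have h5 := h3 a h.1 b h.2.1 w h.2.2.1 h.2.2.2.1 h.2.2.2.2.1 h.2.2.2.2.2
        have h6 := ev_lt (S := K.body) (f := fun y : V → ℝ => δ * min (y a) (y b))
          (g := fun y : V → ℝ => y w) (continuous_const.mul (cmin a b)) (continuous_apply w) h5
        exact h6.mono fun y hy _ _ _ _ _ _ => hy
      · exact Filter.Eventually.of_forall fun y k1 k2 k3 k4 k5 k6 =>
          absurd ⟨k1, k2, k3, k4, k5, k6⟩ h
    have e3 : ∀ᶠ y in 𝓝[K.body] x, ∀ w : V, w ∈ t → ρ < 1 - y w := by
      rw [Filter.eventually_all]; intro w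
      by_cases h : w ∈ t
      · have h6 := ev_lt (S := K.body) (f := fun _ : V → ℝ => ρ) (g := fun y : V → ℝ => 1 - y w)
          continuous_const (continuous_const.sub (continuous_apply w)) (h4 w h)
        exact h6.mono fun y hy _ => hy
      · exact Filter.Eventually.of_forall fun y k1 => absurd k1 h
    filter_upwards [e1, e2, e3, self_mem_nhdsWithin] with y k1 k2 k3 k4
    obtain ⟨t', ht', hs'⟩ := k4.2.2
    have hsub : t ⊆ t' := by
      intro q hq
      by_contra hne
      exact (k1 q (h2 q hq)).ne' (hs' q hne)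
    have hT : t = t' := Finset.eq_of_subset_of_card_le hsub
      (by rw [K.card3 t ht, K.card3 t' ht'])
    refine ⟨k4, ?_, fun w hw => k1 w (h2 w hw), ?_, fun w hw => k3 w hw⟩
    · rw [hT]; exact hs'
    · intro a ha b hb' w hw hab haw hbw
      exact k2 a b w ha hb' hw hab haw hbw
  · rintro x ⟨hb, h1, h2, h3⟩
    have e1 := ev_supp x K.body
    have e2 : ∀ᶠ y in 𝓝[K.body] x, ∀ a : V, ∀ b : V, Act K p Φ a b →
        δ * min (y a) (y b) < 1 - y a - y b := by
      rw [Filter.eventually_all]; intro a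
      rw [Filter.eventually_all]; intro b
      by_cases h : Act K p Φ a b
      · have h6 := ev_lt (S := K.body) (f := fun y : V → ℝ => δ * min (y a) (y b))
          (g := fun y : V → ℝ => 1 - y a - y b) (continuous_const.mul (cmin a b))
          ((continuous_const.sub (continuous_apply a)).sub (continuous_apply b)) (h2 a b h)
        exact h6.mono fun y hy _ => hy
      · exact Filter.Eventually.of_forall fun y k1 => absurd k1 h
    have e3 : ∀ᶠ y in 𝓝[K.body] x, ∀ v : V, ¬ K.Outer p Φ v → ρ < 1 - y v := by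
      rw [Filter.eventually_all]; intro w
      by_cases h : K.Outer p Φ w
      · exact Filter.Eventually.of_forall fun y k1 => absurd h k1
      · have h6 := ev_lt (S := K.body) (f := fun _ : V → ℝ => ρ) (g := fun y : V → ℝ => 1 - y w)
          continuous_const (continuous_const.sub (continuous_apply w)) (h3 w h)
        exact h6.mono fun y hy _ => hy
    filter_upwards [e1, e2, e3, self_mem_nhdsWithin] with y k1 k2 k3 k4
    refine ⟨k4, ?_, k2, k3⟩
    intro t ht hs
    apply h1 t ht
    intro w hw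
    by_contra hne
    have hpos : 0 < x w := lt_of_le_of_ne (hb.1 w) (Ne.symm hne)
    exact (k1 w hpos).ne' (hs w hw)

end Pool.Agent.TSR2
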