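import Pool.Agent.TSR2.StmtsV

/-!
# TSR2, module PGE: extension of the equation at an arm
-/

set_option autoImplicit false

open scoped RealInnerProductSpace

namespace Pool.Agent.TSR2

open Pool.Agent.TSM Pool.Agent.TSP Set Filter Topology

namespace PGE_

/-- the basic estimate, at closeness `q.1` and distance `q.2` -/
def Est (q : ℝ × ℝ) (n₀ n₁ d : E3) (o₀ o₁ m P σ : ℝ) : Prop :=
  ∀ A₀ A₁ : Aff, ‖A₀.1 - n₀‖ < q.1 → |A₀.2 - o₀| < q.1 → ‖A₁.1 - n₁‖ < q.1 →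
    |A₁.2 - o₁| < q.1 → ∀ (x : E3) (T s : ℝ), ‖x‖ ≤ P * T → ⟪n₀, x⟫ = 0 →
    m * T ≤ σ * ⟪n₁, x⟫ → q.2 ≤ T → ev A₀ (x - s • d) = 0 → 0 ≤ σ * ev A₁ (x - s • d)

theorem core (n₀ n₁ d : E3) (o₀ o₁ m P σ : ℝ) (hg : 0 < ⟪n₀, d⟫) (hm : 0 < m)
    (hP : 0 < P) (hσ : |σ| ≤ 1) :
    ∀ᶠ q : ℝ × ℝ in 𝓝[>] (0 : ℝ) ×ˢ atTop, Est q n₀ n₁ d o₀ o₁ m P σ := by
  obtain ⟨g, hgd⟩ : ∃ g, g = ⟪n₀, d⟫ := ⟨_, rfl⟩
  rw [← hgd] at hg
  obtain ⟨Q, hQ⟩ : ∃ Q, Q = 2 / g * ((‖n₁‖ + 1) * ‖d‖) := ⟨_, rfl⟩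
  have hQ0 : 0 ≤ Q := by rw [hQ]; positivity
  have e1 : ∀ᶠ η : ℝ in 𝓝[>] (0 : ℝ), η * (‖d‖ + 1) < g / 2 := by
    have : Tendsto (fun η : ℝ => η * (‖d‖ + 1)) (𝓝[>] (0 : ℝ)) (𝓝 (0 * (‖d‖ + 1))) :=
      (tendsto_nhdsWithin_of_tendsto_nhds tendsto_id).mul_const _
    rw [zero_mul] at this
    exact this.eventually (eventually_lt_nhds (by positivity))
  have e2 : ∀ᶠ η : ℝ in 𝓝[>] (0 : ℝ), η * (P * (1 + Q)) < m / 2 := by
    have : Tendsto (fun η : ℝ => η * (P * (1 + Q))) (𝓝[>] (0 : ℝ)) (𝓝 (0 * (P * (1 + Q)))) :=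
      (tendsto_nhdsWithin_of_tendsto_nhds tendsto_id).mul_const _
    rw [zero_mul] at this
    exact this.eventually (eventually_lt_nhds (by positivity))
  have e3 : ∀ᶠ η : ℝ in 𝓝[>] (0 : ℝ), η < 1 :=
    (tendsto_nhdsWithin_of_tendsto_nhds tendsto_id).eventually
      (eventually_lt_nhds (by norm_num : (0 : ℝ) < 1))
  have e4 : ∀ᶠ η : ℝ in 𝓝[>] (0 : ℝ), 0 < η := self_mem_nhdsWithin
  have e5 : ∀ᶠ R : ℝ in atTop, 2 / m * ((|o₁| + 1) + Q * (|o₀| + 1)) ≤ R :=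
    eventually_ge_atTop _
  filter_upwards [((e1.and e2).and (e3.and e4)).prod_mk e5]
  rintro ⟨η, R⟩ ⟨⟨⟨h1, h2⟩, h3, h4⟩, h5⟩
  intro A₀ A₁ a1 a2 a3 a4 x T s hx hx0 hxm hRT h0
  simp only at h1 h2 h3 h4 h5 a1 a2 a3 a4 hRT
  have hT : 0 ≤ T := by
    have h6 : 0 ≤ 2 / m * ((|o₁| + 1) + Q * (|o₀| + 1)) := by positivity
    linarith
  -- inner products with `A₀`
  have b1 : |⟪A₀.1, x⟫| ≤ η * (P * T) := by
    have : ⟪A₀.1, x⟫ = ⟪A₀.1 - n₀, x⟫ := by rw [inner_sub_left, hx0, sub_zero]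
    rw [this]
    calc |⟪A₀.1 - n₀, x⟫| ≤ ‖A₀.1 - n₀‖ * ‖x‖ := abs_real_inner_le_norm _ _
      _ ≤ η * (P * T) := mul_le_mul a1.le hx (norm_nonneg _) h4.le
  have b2 : g / 2 ≤ ⟪A₀.1, d⟫ := by
    have h6 : ⟪A₀.1, d⟫ = g + ⟪A₀.1 - n₀, d⟫ := by rw [inner_sub_left, ← hgd]; ring
    have h7 : |⟪A₀.1 - n₀, d⟫| ≤ η * (‖d‖ + 1) := by
      calc |⟪A₀.1 - n₀, d⟫| ≤ ‖A₀.1 - n₀‖ * ‖d‖ := abs_real_inner_le_norm _ _
        _ ≤ η * (‖d‖ + 1) := mul_le_mul a1.le (by linarith) (norm_nonneg _) h4.le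
    have := (abs_le.1 h7).1
    linarith
  have b3 : |A₀.2| ≤ |o₀| + 1 := by
    have h6 := abs_add_le (A₀.2 - o₀) o₀
    rw [sub_add_cancel] at h6
    linarith
  have b4 : |A₁.2| ≤ |o₁| + 1 := by
    have h6 := abs_add_le (A₁.2 - o₁) o₁
    rw [sub_add_cancel] at h6
    linarith
  -- the bound for `s`
  have b5 : |s| * (g / 2) ≤ η * (P * T) + (|o₀| + 1) := by
    rw [ev_line, ev_def] at h0
    have h6 : s * ⟪A₀.1, d⟫ = ⟪A₀.1, x⟫ - A₀.2 := by linarith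
    have h7 : |s| * ⟪A₀.1, d⟫ = |⟪A₀.1, x⟫ - A₀.2| := by
      rw [← h6, abs_mul, abs_of_nonneg (by linarith : 0 ≤ ⟪A₀.1, d⟫)]
    have h8 := abs_sub (⟪A₀.1, x⟫) A₀.2
    have h9 := mul_le_mul_of_nonneg_left b2 (abs_nonneg s)
    linarith
  have b6 : |⟪A₁.1, d⟫| ≤ (‖n₁‖ + 1) * ‖d‖ := by
    have h6 : ‖A₁.1‖ ≤ ‖n₁‖ + 1 := by
      have := norm_add_le (A₁.1 - n₁) n₁
      rw [sub_add_cancel] at this
      linarith
    calc |⟪A₁.1, d⟫| ≤ ‖A₁.1‖ * ‖d‖ := abs_real_inner_le_norm _ _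
      _ ≤ (‖n₁‖ + 1) * ‖d‖ := mul_le_mul_of_nonneg_right h6 (norm_nonneg _)
  have b7 : |s * ⟪A₁.1, d⟫| ≤ Q * (η * (P * T) + (|o₀| + 1)) := by
    rw [abs_mul]
    have h6 : |s| ≤ 2 / g * (η * (P * T) + (|o₀| + 1)) := by
      rw [div_mul_eq_mul_div, le_div_iff₀ hg]
      linarith
    calc |s| * |⟪A₁.1, d⟫| ≤ (2 / g * (η * (P * T) + (|o₀| + 1))) * ((‖n₁‖ + 1) * ‖d‖) :=
          mul_le_mul h6 b6 (abs_nonneg _) (le_trans (abs_nonneg _) h6)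
      _ = Q * (η * (P * T) + (|o₀| + 1)) := by rw [hQ]; ring
  have b8 : |⟪A₁.1 - n₁, x⟫| ≤ η * (P * T) := by
    calc |⟪A₁.1 - n₁, x⟫| ≤ ‖A₁.1 - n₁‖ * ‖x‖ := abs_real_inner_le_norm _ _
      _ ≤ η * (P * T) := mul_le_mul a3.le hx (norm_nonneg _) h4.le
  have c1 : σ * ev A₁ (x - s • d) =
      σ * ⟪n₁, x⟫ + σ * (⟪A₁.1 - n₁, x⟫ - A₁.2 - s * ⟪A₁.1, d⟫) := by
    rw [ev_line, ev_def, inner_sub_left]; ring
  have c2 : |σ * (⟪A₁.1 - n₁, x⟫ - A₁.2 - s * ⟪A₁.1, d⟫)| ≤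
      η * (P * T) + (|o₁| + 1) + Q * (η * (P * T) + (|o₀| + 1)) := by
    rw [abs_mul]
    have h6 := abs_sub (⟪A₁.1 - n₁, x⟫ - A₁.2) (s * ⟪A₁.1, d⟫)
    have h7 := abs_sub (⟪A₁.1 - n₁, x⟫) A₁.2
    have h8 : |σ| * |⟪A₁.1 - n₁, x⟫ - A₁.2 - s * ⟪A₁.1, d⟫| ≤
        1 * |⟪A₁.1 - n₁, x⟫ - A₁.2 - s * ⟪A₁.1, d⟫| :=
      mul_le_mul_of_nonneg_right hσ (abs_nonneg _)
    linarith
  have c3 := (abs_le.1 c2).1
  have c4 : η * (P * (1 + Q)) * T ≤ m / 2 * T := mul_le_mul_of_nonneg_right h2.le hT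
  have c5 : (|o₁| + 1) + Q * (|o₀| + 1) ≤ m / 2 * T := by
    have h6 : 2 / m * ((|o₁| + 1) + Q * (|o₀| + 1)) ≤ T := le_trans h5 hRT
    rw [div_mul_eq_mul_div, div_le_iff₀ hm] at h6
    linarith
  rw [c1]
  nlinarith

variable {W : Type} [DecidableEq W]

theorem abs_sign_le (x : ℝ) : |Real.sign x| ≤ 1 := by
  rcases lt_trichotomy x 0 with h | h | h
  · rw [Real.sign_of_neg h]; norm_num
  · rw [h, Real.sign_zero]; norm_num
  · rw [Real.sign_of_pos h]; norm_num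

theorem sign_mul_abs (x : ℝ) : Real.sign x * x = |x| := by
  rcases lt_trichotomy x 0 with h | h | h
  · rw [Real.sign_of_neg h, abs_of_neg h]; ring
  · rw [h, Real.sign_zero]; norm_num
  · rw [Real.sign_of_pos h, abs_of_pos h]; ring

theorem nor_inner (L : Pg W) (i : W) : ⟪L.nor i, L.p (L.s (L.s i))⟫ = L.turn i :=
  inner_crs _ _ _

theorem nor_inner' (L : Pg W) (i : W) : ⟪L.nor (L.s i), L.p i⟫ = L.turn i := by
  rw [Pg.nor, inner_crs, Pg.turn]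
  simp only [det3]
  ring

theorem nor_ne {L : Pg W} {i : W} (h : L.turn i ≠ 0) : L.nor i ≠ 0 ∧ L.nor (L.s i) ≠ 0 := by
  constructor
  · intro h0
    apply h
    rw [← nor_inner, h0, inner_zero_left]
  · intro h0
    apply h
    rw [← nor_inner', h0, inner_zero_left]

theorem norm_un {L : Pg W} {i : W} (h : L.nor i ≠ 0) : ‖un L i‖ = 1 := by
  rw [un, norm_smul, norm_inv, norm_norm, inv_mul_cancel₀ (norm_ne_zero_iff.2 h)]

theorem un_add_ne {L : Pg W} {i : W} (h : L.turn i ≠ 0) : un L i + un L (L.s i) ≠ 0 := by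
  intro h0
  have h1 : ⟪un L i + un L (L.s i), L.p (L.s (L.s i))⟫ = 0 := by rw [h0, inner_zero_left]
  rw [inner_add_left, un, un, inner_smul_left, inner_smul_left, nor_inner] at h1
  have h2 : ⟪L.nor (L.s i), L.p (L.s (L.s i))⟫ = 0 := inner_crs_right _ _
  rw [h2, mul_zero, add_zero] at h1
  have h3 : (starRingEnd ℝ) ‖L.nor i‖⁻¹ = ‖L.nor i‖⁻¹ := rfl
  rw [h3] at h1
  exact mul_ne_zero (inv_ne_zero (norm_ne_zero_iff.2 (nor_ne h).1)) h h1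

theorem un_dot {L : Pg W} {i : W} (h : L.turn i ≠ 0) :
    0 < 1 + ⟪un L i, un L (L.s i)⟫ := by
  have h1 := norm_un (nor_ne h).1
  have h2 := norm_un (nor_ne h).2
  have h3 : 0 < ‖un L i + un L (L.s i)‖ := norm_pos_iff.2 (un_add_ne h)
  have h4 := norm_add_sq_real (un L i) (un L (L.s i))
  rw [h1, h2] at h4
  nlinarith

theorem un_dA {L : Pg W} {i : W} (h : L.turn i ≠ 0) :
    ⟪un L i, dA L i⟫ = 1 ∧ ⟪un L (L.s i), dA L i⟫ = 1 := by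
  have h1 := norm_un (nor_ne h).1
  have h2 := norm_un (nor_ne h).2
  have h3 := un_dot h
  have h4 : ⟪un L i, un L i⟫ = 1 := by rw [real_inner_self_eq_norm_sq, h1]; norm_num
  have h5 : ⟪un L (L.s i), un L (L.s i)⟫ = 1 := by rw [real_inner_self_eq_norm_sq, h2]; norm_num
  have h6 : ⟪un L (L.s i), un L i⟫ = ⟪un L i, un L (L.s i)⟫ := real_inner_comm _ _
  constructor
  · rw [dA, inner_smul_right, inner_add_right, h4]
    field_simp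
  · rw [dA, inner_smul_right, inner_add_right, h5, h6]
    rw [add_comm (⟪un L i, un L (L.s i)⟫) 1]
    field_simp

theorem nor_dA {L : Pg W} {i : W} (h : L.turn i ≠ 0) :
    0 < ⟪L.nor i, dA L i⟫ ∧ 0 < ⟪L.nor (L.s i), dA L i⟫ := by
  have key : ∀ j, L.nor j ≠ 0 → ⟪un L j, dA L i⟫ = 1 → 0 < ⟪L.nor j, dA L i⟫ := by
    intro j hj h1
    have h2 : 0 < ‖L.nor j‖ := norm_pos_iff.2 hj
    rw [un, inner_smul_left] at h1
    have h3 : (starRingEnd ℝ) ‖L.nor j‖⁻¹ = ‖L.nor j‖⁻¹ := rfl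
    rw [h3] at h1
    have h4 : ⟪L.nor j, dA L i⟫ = ‖L.nor j‖ := by
      field_simp at h1
      exact h1
    rw [h4]; exact h2
  exact ⟨key _ (nor_ne h).1 (un_dA h).1, key _ (nor_ne h).2 (un_dA h).2⟩

end PGE_

open PGE_

theorem pge_proof (_h1 : Stmt_ADA) : Stmt_PGE := by
  intro W _ L μ τ Ch N o oN _hL _hμ hτ hC
  -- all estimates
  have key : ∀ᶠ q : ℝ × ℝ in 𝓝[>] (0 : ℝ) ×ˢ atTop, ∀ i ∈ L.S, L.turn i ≠ 0 →
      (Est q (L.nor i) (L.nor (L.s i)) (dA L i) (o i) (o (L.s i)) (|L.turn i| * (τ / 2))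
        (‖L.p i‖ + ‖L.p (L.s i)‖ + ‖L.p (L.s (L.s i))‖ + 1) (Real.sign (L.turn i)) ∧
      Est q (L.nor (L.s i)) (L.nor i) (dA L i) (o (L.s i)) (o i) (|L.turn i| * (τ / 2))
        (‖L.p i‖ + ‖L.p (L.s i)‖ + ‖L.p (L.s (L.s i))‖ + 1) (Real.sign (L.turn i))) ∧
      ∀ n ∈ Ch (L.s i),
        Est q (L.nor i) (N n) (dA L i) (o i) (oN n)
          (Real.sign (L.turn i) * ⟪N n, L.p (L.s i) + τ • L.p i⟫ / 2)
          (‖L.p i‖ + ‖L.p (L.s i)‖ + ‖L.p (L.s (L.s i))‖ + 1) (Real.sign (L.turn i)) ∧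
        Est q (L.nor (L.s i)) (N n) (dA L i) (o (L.s i)) (oN n)
          (Real.sign (L.turn i) * ⟪N n, L.p (L.s i) + τ • L.p (L.s (L.s i))⟫ / 2)
          (‖L.p i‖ + ‖L.p (L.s i)‖ + ‖L.p (L.s (L.s i))‖ + 1) (Real.sign (L.turn i)) := by
    rw [Filter.eventually_all_finset]
    intro i hi
    by_cases ht : L.turn i = 0
    · exact Eventually.of_forall fun q hq => absurd ht hq
    have hd := nor_dA ht
    have hP : 0 < ‖L.p i‖ + ‖L.p (L.s i)‖ + ‖L.p (L.s (L.s i))‖ + 1 := by positivity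
    have hs := abs_sign_le (L.turn i)
    have hm : 0 < |L.turn i| * (τ / 2) := by
      have := abs_pos.2 ht
      positivity
    have e1 := (core (L.nor i) (L.nor (L.s i)) (dA L i) (o i) (o (L.s i)) _ _ _ hd.1 hm hP hs).and
      (core (L.nor (L.s i)) (L.nor i) (dA L i) (o (L.s i)) (o i) _ _ _ hd.2 hm hP hs)
    have e2 : ∀ᶠ q : ℝ × ℝ in 𝓝[>] (0 : ℝ) ×ˢ atTop, ∀ n ∈ Ch (L.s i),
        Est q (L.nor i) (N n) (dA L i) (o i) (oN n)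
          (Real.sign (L.turn i) * ⟪N n, L.p (L.s i) + τ • L.p i⟫ / 2)
          (‖L.p i‖ + ‖L.p (L.s i)‖ + ‖L.p (L.s (L.s i))‖ + 1) (Real.sign (L.turn i)) ∧
        Est q (L.nor (L.s i)) (N n) (dA L i) (o (L.s i)) (oN n)
          (Real.sign (L.turn i) * ⟪N n, L.p (L.s i) + τ • L.p (L.s (L.s i))⟫ / 2)
          (‖L.p i‖ + ‖L.p (L.s i)‖ + ‖L.p (L.s (L.s i))‖ + 1) (Real.sign (L.turn i)) := by
      rw [Filter.eventually_all_finset]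
      intro n hn
      obtain ⟨-, h2, h3, -⟩ := (hC i hi).2.1 n hn
      exact (core (L.nor i) (N n) (dA L i) (o i) (oN n) _ _ _ hd.1 (by linarith) hP hs).and
        (core (L.nor (L.s i)) (N n) (dA L i) (o (L.s i)) (oN n) _ _ _ hd.2 (by linarith) hP hs)
    filter_upwards [e1, e2] with q h1 h2 _
    exact ⟨h1, h2⟩
  have e0 : ∀ᶠ q : ℝ × ℝ in 𝓝[>] (0 : ℝ) ×ˢ atTop, 0 < q.1 ∧ 0 < q.2 :=
    (show ∀ᶠ η : ℝ in 𝓝[>] (0 : ℝ), 0 < η from self_mem_nhdsWithin).prod_mk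
      (eventually_gt_atTop (0 : ℝ))
  obtain ⟨⟨η, R⟩, ⟨hη, hR⟩, hq⟩ := (e0.and key).exists
  simp only at hη hR
  refine ⟨η, R, hη, hR, ?_⟩
  intro A B hN i hi ht a c s ha hac h8 hRc
  obtain ⟨⟨q1, q2⟩, q3⟩ := hq i hi ht
  have hsi : L.s i ∈ L.S := _hL.maps i hi
  obtain ⟨n1, n2⟩ := hN.1 i hi
  obtain ⟨n3, n4⟩ := hN.1 (L.s i) hsi
  have n5 := hN.2.1 (L.s i) hsi
  have hc : 0 ≤ c := by linarith
  have hT : τ * (a + c) ≤ 2 * a := by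
    have hc0 : 0 < c := by linarith
    have hτ1 : τ ≤ 1 := by
      by_contra hcon
      have := mul_lt_mul_of_pos_right (not_le.1 hcon) hc0
      linarith
    have := mul_le_mul_of_nonneg_right hτ1 ha
    linarith
  have hnorm : ∀ u v w : E3, (u = w ∨ v = w) → ‖a • w + c • L.p (L.s i)‖ ≤
      (‖u‖ + ‖L.p (L.s i)‖ + ‖v‖ + 1) * (a + c) := by
    intro u v w huv
    have h1 : ‖a • w + c • L.p (L.s i)‖ ≤ a * ‖w‖ + c * ‖L.p (L.s i)‖ := by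
      refine (norm_add_le _ _).trans ?_
      rw [norm_smul, norm_smul, Real.norm_of_nonneg ha, Real.norm_of_nonneg hc]
    have h2 : ‖w‖ ≤ ‖u‖ + ‖v‖ := by
      rcases huv with h | h
      · rw [h]; linarith [norm_nonneg v]
      · rw [h]; linarith [norm_nonneg u]
    have h3 := norm_nonneg (L.p (L.s i))
    have h4 := norm_nonneg w
    have h5 := norm_nonneg u
    have h6 := norm_nonneg v
    have h7 : (‖u‖ + ‖L.p (L.s i)‖ + ‖v‖ + 1) * (a + c) - (a * ‖w‖ + c * ‖L.p (L.s i)‖) =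
      a * (‖u‖ + ‖v‖ - ‖w‖) + a * ‖L.p (L.s i)‖ + c * (‖u‖ + ‖v‖) + (a + c) := by ring
    have h8 : 0 ≤ a * (‖u‖ + ‖v‖ - ‖w‖) := mul_nonneg ha (by linarith)
    have h9 := mul_nonneg ha h3
    have h10 : 0 ≤ c * (‖u‖ + ‖v‖) := mul_nonneg hc (by linarith)
    linarith
  -- the main terms
  have hturn : |L.turn i| * (τ / 2) * (a + c) ≤ Real.sign (L.turn i) * (a * L.turn i) := by
    have h1 : Real.sign (L.turn i) * (a * L.turn i) = a * |L.turn i| := by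
      rw [← sign_mul_abs]; ring
    rw [h1]
    have := mul_le_mul_of_nonneg_left hT (abs_nonneg (L.turn i))
    nlinarith
  have hcham : ∀ n ∈ Ch (L.s i), ∀ w : E3,
      0 < Real.sign (L.turn i) * ⟪N n, L.p (L.s i) + τ • w⟫ →
      Real.sign (L.turn i) * ⟪N n, L.p (L.s i)⟫ < 0 →
      Real.sign (L.turn i) * ⟪N n, L.p (L.s i) + τ • w⟫ / 2 * (a + c) ≤
        Real.sign (L.turn i) * ⟪N n, a • w + c • L.p (L.s i)⟫ := by
    intro n _ w h1 h2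
    have h3 : Real.sign (L.turn i) * ⟪N n, L.p (L.s i) + τ • w⟫ =
        Real.sign (L.turn i) * ⟪N n, L.p (L.s i)⟫ + τ * (Real.sign (L.turn i) * ⟪N n, w⟫) := by
      rw [inner_add_right, inner_smul_right]; ring
    have h4 : Real.sign (L.turn i) * ⟪N n, a • w + c • L.p (L.s i)⟫ =
        a * (Real.sign (L.turn i) * ⟪N n, w⟫) + c * (Real.sign (L.turn i) * ⟪N n, L.p (L.s i)⟫) := by
      rw [inner_add_right, inner_smul_right, inner_smul_right]; ring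
    rw [h4]
    rw [h3] at h1 ⊢
    obtain ⟨X, hX⟩ : ∃ X, X = Real.sign (L.turn i) * ⟪N n, w⟫ := ⟨_, rfl⟩
    obtain ⟨Y, hY⟩ : ∃ Y, Y = Real.sign (L.turn i) * ⟪N n, L.p (L.s i)⟫ := ⟨_, rfl⟩
    rw [← hX, ← hY] at h1 ⊢
    rw [← hY] at h2
    have hX0 : 0 < X := by
      by_contra hcon
      have := mul_nonneg hτ.le (neg_nonneg.2 (not_lt.1 hcon))
      linarith
    have h5 : (Y + τ * X) / 2 * (a + c) ≤ (Y + τ * X) * c := by nlinarith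
    have h6 : 0 ≤ (a - τ * c) * X := mul_nonneg (by linarith) hX0.le
    nlinarith
  constructor
  · intro h0
    refine ⟨?_, A i, Or.inl rfl, h0⟩
    have hx0 : ⟪L.nor i, a • L.p i + c • L.p (L.s i)⟫ = 0 := by
      rw [inner_add_right, inner_smul_right, inner_smul_right]
      have h1 : ⟪L.nor i, L.p i⟫ = 0 := inner_crs_left _ _
      have h2 : ⟪L.nor i, L.p (L.s i)⟫ = 0 := inner_crs_right _ _
      rw [h1, h2]; ring
    intro Z hZ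
    rcases hZ with hZ | hZ | ⟨n, hn, hZ⟩
    · rw [hZ, h0, mul_zero]
    · rw [hZ]
      refine q1 (A i) (A (L.s i)) n1 n2 n3 n4 _ (a + c) s (hnorm _ _ _ (Or.inl rfl)) hx0 ?_
        hRc h0
      have h1 : ⟪L.nor (L.s i), a • L.p i + c • L.p (L.s i)⟫ = a * L.turn i := by
        rw [inner_add_right, inner_smul_right, inner_smul_right, nor_inner']
        have h2 : ⟪L.nor (L.s i), L.p (L.s i)⟫ = 0 := inner_crs_left _ _
        rw [h2]; ring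
      rw [h1]; exact hturn
    · rw [hZ]
      obtain ⟨g1, g2, -, -⟩ := (hC i hi).2.1 n hn
      exact (q3 n hn).1 (A i) (B n) n1 n2 (n5 n hn).1 (n5 n hn).2 _ (a + c) s
        (hnorm _ _ _ (Or.inl rfl)) hx0 (hcham n hn _ g2 g1) hRc h0
  · intro h0
    refine ⟨?_, A (L.s i), Or.inr (Or.inl rfl), h0⟩
    have hx0 : ⟪L.nor (L.s i), a • L.p (L.s (L.s i)) + c • L.p (L.s i)⟫ = 0 := by
      rw [inner_add_right, inner_smul_right, inner_smul_right]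
      have h1 : ⟪L.nor (L.s i), L.p (L.s i)⟫ = 0 := inner_crs_left _ _
      have h2 : ⟪L.nor (L.s i), L.p (L.s (L.s i))⟫ = 0 := inner_crs_right _ _
      rw [h1, h2]; ring
    intro Z hZ
    rcases hZ with hZ | hZ | ⟨n, hn, hZ⟩
    · rw [hZ]
      refine q2 (A (L.s i)) (A i) n3 n4 n1 n2 _ (a + c) s (hnorm _ _ _ (Or.inr rfl)) hx0 ?_
        hRc h0
      have h1 : ⟪L.nor i, a • L.p (L.s (L.s i)) + c • L.p (L.s i)⟫ = a * L.turn i := by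
        rw [inner_add_right, inner_smul_right, inner_smul_right, nor_inner]
        have h2 : ⟪L.nor i, L.p (L.s i)⟫ = 0 := inner_crs_right _ _
        rw [h2]; ring
      rw [h1]; exact hturn
    · rw [hZ, h0, mul_zero]
    · rw [hZ]
      obtain ⟨g1, -, g2, -⟩ := (hC i hi).2.1 n hn
      exact (q3 n hn).2 (A (L.s i)) (B n) n3 n4 (n5 n hn).1 (n5 n hn).2 _ (a + c) s
        (hnorm _ _ _ (Or.inr rfl)) hx0 (hcham n hn _ g2 g1) hRc h0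

end Pool.Agent.TSR2
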