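import Pool.Agent.TSR2.StmtsV

/-!
# TSR2, module PGF: the local resolution theorem for the canonical field
-/

set_option autoImplicit false

open scoped RealInnerProductSpace

namespace Pool.Agent.TSR2

open Pool.Agent.TSM Pool.Agent.TSP Set Filter Topology

namespace PGF_

theorem crs_norm (a b : E3) : ‖crs a b‖ ≤ ‖a‖ * ‖b‖ := by
  have h : ‖crs a b‖ ^ 2 ≤ (‖a‖ * ‖b‖) ^ 2 := by
    rw [mul_pow, EuclideanSpace.real_norm_sq_eq, EuclideanSpace.real_norm_sq_eq,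
      EuclideanSpace.real_norm_sq_eq]
    simp only [Fin.sum_univ_three, crs]
    simp
    nlinarith [sq_nonneg (a 0 * b 0 + a 1 * b 1 + a 2 * b 2)]
  exact (sq_le_sq₀ (norm_nonneg _) (by positivity)).1 h

theorem crs_comb (a c : ℝ) (p q : E3) : crs (a • p + c • q) q = a • crs p q := by
  ext j
  fin_cases j <;> simp [crs] <;> ring

theorem crs_comb' (a c : ℝ) (p q : E3) : crs p (a • p + c • q) = c • crs p q := by
  ext j
  fin_cases j <;> simp [crs] <;> ring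

/-- lower bound for the norm on one face -/
theorem low1 (p q : E3) (h : crs p q ≠ 0) : ∃ k : ℝ, 0 < k ∧ ∀ a c : ℝ, 0 ≤ a → 0 ≤ c →
    k * (a + c) ≤ ‖a • p + c • q‖ := by
  have h0 : 0 < ‖crs p q‖ := norm_pos_iff.2 h
  refine ⟨‖crs p q‖ / (‖p‖ + ‖q‖ + 1), by positivity, ?_⟩
  intro a c ha hc
  have h1 : a * ‖crs p q‖ ≤ ‖a • p + c • q‖ * ‖q‖ := by
    have := crs_norm (a • p + c • q) q
    rwa [crs_comb, norm_smul, Real.norm_eq_abs, abs_of_nonneg ha] at this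
  have h2 : c * ‖crs p q‖ ≤ ‖p‖ * ‖a • p + c • q‖ := by
    have := crs_norm p (a • p + c • q)
    rwa [crs_comb', norm_smul, Real.norm_eq_abs, abs_of_nonneg hc] at this
  have h3 : 0 < ‖p‖ + ‖q‖ + 1 := by positivity
  rw [div_mul_eq_mul_div, div_le_iff₀ h3]
  nlinarith [norm_nonneg (a • p + c • q)]

theorem th_one {a c : ℝ} (ha : 0 ≤ a) (hc : 0 < c) (h : 8 * a ≤ c) : th a c = 1 := by
  unfold th
  have h1 : max a c = c := max_eq_right (by linarith)
  have h2 : 1 ≤ (2 * c - 8 * a) / c := by rw [le_div_iff₀ hc]; linarith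
  rw [h1, min_eq_left h2, max_eq_right zero_le_one]

theorem th_zero {a c : ℝ} (ha : 0 ≤ a) (hc : 0 < c) (h : 8 * a ≤ c) : th c a = 0 := by
  unfold th
  have h1 : max c a = c := max_eq_left (by linarith)
  have h2 : (2 * a - 8 * c) / c ≤ 0 := div_nonpos_of_nonpos_of_nonneg (by linarith) hc.le
  rw [h1, max_eq_left ((min_le_right _ _).trans h2)]

section
variable {W : Type} [DecidableEq W]

theorem surj {L : Pg W} (h : L.Ok) {i : W} (hi : i ∈ L.S) : ∃ j ∈ L.S, L.s j = i := by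
  obtain ⟨m, hm⟩ := h.trans (L.s i) (h.maps i hi) i hi
  have hS : ∀ k : ℕ, L.s^[k] i ∈ L.S := by
    intro k
    induction k with
    | zero => exact hi
    | succ k ih => rw [Function.iterate_succ', Function.comp_apply]; exact h.maps _ ih
  refine ⟨L.s^[m] i, hS m, ?_⟩
  rw [← Function.iterate_succ_apply' L.s, Function.iterate_succ_apply]
  exact hm

theorem low {L : Pg W} (hnor : ∀ i ∈ L.S, L.nor i ≠ 0) : ∃ k : ℝ, 0 < k ∧ ∀ i ∈ L.S,
    ∀ a c : ℝ, 0 ≤ a → 0 ≤ c → k * (a + c) ≤ ‖a • L.p i + c • L.p (L.s i)‖ := by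
  have h1 : ∀ i, ∃ k : ℝ, 0 < k ∧ (i ∈ L.S → ∀ a c : ℝ, 0 ≤ a → 0 ≤ c →
      k * (a + c) ≤ ‖a • L.p i + c • L.p (L.s i)‖) := by
    intro i
    by_cases hi : i ∈ L.S
    · obtain ⟨k, hk, h2⟩ := low1 (L.p i) (L.p (L.s i)) (hnor i hi)
      exact ⟨k, hk, fun _ => h2⟩
    · exact ⟨1, one_pos, fun h => absurd h hi⟩
  choose k hk h2 using h1
  rcases L.S.eq_empty_or_nonempty with he | hne
  · refine ⟨1, one_pos, fun i hi => ?_⟩
    rw [he] at hi
    exact absurd hi (Finset.notMem_empty i)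
  · refine ⟨L.S.inf' hne k, ?_, ?_⟩
    · rw [Finset.lt_inf'_iff]; exact fun i _ => hk i
    · intro i hi a c ha hc
      refine le_trans ?_ (h2 i hi a c ha hc)
      exact mul_le_mul_of_nonneg_right (Finset.inf'_le _ hi) (by linarith)

theorem near_mono {L : Pg W} {Ch : W → Finset ℕ} {N : ℕ → E3} {o : W → ℝ} {oN : ℕ → ℝ}
    {η η' : ℝ} {A : W → Aff} {B : ℕ → Aff} (hle : η ≤ η') (h : L.Near Ch N o oN η A B) :
    L.Near Ch N o oN η' A B :=
  ⟨fun i hi => ⟨(h.1 i hi).1.trans_le hle, (h.1 i hi).2.trans_le hle⟩,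
    fun j hj n hn => ⟨(h.2.1 j hj n hn).1.trans_le hle, (h.2.1 j hj n hn).2.trans_le hle⟩,
    h.2.2⟩

end

end PGF_

open PGF_

theorem pgf_proof (hVM3 : Stmt_VM3) (hADA : Stmt_ADA) (hPGC : Stmt_PGC) (hPGE : Stmt_PGE)
    (hPGL : Stmt_PGL) : Stmt_PGF := by
  intro W _ L b hok hcan hadm
  obtain ⟨μ, ε₀, hμ, hε₀, HV⟩ := hVM3 W L hok b hadm
  obtain ⟨c₀, hc₀, HC⟩ := hPGC W L μ hok hμ
  refine ⟨1 / 8, c₀, by norm_num, hc₀, ?_⟩
  intro δ ε hδ hδ8 hε
  obtain ⟨ε', hε', HC'⟩ := HC δ ε hδ hε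
  obtain ⟨τ, hτ0, hτ1, hτ2, hτ3, hτ4⟩ : ∃ τ : ℝ, 0 < τ ∧ τ < ε₀ ∧ τ < ε' ∧ τ ≤ δ ∧
      τ ≤ 1 / 16 := by
    refine ⟨min (min ε₀ ε') (min δ (1 / 16)) / 2, ?_, ?_, ?_, ?_, ?_⟩
    · have : 0 < min (min ε₀ ε') (min δ (1 / 16)) :=
        lt_min (lt_min hε₀ hε') (lt_min hδ (by norm_num))
      linarith
    · have h1 : 0 < min (min ε₀ ε') (min δ (1 / 16)) :=
        lt_min (lt_min hε₀ hε') (lt_min hδ (by norm_num))
      have h2 : min (min ε₀ ε') (min δ (1 / 16)) ≤ ε₀ := (min_le_left _ _).trans (min_le_left _ _)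
      linarith
    · have h1 : 0 < min (min ε₀ ε') (min δ (1 / 16)) :=
        lt_min (lt_min hε₀ hε') (lt_min hδ (by norm_num))
      have h2 : min (min ε₀ ε') (min δ (1 / 16)) ≤ ε' := (min_le_left _ _).trans (min_le_right _ _)
      linarith
    · have h1 : 0 < min (min ε₀ ε') (min δ (1 / 16)) :=
        lt_min (lt_min hε₀ hε') (lt_min hδ (by norm_num))
      have h2 : min (min ε₀ ε') (min δ (1 / 16)) ≤ δ := (min_le_right _ _).trans (min_le_left _ _)
      linarith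
    · have h1 : 0 < min (min ε₀ ε') (min δ (1 / 16)) :=
        lt_min (lt_min hε₀ hε') (lt_min hδ (by norm_num))
      have h2 : min (min ε₀ ε') (min δ (1 / 16)) ≤ 1 / 16 :=
        (min_le_right _ _).trans (min_le_right _ _)
      linarith
  obtain ⟨Ch, N, hG, hne, o, oN, η₁, R₁, M, hη₁, hR₁, hO, HA⟩ := HV τ hτ0 hτ1
  obtain ⟨η₂, R₂, hη₂, hR₂, HE⟩ := hPGE W L μ τ Ch N o oN hok hμ hτ0 hG
  have hada := (hADA W L b hok hcan).1
  obtain ⟨k, hk, hlow⟩ := low (L := L) fun i hi => (hada i hi).1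
  have hRk : 0 < R₁ / k := div_pos hR₁ hk
  refine ⟨Ch, N, o, oN, min η₁ η₂, max R₂ (R₁ / k), M, lt_min hη₁ hη₂, lt_max_of_lt_left hR₂,
    hO, HC' τ Ch N hτ0 hτ2 hG hne, ?_⟩
  intro A B hN
  have hN1 := near_mono (min_le_left _ _) hN
  have hN2 := near_mono (min_le_right _ _) hN
  obtain ⟨D, hcont, hgood, hbd, hfar⟩ := HA A B hN1
  have big : ∀ i ∈ L.S, ∀ a c : ℝ, 0 ≤ a → 0 ≤ c → max R₂ (R₁ / k) ≤ a + c →
      R₁ ≤ ‖a • L.p i + c • L.p (L.s i)‖ := by
    intro i hi a c ha hc h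
    have h1 : R₁ / k ≤ a + c := (le_max_right _ _).trans h
    have h2 := hlow i hi a c ha hc
    rw [div_le_iff₀ hk] at h1
    linarith
  have pos : ∀ a c : ℝ, max R₂ (R₁ / k) ≤ a + c → 0 < a + c := fun a c h =>
    (lt_max_of_lt_left hR₂).trans_le h
  have hgl := hPGL W L b τ R₁ Ch N μ A B D hok hadm hτ0 (by linarith) hG hN.2.2 hfar
  refine ⟨D, hcont, fun x hx => (hgood x hx).1, fun x hx => (hgood x hx).2, hbd, ?_, ?_, ?_, ?_⟩
  · -- arms
    intro i hi hturn a c ha hac hR e he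
    have hp := pos a c hR
    have hc : 0 < c := by
      rcases eq_or_lt_of_le ha with h | h
      · linarith
      · linarith
    have hR2 : R₂ ≤ a + c := (le_max_left _ _).trans hR
    rcases he with rfl | rfl
    · have hx : a • L.p e + c • L.p (L.s e) ∈ L.cone := ⟨e, hi, a, c, ha, hc.le, rfl⟩
      obtain ⟨⟨t, ht⟩, hz1, hz2⟩ := hfar _ hx (big e hi a c ha hc.le hR)
      have hb : b (a • L.p e + c • L.p (L.s e)) = dA L e := by
        obtain ⟨j, hj, rfl⟩ := surj hok hi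
        rw [hcan j hj a c ha hc.le hp]
        unfold fF
        rw [th_one ha hc hac, th_zero ha hc hac, one_smul, zero_smul, add_zero]
        abel
      rw [hb] at ht
      refine ⟨⟨t, ht⟩, ?_⟩
      by_cases h : a ≤ 2 * τ * c
      · exact hz1 e hi ⟨a, c, ha, hc.le, h, Or.inl rfl⟩
      · push Not at h
        have h1 : τ * c ≤ a := by nlinarith
        have h2 : τ * a ≤ c := by nlinarith
        have h3 := hz2 e hi ⟨a, c, ha, hc.le, h1, h2, rfl⟩
        rw [ht] at h3 ⊢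
        exact (HE A B hN2 e hi hturn a c t ha h1 hac hR2).1 h3
    · have hsi := hok.maps i hi
      have hcomm : a • L.p (L.s (L.s i)) + c • L.p (L.s i) =
          c • L.p (L.s i) + a • L.p (L.s (L.s i)) := add_comm _ _
      have hx : a • L.p (L.s (L.s i)) + c • L.p (L.s i) ∈ L.cone :=
        ⟨L.s i, hsi, c, a, hc.le, ha, hcomm⟩
      have hR' : R₁ ≤ ‖a • L.p (L.s (L.s i)) + c • L.p (L.s i)‖ := by
        rw [hcomm]
        exact big (L.s i) hsi c a hc.le ha (by rwa [add_comm])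
      obtain ⟨⟨t, ht⟩, hz1, hz2⟩ := hfar _ hx hR'
      have hb : b (a • L.p (L.s (L.s i)) + c • L.p (L.s i)) = dA L i := by
        rw [hcomm, hcan i hi c a hc.le ha (by linarith)]
        unfold fF
        rw [th_one ha hc hac, th_zero ha hc hac, one_smul, zero_smul, add_zero]
        abel
      rw [hb] at ht
      refine ⟨⟨t, ht⟩, ?_⟩
      by_cases h : a ≤ 2 * τ * c
      · exact hz1 i hi ⟨a, c, ha, hc.le, h, Or.inr rfl⟩
      · push Not at h
        have h1 : τ * c ≤ a := by nlinarith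
        have h2 : τ * a ≤ c := by nlinarith
        have h3 := hz2 (L.s i) hsi ⟨c, a, hc.le, ha, h2, h1, hcomm⟩
        rw [ht] at h3 ⊢
        exact (HE A B hN2 i hi hturn a c t ha h1 hac hR2).2 h3
  · -- faces
    intro j hj a c ha hc h1 h2 hR
    have hsj := hok.maps j hj
    have hx : a • L.p (L.s j) + c • L.p (L.s (L.s j)) ∈ L.cone :=
      ⟨L.s j, hsj, a, c, ha, hc, rfl⟩
    obtain ⟨⟨t, ht⟩, hz1, hz2⟩ := hfar _ hx (big (L.s j) hsj a c ha hc hR)
    rw [hcan j hj a c ha hc (pos a c hR)] at ht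
    refine ⟨⟨t, ht⟩, ?_⟩
    exact hz2 (L.s j) hsj ⟨a, c, ha, hc,
      (mul_le_mul_of_nonneg_right hτ3 hc).trans h1,
      (mul_le_mul_of_nonneg_right hτ3 ha).trans h2, rfl⟩
  · -- flat sector, first face
    intro m hm q hq hqm a c ha hc h1 hR
    have h2 : τ * a ≤ c := (mul_le_mul_of_nonneg_right hτ3 ha).trans h1
    refine (hgl m hm q hq hqm a c ha hc).1 h2 ?_ hR₁
    have := big q hq a c ha hc hR
    rwa [hqm] at this
  · -- flat sector, second face
    intro m hm a c ha hc h1 hR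
    have h2 : τ * c ≤ a := (mul_le_mul_of_nonneg_right hτ3 hc).trans h1
    have hmS : m ∈ L.S := by
      rcases hok.kind with ⟨h, -⟩ | ⟨m', h, h'⟩
      · rw [h] at hm; exact absurd hm (by simp)
      · rw [h] at hm
        have : m' = m := Option.some_injective _ hm
        rw [← this]; exact h'.1
    obtain ⟨q, hq, hqm⟩ := surj hok hmS
    exact (hgl m hm q hq hqm a c ha hc).2 h2 (big m hmS a c ha hc hR) hR₁

end Pool.Agent.TSR2
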