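import Pool.Agent.TSR2.StmtsV

/-!
# TSR2, module SEK: the conditions on the edges
-/

set_option autoImplicit false

open scoped RealInnerProductSpace

namespace Pool.Agent.TSR2

open Pool.Agent.TSM Pool.Agent.TSP Set Filter Topology

namespace SEK_

theorem det3_cyc (o z y : E3) : det3 o z y = ⟪crs y o, z⟫ := by
  rw [inner_crs]; simp only [det3]; ring

theorem ind_norm {X Y : E3} (h : Indep2 X Y) :
    ∃ κ : ℝ, 0 < κ ∧ ∀ a c : ℝ, 0 ≤ a → 0 ≤ c → κ * (a + c) ≤ ‖a • X + c • Y‖ := by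
  obtain ⟨o, ho⟩ := exists_det3 h
  have hD : 0 < |det3 o X Y| := abs_pos.2 ho
  have hS : 0 < ‖crs Y o‖ + ‖crs X o‖ + 1 := by positivity
  refine ⟨|det3 o X Y| / (‖crs Y o‖ + ‖crs X o‖ + 1), div_pos hD hS, ?_⟩
  intro a c ha hc
  have h1 : a * det3 o X Y = ⟪crs Y o, a • X + c • Y⟫ := by
    rw [← det3_cyc]; simp only [det3, PiLp.add_apply, PiLp.smul_apply, smul_eq_mul]; ring
  have h2 : c * det3 o X Y = - ⟪crs X o, a • X + c • Y⟫ := by
    rw [← det3_cyc]; simp only [det3, PiLp.add_apply, PiLp.smul_apply, smul_eq_mul]; ring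
  have h3 : a * |det3 o X Y| ≤ ‖crs Y o‖ * ‖a • X + c • Y‖ := by
    have := abs_real_inner_le_norm (crs Y o) (a • X + c • Y)
    rw [← h1, abs_mul, abs_of_nonneg ha] at this
    exact this
  have h4 : c * |det3 o X Y| ≤ ‖crs X o‖ * ‖a • X + c • Y‖ := by
    have := abs_real_inner_le_norm (crs X o) (a • X + c • Y)
    rw [← abs_neg, ← h2, abs_mul, abs_of_nonneg hc] at this
    exact this
  rw [div_mul_eq_mul_div, div_le_iff₀ hS]
  have := norm_nonneg (a • X + c • Y)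
  nlinarith

theorem small_eps {X Y : E3} (b : E3) {c₀ : ℝ} (h : Indep2 X Y) (hc : 0 < c₀) :
    ∀ᶠ ε in 𝓝[>] (0 : ℝ), ∀ a c : ℝ, 0 ≤ a → 0 ≤ c →
      8 * ‖b‖ * ε * (a + c) ≤ c₀ * ‖a • X + c • Y‖ := by
  obtain ⟨κ, hκ, hk⟩ := ind_norm h
  have e1 : ∀ᶠ ε in 𝓝[>] (0 : ℝ), ε * (8 * ‖b‖) < c₀ * κ := by
    have : Tendsto (fun ε : ℝ => ε * (8 * ‖b‖)) (𝓝[>] (0 : ℝ)) (𝓝 (0 * (8 * ‖b‖))) :=
      (tendsto_nhdsWithin_of_tendsto_nhds tendsto_id).mul_const _
    rw [zero_mul] at this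
    exact this.eventually (eventually_lt_nhds (by positivity))
  filter_upwards [e1] with ε hε
  intro a c ha hc'
  have h1 := hk a c ha hc'
  have h2 : ε * (8 * ‖b‖) * (a + c) ≤ c₀ * κ * (a + c) :=
    mul_le_mul_of_nonneg_right hε.le (by linarith)
  have h3 : c₀ * (κ * (a + c)) ≤ c₀ * ‖a • X + c • Y‖ := mul_le_mul_of_nonneg_left h1 hc.le
  linarith

theorem det3_scale {a b c : E3} {s t r : ℝ} (hs : s ≠ 0) (ht : t ≠ 0) (hr : r ≠ 0)
    (h : det3 a b c ≠ 0) : det3 (s • a) (t • b) (r • c) ≠ 0 := by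
  have : det3 (s • a) (t • b) (r • c) = s * t * r * det3 a b c := by
    simp only [det3, PiLp.smul_apply, smul_eq_mul]; ring
  rw [this]
  exact mul_ne_zero (mul_ne_zero (mul_ne_zero hs ht) hr) h

section
variable {V : Type} [Fintype V] [DecidableEq V]

theorem ar0 (p : V → E3) (Q : Finset V → Aff) (v u w q : V) :
    ar p Q 0 v u w q = sg p {v, u, w} v q • pl0 p {v, u, w} := by
  unfold ar prl
  rw [zero_smul, add_zero]

theorem ev_zr0 (p : V → E3) (N : V → ℕ → E3) (oN : V → ℕ → ℝ) (ω : V → V → ℝ)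
    (Ch : V → V → Finset ℕ) (v u : V) (n : {n // n ∈ Ch v u}) (y : E3) :
    ev (zr p N oN ω Ch 0 v u n) y = ⟪ω v u • N v n, y - p v⟫ := by
  unfold zr brl
  rw [ev_smul', ev_def, inner_smul_left, inner_sub_right]
  simp

theorem zr0_fst (p : V → E3) (N : V → ℕ → E3) (oN : V → ℕ → ℝ) (ω : V → V → ℝ)
    (Ch : V → V → Finset ℕ) (v u : V) (n : {n // n ∈ Ch v u}) :
    (zr p N oN ω Ch 0 v u n).1 = ω v u • N v n := rfl

theorem not_outer {K : Surf V} {p : V → E3} {Φ : Finset Aff} {v u : V} (h : Act K p Φ v u) :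
    ¬ K.Outer p Φ v := by
  obtain ⟨w, h1, h2⟩ := h
  intro hO
  exact h2 (hO _ h1.2.2.2 (by simp))

/-- facts about the plane of one triangle of a hinge -/
theorem plane_facts {K : Surf V} {p : V → E3} (hE : K.EmbStars p) {v u w w' : V}
    (hq : Quad K v u w w') (hB : Bent p v u w w') :
    ev (sg p {v, u, w} v w' • pl0 p {v, u, w}) (p v) = 0 ∧
    ev (sg p {v, u, w} v w' • pl0 p {v, u, w}) (p u) = 0 ∧
    ev (sg p {v, u, w} v w' • pl0 p {v, u, w}) (p w) = 0 ∧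
    0 < ev (sg p {v, u, w} v w' • pl0 p {v, u, w}) (p w') ∧
    ⟪(sg p {v, u, w} v w' • pl0 p {v, u, w}).1, bE p v u w w'⟫ = ‖(pl0 p {v, u, w}).1‖ ∧
    sg p {v, u, w} v w' ≠ 0 := by
  have t := hq.1
  have t' := hq.2.1
  obtain ⟨h1, h2, h3⟩ := ev_pl0 p t.1 t.2.1 t.2.2.1
  have hne := hB.ev_ne t.1 t.2.1 t.2.2.1
  have hs : sg p {v, u, w} v w' = Real.sign (ev (pl0 p {v, u, w}) (p w')) :=
    sg_eq p t.1 t.2.1 t.2.2.1 w'
  have hn := pl0_ne hE t
  have hn' := pl0_ne hE t'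
  refine ⟨by rw [ev_smul', h1, mul_zero], by rw [ev_smul', h2, mul_zero],
    by rw [ev_smul', h3, mul_zero], ?_, ?_, ?_⟩
  · rw [ev_smul', hs]
    exact sign_mul_self_pos hne
  · have h4 := inner_bE hB t.1 t.2.1 t.2.2.1 t'.2.1 t'.2.2.1 hn hn'
    have h5 : 0 < ‖(pl0 p {v, u, w}).1‖ := norm_pos_iff.2 hn
    unfold nIn at h4
    rw [inner_smul_left] at h4
    simp only [RCLike.conj_to_real] at h4
    rw [Prod.smul_fst, inner_smul_left]
    simp only [RCLike.conj_to_real]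
    field_simp at h4
    exact h4
  · rw [hs]
    rcases sign_one hne with h | h <;> rw [h] <;> norm_num

end

end SEK_

open SEK_

theorem sek_proof (h1 : Stmt_KNB) : Stmt_SEK := by
  intro V _ _ K p Φ hF
  have hE := hF.emb
  -- the constant `c₁`
  have k1 : ∀ᶠ c in 𝓝[>] (0 : ℝ), ∀ q : V × V × V, Tri K q.1 q.2.1 q.2.2 →
      c ≤ ‖(pl0 p {q.1, q.2.1, q.2.2}).1‖ := by
    rw [eventually_all]
    intro q
    by_cases hq : Tri K q.1 q.2.1 q.2.2
    · have h2 : 0 < ‖(pl0 p {q.1, q.2.1, q.2.2}).1‖ := norm_pos_iff.2 (pl0_ne hE hq)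
      have : ∀ᶠ c in 𝓝[>] (0 : ℝ), c < ‖(pl0 p {q.1, q.2.1, q.2.2}).1‖ :=
        (tendsto_nhdsWithin_of_tendsto_nhds tendsto_id).eventually (eventually_lt_nhds h2)
      filter_upwards [this] with c hc _
      exact hc.le
    · exact Eventually.of_forall fun c h => absurd h hq
  obtain ⟨c₁, hc1, hc1'⟩ := ((show ∀ᶠ c : ℝ in 𝓝[>] (0 : ℝ), 0 < c from
    self_mem_nhdsWithin).and k1).exists
  refine ⟨c₁, hc1, ?_⟩
  intro δ c₀ hδ hδ1 hc0 hc01
  -- the constant `ε₀`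
  have k2 : ∀ᶠ ε in 𝓝[>] (0 : ℝ), ∀ q : V × V × V × V, Quad K q.1 q.2.1 q.2.2.1 q.2.2.2 →
      (∀ a c : ℝ, 0 ≤ a → 0 ≤ c → 8 * ‖bE p q.1 q.2.1 q.2.2.1 q.2.2.2‖ * ε * (a + c) ≤
        c₀ * ‖a • (p q.2.2.1 - p q.1) + c • (p q.2.1 - p q.1)‖) ∧
      (∀ a c : ℝ, 0 ≤ a → 0 ≤ c → 8 * ‖bE p q.1 q.2.1 q.2.2.1 q.2.2.2‖ * ε * (a + c) ≤
        c₀ * ‖a • (p q.2.2.2 - p q.1) + c • (p q.2.1 - p q.1)‖) := by
    rw [eventually_all]
    rintro ⟨v, u, w, w'⟩
    by_cases hq : Quad K v u w w'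
    · have e1 := small_eps (bE p v u w w') (tri_indep hE hq.1.s132) hc0
      have e2 := small_eps (bE p v u w w') (tri_indep hE hq.2.1.s132) hc0
      filter_upwards [e1, e2] with ε h2 h3 _
      exact ⟨h2, h3⟩
    · exact Eventually.of_forall fun ε h => absurd h hq
  obtain ⟨ε₀, he0, he0'⟩ := ((show ∀ᶠ c : ℝ in 𝓝[>] (0 : ℝ), 0 < c from
    self_mem_nhdsWithin).and k2).exists
  refine ⟨ε₀, he0, ?_⟩
  intro ε hε hεε G hV hG v u w w' hq ha
  have mono : ∀ (b X : E3) (s : ℝ), 0 ≤ s → 8 * ‖b‖ * ε₀ * s ≤ c₀ * ‖X‖ →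
      8 * ‖b‖ * ε * s ≤ c₀ * ‖X‖ := by
    intro b X s hs h
    have h2 : 8 * ‖b‖ * ε * s ≤ 8 * ‖b‖ * ε₀ * s := by
      apply mul_le_mul_of_nonneg_right _ hs
      exact mul_le_mul_of_nonneg_left hεε.le (by positivity)
    linarith
  have hB := h1 V K p Φ hF v u w w' ha hq
  obtain ⟨f1, f2, f3, f4, f5, f6⟩ := plane_facts hE hq hB
  obtain ⟨g1, g2, g3, g4, g5, g6⟩ := plane_facts hE hq.swap hB.swap
  obtain ⟨-, hω, hv⟩ := hV v (not_outer ha) u w w' hq ha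
  obtain ⟨-, hω', hu⟩ := hV u (not_outer ha.flip) v w w' hq.flip ha.flip
  have hω0 : G.ω v u ≠ 0 := by rcases hω with h | h <;> rw [h] <;> norm_num
  have hω0' : G.ω u v ≠ 0 := by rcases hω' with h | h <;> rw [h] <;> norm_num
  rw [hq.bE_flip] at hu
  have hvu : v ≠ u := hq.1.1
  have hpvu : p v ≠ p u := by
    intro h
    exact (tri_indep hE hq.1).ne_zero_left (by rw [h, sub_self])
  have s1 := he0' (v, u, w, w') hq
  have s2 := he0' (u, v, w, w') hq.flip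
  simp only at s1 s2
  rw [hq.bE_flip] at s2
  have ea : ar p G.Q 0 v u w w' = sg p {v, u, w} v w' • pl0 p {v, u, w} := ar0 _ _ _ _ _ _
  have eb : ar p G.Q 0 v u w' w = sg p {v, u, w'} v w • pl0 p {v, u, w'} := ar0 _ _ _ _ _ _
  have labv : ∀ n, n ∈ G.Ch v u → Lab G.Ch (v, n) := fun n hn => ⟨u, hn⟩
  have labu : ∀ n, n ∈ G.Ch u v → Lab G.Ch (u, n) := fun n hn => ⟨v, hn⟩
  have nn : ∀ (x : V) (n m : ℕ), n ≠ m → ((x, n) : V × ℕ) ≠ (x, m) := by
    intro x n m h he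
    exact h (congrArg Prod.snd he)
  have nn' : ∀ n m : ℕ, ((v, n) : V × ℕ) ≠ (u, m) := by
    intro n m he
    exact hvu (congrArg Prod.fst he)
  show EOk (p v) (p u) (p w) (p w') (bE p v u w w') (ar p G.Q 0 v u w w')
    (ar p G.Q 0 v u w' w) (zr p G.N G.oN G.ω G.Ch 0 v u) (zr p G.N G.oN G.ω G.Ch 0 u v) δ c₀ ε
  rw [ea, eb]
  refine
    { c0 := hc0
      d0 := hδ
      d1 := hδ1
      e0 := hε
      av := f1
      au := f2
      aw := f3
      aw' := f4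
      a'v := g1
      a'u := g2
      a'w' := g3
      a'w := g4
      ba := ?_
      ba' := ?_
      bz := ?_
      bx := ?_
      zv := ?_
      zu := ?_
      zu' := ?_
      zw := ?_
      zw' := ?_
      xu := ?_
      xv := ?_
      xv' := ?_
      xw := ?_
      xw' := ?_
      sv := ?_
      sv' := ?_
      su := ?_
      su' := ?_
      izz := ?_
      izzz := ?_
      ixx := ?_
      ixxx := ?_
      izx := ?_
      izzx := ?_
      izxx := ?_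
      quad := ?_ }
  · rw [f5]
    exact hc01.trans (hc1' (v, u, w) hq.1)
  · rw [← bE_swap p v u w w', g5]
    exact hc01.trans (hc1' (v, u, w') hq.2.1)
  · intro n
    rw [zr0_fst]
    exact (hv n.1 n.2).2.2.2.2.le
  · intro n
    rw [zr0_fst]
    exact (hu n.1 n.2).2.2.2.2.le
  · intro n
    rw [ev_zr0, sub_self, inner_zero_right]
  · intro n
    rw [ev_zr0]
    exact (hv n.1 n.2).1
  · intro n
    rw [ev_zr0]
    exact (hv n.1 n.2).2.1.le
  · intro n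
    rw [ev_zr0]
    have h := (hv n.1 n.2).2.2.1
    have e : p u + δ • (p w - p v) - p v = (p u - p v) + δ • (p w - p v) := by abel
    rw [e]; exact h
  · intro n
    rw [ev_zr0]
    have h := (hv n.1 n.2).2.2.2.1
    have e : p u + δ • (p w' - p v) - p v = (p u - p v) + δ • (p w' - p v) := by abel
    rw [e]; exact h
  · intro n
    rw [ev_zr0, sub_self, inner_zero_right]
  · intro n
    rw [ev_zr0]
    exact (hu n.1 n.2).1
  · intro n
    rw [ev_zr0]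
    exact (hu n.1 n.2).2.1.le
  · intro n
    rw [ev_zr0]
    have h := (hu n.1 n.2).2.2.1
    have e : p v + δ • (p w - p u) - p u = (p v - p u) + δ • (p w - p u) := by abel
    rw [e]; exact h
  · intro n
    rw [ev_zr0]
    have h := (hu n.1 n.2).2.2.2.1
    have e : p v + δ • (p w' - p u) - p u = (p v - p u) + δ • (p w' - p u) := by abel
    rw [e]; exact h
  · intro a c h2 h3
    exact mono _ _ _ (by linarith) (s1.1 a c h2 h3)
  · intro a c h2 h3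
    exact mono _ _ _ (by linarith) (s1.2 a c h2 h3)
  · intro a c h2 h3
    exact mono _ _ _ (by linarith) (s2.1 a c h2 h3)
  · intro a c h2 h3
    exact mono _ _ _ (by linarith) (s2.2 a c h2 h3)
  · intro n n' hne
    have hne' : (n : ℕ) ≠ n' := fun h => hne (Subtype.ext h)
    rw [indep_iff, indep_iff, zr0_fst, zr0_fst, Prod.smul_fst, Prod.smul_fst]
    exact ⟨det3_scale f6 hω0 hω0 (hG.g1 _ _ (labv n n.2) (labv n' n'.2) (nn _ _ _ hne') _
        hq.1.2.2.2),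
      det3_scale g6 hω0 hω0 (hG.g1 _ _ (labv n n.2) (labv n' n'.2) (nn _ _ _ hne') _
        hq.2.1.2.2.2)⟩
  · intro n n' n'' h2 h3 h4
    have h2' : (n : ℕ) ≠ n' := fun h => h2 (Subtype.ext h)
    have h3' : (n : ℕ) ≠ n'' := fun h => h3 (Subtype.ext h)
    have h4' : (n' : ℕ) ≠ n'' := fun h => h4 (Subtype.ext h)
    rw [indep_iff, zr0_fst, zr0_fst, zr0_fst]
    exact det3_scale hω0 hω0 hω0 (hG.g2 _ _ _ (labv n n.2) (labv n' n'.2) (labv n'' n''.2)
      (nn _ _ _ h2') (nn _ _ _ h3') (nn _ _ _ h4'))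
  · intro n n' hne
    have hne' : (n : ℕ) ≠ n' := fun h => hne (Subtype.ext h)
    rw [indep_iff, indep_iff, zr0_fst, zr0_fst, Prod.smul_fst, Prod.smul_fst]
    exact ⟨det3_scale f6 hω0' hω0' (hG.g1 _ _ (labu n n.2) (labu n' n'.2) (nn _ _ _ hne') _
        hq.1.2.2.2),
      det3_scale g6 hω0' hω0' (hG.g1 _ _ (labu n n.2) (labu n' n'.2) (nn _ _ _ hne') _
        hq.2.1.2.2.2)⟩
  · intro n n' n'' h2 h3 h4
    have h2' : (n : ℕ) ≠ n' := fun h => h2 (Subtype.ext h)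
    have h3' : (n : ℕ) ≠ n'' := fun h => h3 (Subtype.ext h)
    have h4' : (n' : ℕ) ≠ n'' := fun h => h4 (Subtype.ext h)
    rw [indep_iff, zr0_fst, zr0_fst, zr0_fst]
    exact det3_scale hω0' hω0' hω0' (hG.g2 _ _ _ (labu n n.2) (labu n' n'.2) (labu n'' n''.2)
      (nn _ _ _ h2') (nn _ _ _ h3') (nn _ _ _ h4'))
  · intro n m
    rw [indep_iff, indep_iff, zr0_fst, zr0_fst, Prod.smul_fst, Prod.smul_fst]
    exact ⟨det3_scale f6 hω0 hω0' (hG.g1 _ _ (labv n n.2) (labu m m.2) (nn' _ _) _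
        hq.1.2.2.2),
      det3_scale g6 hω0 hω0' (hG.g1 _ _ (labv n n.2) (labu m m.2) (nn' _ _) _
        hq.2.1.2.2.2)⟩
  · intro n n' m hne
    have hne' : (n : ℕ) ≠ n' := fun h => hne (Subtype.ext h)
    rw [indep_iff, zr0_fst, zr0_fst, zr0_fst]
    exact det3_scale hω0 hω0 hω0' (hG.g2 _ _ _ (labv n n.2) (labv n' n'.2) (labu m m.2)
      (nn _ _ _ hne') (nn' _ _) (nn' _ _))
  · intro n m m' hne
    have hne' : (m : ℕ) ≠ m' := fun h => hne (Subtype.ext h)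
    rw [indep_iff, zr0_fst, zr0_fst, zr0_fst]
    exact det3_scale hω0 hω0' hω0' (hG.g2 _ _ _ (labv n n.2) (labu m m.2) (labu m' m'.2)
      (nn' _ _) (nn' _ _) (nn _ _ _ hne'))
  · intro n n' m m' h2 h3 y e1 e2 e3 e4
    have h2' : (n : ℕ) ≠ n' := fun h => h2 (Subtype.ext h)
    have h3' : (m : ℕ) ≠ m' := fun h => h3 (Subtype.ext h)
    rw [ev_zr0, inner_smul_left] at e1 e2 e3 e4
    simp only [RCLike.conj_to_real] at e1 e2 e3 e4
    exact hG.g3 v u n n' m m' (labv n n.2) (labv n' n'.2) (labu m m.2) (labu m' m'.2) h2' h3'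
      hpvu y ((mul_eq_zero.1 e1).resolve_left hω0) ((mul_eq_zero.1 e2).resolve_left hω0)
      ((mul_eq_zero.1 e3).resolve_left hω0') ((mul_eq_zero.1 e4).resolve_left hω0')

end Pool.Agent.TSR2
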