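import Pool.Agent.TSR2.EDefs

/-!
# TSR2: exact statements of all modules, part 1 (blocks K, A, E, C, F)
-/

set_option autoImplicit false

open scoped RealInnerProductSpace

namespace Pool.Agent.TSR2

open Pool.Agent.TSM Pool.Agent.TSP Set Filter Topology

/-! ### Block K: kinds of vertices -/

/-- an active edge is bent -/
def Stmt_KNB : Prop :=
  ∀ (V : Type) [Fintype V] [DecidableEq V] (K : Surf V) (p : V → E3) (Φ : Finset Aff),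
    K.Framed p Φ → ∀ v u w w', Act K p Φ v u → Quad K v u w w' → Bent p v u w w'

/-- a non-outer vertex lies on at most one facet -/
def Stmt_KNO : Prop :=
  ∀ (V : Type) [Fintype V] [DecidableEq V] (K : Surf V) (p : V → E3) (Φ : Finset Aff),
    K.Framed p Φ → ∀ v, ¬ K.Outer p Φ v → ∀ φ ∈ Φ, ∀ ψ ∈ Φ, ev φ (p v) = 0 → ev ψ (p v) = 0 →
      φ = ψ

/-- an active edge in a facet plane is a pocket edge -/
def Stmt_KNP : Prop :=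
  ∀ (V : Type) [Fintype V] [DecidableEq V] (K : Surf V) (p : V → E3) (Φ : Finset Aff),
    K.Framed p Φ → ∀ v u w w', Act K p Φ v u → Quad K v u w w' → ∀ φ ∈ Φ, ev φ (p v) = 0 →
      ev φ (p u) = 0 → (ev φ (p w) = 0 ∧ ev φ (p w') < 0) ∨ (ev φ (p w') = 0 ∧ ev φ (p w) < 0)

/-! ### Block A: from `Stage` to `PreSmooth` -/

section
variable {V : Type} [Fintype V] [DecidableEq V]

/-- `D` is glued from the pieces -/
structure Gl (K : Surf V) (p : V → E3) (Φ : Finset Aff) (δ ρ : ℝ)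
    (C : V → (V → ℝ) → E3) (E : V → V → (V → ℝ) → E3) (F : Finset V → (V → ℝ) → E3)
    (D : (V → ℝ) → E3) : Prop where
  cont : ContinuousOn D K.body
  dc : ∀ v, ¬ K.Outer p Φ v → ∀ x ∈ CZ K ρ v, D x = C v x
  de : ∀ v u, Act K p Φ v u → ∀ x ∈ EZ K δ ρ v u, D x = E v u x
  df : ∀ t ∈ K.tri, ¬ FT p Φ t → ∀ x ∈ FZ K δ ρ t, D x = F t x
  dr : ∀ x ∈ RZ K p Φ δ ρ, D x = lin p x

/-- near `x` the map is injective with values in the boundary of the polytope -/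
def OutB (Φ : Finset Aff) (C : Set (V → ℝ)) (D : (V → ℝ) → E3) (x : V → ℝ) : Prop :=
  ∃ U ∈ 𝓝[C] x, InjOn D U ∧ ∀ y ∈ U, ∃ φ ∈ Φ, ev φ (D y) = 0

end

/-- the open regions cover the body -/
def Stmt_COV : Prop :=
  ∀ (V : Type) [Fintype V] [DecidableEq V] (K : Surf V) (p : V → E3) (Φ : Finset Aff) (δ ρ : ℝ),
    0 < δ → δ ≤ 1 / 16 → 0 < ρ → ρ ≤ 1 / 16 → ∀ x ∈ K.body,
    (∃ v, ¬ K.Outer p Φ v ∧ 1 - x v < 2 * ρ) ∨ (∃ v u, Act K p Φ v u ∧ x ∈ EZo K δ ρ v u) ∨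
      (∃ t ∈ K.tri, ¬ FT p Φ t ∧ x ∈ FZo K δ ρ t) ∨ x ∈ RZo K p Φ δ ρ

/-- open regions are contained in the closed ones and relatively open -/
def Stmt_OPN : Prop :=
  ∀ (V : Type) [Fintype V] [DecidableEq V] (K : Surf V) (p : V → E3) (Φ : Finset Aff) (δ ρ : ℝ),
    0 < δ → δ ≤ 1 / 16 → 0 < ρ → ρ ≤ 1 / 16 →
    (∀ v u, EZo K δ ρ v u ⊆ EZ K δ ρ v u) ∧ (∀ t, FZo K δ ρ t ⊆ FZ K δ ρ t) ∧
    RZo K p Φ δ ρ ⊆ RZ K p Φ δ ρ ∧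
    (∀ v, ∀ x ∈ K.body, 1 - x v < 2 * ρ → CZ K ρ v ∈ 𝓝[K.body] x) ∧
    (∀ v u, ∀ x ∈ EZo K δ ρ v u, EZo K δ ρ v u ∈ 𝓝[K.body] x) ∧
    (∀ t ∈ K.tri, ∀ x ∈ FZo K δ ρ t, FZo K δ ρ t ∈ 𝓝[K.body] x) ∧
    (∀ x ∈ RZo K p Φ δ ρ, RZo K p Φ δ ρ ∈ 𝓝[K.body] x)

/-- the closed regions are closed -/
def Stmt_CLO : Prop :=
  ∀ (V : Type) [Fintype V] [DecidableEq V] (K : Surf V) (p : V → E3) (Φ : Finset Aff) (δ ρ : ℝ),
    IsClosed K.body ∧ (∀ v, IsClosed (CZ K ρ v)) ∧ (∀ v u, IsClosed (EZ K δ ρ v u)) ∧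
      (∀ t, IsClosed (FZ K δ ρ t)) ∧ IsClosed (RZ K p Φ δ ρ)

/-- the pieces agree where the closed regions meet -/
def Stmt_AGR : Prop :=
  ∀ (V : Type) [Fintype V] [DecidableEq V] (K : Surf V) (p : V → E3) (Φ : Finset Aff)
    (δ ρ η : ℝ) (C : V → (V → ℝ) → E3) (E : V → V → (V → ℝ) → E3)
    (F : Finset V → (V → ℝ) → E3), Stage K p Φ δ ρ η C E F →
    (∀ v u, ¬ K.Outer p Φ v → ¬ K.Outer p Φ u → ∀ x ∈ CZ K ρ v, x ∈ CZ K ρ u → v = u) ∧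
    (∀ v a b, ¬ K.Outer p Φ v → Act K p Φ a b → ∀ x ∈ CZ K ρ v, x ∈ EZ K δ ρ a b →
      C v x = E a b x) ∧
    (∀ v, ¬ K.Outer p Φ v → ∀ t ∈ K.tri, ¬ FT p Φ t → ∀ x ∈ CZ K ρ v, x ∈ FZ K δ ρ t →
      C v x = F t x) ∧
    (∀ v u a b, Act K p Φ v u → Act K p Φ a b → ∀ x ∈ EZ K δ ρ v u, x ∈ EZ K δ ρ a b →
      E v u x = E a b x) ∧
    (∀ v u, Act K p Φ v u → ∀ t ∈ K.tri, ¬ FT p Φ t → ∀ x ∈ EZ K δ ρ v u, x ∈ FZ K δ ρ t →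
      E v u x = F t x) ∧
    (∀ v u, Act K p Φ v u → ∀ x ∈ EZ K δ ρ v u, x ∈ RZ K p Φ δ ρ → E v u x = lin p x) ∧
    (∀ t ∈ K.tri, ∀ t' ∈ K.tri, ¬ FT p Φ t → ¬ FT p Φ t' → ∀ x ∈ FZ K δ ρ t, x ∈ FZ K δ ρ t' →
      t = t') ∧
    (∀ t ∈ K.tri, ¬ FT p Φ t → ∀ x ∈ FZ K δ ρ t, x ∉ RZ K p Φ δ ρ)

/-- gluing -/
def Stmt_GLU : Prop :=
  ∀ (V : Type) [Fintype V] [DecidableEq V] (K : Surf V) (p : V → E3) (Φ : Finset Aff)
    (δ ρ η : ℝ) (C : V → (V → ℝ) → E3) (E : V → V → (V → ℝ) → E3)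
    (F : Finset V → (V → ℝ) → E3), Stage K p Φ δ ρ η C E F →
    ∃ D : (V → ℝ) → E3, Gl K p Φ δ ρ C E F D

/-- goodness in the modified regions -/
def Stmt_GOA : Prop :=
  ∀ (V : Type) [Fintype V] [DecidableEq V] (K : Surf V) (p : V → E3) (Φ : Finset Aff)
    (δ ρ η : ℝ) (C : V → (V → ℝ) → E3) (E : V → V → (V → ℝ) → E3)
    (F : Finset V → (V → ℝ) → E3) (D : (V → ℝ) → E3), Stage K p Φ δ ρ η C E F →
    Gl K p Φ δ ρ C E F D → ∀ x ∈ K.body, x ∉ RZo K p Φ δ ρ → GoodB K.body D x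

/-- modified points are near non-outer vertices -/
def Stmt_MOD : Prop :=
  ∀ (V : Type) [Fintype V] [DecidableEq V] (K : Surf V) (p : V → E3) (Φ : Finset Aff)
    (δ ρ η : ℝ) (C : V → (V → ℝ) → E3) (E : V → V → (V → ℝ) → E3)
    (F : Finset V → (V → ℝ) → E3) (D : (V → ℝ) → E3), K.Framed p Φ → Stage K p Φ δ ρ η C E F →
    Gl K p Φ δ ρ C E F D → ∀ x ∈ K.body, x ∉ RZo K p Φ δ ρ →
    ∃ v, ¬ K.Outer p Φ v ∧ ∀ φ ∈ Φ, ev φ (p v) ≠ 0 → ev φ (D x) < 0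

/-- the values lie in the polytope and near the map -/
def Stmt_INC : Prop :=
  ∀ (V : Type) [Fintype V] [DecidableEq V] (K : Surf V) (p : V → E3) (Φ : Finset Aff)
    (δ ρ η : ℝ) (C : V → (V → ℝ) → E3) (E : V → V → (V → ℝ) → E3)
    (F : Finset V → (V → ℝ) → E3) (D : (V → ℝ) → E3), K.Framed p Φ → Stage K p Φ δ ρ η C E F →
    Gl K p Φ δ ρ C E F D → ∀ x ∈ K.body, D x ∈ hull Φ ∧ ‖D x - lin p x‖ < η

/-- the rest -/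
def Stmt_RSA : Prop :=
  ∀ (V : Type) [Fintype V] [DecidableEq V] (K : Surf V) (p : V → E3) (Φ : Finset Aff)
    (δ ρ : ℝ) (D : (V → ℝ) → E3), K.Framed p Φ → 0 < δ → δ ≤ 1 / 16 → 0 < ρ → ρ ≤ 1 / 16 →
    (∀ x ∈ RZ K p Φ δ ρ, D x = lin p x) → ∀ x ∈ RZo K p Φ δ ρ,
    OutB Φ K.body D x ∧
      ((∀ φ ∈ Φ, ∀ ψ ∈ Φ, ev φ (D x) = 0 → ev ψ (D x) = 0 → φ = ψ) → GoodB K.body D x)

/-- extreme points lie on two facets -/
def Stmt_EXA : Prop :=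
  ∀ (Φ : Finset Aff) (e : E3), e ∈ extremePoints ℝ (hull Φ) →
    ∃ φ ∈ Φ, ∃ ψ ∈ Φ, φ ≠ ψ ∧ ev φ e = 0 ∧ ev ψ e = 0

/-- points of the body over an extreme point are vertices -/
def Stmt_EXB : Prop :=
  ∀ (V : Type) [Fintype V] [DecidableEq V] (K : Surf V) (p : V → E3) (Φ : Finset Aff),
    K.Framed p Φ → ∀ x ∈ K.body, ∀ y ∈ K.body, lin p x = lin p y →
      lin p x ∈ extremePoints ℝ (hull Φ) → x = y

def Stmt_PLY : Prop :=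
  ∀ (V : Type) [Fintype V] [DecidableEq V] (K : Surf V) (p : V → E3) (Φ : Finset Aff),
    K.Framed p Φ → TSM.Poly Φ

/-- BLOCK A -/
def Stmt_StageOut : Prop :=
  ∀ (V : Type) [Fintype V] [DecidableEq V] (K : Surf V) (p : V → E3) (Φ : Finset Aff)
    (δ ρ η : ℝ) (C : V → (V → ℝ) → E3) (E : V → V → (V → ℝ) → E3)
    (F : Finset V → (V → ℝ) → E3), K.Framed p Φ → Stage K p Φ δ ρ η C E F →
    ∃ D : K.body → E3, PreSmooth Φ D ∧ ∀ x, ‖D x - K.map p x‖ < η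

end Pool.Agent.TSR2
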