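import Pool.Agent.TSR2.StmtsE
import Pool.Agent.TSR2.CDefs

/-!
# TSR2: exact statements, blocks C (cores), D (edges of the surface), F (faces), S (selection)
-/

set_option autoImplicit false

open scoped RealInnerProductSpace

namespace Pool.Agent.TSR2

open Pool.Agent.TSM Pool.Agent.TSP Set Filter Topology

/-! ### Block C: cores -/

def Stmt_CCO : Prop :=
  ∀ (V : Type) [Fintype V] [DecidableEq V] (K : Surf V) (p : V → E3) (Φ : Finset Aff)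
    (δ R M r : ℝ) (G : Dat V) (Dv : V → E3 → E3), 0 < r → G.Core K p Φ δ R M r Dv →
    ∀ v, ¬ K.Outer p Φ v → ∀ ρ : ℝ, ρ ≤ 1 / 16 → ContinuousOn (Dc p r Dv v) (CZ K ρ v)

def Stmt_CGO : Prop :=
  ∀ (V : Type) [Fintype V] [DecidableEq V] (K : Surf V) (p : V → E3) (Φ : Finset Aff)
    (δ R M r : ℝ) (G : Dat V) (Dv : V → E3 → E3), K.EmbStars p → 0 < r →
    G.Core K p Φ δ R M r Dv → ∀ v, ¬ K.Outer p Φ v → ∀ x ∈ K.body, 0 < x v →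
    GoodB K.body (Dc p r Dv v) x

def Stmt_CNE : Prop :=
  ∀ (V : Type) [Fintype V] [DecidableEq V] (K : Surf V) (p : V → E3) (Φ : Finset Aff)
    (δ R' M η : ℝ) (G : Dat V), 0 < η → Ev fun R r => ∀ Dv, G.Core K p Φ δ R' M r Dv →
    ∀ v, ¬ K.Outer p Φ v → ∀ x ∈ CZ K (R * r) v, ‖Dc p r Dv v x - lin p x‖ < η

def Stmt_CHA : Prop :=
  ∀ (V : Type) [Fintype V] [DecidableEq V] (K : Surf V) (p : V → E3) (Φ : Finset Aff)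
    (δ R M r : ℝ) (G : Dat V) (Dv : V → E3 → E3), 0 < r → G.Core K p Φ δ R M r Dv →
    ∀ v, ¬ K.Outer p Φ v → ∀ x ∈ K.body, 0 < x v → ∀ φ ∈ Φ, ev φ (p v) = 0 →
    ev φ (Dc p r Dv v x) ≤ 0

def Stmt_RCO : Prop :=
  ∀ (V : Type) [Fintype V] [DecidableEq V] (K : Surf V) (p : V → E3) (Φ : Finset Aff)
    (δ R' M : ℝ) (G : Dat V), 0 < δ → Ev fun R r => ∀ Dv, G.Core K p Φ δ R' M r Dv →
    ∀ x ∈ RZ K p Φ δ (R * r), ∀ v, ¬ K.Outer p Φ v → 1 - x v ≤ 2 * (R * r) →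
    Dc p r Dv v x = lin p x

/-! ### Block D: edges of the surface -/

/-- the hinge is a graph over the plane orthogonal to `b` -/
def Stmt_HIN : Prop :=
  ∀ (α β : Aff) (b y y' : E3) (s : ℝ), 0 < ⟪α.1, b⟫ → 0 < ⟪β.1, b⟫ → y - y' = s • b →
    min (ev α y) (ev β y) = 0 → min (ev α y') (ev β y') = 0 → y = y'

def Stmt_DGO : Prop :=
  ∀ (V : Type) [Fintype V] [DecidableEq V] (K : Surf V) (p : V → E3) (Φ : Finset Aff)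
    (δ c₀ ε : ℝ) (G : Dat V), K.Framed p Φ → G.Sel K p Φ δ c₀ ε → Ev fun R r =>
    ∀ v u, Act K p Φ v u → ∀ x ∈ EZo K δ (R * r) v u, GoodB K.body (G.De K p r v u) x

def Stmt_DNE : Prop :=
  ∀ (V : Type) [Fintype V] [DecidableEq V] (K : Surf V) (p : V → E3) (Φ : Finset Aff)
    (c₀ η : ℝ), K.Framed p Φ → 0 < c₀ → 0 < η → ∃ ε₁ : ℝ, 0 < ε₁ ∧ ∀ (δ ε : ℝ) (G : Dat V),
    ε < ε₁ → G.Sel K p Φ δ c₀ ε → Ev fun R r =>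
    ∀ v u, Act K p Φ v u → ∀ x ∈ EZ K δ (R * r) v u, ‖G.De K p r v u x - lin p x‖ < η

def Stmt_DHA : Prop :=
  ∀ (V : Type) [Fintype V] [DecidableEq V] (K : Surf V) (p : V → E3) (Φ : Finset Aff)
    (c₀ : ℝ), K.Framed p Φ → 0 < c₀ → ∃ ε₁ : ℝ, 0 < ε₁ ∧ ∀ (δ ε : ℝ) (G : Dat V),
    ε < ε₁ → G.Sel K p Φ δ c₀ ε → Ev fun R r =>
    ∀ v u, Act K p Φ v u → ∀ x ∈ EZ K δ (R * r) v u, ∀ φ ∈ Φ, ev φ (G.De K p r v u x) ≤ 0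

def Stmt_DCO : Prop :=
  ∀ (V : Type) [Fintype V] [DecidableEq V] (K : Surf V) (p : V → E3) (Φ : Finset Aff)
    (δ c₀ ε R' M : ℝ) (G : Dat V), K.Framed p Φ → G.Sel K p Φ δ c₀ ε → Ev fun R r =>
    ∀ Dv, G.Core K p Φ δ R' M r Dv → ∀ v u, ¬ K.Outer p Φ v → Act K p Φ v u →
    ∀ x ∈ EZ K δ (R * r) v u, 1 - x v ≤ 2 * (R * r) → G.De K p r v u x = Dc p r Dv v x

def Stmt_DFA : Prop :=
  ∀ (V : Type) [Fintype V] [DecidableEq V] (K : Surf V) (p : V → E3) (Φ : Finset Aff)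
    (δ c₀ ε : ℝ) (G : Dat V), K.Framed p Φ → G.Sel K p Φ δ c₀ ε → Ev fun R r =>
    ∀ v u w, Tri K v u w → ¬ FT p Φ {v, u, w} → ∀ x ∈ EZ K δ (R * r) v u,
    x ∈ FZ K δ (R * r) {v, u, w} → G.De K p r v u x = G.Df K p r {v, u, w} x

def Stmt_DRE : Prop :=
  ∀ (V : Type) [Fintype V] [DecidableEq V] (K : Surf V) (p : V → E3) (Φ : Finset Aff)
    (δ c₀ ε : ℝ) (G : Dat V), K.Framed p Φ → G.Sel K p Φ δ c₀ ε → Ev fun R r =>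
    ∀ v u w, Tri K v u w → FT p Φ {v, u, w} → Act K p Φ v u → ∀ x ∈ EZ K δ (R * r) v u,
    (∀ q, q ∉ ({v, u, w} : Finset V) → x q = 0) → δ * min (x v) (x u) ≤ x w →
    G.De K p r v u x = lin p x

/-! ### Block F: faces -/

/-- properties of the cut-off -/
def Stmt_THL : Prop :=
  (∀ a c : ℝ, 0 ≤ th a c ∧ th a c ≤ 1) ∧
  (∀ a c : ℝ, 0 ≤ a → 0 < c → 8 * a ≤ c → th a c = 1) ∧
  (∀ a c : ℝ, 0 ≤ a → c ≤ 4 * a → th a c = 0) ∧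
  (∀ a c s : ℝ, 0 < s → th (s * a) (s * c) = th a c) ∧
  (∀ m a c a' c' : ℝ, 0 < m → 0 ≤ a → 0 ≤ c → 0 ≤ a' → 0 ≤ c' → m ≤ max a c → m ≤ max a' c' →
    |th a c - th a' c'| ≤ 20 / m * (|a - a'| + |c - c'|))

/-- properties of the field on a triangle -/
def Stmt_BHF : Prop :=
  ∀ (V : Type) [Fintype V] [DecidableEq V] (K : Surf V) (p : V → E3), K.EmbStars p →
    ∀ v u w v' u' w', Hex K v u w v' u' w' → Bent p v u w w' → Bent p v w u u' →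
    Bent p u w v v' →
    (∀ x, ⟪nt p {v, u, w}, bH p v u w v' u' w' x⟫ = 1) ∧
    (∃ Λ : ℝ, ∀ x, ‖bH p v u w v' u' w' x‖ ≤ Λ) ∧
    (∃ L : ℝ, 0 ≤ L ∧ ∀ (m : ℝ) (x y : V → ℝ), 0 < m → (∀ q, 0 ≤ x q) → (∀ q, 0 ≤ y q) →
      (m ≤ max (x w) (min (x v) (x u)) ∧ m ≤ max (x u) (min (x v) (x w)) ∧
        m ≤ max (x v) (min (x u) (x w))) →
      (m ≤ max (y w) (min (y v) (y u)) ∧ m ≤ max (y u) (min (y v) (y w)) ∧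
        m ≤ max (y v) (min (y u) (y w))) →
      ‖bH p v u w v' u' w' x - bH p v u w v' u' w' y‖ ≤
        L / m * (|x v - y v| + |x u - y u| + |x w - y w|))

/-- the field near a vertex and near an edge -/
def Stmt_BHL : Prop :=
  ∀ (V : Type) [Fintype V] [DecidableEq V] (p : V → E3) (v u w v' u' w' : V) (x : V → ℝ),
    (∀ q, 0 ≤ x q) →
    (x u ≤ x v → x w ≤ x v →
      bH p v u w v' u' w' x = bL p v u w w' u' (x w) (x u)) ∧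
    (0 < x v → 0 < x u → 8 * x w ≤ min (x v) (x u) →
      bH p v u w v' u' w' x = sg p {v, u, w} v w' • bE p v u w w') ∧
    ∀ s a c : ℝ, 0 < s → bL p v u w w' u' (s * a) (s * c) = bL p v u w w' u' a c

/-- slope of the plane of a triangle along the field -/
def Stmt_FSL : Prop :=
  ∀ (V : Type) [Fintype V] [DecidableEq V] (K : Surf V) (p : V → E3) (Φ : Finset Aff)
    (Q : Finset V → Aff), K.Framed p Φ → ∃ c₁ : ℝ, 0 < c₁ ∧ ∀ᶠ r in 𝓝[>] (0 : ℝ),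
    ∀ v u w v' u' w', Hex K v u w v' u' w' → ¬ FT p Φ {v, u, w} → ∀ x,
    c₁ ≤ ⟪(prl p Q r {v, u, w}).1, bH p v u w v' u' w' x⟫

/-- barycentric coordinates are Lipschitz -/
def Stmt_BAR : Prop :=
  ∀ (V : Type) [Fintype V] [DecidableEq V] (K : Surf V) (p : V → E3), K.EmbStars p →
    ∃ C : ℝ, 0 ≤ C ∧ ∀ t ∈ K.tri, ∀ x ∈ K.body, ∀ y ∈ K.body, (∀ q, q ∉ t → x q = 0) →
    (∀ q, q ∉ t → y q = 0) → ∀ q, |x q - y q| ≤ C * ‖lin p x - lin p y‖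

/-- bound of the displacement on the triangles -/
def Stmt_FTZ : Prop :=
  ∀ (V : Type) [Fintype V] [DecidableEq V] (K : Surf V) (p : V → E3) (Φ : Finset Aff)
    (Q : Finset V → Aff), K.Framed p Φ → ∃ C : ℝ, 0 ≤ C ∧ ∀ᶠ r in 𝓝[>] (0 : ℝ),
    ∀ v u w v' u' w', Hex K v u w v' u' w' → ¬ FT p Φ {v, u, w} → ∀ x ∈ K.body,
    (∀ q, q ∉ ({v, u, w} : Finset V) → x q = 0) →
    |tz (bH p v u w v' u' w' x) (prl p Q r {v, u, w}) (lin p x)| ≤ C * r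

def Stmt_FBD : Prop :=
  ∀ (V : Type) [Fintype V] [DecidableEq V] (K : Surf V) (p : V → E3) (Φ : Finset Aff)
    (G : Dat V), K.Framed p Φ → ∃ C : ℝ, 0 ≤ C ∧ ∀ᶠ r in 𝓝[>] (0 : ℝ), ∀ t ∈ K.tri,
    ¬ FT p Φ t → ∀ x ∈ K.body, (∀ q, q ∉ t → x q = 0) → ‖G.Df K p r t x - lin p x‖ ≤ C * r

def Stmt_FCN : Prop :=
  ∀ (V : Type) [Fintype V] [DecidableEq V] (K : Surf V) (p : V → E3) (Φ : Finset Aff)
    (G : Dat V), K.Framed p Φ → ∀ᶠ r in 𝓝[>] (0 : ℝ), ∀ ρ : ℝ, 0 < ρ → ∀ t ∈ K.tri,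
    ¬ FT p Φ t → ∀ δ : ℝ, ContinuousOn (G.Df K p r t) (FZ K δ ρ t)

def Stmt_FGD : Prop :=
  ∀ (V : Type) [Fintype V] [DecidableEq V] (K : Surf V) (p : V → E3) (Φ : Finset Aff)
    (G : Dat V) (δ : ℝ), K.Framed p Φ → 0 < δ → Ev fun R r => ∀ t ∈ K.tri, ¬ FT p Φ t →
    ∀ x ∈ FZo K δ (R * r) t, GoodB K.body (G.Df K p r t) x

def Stmt_FHA : Prop :=
  ∀ (V : Type) [Fintype V] [DecidableEq V] (K : Surf V) (p : V → E3) (Φ : Finset Aff)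
    (G : Dat V) (δ : ℝ), K.Framed p Φ → 0 < δ → δ ≤ 1 / 16 → Ev fun R r => ∀ t ∈ K.tri,
    ¬ FT p Φ t → ∀ x ∈ FZ K δ (R * r) t, ∀ φ ∈ Φ, ev φ (G.Df K p r t x) ≤ 0

def Stmt_FCO : Prop :=
  ∀ (V : Type) [Fintype V] [DecidableEq V] (K : Surf V) (p : V → E3) (Φ : Finset Aff)
    (δ R' M : ℝ) (G : Dat V), K.Framed p Φ → 0 < δ → Ev fun R r =>
    ∀ Dv, G.Core K p Φ δ R' M r Dv → ∀ t ∈ K.tri, ¬ FT p Φ t → ∀ x ∈ FZ K δ (R * r) t,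
    ∀ v ∈ t, 1 - x v ≤ 2 * (R * r) → G.Df K p r t x = Dc p r Dv v x

/-! ### all fields together -/

def Stmt_STG : Prop :=
  ∀ (V : Type) [Fintype V] [DecidableEq V] (K : Surf V) (p : V → E3) (Φ : Finset Aff)
    (c₀ : ℝ), K.Framed p Φ → 0 < c₀ → ∃ η₀ : ℝ, 0 < η₀ ∧ ∀ η : ℝ, 0 < η → η ≤ η₀ →
    ∃ ε₁ : ℝ, 0 < ε₁ ∧ ∀ (δ ε : ℝ) (G : Dat V), ε < ε₁ → 0 < δ → δ ≤ 1 / 16 →
    G.Sel K p Φ δ c₀ ε → ∀ R' M : ℝ, Ev fun R r => ∀ Dv, G.Core K p Φ δ R' M r Dv →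
    Stage K p Φ δ (R * r) η (Dc p r Dv) (G.De K p r) (G.Df K p r)

/-! ### Block S: selection -/

/-- a plane function with prescribed values at three points -/
def Stmt_PTR : Prop :=
  ∀ (a b c : E3) (x y z : ℝ), crs (b - a) (c - a) ≠ 0 →
    ∃ Q : Aff, ev Q a = x ∧ ev Q b = y ∧ ev Q c = z

/-- generic normals -/
def Stmt_GCH : Prop :=
  ∀ (I : Type) [Fintype I] [DecidableEq I] (q : I → E3) (N : I → E3) (S : Finset E3) (η : ℝ),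
    0 < η → (∀ m ∈ S, m ≠ 0) → ∃ N' : I → E3, (∀ i, ‖N' i - N i‖ < η) ∧
    (∀ m ∈ S, ∀ i j, i ≠ j → det3 m (N' i) (N' j) ≠ 0) ∧
    (∀ i j k, i ≠ j → i ≠ k → j ≠ k → det3 (N' i) (N' j) (N' k) ≠ 0) ∧
    (∀ i i' j j', i ≠ i' → j ≠ j' → q i = q i' → q j = q j' → q i ≠ q j → ∀ y : E3,
      ⟪N' i, y - q i⟫ = 0 → ⟪N' i', y - q i⟫ = 0 → ⟪N' j, y - q j⟫ = 0 →
      ⟪N' j', y - q j⟫ = 0 → False)

section
variable {V : Type} [Fintype V] [DecidableEq V]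

/-- the label `n` is used at the vertex `v` -/
def Lab (Ch : V → V → Finset ℕ) (i : V × ℕ) : Prop := ∃ u, i.2 ∈ Ch i.1 u

/-- the chamfer normals are generic -/
structure GenN (K : Surf V) (p : V → E3) (Ch : V → V → Finset ℕ) (N : V → ℕ → E3) : Prop where
  g1 : ∀ i j : V × ℕ, Lab Ch i → Lab Ch j → i ≠ j → ∀ t ∈ K.tri,
    det3 (pl0 p t).1 (N i.1 i.2) (N j.1 j.2) ≠ 0
  g2 : ∀ i j k : V × ℕ, Lab Ch i → Lab Ch j → Lab Ch k → i ≠ j → i ≠ k → j ≠ k →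
    det3 (N i.1 i.2) (N j.1 j.2) (N k.1 k.2) ≠ 0
  g3 : ∀ (v u : V) (n n' m m' : ℕ), Lab Ch (v, n) → Lab Ch (v, n') → Lab Ch (u, m) →
    Lab Ch (u, m') → n ≠ n' → m ≠ m' → p v ≠ p u → ∀ y : E3, ⟪N v n, y - p v⟫ = 0 →
    ⟪N v n', y - p v⟫ = 0 → ⟪N u m, y - p u⟫ = 0 → ⟪N u m', y - p u⟫ = 0 → False

end

/-- the local resolution theorem in terms of the star of a vertex -/
def Stmt_VR : Prop :=
  ∀ (V : Type) [Fintype V] [DecidableEq V] (K : Surf V) (p : V → E3) (Φ : Finset Aff),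
    K.Framed p Φ → ∀ v, ¬ K.Outer p Φ v → ∃ δ₀ c₀ : ℝ, 0 < δ₀ ∧ 0 < c₀ ∧
    ∀ δ ε : ℝ, 0 < δ → δ < δ₀ → 0 < ε → ∃ (Ch : V → Finset ℕ) (N : ℕ → E3) (ω : V → ℝ)
      (o : Finset V → ℝ) (oN : ℕ → ℝ) (η R M : ℝ), 0 < η ∧ 0 < R ∧
      VCh K p Φ v δ c₀ ε Ch N ω ∧
      ∀ (A : Finset V → Aff) (B : ℕ → Aff), VNear K p Φ v Ch N o oN η A B →
        ∃ D : E3 → E3, VOut K p Φ v δ R M Ch ω A B D

/-- the same, uniformly for all vertices -/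
def Stmt_VRU : Prop :=
  ∀ (V : Type) [Fintype V] [DecidableEq V] (K : Surf V) (p : V → E3) (Φ : Finset Aff),
    K.Framed p Φ → ∀ c₁ : ℝ, 0 < c₁ → ∃ δ c₀ : ℝ, 0 < δ ∧ δ ≤ 1 / 16 ∧ 0 < c₀ ∧ c₀ ≤ c₁ ∧
    ∀ ε : ℝ, 0 < ε → ∃ (Ch : V → V → Finset ℕ) (N : V → ℕ → E3) (ω : V → V → ℝ)
      (o : V → Finset V → ℝ) (oN : V → ℕ → ℝ) (η R M : ℝ), 0 < η ∧ 0 < R ∧ 0 ≤ M ∧
      ∀ v, ¬ K.Outer p Φ v → VCh K p Φ v δ c₀ ε (Ch v) (N v) (ω v) ∧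
      ∀ (A : Finset V → Aff) (B : ℕ → Aff), VNear K p Φ v (Ch v) (N v) (o v) (oN v) η A B →
        ∃ D : E3 → E3, VOut K p Φ v δ R M (Ch v) (ω v) A B D

/-- generic perturbation of the chamfers -/
def Stmt_SGN : Prop :=
  ∀ (V : Type) [Fintype V] [DecidableEq V] (K : Surf V) (p : V → E3) (Φ : Finset Aff)
    (δ c₀ ε η : ℝ) (Ch : V → V → Finset ℕ) (N : V → ℕ → E3) (ω : V → V → ℝ), 0 < η →
    K.EmbStars p → (∀ v, ¬ K.Outer p Φ v → VCh K p Φ v δ c₀ ε (Ch v) (N v) (ω v)) →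
    ∃ N' : V → ℕ → E3, (∀ v n, ‖N' v n - N v n‖ < η) ∧ GenN K p Ch N' ∧
      ∀ v, ¬ K.Outer p Φ v → VCh K p Φ v δ c₀ ε (Ch v) (N' v) (ω v)

/-- the conditions on the edges -/
def Stmt_SEK : Prop :=
  ∀ (V : Type) [Fintype V] [DecidableEq V] (K : Surf V) (p : V → E3) (Φ : Finset Aff),
    K.Framed p Φ → ∃ c₁ : ℝ, 0 < c₁ ∧ ∀ δ c₀ : ℝ, 0 < δ → δ ≤ 1 / 16 → 0 < c₀ → c₀ ≤ c₁ →
    ∃ ε₀ : ℝ, 0 < ε₀ ∧ ∀ ε : ℝ, 0 < ε → ε < ε₀ → ∀ G : Dat V,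
    (∀ v, ¬ K.Outer p Φ v → VCh K p Φ v δ c₀ ε (G.Ch v) (G.N v) (G.ω v)) →
    GenN K p G.Ch G.N → ∀ v u w w', Quad K v u w w' → Act K p Φ v u →
    (G.ed p v u w w').Ok δ c₀ ε

def Stmt_SEL : Prop :=
  ∀ (V : Type) [Fintype V] [DecidableEq V] (K : Surf V) (p : V → E3) (Φ : Finset Aff),
    K.Framed p Φ → ∃ δ c₀ : ℝ, 0 < δ ∧ δ ≤ 1 / 16 ∧ 0 < c₀ ∧ ∃ ε₀ : ℝ, 0 < ε₀ ∧
    ∀ ε : ℝ, 0 < ε → ε < ε₀ → ∃ G : Dat V, G.Sel K p Φ δ c₀ ε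

end Pool.Agent.TSR2
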