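import Pool.Agent.TSR2.Stmts

/-!
# TSR2: exact statements, block E (abstract edges)
-/

set_option autoImplicit false

open scoped RealInnerProductSpace

namespace Pool.Agent.TSR2

open Pool.Agent.TSM Pool.Agent.TSP Set Filter Topology

/-- slopes: for small `r` all planes increase along `b` with speed at least `c₀ / 2` -/
def Stmt_ESL : Prop :=
  ∀ (I J : Type) [Fintype I] [Nonempty I] [Fintype J] [Nonempty J] (X : Ed I J) (δ c₀ ε : ℝ),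
    X.Ok δ c₀ ε → ∀ᶠ r in 𝓝[>] (0 : ℝ), c₀ / 2 ≤ ⟪(X.α r).1, X.b⟫ ∧ c₀ / 2 ≤ ⟪(X.β r).1, X.b⟫ ∧
      (∀ i, c₀ / 2 ≤ ⟪(X.ζ r i).1, X.b⟫) ∧ ∀ j, c₀ / 2 ≤ ⟪(X.ξ r j).1, X.b⟫

/-- bound of the displacement -/
def Stmt_EBD : Prop :=
  ∀ (I J : Type) [Fintype I] [Nonempty I] [Fintype J] [Nonempty J] (X : Ed I J) (δ c₀ ε : ℝ),
    X.Ok δ c₀ ε → ∃ C : ℝ, 0 ≤ C ∧ ∀ᶠ r in 𝓝[>] (0 : ℝ), ∀ a c : ℝ, 0 ≤ a → 0 ≤ c → a + c ≤ 1 →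
      |X.t r (X.pt a c)| ≤ (2 / c₀) * (ε * min c (1 - a - c)) + C * r

/-- away from the edge only the plane of the triangle counts -/
def Stmt_ERA : Prop :=
  ∀ (I J : Type) [Fintype I] [Nonempty I] [Fintype J] [Nonempty J] (X : Ed I J) (δ c₀ ε : ℝ),
    X.Ok δ c₀ ε → Ev fun R r => ∀ a c : ℝ, InE δ (R * r) a c →
      (δ * c ≤ a ∨ δ * (1 - a - c) ≤ a) → X.t r (X.pt a c) = tz X.b (X.α r) (X.pt a c)

/-- near `v` the chamfers at `u` do not count -/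
def Stmt_ENV : Prop :=
  ∀ (I J : Type) [Fintype I] [Nonempty I] [Fintype J] [Nonempty J] (X : Ed I J) (δ c₀ ε : ℝ),
    X.Ok δ c₀ ε → Ev fun R r => ∀ a c : ℝ, InE δ (R * r) a c → a + c ≤ 2 * (R * r) →
      X.t r (X.pt a c) = tW X.b (X.α r) (X.β r) (X.ζ r) (X.pt a c)

/-- outside the core of `v` the resolved point is far from `v` -/
def Stmt_EAW : Prop :=
  ∀ (I J : Type) [Fintype I] [Nonempty I] [Fintype J] [Nonempty J] (X : Ed I J) (δ c₀ ε : ℝ),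
    X.Ok δ c₀ ε → ∃ κ : ℝ, 0 < κ ∧ Ev fun R r => ∀ a c : ℝ, InE δ (R * r) a c →
      κ * (R * r) ≤ ‖X.D r (X.pt a c) - X.v‖

/-- three planes through `q` meet near `q` -/
def Stmt_TRP : Prop :=
  ∀ (P₀ P₁ Q₀ Q₁ S₀ S₁ : Aff) (q : E3), Indep P₀ Q₀ S₀ → ev P₀ q = 0 → ev Q₀ q = 0 →
    ev S₀ q = 0 → ∃ C : ℝ, ∀ᶠ r in 𝓝[>] (0 : ℝ), ∀ y, ev (P₀ + r • P₁) y = 0 →
      ev (Q₀ + r • Q₁) y = 0 → ev (S₀ + r • S₁) y = 0 → ‖y - q‖ ≤ C * r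

/-- four planes without common point -/
def Stmt_QDR : Prop :=
  ∀ (P₀ P₁ Q₀ Q₁ S₀ S₁ T₀ T₁ : Aff), Indep P₀ Q₀ S₀ →
    (∀ y, ev P₀ y = 0 → ev Q₀ y = 0 → ev S₀ y = 0 → ev T₀ y = 0 → False) →
    ∀ᶠ r in 𝓝[>] (0 : ℝ), ∀ y, ev (P₀ + r • P₁) y = 0 → ev (Q₀ + r • Q₁) y = 0 →
      ev (S₀ + r • S₁) y = 0 → ev (T₀ + r • T₁) y = 0 → False

/-- independence is open -/
def Stmt_IOP : Prop :=
  ∀ (P₀ P₁ Q₀ Q₁ S₀ S₁ : Aff), Indep P₀ Q₀ S₀ →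
    ∀ᶠ r in 𝓝[>] (0 : ℝ), Indep (P₀ + r • P₁) (Q₀ + r • Q₁) (S₀ + r • S₁)

/-- normal forms of germs -/
def Stmt_GNF : Prop :=
  (∀ (z : E3) (F : E3 → ℝ) (P : Aff), P.1 ≠ 0 → (∀ᶠ y in 𝓝 z, F y = 0 → ev P y = 0) →
    Ger z F) ∧
  (∀ (z : E3) (F : E3 → ℝ) (P Q : Aff), Indep2 P.1 Q.1 →
    (∀ᶠ y in 𝓝 z, F y = 0 → min (ev P y) (ev Q y) = 0) → Ger z F) ∧
  (∀ (z : E3) (F : E3 → ℝ) (P Q : Aff), Indep2 P.1 Q.1 →
    (∀ᶠ y in 𝓝 z, F y = 0 → max (ev P y) (ev Q y) = 0) → Ger z F) ∧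
  (∀ (z : E3) (F : E3 → ℝ) (P Q S : Aff), Indep P Q S →
    (∀ᶠ y in 𝓝 z, F y = 0 → max (min (ev P y) (ev Q y)) (ev S y) = 0) → Ger z F) ∧
  (∀ (z : E3) (F : E3 → ℝ) (P Q S : Aff), Indep P Q S →
    (∀ᶠ y in 𝓝 z, F y = 0 → min (max (ev P y) (ev Q y)) (ev S y) = 0) → Ger z F)

section
variable {I J : Type}

/-- independence conditions on the planes at an edge -/
structure GrI (α β : Aff) (ζ : I → Aff) (ξ : J → Aff) : Prop where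
  z1 : ∀ i, Indep α β (ζ i)
  x1 : ∀ j, Indep α β (ξ j)
  z2 : ∀ i i', i ≠ i' → Indep α (ζ i) (ζ i') ∧ Indep β (ζ i) (ζ i')
  x2 : ∀ j j', j ≠ j' → Indep α (ξ j) (ξ j') ∧ Indep β (ξ j) (ξ j')
  zx : ∀ i j, Indep α (ζ i) (ξ j) ∧ Indep β (ζ i) (ξ j)
  zzx : ∀ i i' j, i ≠ i' → Indep (ζ i) (ζ i') (ξ j)
  zxx : ∀ i j j', j ≠ j' → Indep (ζ i) (ξ j) (ξ j')

/-- at `z` not too many planes vanish -/
structure GrE (α β : Aff) (ζ : I → Aff) (ξ : J → Aff) (z : E3) : Prop where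
  z1 : ∀ i, ev α z = 0 → ev β z = 0 → ev (ζ i) z = 0 → False
  x1 : ∀ j, ev α z = 0 → ev β z = 0 → ev (ξ j) z = 0 → False
  z2 : ∀ i i', i ≠ i' → (ev α z = 0 ∨ ev β z = 0) → ev (ζ i) z = 0 → ev (ζ i') z = 0 → False
  x2 : ∀ j j', j ≠ j' → (ev α z = 0 ∨ ev β z = 0) → ev (ξ j) z = 0 → ev (ξ j') z = 0 → False
  z3 : ∀ i i' i'', i ≠ i' → i ≠ i'' → i' ≠ i'' → ev (ζ i) z = 0 → ev (ζ i') z = 0 →
    ev (ζ i'') z = 0 → False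
  x3 : ∀ j j' j'', j ≠ j' → j ≠ j'' → j' ≠ j'' → ev (ξ j) z = 0 → ev (ξ j') z = 0 →
    ev (ξ j'') z = 0 → False
  q : ∀ i i' j j', i ≠ i' → j ≠ j' → ev (ζ i) z = 0 → ev (ζ i') z = 0 → ev (ξ j) z = 0 →
    ev (ξ j') z = 0 → False

end

/-- germ, first case: the chamfers do not count -/
def Stmt_GRA : Prop :=
  ∀ (I J : Type) [Fintype I] [Nonempty I] [Fintype J] [Nonempty J] (α β : Aff) (ζ : I → Aff)
    (ξ : J → Aff) (z : E3), GrI α β ζ ξ → FE α β ζ ξ z = 0 → 0 < max (mn ζ z) (mn ξ z) →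
    Ger z (FE α β ζ ξ)

/-- germ, second case: only the chamfers count -/
def Stmt_GRB : Prop :=
  ∀ (I J : Type) [Fintype I] [Nonempty I] [Fintype J] [Nonempty J] (α β : Aff) (ζ : I → Aff)
    (ξ : J → Aff) (z : E3), GrI α β ζ ξ → GrE α β ζ ξ z → max (mn ζ z) (mn ξ z) = 0 →
    0 < ev α z → 0 < ev β z → Ger z (FE α β ζ ξ)

/-- germ, third case -/
def Stmt_GRC : Prop :=
  ∀ (I J : Type) [Fintype I] [Nonempty I] [Fintype J] [Nonempty J] (α β : Aff) (ζ : I → Aff)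
    (ξ : J → Aff) (z : E3), GrI α β ζ ξ → GrE α β ζ ξ z → max (mn ζ z) (mn ξ z) = 0 →
    ev α z = 0 → 0 < ev β z → Ger z (FE α β ζ ξ)

/-- the germ of the edge function -/
def Stmt_GRM : Prop :=
  ∀ (I J : Type) [Fintype I] [Nonempty I] [Fintype J] [Nonempty J] (α β : Aff) (ζ : I → Aff)
    (ξ : J → Aff) (z : E3), GrI α β ζ ξ → GrE α β ζ ξ z → FE α β ζ ξ z = 0 →
    Ger z (FE α β ζ ξ)

/-- the independence conditions hold for small `r` -/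
def Stmt_EGI : Prop :=
  ∀ (I J : Type) [Fintype I] [Nonempty I] [Fintype J] [Nonempty J] (X : Ed I J) (δ c₀ ε : ℝ),
    X.Ok δ c₀ ε → ∀ᶠ r in 𝓝[>] (0 : ℝ), GrI (X.α r) (X.β r) (X.ζ r) (X.ξ r)

/-- the vanishing conditions hold for small `r` outside the cores -/
def Stmt_EGE : Prop :=
  ∀ (I J : Type) [Fintype I] [Nonempty I] [Fintype J] [Nonempty J] (X : Ed I J) (δ c₀ ε : ℝ),
    X.Ok δ c₀ ε → Ev fun R r => ∀ a c : ℝ, InE δ (R * r) a c →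
      GrE (X.α r) (X.β r) (X.ζ r) (X.ξ r) (X.D r (X.pt a c))

/-- the germ at the resolved points -/
def Stmt_EGM : Prop :=
  ∀ (I J : Type) [Fintype I] [Nonempty I] [Fintype J] [Nonempty J] (X : Ed I J) (δ c₀ ε : ℝ),
    X.Ok δ c₀ ε → Ev fun R r => ∀ a c : ℝ, InE δ (R * r) a c →
      (∀ y, X.F r (X.D r y) = 0) ∧ Ger (X.D r (X.pt a c)) (X.F r)

end Pool.Agent.TSR2
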