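import Pool.Agent.TSR2.VDefs
import Pool.Agent.TSR2.StmtsC

/-!
# TSR2: exact statements, block V (polygons and stars)
-/

set_option autoImplicit false

open scoped RealInnerProductSpace

namespace Pool.Agent.TSR2

open Pool.Agent.TSM Pool.Agent.TSP Set Filter Topology

/-! ### the canonical field of a polygon -/

/-- existence of the canonical field -/
def Stmt_CNF : Prop := ∀ (W : Type) [DecidableEq W] (L : Pg W), L.Ok → ∃ b, CanF L b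

/-- bounds of the canonical field -/
def Stmt_ADA : Prop :=
  ∀ (W : Type) [DecidableEq W] (L : Pg W) (b : E3 → E3), L.Ok → CanF L b →
    (∀ i ∈ L.S, L.nor i ≠ 0 ∧ ‖un L i‖ = 1 ∧ 0 < 1 + ⟪un L i, un L (L.s i)⟫ ∧
      ⟪un L i, dA L i⟫ = 1 ∧ ⟪un L (L.s i), dA L i⟫ = 1) ∧
    (∃ Λ : ℝ, ∀ x ∈ L.cone, x ≠ 0 → ‖b x‖ ≤ Λ) ∧
    ∃ c : ℝ, 0 < c ∧ ∀ i ∈ L.S, ∀ x ∈ L.face i, x ≠ 0 → c ≤ ⟪L.nor i, b x⟫

/-- Lipschitz estimate on one face -/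
def Stmt_FLP : Prop :=
  ∀ (W : Type) [DecidableEq W] (L : Pg W) (b : E3 → E3), L.Ok → CanF L b →
    ∃ Λ : ℝ, ∀ i ∈ L.S, ∀ x ∈ L.face i, ∀ y ∈ L.face i, x ≠ 0 → y ≠ 0 →
      ‖x‖ * ‖b x - b y‖ ≤ Λ * ‖x - y‖

/-- two faces meet at a positive angle -/
def Stmt_ANG : Prop :=
  ∀ (W : Type) [DecidableEq W] (L : Pg W), L.Ok → ∀ i ∈ L.S, ∀ j ∈ L.S, i ≠ j →
    ∃ C : ℝ, 0 ≤ C ∧ ∀ x ∈ L.face i, ∀ y ∈ L.face j, ∃ z, z ∈ L.face i ∧ z ∈ L.face j ∧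
      ‖x - z‖ + ‖y - z‖ ≤ C * ‖x - y‖

/-- the canonical field is admissible -/
def Stmt_ADF : Prop :=
  ∀ (W : Type) [DecidableEq W] (L : Pg W) (b : E3 → E3), L.Ok → CanF L b → L.Adm b

/-! ### consequences of the local resolution theorem -/

/-- labels of the chamfers are natural numbers -/
def Stmt_VM3 : Prop :=
  ∀ (W : Type) [DecidableEq W] (L : Pg W), L.Ok → ∀ b : E3 → E3, L.Adm b →
    ∃ μ ε₀ : ℝ, 0 < μ ∧ 0 < ε₀ ∧ ∀ ε : ℝ, 0 < ε → ε < ε₀ →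
    ∃ (Ch : W → Finset ℕ) (N : ℕ → E3), L.CondG μ ε Ch N ∧
      (∀ i ∈ L.S, L.turn i ≠ 0 → (Ch (L.s i)).Nonempty) ∧ L.Res Ch N ε b

def Stmt_KAP : Prop := Stmt_VM2 → Stmt_VM3

/-- the chamfers satisfy `PCh` -/
def Stmt_PGC : Prop :=
  ∀ (W : Type) [DecidableEq W] (L : Pg W) (μ : ℝ), L.Ok → 0 < μ → ∃ c₀ : ℝ, 0 < c₀ ∧
    ∀ δ ε : ℝ, 0 < δ → 0 < ε → ∃ ε' : ℝ, 0 < ε' ∧ ∀ (τ : ℝ) (Ch : W → Finset ℕ) (N : ℕ → E3),
    0 < τ → τ < ε' → L.CondG μ τ Ch N → (∀ i ∈ L.S, L.turn i ≠ 0 → (Ch (L.s i)).Nonempty) →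
    PCh L δ c₀ ε Ch N

/-- extension of the equation at an arm -/
def Stmt_PGE : Prop :=
  ∀ (W : Type) [DecidableEq W] (L : Pg W) (μ τ : ℝ) (Ch : W → Finset ℕ) (N : ℕ → E3)
    (o : W → ℝ) (oN : ℕ → ℝ), L.Ok → 0 < μ → 0 < τ → L.CondG μ τ Ch N →
    ∃ η R : ℝ, 0 < η ∧ 0 < R ∧ ∀ (A : W → Aff) (B : ℕ → Aff), L.Near Ch N o oN η A B →
    ∀ i ∈ L.S, L.turn i ≠ 0 → ∀ a c s : ℝ, 0 ≤ a → τ * c ≤ a → 8 * a ≤ c → R ≤ a + c →
    (ev (A i) (a • L.p i + c • L.p (L.s i) - s • dA L i) = 0 →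
      L.ArmEq Ch A B i (a • L.p i + c • L.p (L.s i) - s • dA L i)) ∧
    (ev (A (L.s i)) (a • L.p (L.s (L.s i)) + c • L.p (L.s i) - s • dA L i) = 0 →
      L.ArmEq Ch A B i (a • L.p (L.s (L.s i)) + c • L.p (L.s i) - s • dA L i))

/-- on the flat sector nothing moves -/
def Stmt_PGL : Prop :=
  ∀ (W : Type) [DecidableEq W] (L : Pg W) (b : E3 → E3) (τ R : ℝ) (Ch : W → Finset ℕ)
    (N : ℕ → E3) (μ : ℝ) (A : W → Aff) (B : ℕ → Aff) (D : E3 → E3), L.Ok → L.Adm b → 0 < τ →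
    τ ≤ 1 / 2 → L.CondG μ τ Ch N →
    (∀ m, L.X = some m → A m = (L.nor m, 0) ∧ ∀ q ∈ L.S, L.s q = m → A q = (L.nor q, 0)) →
    (∀ x ∈ L.cone, R ≤ ‖x‖ → (∃ t : ℝ, D x = x - t • b x) ∧ L.ZoneEq Ch A B τ x (D x)) →
    ∀ m, L.X = some m → ∀ q ∈ L.S, L.s q = m → ∀ a c : ℝ, 0 ≤ a → 0 ≤ c →
    (τ * a ≤ c → R ≤ ‖a • L.p q + c • L.p m‖ → 0 < R →
      D (a • L.p q + c • L.p m) = a • L.p q + c • L.p m) ∧
    (τ * c ≤ a → R ≤ ‖a • L.p m + c • L.p (L.s m)‖ → 0 < R →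
      D (a • L.p m + c • L.p (L.s m)) = a • L.p m + c • L.p (L.s m))

/-- the local resolution theorem for the canonical field -/
def Stmt_PGF : Prop :=
  ∀ (W : Type) [DecidableEq W] (L : Pg W) (b : E3 → E3), L.Ok → CanF L b → L.Adm b →
    ∃ δ₀ c₀ : ℝ, 0 < δ₀ ∧ 0 < c₀ ∧ ∀ δ ε : ℝ, 0 < δ → δ < δ₀ → 0 < ε →
    ∃ (Ch : W → Finset ℕ) (N : ℕ → E3) (o : W → ℝ) (oN : ℕ → ℝ) (η R M : ℝ), 0 < η ∧ 0 < R ∧
      OZ L o ∧ PCh L δ c₀ ε Ch N ∧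
      ∀ (A : W → Aff) (B : ℕ → Aff), L.Near Ch N o oN η A B →
        ∃ D : E3 → E3, PRes L δ R M Ch A B D

/-! ### translation to the star -/

def Stmt_TNR : Prop :=
  ∀ (V : Type) [Fintype V] [DecidableEq V] (K : Surf V) (p : V → E3) (Φ : Finset Aff) (v : V)
    (L : Pg (Option V)) (κ η : ℝ) (Ch : Option V → Finset ℕ) (N : ℕ → E3) (o : Option V → ℝ)
    (oN : ℕ → ℝ) (A : Finset V → Aff) (B : ℕ → Aff), K.EmbStars p → Dic K p Φ v L κ → 0 < η →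
    OZ L o → (none ∈ L.S → Ch none = ∅) →
    VNear K p Φ v (ChS Ch) N (oS p v L o) oN η A B → L.Near Ch N o oN η (apg p v L A) B

/-- direction and signs at an arm in terms of the polygon -/
def Stmt_TDA : Prop :=
  ∀ (V : Type) [Fintype V] [DecidableEq V] (K : Surf V) (p : V → E3) (Φ : Finset Aff) (v : V)
    (L : Pg (Option V)) (κ : ℝ), K.Framed p Φ → Dic K p Φ v L κ → ∀ u w w', Act K p Φ v u →
    Quad K v u w w' →
    ∃ i ∈ L.S, L.s i = some u ∧ L.turn i ≠ 0 ∧ ωS L u = Real.sign (L.turn i) ∧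
      bE p v u w w' = Real.sign (L.turn i) • dA L i ∧
      (¬ FT p Φ {v, u, w} → (i = some w ∧ ta p v w u * sg p {v, u, w} v w' =
          Real.sign (L.turn i)) ∨
        (L.s (some u) = some w ∧ ta p v u w * sg p {v, u, w} v w' = Real.sign (L.turn i))) ∧
      (FT p Φ {v, u, w} → L.X = some none ∧ (i = none ∨ L.s (some u) = none) ∧
        ∃ l : ℝ, 0 < l ∧ sg p {v, u, w} v w' • (pl0 p {v, u, w}).1 =
          (l * Real.sign (L.turn i)) • L.nor none)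

def Stmt_TCH : Prop :=
  ∀ (V : Type) [Fintype V] [DecidableEq V] (K : Surf V) (p : V → E3) (Φ : Finset Aff) (v : V)
    (L : Pg (Option V)) (κ δ c₀ ε : ℝ) (Ch : Option V → Finset ℕ) (N : ℕ → E3),
    K.Framed p Φ → Dic K p Φ v L κ → 0 < δ → δ ≤ κ / 64 →
    PCh L (κ * δ / 2) c₀ ε Ch N → VCh K p Φ v δ c₀ ε (ChS Ch) N (ωS L)

def Stmt_TAR : Prop :=
  ∀ (V : Type) [Fintype V] [DecidableEq V] (K : Surf V) (p : V → E3) (Φ : Finset Aff) (v : V)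
    (L : Pg (Option V)) (κ δ R M : ℝ) (Ch : Option V → Finset ℕ) (A : Finset V → Aff)
    (B : ℕ → Aff) (D : E3 → E3), K.Framed p Φ → Dic K p Φ v L κ → 0 < δ → δ ≤ κ / 64 → 0 < R →
    PRes L (κ * δ / 2) R M Ch (apg p v L A) B D →
    (∀ u w, Tri K v u w → FT p Φ {v, u, w} → A {v, u, w} = ((pl0 p {v, u, w}).1, 0)) →
    ∀ u w w', Quad K v u w w' → Act K p Φ v u → ∀ a c : ℝ, 0 ≤ a → a ≤ 2 * δ * c →
    4 * R / κ ≤ a + c →
    (∃ s : ℝ, D (a • (p w - p v) + c • (p u - p v)) =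
      a • (p w - p v) + c • (p u - p v) - s • bE p v u w w') ∧
    VArm p A B (ChS Ch) (ωS L) v u w w' (D (a • (p w - p v) + c • (p u - p v)))

def Stmt_TFC : Prop :=
  ∀ (V : Type) [Fintype V] [DecidableEq V] (K : Surf V) (p : V → E3) (Φ : Finset Aff) (v : V)
    (L : Pg (Option V)) (κ δ R M : ℝ) (Ch : Option V → Finset ℕ) (A : Finset V → Aff)
    (B : ℕ → Aff) (D : E3 → E3), K.Framed p Φ → Dic K p Φ v L κ → 0 < δ → δ ≤ κ / 64 → 0 < R →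
    PRes L (κ * δ / 2) R M Ch (apg p v L A) B D →
    ∀ u w w' u', Quad K v u w w' → Quad K v w u u' → ¬ FT p Φ {v, u, w} → ∀ a c : ℝ, 0 ≤ a →
    0 ≤ c → δ * c ≤ a → δ * a ≤ c → 4 * R / κ ≤ a + c →
    (∃ s : ℝ, D (a • (p w - p v) + c • (p u - p v)) =
      a • (p w - p v) + c • (p u - p v) - s • bL p v u w w' u' a c) ∧
    ev (A {v, u, w}) (D (a • (p w - p v) + c • (p u - p v))) = 0

def Stmt_TRS : Prop :=
  ∀ (V : Type) [Fintype V] [DecidableEq V] (K : Surf V) (p : V → E3) (Φ : Finset Aff) (v : V)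
    (L : Pg (Option V)) (κ δ R M : ℝ) (Ch : Option V → Finset ℕ) (A : Finset V → Aff)
    (B : ℕ → Aff) (D : E3 → E3), Dic K p Φ v L κ → 0 < δ → δ ≤ κ / 64 → 0 < R →
    PRes L (κ * δ / 2) R M Ch (apg p v L A) B D →
    ∀ u w, Tri K v u w → FT p Φ {v, u, w} → ∀ a c : ℝ, 0 ≤ a → 0 ≤ c →
    (Act K p Φ v u → δ * c ≤ a) → (Act K p Φ v w → δ * a ≤ c) → 4 * R / κ ≤ a + c →
    D (a • (p w - p v) + c • (p u - p v)) = a • (p w - p v) + c • (p u - p v)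

/-- `Half` in terms of the facet -/
def Stmt_THF : Prop :=
  ∀ (V : Type) [Fintype V] [DecidableEq V] (K : Surf V) (p : V → E3) (Φ : Finset Aff) (v : V)
    (L : Pg (Option V)) (κ : ℝ) (y : E3), Dic K p Φ v L κ → L.Half y → ∀ φ ∈ Φ,
    ev φ (p v) = 0 → ⟪φ.1, y⟫ ≤ 0

/-! ### the dictionary exists -/

/-- the combinatorics of the polygon of an inner vertex -/
def Stmt_ICB : Prop :=
  ∀ (V : Type) [Fintype V] [DecidableEq V] (K : Surf V) (p : V → E3) (v : V) (n : ℕ)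
    (c : ZMod n → V), IsLinkCycle K.tri v n c →
    (∀ i, some (c i) ∈ (inPg p v n c).S) ∧ (∀ x ∈ (inPg p v n c).S, ∃ i, x = some (c i)) ∧
    (∀ i, (inPg p v n c).s (some (c i)) = some (c (i + 1))) ∧
    (∀ i ∈ (inPg p v n c).S, (inPg p v n c).s i ∈ (inPg p v n c).S) ∧
    (∀ i ∈ (inPg p v n c).S, ∀ j ∈ (inPg p v n c).S,
      (inPg p v n c).s i = (inPg p v n c).s j → i = j) ∧
    (∀ i ∈ (inPg p v n c).S, ∀ j ∈ (inPg p v n c).S, ∃ k : ℕ, (inPg p v n c).s^[k] i = j) ∧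
    (inPg p v n c).S.card = n

/-- the polygon of an inner vertex -/
def Stmt_IOK : Prop :=
  ∀ (V : Type) [Fintype V] [DecidableEq V] (K : Surf V) (p : V → E3) (Φ : Finset Aff) (v : V)
    (n : ℕ) (c : ZMod n → V), K.Framed p Φ → K.Inner p Φ v → IsLinkCycle K.tri v n c →
    (inPg p v n c).Ok

/-- inner vertices -/
def Stmt_DIN : Prop :=
  ∀ (V : Type) [Fintype V] [DecidableEq V] (K : Surf V) (p : V → E3) (Φ : Finset Aff) (v : V)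
    (n : ℕ) (c : ZMod n → V), K.Framed p Φ → K.Inner p Φ v → IsLinkCycle K.tri v n c →
    Dic K p Φ v (inPg p v n c) 1

/-- corner data -/
def Stmt_COD : Prop :=
  ∀ (V : Type) [Fintype V] [DecidableEq V] (K : Surf V) (p : V → E3) (Φ : Finset Aff) (v : V),
    K.Corner p Φ v → ∃ (φ : Aff) (n : ℕ) (c : ZMod n → V) (m : ℕ), CorD K p Φ v φ n c m

/-- a planar fan which contains one direction opposite to the gap avoids the open gap -/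
def Stmt_FAN : Prop :=
  ∀ (ν : E3) (m : ℕ) (q : ℕ → E3), ν ≠ 0 → 2 ≤ m → (∀ i, i ≤ m → ⟪ν, q i⟫ = 0) →
    (∀ i, i < m → Indep2 (q i) (q (i + 1))) → Indep2 (q 0) (q m) →
    (∀ i j, i < j → j < m → ∀ s t s' t' : ℝ, 0 ≤ s → 0 ≤ t → 0 ≤ s' → 0 ≤ t' →
      s • q i + t • q (i + 1) = s' • q j + t' • q (j + 1) → s = 0 ∧ t' = 0) →
    (∃ (a b s t : ℝ) (i : ℕ), 0 < a ∧ 0 < b ∧ 0 ≤ s ∧ 0 ≤ t ∧ i < m ∧
      -(a • q 0 + b • q m) = s • q i + t • q (i + 1)) →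
    ∀ i, i < m → ∀ s t x y : ℝ, 0 ≤ s → 0 ≤ t → 0 < x → 0 < y →
      s • q i + t • q (i + 1) ≠ x • q 0 + y • q m

/-- the cones over the triangles of a star meet only in common faces -/
def Stmt_CSI : Prop :=
  ∀ (V : Type) [Fintype V] [DecidableEq V] (K : Surf V) (p : V → E3) (v : V) (n : ℕ)
    (c : ZMod n → V), K.EmbStars p → IsLinkCycle K.tri v n c → ∀ i j : ZMod n, i ≠ j →
    ∀ s t s' t' : ℝ, 0 ≤ s → 0 ≤ t → 0 ≤ s' → 0 ≤ t' →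
    s • (p (c i) - p v) + t • (p (c (i + 1)) - p v) =
      s' • (p (c j) - p v) + t' • (p (c (j + 1)) - p v) →
    (j = i + 1 ∧ s = 0 ∧ t' = 0) ∨ (i = j + 1 ∧ s' = 0 ∧ t = 0) ∨
      (s = 0 ∧ t = 0 ∧ s' = 0 ∧ t' = 0)

/-- the fan of a corner -/
def Stmt_CFN : Prop :=
  ∀ (V : Type) [Fintype V] [DecidableEq V] (K : Surf V) (p : V → E3) (Φ : Finset Aff) (v : V)
    (φ : Aff) (n : ℕ) (c : ZMod n → V) (m : ℕ), K.Framed p Φ → CorD K p Φ v φ n c m →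
    (∀ i : ℕ, i < m → ∀ s t x y : ℝ, 0 ≤ s → 0 ≤ t → 0 < x → 0 < y →
      s • (p (c i) - p v) + t • (p (c (i + 1 : ℕ)) - p v) ≠
        x • (p (c 0) - p v) + y • (p (c m) - p v)) ∧
    (∃ x y : ℝ, y < 0 ∧ p (c (1 : ℕ)) - p v = x • (p (c 0) - p v) + y • (p (c m) - p v)) ∧
    (∃ x y : ℝ, x < 0 ∧ p (c (m - 1 : ℕ)) - p v = x • (p (c 0) - p v) + y • (p (c m) - p v)) ∧
    (∀ i : ℕ, 0 < i → i < m → ∀ s t x : ℝ, 0 ≤ s → 0 ≤ t → 0 < x →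
      s • (p (c i) - p v) + t • (p (c (i + 1 : ℕ)) - p v) ≠ x • (p (c 0) - p v)) ∧
    (∀ i : ℕ, i + 1 < m → ∀ s t x : ℝ, 0 ≤ s → 0 ≤ t → 0 < x →
      s • (p (c i) - p v) + t • (p (c (i + 1 : ℕ)) - p v) ≠ x • (p (c m) - p v))

/-- the combinatorics of the polygon of a corner -/
def Stmt_CCB : Prop :=
  ∀ (V : Type) [Fintype V] [DecidableEq V] (K : Surf V) (p : V → E3) (Φ : Finset Aff) (v : V)
    (φ : Aff) (n : ℕ) (c : ZMod n → V) (m : ℕ) (b : ℝ), CorD K p Φ v φ n c m →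
    (∀ i : ℕ, m ≤ i → i ≤ n → some (c i) ∈ (cnPg p v n c m b).S) ∧
    (∀ x ∈ (cnPg p v n c m b).S, x = none ∨ ∃ i : ℕ, m ≤ i ∧ i ≤ n ∧ x = some (c i)) ∧
    (cnPg p v n c m b).s none = some (c m) ∧
    (∀ i : ℕ, m ≤ i → i < n → (cnPg p v n c m b).s (some (c i)) = some (c (i + 1 : ℕ))) ∧
    (cnPg p v n c m b).s (some (c (n : ℕ))) = none ∧
    (∀ i ∈ (cnPg p v n c m b).S, (cnPg p v n c m b).s i ∈ (cnPg p v n c m b).S) ∧
    (∀ i ∈ (cnPg p v n c m b).S, ∀ j ∈ (cnPg p v n c m b).S,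
      (cnPg p v n c m b).s i = (cnPg p v n c m b).s j → i = j) ∧
    (∀ i ∈ (cnPg p v n c m b).S, ∀ j ∈ (cnPg p v n c m b).S,
      ∃ k : ℕ, (cnPg p v n c m b).s^[k] i = j) ∧ 4 ≤ (cnPg p v n c m b).S.card

/-- triples of directions at a corner are independent -/
def Stmt_CGN : Prop :=
  ∀ (V : Type) [Fintype V] [DecidableEq V] (K : Surf V) (p : V → E3) (Φ : Finset Aff) (v : V)
    (φ : Aff) (n : ℕ) (c : ZMod n → V) (m : ℕ), K.Framed p Φ → CorD K p Φ v φ n c m →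
    (∀ i j k : ℕ, m ≤ i → i < j → j < k → k ≤ n →
      det3 (p (c i) - p v) (p (c j) - p v) (p (c k) - p v) ≠ 0) ∧
    ∃ b : ℝ, 0 < b ∧ ∀ i j : ℕ, m ≤ i → i < j → j ≤ n → ¬ (i = m ∧ j = n) →
      det3 (p (c i) - p v) (p (c j) - p v)
        (-((p (c 0) - p v) + b • (p (c m) - p v))) ≠ 0

/-- the polygon of a corner is simple -/
def Stmt_COS : Prop :=
  ∀ (V : Type) [Fintype V] [DecidableEq V] (K : Surf V) (p : V → E3) (Φ : Finset Aff) (v : V)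
    (φ : Aff) (n : ℕ) (c : ZMod n → V) (m : ℕ) (b : ℝ), K.Framed p Φ → CorD K p Φ v φ n c m →
    0 < b → ∀ i ∈ (cnPg p v n c m b).S, ∀ j ∈ (cnPg p v n c m b).S, i ≠ j →
    ∀ x, x ∈ (cnPg p v n c m b).face i → x ∈ (cnPg p v n c m b).face j →
    (j = (cnPg p v n c m b).s i ∧ ∃ a : ℝ, 0 ≤ a ∧ x = a • (cnPg p v n c m b).p j) ∨
    (i = (cnPg p v n c m b).s j ∧ ∃ a : ℝ, 0 ≤ a ∧ x = a • (cnPg p v n c m b).p i) ∨ x = 0

/-- the polygon of a corner -/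
def Stmt_COK : Prop :=
  ∀ (V : Type) [Fintype V] [DecidableEq V] (K : Surf V) (p : V → E3) (Φ : Finset Aff) (v : V)
    (φ : Aff) (n : ℕ) (c : ZMod n → V) (m : ℕ) (b : ℝ), K.Framed p Φ → CorD K p Φ v φ n c m →
    0 < b → (∀ i j : ℕ, m ≤ i → i < j → j ≤ n → ¬ (i = m ∧ j = n) →
      det3 (p (c i) - p v) (p (c j) - p v)
        (-((p (c 0) - p v) + b • (p (c m) - p v))) ≠ 0) → (cnPg p v n c m b).Ok

/-- the separation property at a corner -/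
def Stmt_CSP : Prop :=
  ∀ (V : Type) [Fintype V] [DecidableEq V] (K : Surf V) (p : V → E3) (Φ : Finset Aff) (v : V)
    (φ : Aff) (n : ℕ) (c : ZMod n → V) (m : ℕ) (b : ℝ), K.Framed p Φ → CorD K p Φ v φ n c m →
    0 < b → ∃ κ : ℝ, 0 < κ ∧ ∀ (i : ℕ), i < m → ∀ δ a d : ℝ, 0 < δ → δ ≤ 1 → 0 ≤ a → 0 ≤ d →
    (i = 0 → δ * d ≤ a) → (i + 1 = m → δ * a ≤ d) →
    ∃ a' c' : ℝ, 0 ≤ a' ∧ 0 ≤ c' ∧ κ * (a + d) ≤ a' + c' ∧
      ((a • (p (c (i + 1 : ℕ)) - p v) + d • (p (c i) - p v) = a' • (p (c 0) - p v) +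
        c' • (-((p (c 0) - p v) + b • (p (c m) - p v))) ∧ κ * δ * a' ≤ c') ∨
      (a • (p (c (i + 1 : ℕ)) - p v) + d • (p (c i) - p v) =
        a' • (-((p (c 0) - p v) + b • (p (c m) - p v))) + c' • (p (c m) - p v) ∧
        κ * δ * c' ≤ a'))

/-- the dictionary of a corner -/
def Stmt_DCR : Prop :=
  ∀ (V : Type) [Fintype V] [DecidableEq V] (K : Surf V) (p : V → E3) (Φ : Finset Aff) (v : V)
    (φ : Aff) (n : ℕ) (c : ZMod n → V) (m : ℕ), K.Framed p Φ → CorD K p Φ v φ n c m →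
    ∃ b κ : ℝ, Dic K p Φ v (cnPg p v n c m b) κ

end Pool.Agent.TSR2
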