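import Pool.Agent.TSR2.StmtsV

/-!
# TSR2, module TDA: direction and signs at an arm in terms of the polygon
-/

set_option autoImplicit false

open scoped RealInnerProductSpace

namespace Pool.Agent.TSR2

open Pool.Agent.TSM Pool.Agent.TSP Set Filter Topology

namespace TDA_

/-- uniqueness of unit normals -/
theorem unit_unique {a b x y z : E3} (hxy : Indep2 x y) (ha : ‖a‖ = 1) (hb : ‖b‖ = 1)
    (ax : ⟪a, x⟫ = 0) (ay : ⟪a, y⟫ = 0) (bx : ⟪b, x⟫ = 0) (bY : ⟪b, y⟫ = 0)
    (az : 0 < ⟪a, z⟫) (bz : 0 < ⟪b, z⟫) : a = b := by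
  have hb0 : b ≠ 0 := by
    rintro rfl
    rw [norm_zero] at hb
    exact zero_ne_one hb
  obtain ⟨t, ht⟩ := normal_multiple hb0 bx bY hxy ax ay
  have h1 : |t| = 1 := by
    have := ha
    rw [ht, norm_smul, hb, mul_one, Real.norm_eq_abs] at this
    exact this
  have h2 : 0 < t := by
    rw [ht, inner_smul_left] at az
    simp only [RCLike.conj_to_real] at az
    by_contra hcon
    push Not at hcon
    have := mul_nonneg_of_nonpos_of_nonpos hcon (neg_nonpos.2 bz.le)
    linarith
  rw [abs_of_pos h2] at h1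
  rw [ht, h1, one_smul]

theorem det_lin (U P S : E3) (X Y X' Y' : ℝ) :
    det3 U (X • P + Y • U) (X' • S + Y' • U) = X * X' * det3 U P S := by
  simp only [det3, PiLp.add_apply, PiLp.smul_apply, smul_eq_mul]
  ring

theorem det_132 (a b c : E3) : det3 a c b = -det3 a b c := by
  simp only [det3]
  ring

theorem det_213 (a b c : E3) : det3 b a c = -det3 a b c := by
  simp only [det3]
  ring

theorem det_231 (a b c : E3) : det3 b c a = det3 a b c := by
  simp only [det3]
  ring

theorem crs_lin (U P : E3) (X Y : ℝ) : crs U (X • P + Y • U) = X • crs U P := by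
  rw [crs_eq, crs_eq]
  apply ext3 <;> simp only [cr_zero, cr_one, cr_two, PiLp.smul_apply, PiLp.add_apply,
    smul_eq_mul] <;> ring

theorem sign_pos_mul {x y : ℝ} (hx : 0 < x) : Real.sign (x * y) = Real.sign y := by
  rcases lt_trichotomy y 0 with h | h | h
  · rw [Real.sign_of_neg h, Real.sign_of_neg (mul_neg_of_pos_of_neg hx h)]
  · rw [h, mul_zero]
  · rw [Real.sign_of_pos h, Real.sign_of_pos (mul_pos hx h)]

theorem sign_neg' (y : ℝ) : Real.sign (-y) = -Real.sign y := by
  rcases lt_trichotomy y 0 with h | h | h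
  · rw [Real.sign_of_neg h, Real.sign_of_pos (neg_pos.2 h)]
    norm_num
  · rw [h, neg_zero, Real.sign_zero, neg_zero]
  · rw [Real.sign_of_pos h, Real.sign_of_neg (neg_neg_of_pos h)]

theorem sign_unit_mul {s y : ℝ} (hs : s = 1 ∨ s = -1) : Real.sign (s * y) = s * Real.sign y := by
  rcases hs with rfl | rfl
  · rw [one_mul, one_mul]
  · rw [neg_one_mul, neg_one_mul, sign_neg']

theorem unit_sq {s : ℝ} (hs : s = 1 ∨ s = -1) : s * s = 1 := by
  rcases hs with rfl | rfl <;> norm_num

section
variable {V : Type} [Fintype V] [DecidableEq V]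

/-- one side of the edge `v u` -/
def Side (p : V → E3) (Φ : Finset Aff) (v : V) (L : Pg (Option V)) (u x : V)
    (l : Option V) (X Y : ℝ) : Prop :=
  l ∈ L.S ∧ (L.s (some u) = l ∨ L.s l = some u) ∧ 0 < X ∧
    p x - p v = X • L.p l + Y • (p u - p v) ∧
    ((¬ FT p Φ {v, u, x} ∧ l = some x) ∨
      (FT p Φ {v, u, x} ∧ l = none ∧ L.X = some none))

theorem exists_side {K : Surf V} {p : V → E3} {Φ : Finset Aff} {v : V} {L : Pg (Option V)}
    {κ : ℝ} (hD : Dic K p Φ v L κ) {u x : V} (hA : Act K p Φ v u) (hT : Tri K v u x) :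
    some u ∈ L.S ∧ ∃ l X Y, Side p Φ v L u x l X Y := by
  by_cases hF : FT p Φ {v, u, x}
  · obtain ⟨hX, huS, hn, a, b, ha, -, -, hab⟩ := hD.pck u x hT hF hA
    have hnS : none ∈ L.S := by
      rcases hD.typ with h | h
      · rw [h.1] at hX
        exact absurd hX (by simp)
      · exact h.2
    refine ⟨huS, none, a, b, hnS, ?_, lt_of_lt_of_le hD.k0 ha, ?_, Or.inr ⟨hF, rfl, hX⟩⟩
    · rcases hn with h | h
      · exact Or.inr h
      · exact Or.inl h
    · rw [hab, hD.pos u huS]
  · obtain ⟨huS, hxS, hn⟩ := hD.occ u x hT hF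
    refine ⟨huS, some x, 1, 0, hxS, hn, one_pos, ?_, Or.inl ⟨hF, rfl⟩⟩
    rw [hD.pos x hxS, one_smul, zero_smul, add_zero]

theorem side_ne {K : Surf V} {p : V → E3} {Φ : Finset Aff} {v : V} {L : Pg (Option V)}
    {u w w' : V} (hA : Act K p Φ v u) (hQ : Quad K v u w w') {l l' : Option V} {X Y X' Y' : ℝ}
    (h : Side p Φ v L u w l X Y) (h' : Side p Φ v L u w' l' X' Y') : l ≠ l' := by
  obtain ⟨-, -, -, -, h⟩ := h
  obtain ⟨-, -, -, -, h'⟩ := h'
  intro hll
  rcases h with ⟨h1, h2⟩ | ⟨h1, h2, -⟩
  · rcases h' with ⟨h3, h4⟩ | ⟨h3, h4, -⟩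
    · rw [h2, h4] at hll
      exact hQ.2.2 (Option.some_injective V hll)
    · rw [h2, h4] at hll
      exact absurd hll (by simp)
  · rcases h' with ⟨h3, h4⟩ | ⟨h3, h4, -⟩
    · rw [h2, h4] at hll
      exact absurd hll (by simp)
    · obtain ⟨x, hx1, hx2⟩ := hA
      rcases hQ.cases hx1 with rfl | rfl
      · exact hx2 h1
      · exact hx2 h3

/-- the main computation: `l` is the predecessor of `some u`, `l'` the successor; the sides are
`x` (at `l`) and `x'` (at `l'`) -/
theorem core {K : Surf V} {p : V → E3} {Φ : Finset Aff} {v : V} {L : Pg (Option V)}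
    {κ : ℝ} (hF : K.Framed p Φ) (hD : Dic K p Φ v L κ) {u x x' : V} (hQ : Quad K v u x x')
    (hB : Bent p v u x x') (huS : some u ∈ L.S) {l : Option V} {X Y X' Y' : ℝ}
    (h : Side p Φ v L u x l X Y) (h' : Side p Φ v L u x' (L.s (some u)) X' Y')
    (hl : L.s l = some u) :
    L.turn l ≠ 0 ∧ bE p v u x x' = Real.sign (L.turn l) • dA L l ∧
      (∃ s : ℝ, (s = 1 ∨ s = -1) ∧ (pl0 p {v, u, x}).1 = (-(s * X)) • L.nor l ∧
        sg p {v, u, x} v x' = -s * Real.sign (L.turn l)) ∧
      (∃ s : ℝ, (s = 1 ∨ s = -1) ∧ (pl0 p {v, u, x'}).1 = (s * X') • L.nor (some u) ∧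
        sg p {v, u, x'} v x = s * Real.sign (L.turn l)) := by
  obtain ⟨-, -, hX, hx, -⟩ := h
  obtain ⟨-, -, hX', hx', -⟩ := h'
  obtain ⟨U, hU⟩ : ∃ U, U = p u - p v := ⟨_, rfl⟩
  obtain ⟨P, hP⟩ : ∃ P, P = L.p l := ⟨_, rfl⟩
  obtain ⟨S, hS⟩ : ∃ S, S = L.p (L.s (some u)) := ⟨_, rfl⟩
  have hUL : L.p (some u) = U := by rw [hU, hD.pos u huS]
  rw [← hU, ← hP] at hx
  rw [← hU, ← hS] at hx'
  have hturn : L.turn l = det3 P U S := by
    unfold Pg.turn
    rw [hl, hUL, hP, hS]
  have hnl : L.nor l = crs P U := by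
    unfold Pg.nor
    rw [hl, hUL, hP]
  have hnu : L.nor (some u) = crs U S := by
    unfold Pg.nor
    rw [hUL, hS]
  have hdet : det3 (p u - p v) (p x - p v) (p x' - p v) = -(X * X' * det3 P U S) := by
    rw [← hU, hx, hx', det_lin, det_213]
    ring
  have ht0 : det3 P U S ≠ 0 := by
    intro h0
    apply hB
    rw [hdet, h0, mul_zero, neg_zero]
  obtain ⟨σ, hσ⟩ : ∃ σ, σ = Real.sign (L.turn l) := ⟨_, rfl⟩
  have ht0' : L.turn l ≠ 0 := by rw [hturn]; exact ht0
  have hσ1 : σ = 1 ∨ σ = -1 := by rw [hσ]; exact sign_one ht0'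
  have hσp : 0 < σ * det3 P U S := by
    rw [hσ, hturn]
    exact sign_mul_self_pos ht0
  have t := hQ.1
  have t' := hQ.2.1
  have hne := pl0_ne hF.emb t
  have hne' := pl0_ne hF.emb t'
  have iUx : Indep2 U P := by
    intro a b hab
    have i1 := tri_indep hF.emb t
    rw [← hU, hx] at i1
    have := i1 (a - b / X * Y) (b / X) (by
      rw [← hab]
      have e1 : (b / X) • (X • P) = b • P := by rw [smul_smul, div_mul_cancel₀ _ hX.ne']
      rw [smul_add, e1, smul_smul]
      module)
    have hb : b = 0 := by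
      rcases div_eq_zero_iff.1 this.2 with h | h
      · exact h
      · exact absurd h hX.ne'
    refine ⟨?_, hb⟩
    have := this.1
    rw [hb, zero_div, zero_mul, sub_zero] at this
    exact this
  have iUS : Indep2 U S := by
    intro a b hab
    have i1 := tri_indep hF.emb t'
    rw [← hU, hx'] at i1
    have := i1 (a - b / X' * Y') (b / X') (by
      rw [← hab]
      have e1 : (b / X') • (X' • S) = b • S := by rw [smul_smul, div_mul_cancel₀ _ hX'.ne']
      rw [smul_add, e1, smul_smul]
      module)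
    have hb : b = 0 := by
      rcases div_eq_zero_iff.1 this.2 with h | h
      · exact h
      · exact absurd h hX'.ne'
    refine ⟨?_, hb⟩
    have := this.1
    rw [hb, zero_div, zero_mul, sub_zero] at this
    exact this
  have nl0 : L.nor l ≠ 0 := by
    intro h0
    apply ht0
    rw [← inner_crs, ← hnl, h0, inner_zero_left]
  have nu0 : L.nor (some u) ≠ 0 := by
    intro h0
    apply ht0
    rw [← det_231, ← inner_crs, ← hnu, h0, inner_zero_left]
  -- the first normal
  have e1 : nIn p v u x x' = σ • un L l := by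
    have a1 := inner_nIn_zero p x' t.1 t.2.1 t.2.2.1
    have a2 := inner_nIn_pos hB t.1 t.2.1 t.2.2.1 hne
    rw [← hU, hx] at a1
    rw [hx'] at a2
    have a3 : ⟪nIn p v u x x', P⟫ = 0 := by
      have := a1.2
      rw [inner_add_right, inner_smul_right, inner_smul_right, a1.1, mul_zero, add_zero] at this
      exact (mul_eq_zero.1 this).resolve_left hX.ne'
    have a4 : 0 < ⟪nIn p v u x x', S⟫ := by
      rw [inner_add_right, inner_smul_right, inner_smul_right, a1.1, mul_zero, add_zero] at a2
      exact (mul_pos_iff_of_pos_left hX').1 a2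
    have hn1 : ‖L.nor l‖⁻¹ ≠ 0 := inv_ne_zero (norm_ne_zero_iff.2 nl0)
    refine unit_unique (z := S) iUx (norm_nIn hB t.1 t.2.1 t.2.2.1 hne) ?_ a1.1 a3 ?_ ?_ a4 ?_
    · unfold un
      rw [norm_smul, norm_smul, norm_inv, norm_norm, inv_mul_cancel₀ (norm_ne_zero_iff.2 nl0),
        mul_one]
      rcases hσ1 with h | h <;> rw [h] <;> simp
    · unfold un
      rw [inner_smul_left, inner_smul_left, hnl, inner_crs_right]
      simp
    · unfold un
      rw [inner_smul_left, inner_smul_left, hnl, inner_crs_left]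
      simp
    · unfold un
      rw [inner_smul_left, inner_smul_left, hnl, inner_crs]
      simp only [RCLike.conj_to_real]
      have : 0 < ‖crs P U‖⁻¹ := by
        rw [← hnl]
        exact inv_pos.2 (norm_pos_iff.2 nl0)
      have := mul_pos this hσp
      linarith
  have e2 : nIn p v u x' x = σ • un L (some u) := by
    have a1 := inner_nIn_zero p x t'.1 t'.2.1 t'.2.2.1
    have a2 := inner_nIn_pos hB.swap t'.1 t'.2.1 t'.2.2.1 hne'
    rw [← hU, hx'] at a1
    rw [hx] at a2
    have a3 : ⟪nIn p v u x' x, S⟫ = 0 := by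
      have := a1.2
      rw [inner_add_right, inner_smul_right, inner_smul_right, a1.1, mul_zero, add_zero] at this
      exact (mul_eq_zero.1 this).resolve_left hX'.ne'
    have a4 : 0 < ⟪nIn p v u x' x, P⟫ := by
      rw [inner_add_right, inner_smul_right, inner_smul_right, a1.1, mul_zero, add_zero] at a2
      exact (mul_pos_iff_of_pos_left hX).1 a2
    refine unit_unique (z := P) iUS (norm_nIn hB.swap t'.1 t'.2.1 t'.2.2.1 hne') ?_ a1.1 a3 ?_ ?_
      a4 ?_
    · unfold un
      rw [norm_smul, norm_smul, norm_inv, norm_norm, inv_mul_cancel₀ (norm_ne_zero_iff.2 nu0),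
        mul_one]
      rcases hσ1 with h | h <;> rw [h] <;> simp
    · unfold un
      rw [inner_smul_left, inner_smul_left, hnu, inner_crs_left]
      simp
    · unfold un
      rw [inner_smul_left, inner_smul_left, hnu, inner_crs_right]
      simp
    · unfold un
      rw [inner_smul_left, inner_smul_left, hnu, inner_crs, det_231]
      simp only [RCLike.conj_to_real]
      have : 0 < ‖crs U S‖⁻¹ := by
        rw [← hnu]
        exact inv_pos.2 (norm_pos_iff.2 nu0)
      have := mul_pos this hσp
      linarith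
  refine ⟨ht0', ?_, ?_, ?_⟩
  · rw [← hσ]
    unfold bE dA
    rw [e1, e2, hl, inner_smul_left, inner_smul_right]
    simp only [RCLike.conj_to_real]
    have : σ * (σ * ⟪un L l, un L (some u)⟫) = ⟪un L l, un L (some u)⟫ := by
      rw [← mul_assoc, unit_sq hσ1, one_mul]
    rw [this]
    module
  · obtain ⟨s, hs, h1, -⟩ := pl0_spec p t.1 t.2.1 t.2.2.1
    have h2 : (pl0 p {v, u, x}).1 = (-(s * X)) • L.nor l := by
      rw [h1, ← hU, hx, crs_lin, crs_anti U P, hnl]
      module
    refine ⟨s, hs, h2, ?_⟩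
    unfold sg
    rw [h2, hx', inner_smul_left, hnl, inner_crs]
    simp only [RCLike.conj_to_real]
    have e5 : det3 P U (X' • S + Y' • U) = X' * det3 P U S := by
      simp only [det3, PiLp.add_apply, PiLp.smul_apply, smul_eq_mul]
      ring
    rw [e5, hturn]
    have e6 : -(s * X) * (X' * det3 P U S) = (-s) * ((X * X') * det3 P U S) := by ring
    have hs' : -s = 1 ∨ -s = -1 := by
      rcases hs with rfl | rfl
      · exact Or.inr rfl
      · exact Or.inl (by norm_num)
    rw [e6, sign_unit_mul hs', sign_pos_mul (mul_pos hX hX')]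
  · obtain ⟨s, hs, h1, -⟩ := pl0_spec p t'.1 t'.2.1 t'.2.2.1
    have h2 : (pl0 p {v, u, x'}).1 = (s * X') • L.nor (some u) := by
      rw [h1, ← hU, hx', crs_lin, hnu, smul_smul]
    refine ⟨s, hs, h2, ?_⟩
    unfold sg
    rw [h2, hx, inner_smul_left, hnu, inner_crs]
    simp only [RCLike.conj_to_real]
    have e5 : det3 U S (X • P + Y • U) = X * det3 P U S := by
      simp only [det3, PiLp.add_apply, PiLp.smul_apply, smul_eq_mul]
      ring
    rw [e5, hturn]
    have e6 : s * X' * (X * det3 P U S) = s * ((X * X') * det3 P U S) := by ring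
    rw [e6, sign_unit_mul hs, sign_pos_mul (mul_pos hX hX')]

theorem omega_eq {K : Surf V} {p : V → E3} {Φ : Finset Aff} {v : V} {L : Pg (Option V)}
    {κ : ℝ} (hD : Dic K p Φ v L κ) {u : V} {i : Option V} (hi : i ∈ L.S)
    (his : L.s i = some u) : ωS L u = Real.sign (L.turn i) := by
  have h : ∃ i ∈ L.S, L.s i = some u := ⟨i, hi, his⟩
  unfold ωS
  rw [dif_pos h]
  have h1 := h.choose_spec
  rw [hD.ok.inj _ h1.1 i hi (h1.2.trans his.symm)]

theorem inner_self_ne {a : E3} (h : a ≠ 0) : 0 < ⟪a, a⟫ := inner_self_pos h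

end

end TDA_

open TDA_ in
theorem tda_proof (h1 : Stmt_KNB) : Stmt_TDA := by
  intro V _ _ K p Φ v L κ hF hD u w w' hA hQ
  have hB := h1 V K p Φ hF v u w w' hA hQ
  obtain ⟨huS, l, X, Y, hs⟩ := exists_side hD hA hQ.1
  obtain ⟨-, l', X', Y', hs'⟩ := exists_side hD hA hQ.2.1
  have hll := side_ne hA hQ hs hs'
  have hs0 := hs
  have hs0' := hs'
  obtain ⟨hlS, hln, hX, hw, hty⟩ := hs0
  obtain ⟨hlS', hln', hX', hw', hty'⟩ := hs0'
  have hcase : (L.s l = some u ∧ L.s (some u) = l') ∨ (L.s l' = some u ∧ L.s (some u) = l) := by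
    rcases hln with h | h
    · rcases hln' with h' | h'
      · exact absurd (h.symm.trans h') hll
      · exact Or.inr ⟨h', h⟩
    · rcases hln' with h' | h'
      · exact Or.inl ⟨h, h'⟩
      · exact absurd (hD.ok.inj l hlS l' hlS' (h.trans h'.symm)) hll
  rcases hcase with ⟨hl, hl'⟩ | ⟨hl, hl'⟩
  · rw [← hl'] at hs'
    obtain ⟨c1, c2, ⟨s, hs1, c3, c4⟩, -⟩ := core hF hD hQ hB huS hs hs' hl
    refine ⟨l, hlS, hl, c1, omega_eq hD hlS hl, c2, ?_, ?_⟩
    · intro hFT
      left
      rcases hty with ⟨-, hlw⟩ | ⟨h, -⟩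
      · refine ⟨hlw, ?_⟩
        have hnor : L.nor l = crs (p w - p v) (p u - p v) := by
          unfold Pg.nor
          rw [hl, hlw, hD.pos w (by rw [← hlw]; exact hlS), hD.pos u huS]
        have hn0 : L.nor l ≠ 0 := by
          rw [hnor]
          exact crs_ne hF.emb hQ.1.s132
        unfold ta
        rw [← ins_132 v u w, c3, c4, ← hnor, inner_smul_left]
        simp only [RCLike.conj_to_real]
        have hp : 0 < X * ⟪L.nor l, L.nor l⟫ := mul_pos hX (inner_self_pos hn0)
        have e1 : -(s * X) * ⟪L.nor l, L.nor l⟫ = (-s) * (X * ⟪L.nor l, L.nor l⟫) := by ring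
        have hs' : -s = 1 ∨ -s = -1 := by
          rcases hs1 with rfl | rfl
          · exact Or.inr rfl
          · exact Or.inl (by norm_num)
        rw [e1, sign_unit_mul hs', Real.sign_of_pos hp]
        have e2 := unit_sq hs1
        linear_combination Real.sign (L.turn l) * e2
      · exact absurd h hFT
    · intro hFT
      rcases hty with ⟨h, -⟩ | ⟨-, hln, hXn⟩
      · exact absurd hFT h
      · refine ⟨hXn, Or.inl hln, X, hX, ?_⟩
        rw [c3, c4, hln, smul_smul]
        congr 1
        have e2 := unit_sq hs1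
        linear_combination (X * Real.sign (L.turn none)) * e2
  · rw [← hl'] at hs
    obtain ⟨c1, c2, -, ⟨s, hs1, c3, c4⟩⟩ := core hF hD hQ.swap hB.swap huS hs' hs hl
    rw [bE_swap] at c2
    refine ⟨l', hlS', hl, c1, omega_eq hD hlS' hl, c2, ?_, ?_⟩
    · intro hFT
      right
      rcases hty with ⟨-, hlw⟩ | ⟨h, -⟩
      · refine ⟨hl'.trans hlw, ?_⟩
        have hnor : L.nor (some u) = crs (p u - p v) (p w - p v) := by
          unfold Pg.nor
          rw [hl', hlw, hD.pos w (by rw [← hlw]; exact hlS), hD.pos u huS]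
        have hn0 : L.nor (some u) ≠ 0 := by
          rw [hnor]
          exact crs_ne hF.emb hQ.1
        unfold ta
        rw [c3, c4, ← hnor, inner_smul_left]
        simp only [RCLike.conj_to_real]
        have hp : 0 < X * ⟪L.nor (some u), L.nor (some u)⟫ := mul_pos hX (inner_self_pos hn0)
        have e1 : s * X * ⟪L.nor (some u), L.nor (some u)⟫ =
            s * (X * ⟪L.nor (some u), L.nor (some u)⟫) := by ring
        rw [e1, sign_unit_mul hs1, Real.sign_of_pos hp]
        have e2 := unit_sq hs1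
        linear_combination Real.sign (L.turn l') * e2
      · exact absurd h hFT
    · intro hFT
      rcases hty with ⟨h, -⟩ | ⟨-, hln, hXn⟩
      · exact absurd hFT h
      · refine ⟨hXn, Or.inr (hl'.trans hln), ?_⟩
        rcases hD.ok.kind with ⟨h, -⟩ | ⟨m, hm, hc⟩
        · rw [h] at hXn
          exact absurd hXn (by simp)
        · have hmn : m = none := by
            rw [hXn] at hm
            exact (Option.some_injective _ hm).symm
          rw [hmn] at hc
          obtain ⟨-, q, hq, hqs, ⟨a, b, ha, hb, hab⟩, -⟩ := hc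
          have hqu : q = some u := hD.ok.inj q hq (some u) huS
            (hqs.trans (hln ▸ hl'.symm))
          rw [hqu] at hab
          have hM : L.p (L.s none) = (-(a / b)) • L.p (some u) + (-(1 / b)) • L.p none := by
            have e1 : b • L.p (L.s none) = -(a • L.p (some u)) - L.p none := by
              rw [← sub_eq_zero, ← hab]
              abel
            have e2 : L.p (L.s none) = (1 / b) • (b • L.p (L.s none)) := by
              rw [smul_smul, one_div, inv_mul_cancel₀ hb.ne', one_smul]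
            rw [e2, e1]
            module
          have hnn : L.nor (some u) = (b / a) • L.nor none := by
            unfold Pg.nor
            rw [hl', hln, hM]
            rw [crs_eq, crs_eq]
            apply ext3 <;> simp only [cr_zero, cr_one, cr_two, PiLp.smul_apply, PiLp.add_apply,
              smul_eq_mul] <;> field_simp <;> ring
          refine ⟨X * (b / a), mul_pos hX (div_pos hb ha), ?_⟩
          rw [c3, c4, hnn, smul_smul, smul_smul]
          congr 1
          have e2 := unit_sq hs1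
          linear_combination (X * (b / a) * Real.sign (L.turn l')) * e2

end Pool.Agent.TSR2
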