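import Pool.Agent.TSR2.CDefs

/-!
# TSR2: definitions for block V (polygons and stars)
-/

set_option autoImplicit false

open scoped RealInnerProductSpace

namespace Pool.Agent.TSR2

open Pool.Agent.TSM Pool.Agent.TSP Set Filter Topology

section
variable {W : Type} [DecidableEq W]

/-- unit normal of the face `i` -/
noncomputable def un (L : Pg W) (i : W) : E3 := ‖L.nor i‖⁻¹ • L.nor i

/-- direction at the arm `s i` (between the faces `i` and `s i`) -/
noncomputable def dA (L : Pg W) (i : W) : E3 :=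
  (1 / (1 + ⟪un L i, un L (L.s i)⟫)) • (un L i + un L (L.s i))

/-- the canonical field on the face `s j` at `a p (s j) + c p (s (s j))` -/
noncomputable def fF (L : Pg W) (j : W) (a c : ℝ) : E3 :=
  un L (L.s j) + th a c • (dA L (L.s j) - un L (L.s j)) + th c a • (dA L j - un L (L.s j))

/-- `b` is the canonical field -/
def CanF (L : Pg W) (b : E3 → E3) : Prop :=
  ∀ j ∈ L.S, ∀ a c : ℝ, 0 ≤ a → 0 ≤ c → 0 < a + c →
    b (a • L.p (L.s j) + c • L.p (L.s (L.s j))) = fF L j a c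

/-- the chamfers of a polygon at ratio `δ` -/
def PCh (L : Pg W) (δ c₀ ε : ℝ) (Ch : W → Finset ℕ) (N : ℕ → E3) : Prop :=
  ∀ i ∈ L.S, (L.turn i = 0 → Ch (L.s i) = ∅) ∧
    (L.turn i ≠ 0 → (Ch (L.s i)).Nonempty ∧ ∀ n ∈ Ch (L.s i),
      Real.sign (L.turn i) * ⟪N n, L.p (L.s i)⟫ < 0 ∧
      -ε < Real.sign (L.turn i) * ⟪N n, L.p (L.s i)⟫ ∧
      0 < Real.sign (L.turn i) * ⟪N n, L.p (L.s i) + δ • L.p i⟫ ∧
      0 < Real.sign (L.turn i) * ⟪N n, L.p (L.s i) + δ • L.p (L.s (L.s i))⟫ ∧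
      c₀ < ⟪N n, dA L i⟫)

/-- `D` is a resolution of the cone over `L` for the planes `A`, `B` -/
structure PRes (L : Pg W) (δ R M : ℝ) (Ch : W → Finset ℕ) (A : W → Aff) (B : ℕ → Aff)
    (D : E3 → E3) : Prop where
  cont : ContinuousOn D L.cone
  good : ∀ x ∈ L.cone, GoodOn L.cone D x
  half : ∀ x ∈ L.cone, L.Half (D x)
  bdd : ∀ x ∈ L.cone, ‖D x - x‖ ≤ M * (1 + ‖x‖)
  arm : ∀ i ∈ L.S, L.turn i ≠ 0 → ∀ a c : ℝ, 0 ≤ a → 8 * a ≤ c → R ≤ a + c → ∀ e,
    (e = i ∨ e = L.s (L.s i)) →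
    (∃ s : ℝ, D (a • L.p e + c • L.p (L.s i)) = a • L.p e + c • L.p (L.s i) - s • dA L i) ∧
      L.ArmEq Ch A B i (D (a • L.p e + c • L.p (L.s i)))
  fce : ∀ j ∈ L.S, ∀ a c : ℝ, 0 ≤ a → 0 ≤ c → δ * c ≤ a → δ * a ≤ c → R ≤ a + c →
    (∃ s : ℝ, D (a • L.p (L.s j) + c • L.p (L.s (L.s j))) =
      a • L.p (L.s j) + c • L.p (L.s (L.s j)) - s • fF L j a c) ∧
      ev (A (L.s j)) (D (a • L.p (L.s j) + c • L.p (L.s (L.s j)))) = 0
  flq : ∀ m, L.X = some m → ∀ q ∈ L.S, L.s q = m → ∀ a c : ℝ, 0 ≤ a → 0 ≤ c → δ * a ≤ c →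
    R ≤ a + c → D (a • L.p q + c • L.p m) = a • L.p q + c • L.p m
  flm : ∀ m, L.X = some m → ∀ a c : ℝ, 0 ≤ a → 0 ≤ c → δ * c ≤ a → R ≤ a + c →
    D (a • L.p m + c • L.p (L.s m)) = a • L.p m + c • L.p (L.s m)

/-- offsets at the flat sector are zero -/
def OZ (L : Pg W) (o : W → ℝ) : Prop :=
  ∀ m, L.X = some m → o m = 0 ∧ ∀ q ∈ L.S, L.s q = m → o q = 0

end

section
variable {V : Type} [Fintype V] [DecidableEq V]

/-- dictionary between the star of the vertex `v` and the polygon `L` -/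
structure Dic (K : Surf V) (p : V → E3) (Φ : Finset Aff) (v : V) (L : Pg (Option V))
    (κ : ℝ) : Prop where
  ok : L.Ok
  k0 : 0 < κ
  k1 : κ ≤ 1
  pos : ∀ u, some u ∈ L.S → L.p (some u) = p u - p v
  fac : ∀ u w, some u ∈ L.S → L.s (some u) = some w → Tri K v u w ∧ ¬ FT p Φ {v, u, w}
  occ : ∀ u w, Tri K v u w → ¬ FT p Φ {v, u, w} → some u ∈ L.S ∧ some w ∈ L.S ∧
    (L.s (some u) = some w ∨ L.s (some w) = some u)
  typ : (L.X = none ∧ none ∉ L.S) ∨ (L.X = some none ∧ none ∈ L.S)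
  cor : ∀ φ ∈ Φ, ev φ (p v) = 0 → L.X = some none ∧ ⟪φ.1, L.p none⟫ = 0 ∧
    ⟪φ.1, L.p (L.s none)⟫ = 0 ∧ ∀ i ∈ L.S, ⟪φ.1, L.p i⟫ ≤ 0
  pck : ∀ u w, Tri K v u w → FT p Φ {v, u, w} → Act K p Φ v u → L.X = some none ∧
    some u ∈ L.S ∧ (L.s none = some u ∨ L.s (some u) = none) ∧
    ∃ x y : ℝ, κ ≤ x ∧ x ≤ 1 / κ ∧ |y| ≤ 1 / κ ∧ p w - p v = x • L.p none + y • L.p (some u)
  sep : ∀ u w, Tri K v u w → FT p Φ {v, u, w} → ∀ δ a c : ℝ, 0 < δ → δ ≤ 1 → 0 ≤ a → 0 ≤ c →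
    (Act K p Φ v u → δ * c ≤ a) → (Act K p Φ v w → δ * a ≤ c) → L.X = some none ∧
    ∃ a' c' : ℝ, 0 ≤ a' ∧ 0 ≤ c' ∧ κ * (a + c) ≤ a' + c' ∧
      ((∃ q ∈ L.S, L.s q = none ∧
        a • (p w - p v) + c • (p u - p v) = a' • L.p q + c' • L.p none ∧ κ * δ * a' ≤ c') ∨
      (a • (p w - p v) + c • (p u - p v) = a' • L.p none + c' • L.p (L.s none) ∧
        κ * δ * c' ≤ a'))
  sub : scone K p v ⊆ L.cone

/-- orientation of the plane of the triangle `v u w` with respect to `u, w` -/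
noncomputable def ta (p : V → E3) (v u w : V) : ℝ :=
  Real.sign ⟪(pl0 p {v, u, w}).1, crs (p u - p v) (p w - p v)⟫

/-- the planes of the polygon from the planes of the star -/
noncomputable def apg (p : V → E3) (v : V) (L : Pg (Option V)) (A : Finset V → Aff) :
    Option V → Aff
  | none => (L.nor none, 0)
  | some u =>
    match L.s (some u) with
    | none => (L.nor (some u), 0)
    | some w => ta p v u w • A {v, u, w}

open Classical in
/-- the offsets of the star from the offsets of the polygon -/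
noncomputable def oS (p : V → E3) (v : V) (L : Pg (Option V)) (o : Option V → ℝ)
    (t : Finset V) : ℝ :=
  if h : ∃ q : V × V, some q.1 ∈ L.S ∧ L.s (some q.1) = some q.2 ∧ t = {v, q.1, q.2} then
    ta p v h.choose.1 h.choose.2 * o (some h.choose.1)
  else 0

open Classical in
/-- the sign at the arm `u` -/
noncomputable def ωS (L : Pg (Option V)) (u : V) : ℝ :=
  if h : ∃ i ∈ L.S, L.s i = some u then Real.sign (L.turn h.choose) else 1

/-- the chamfers at the arm `u` -/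
def ChS (Ch : Option V → Finset ℕ) (u : V) : Finset ℕ := Ch (some u)

/-! ### the polygons of inner vertices and of corners -/

open Classical in
/-- the polygon of an inner vertex with link cycle `c` -/
noncomputable def inPg (p : V → E3) (v : V) (n : ℕ) (c : ZMod n → V) : Pg (Option V) where
  S := (Finset.univ.filter fun u : V => ∃ i, c i = u).map ⟨some, Option.some_injective V⟩
  s := fun x => x.bind fun u => if h : ∃ i, c i = u then some (c (h.choose + 1)) else none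
  p := fun x => x.elim 0 fun u => p u - p v
  X := none

open Classical in
/-- the polygon of a corner with link cycle `c` and flat fan `c 0, ..., c m` -/
noncomputable def cnPg (p : V → E3) (v : V) (n : ℕ) (c : ZMod n → V) (m : ℕ) (b : ℝ) :
    Pg (Option V) where
  S := insert none ((Finset.univ.filter fun u : V => ∃ i : ℕ, m ≤ i ∧ i ≤ n ∧ c i = u).map
    ⟨some, Option.some_injective V⟩)
  s := fun x => x.elim (some (c m)) fun u =>
    if u = c 0 then none else if h : ∃ i, c i = u then some (c (h.choose + 1)) else none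
  p := fun x => x.elim (-((p (c 0) - p v) + b • (p (c m) - p v))) fun u => p u - p v
  X := some none

/-- the data of a corner -/
structure CorD (K : Surf V) (p : V → E3) (Φ : Finset Aff) (v : V) (φ : Aff) (n : ℕ)
    (c : ZMod n → V) (m : ℕ) : Prop where
  phi : φ ∈ Φ
  on : ev φ (p v) = 0
  off : ∀ ψ ∈ Φ, ψ ≠ φ → ev ψ (p v) < 0
  cyc : IsLinkCycle K.tri v n c
  m2 : 2 ≤ m
  mn : m + 2 ≤ n
  flat : ∀ i : ℕ, i ≤ m → ev φ (p (c i)) = 0
  below : ∀ i : ℕ, m < i → i < n → ev φ (p (c i)) < 0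
  ind : Indep2 (p (c 0) - p v) (p (c m) - p v)
  long : ∃ (a b s t : ℝ) (i : ℕ), 0 < a ∧ 0 < b ∧ 0 ≤ s ∧ 0 ≤ t ∧ i < m ∧
    -(a • (p (c 0) - p v) + b • (p (c m) - p v)) =
      s • (p (c i) - p v) + t • (p (c (i + 1 : ℕ)) - p v)

end

end Pool.Agent.TSR2
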